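import Mathlib

set_option autoImplicit false

/-!
# Foelner sets of bounded doubling in groups of polynomial growth
-/

namespace Pool.Agent.Helper277_FF

open Finset

/-- a sequence of polynomial growth is doubling at many almost stationary places -/
theorem growth_seq (a : ℕ → ℝ) (ha1 : ∀ n, 1 ≤ a n) (ham : Monotone a) (C d : ℕ)
    (hg : ∀ n, a n ≤ C * ((n : ℝ) + 1) ^ d) : ∃ C₁ : ℝ, 0 ≤ C₁ ∧ ∀ (r : ℕ) (δ : ℝ), 0 < δ →
      ∃ n, 1 ≤ n ∧ r ≤ n ∧ a (n + r) ≤ (1 + δ) * a n ∧ a (4 * n) ≤ C₁ * a n := by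
  refine ⟨8 ^ (d + 1), by positivity, fun r₀ δ hδ => ?_⟩
  -- we may assume `1 ≤ r`
  obtain ⟨r, hr1, hr0⟩ : ∃ r, 1 ≤ r ∧ r₀ ≤ r := ⟨r₀ + 1, by omega, by omega⟩
  -- arbitrarily large doubling places
  have h1 : ∀ j₀ : ℕ, ∃ j ≥ j₀, a (8 ^ (j + 1)) ≤ 8 ^ (d + 1) * a (8 ^ j) := by
    intro j₀
    by_contra hcon
    push Not at hcon
    have h2 : ∀ i : ℕ, (8 : ℝ) ^ ((d + 1) * i) ≤ a (8 ^ (j₀ + i)) := by
      intro i
      induction i with
      | zero => simpa using ha1 (8 ^ j₀)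
      | succ i ih =>
        have h3 := hcon (j₀ + i) (by omega)
        have h4 : (8 : ℝ) ^ ((d + 1) * (i + 1)) = 8 ^ (d + 1) * 8 ^ ((d + 1) * i) := by
          rw [← pow_add]; congr 1; ring
        rw [h4]
        exact (mul_le_mul_of_nonneg_left ih (by positivity)).trans h3.le
    have h3 : ∀ i : ℕ, (8 : ℝ) ^ i ≤ C * (2 ^ d * 8 ^ (d * j₀)) := by
      intro i
      have h4 := (h2 i).trans (hg (8 ^ (j₀ + i)))
      have h5 : (((8 ^ (j₀ + i) : ℕ) : ℝ) + 1) ^ d ≤ (2 * 8 ^ (j₀ + i)) ^ d := by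
        apply pow_le_pow_left₀ (by positivity)
        push_cast
        have : (1 : ℝ) ≤ 8 ^ (j₀ + i) := one_le_pow₀ (by norm_num)
        linarith
      have h6 : ((2 : ℝ) * 8 ^ (j₀ + i)) ^ d = 2 ^ d * 8 ^ (d * j₀) * 8 ^ (d * i) := by
        rw [mul_pow, ← pow_mul, mul_assoc, ← pow_add]
        congr 2
        ring
      have h7 : (8 : ℝ) ^ ((d + 1) * i) = 8 ^ i * 8 ^ (d * i) := by
        rw [← pow_add]; congr 1; ring
      have h8 : (8 : ℝ) ^ i * 8 ^ (d * i) ≤ C * (2 ^ d * 8 ^ (d * j₀)) * 8 ^ (d * i) := by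
        rw [← h7]
        refine h4.trans ?_
        rw [mul_assoc]
        refine mul_le_mul_of_nonneg_left ?_ (Nat.cast_nonneg _)
        rw [← h6]
        exact h5
      exact le_of_mul_le_mul_right h8 (by positivity)
    obtain ⟨i, hi⟩ := pow_unbounded_of_one_lt (C * (2 ^ d * 8 ^ (d * j₀)) : ℝ)
      (by norm_num : (1 : ℝ) < 8)
    exact absurd (h3 i) (not_le.2 hi)
  -- a long interval
  obtain ⟨N, hN⟩ := pow_unbounded_of_one_lt ((8 : ℝ) ^ (d + 1)) (by linarith : (1 : ℝ) < 1 + δ)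
  obtain ⟨j, hj, hj2⟩ := h1 (N * r + r)
  have hjm : N * r + r ≤ 8 ^ j := hj.trans (Nat.lt_pow_self (by norm_num)).le
  set m := 8 ^ j with hm
  have h2 : ∃ i < N, a (m + i * r + r) ≤ (1 + δ) * a (m + i * r) := by
    by_contra hcon
    push Not at hcon
    have h3 : ∀ i ≤ N, (1 + δ) ^ i * a m ≤ a (m + i * r) := by
      intro i
      induction i with
      | zero => intro _; simp
      | succ i ih =>
        intro hi
        have h4 := hcon i (by omega)
        have h5 : m + (i + 1) * r = m + i * r + r := by ring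
        rw [h5, pow_succ']
        have h6 := mul_le_mul_of_nonneg_left (ih (by omega)) (by linarith : (0:ℝ) ≤ 1 + δ)
        linarith
    have h4 := h3 N le_rfl
    have h5 : a (m + N * r) ≤ a (8 ^ (j + 1)) := ham (by
      rw [pow_succ, ← hm]; omega)
    have h6 : (1 + δ) ^ N * a m ≤ 8 ^ (d + 1) * a m := h4.trans (h5.trans hj2)
    have h7 := le_of_mul_le_mul_right h6 (lt_of_lt_of_le one_pos (ha1 m))
    exact absurd h7 (not_le.2 hN)
  obtain ⟨i, hi, h3⟩ := h2
  have hir : i * r + r ≤ N * r := by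
    have : (i + 1) * r ≤ N * r := Nat.mul_le_mul_right r hi
    linarith
  refine ⟨m + i * r, by omega, by omega, ?_, ?_⟩
  · refine le_trans (ham ?_) h3
    omega
  · have h4 : a (4 * (m + i * r)) ≤ a (8 ^ (j + 1)) := ham (by
      rw [pow_succ, ← hm]; omega)
    refine h4.trans (hj2.trans ?_)
    exact mul_le_mul_of_nonneg_left (ham (by omega)) (by positivity)

theorem exists_concat {α : Type*} (M : ℕ → Finset α) (hM : ∀ s, (M s).Nonempty) (a₀ : α) :
    ∃ (m : ℕ → α) (L : ℕ → ℕ), L 0 = 0 ∧ Monotone L ∧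
      (∀ s i, L s ≤ i → i < L (s + 1) → m i ∈ M s) ∧
      ∀ s, ∀ a ∈ M s, ∃ i, L s ≤ i ∧ i < L (s + 1) ∧ m i = a := by
  let T : ℕ → List α := fun n => Nat.rec [] (fun s l => l ++ (M s).toList) n
  have hT : ∀ s, T (s + 1) = T s ++ (M s).toList := fun s => rfl
  have hpre : ∀ s s', s ≤ s' → T s <+: T s' := by
    intro s s' h
    induction s', h using Nat.le_induction with
    | base => exact List.prefix_rfl
    | succ s' _ ih =>
      rw [hT]
      exact ih.trans (List.prefix_append _ _)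
  have hlen : ∀ s, (T (s + 1)).length = (T s).length + (M s).card := by
    intro s
    rw [hT, List.length_append, Finset.length_toList]
  have hge : ∀ s, s ≤ (T s).length := by
    intro s
    induction s with
    | zero => exact Nat.zero_le _
    | succ s ih =>
      rw [hlen]
      have := (hM s).card_pos
      omega
  have hval : ∀ s i, i < (T s).length → (T (i + 1)).getD i a₀ = (T s).getD i a₀ := by
    intro s i hi
    have hi' : i < (T (i + 1)).length := hge (i + 1)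
    rcases le_total s (i + 1) with h | h
    · obtain ⟨l, hl⟩ := hpre _ _ h
      rw [← hl, List.getD_append _ _ _ _ hi]
    · obtain ⟨l, hl⟩ := hpre _ _ h
      rw [← hl, List.getD_append _ _ _ _ hi']
  refine ⟨fun i => (T (i + 1)).getD i a₀, fun s => (T s).length, rfl, ?_, ?_, ?_⟩
  · exact fun s s' h => (hpre s s' h).length_le
  · intro s i h1 h2
    beta_reduce at h1 h2 ⊢
    rw [hval (s + 1) i h2, hT, List.getD_append_right _ _ _ _ h1]
    have h3 : i - (T s).length < (M s).toList.length := by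
      rw [Finset.length_toList]
      rw [hlen] at h2
      omega
    rw [List.getD_eq_getElem _ _ h3, ← Finset.mem_toList]
    exact List.getElem_mem h3
  · intro s a ha
    obtain ⟨j, hj, h⟩ := List.mem_iff_getElem.1 (Finset.mem_toList.2 ha)
    have hj2 : j < (M s).card := by rwa [Finset.length_toList] at hj
    refine ⟨(T s).length + j, Nat.le_add_right _ _, ?_, ?_⟩
    · beta_reduce
      rw [hlen]
      omega
    · beta_reduce
      rw [hval (s + 1) _ (by rw [hlen]; omega), hT, List.getD_append_right _ _ _ _ (by omega),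
        Nat.add_sub_cancel_left, List.getD_eq_getElem _ _ hj, h]

open Pointwise in
open Classical in
theorem exists_sets {G : Type*} [Group G] (S : Finset G) (h1 : (1 : G) ∈ S) (hS : S⁻¹ = S)
    (C d : ℕ) (hg : ∀ n : ℕ, (S ^ n).card ≤ C * (n + 1) ^ d) :
    ∃ C₁ : ℝ, 0 ≤ C₁ ∧ ∀ δ : ℝ, 0 < δ → δ ≤ 1 → ∃ F : ℕ → Finset G, (∀ s, (F s).Nonempty) ∧
      (∀ s, ∃ n, F s = S ^ n) ∧
      (∀ s, (((range s).biUnion fun s' => (F s')⁻¹ * S * F s).card : ℝ) ≤ 2 * (F s).card) ∧
      (∀ s, (((F s)⁻¹ * S * F s).card : ℝ) ≤ C₁ * (F s).card) ∧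
      (∀ k, ∃ K : Finset G, 1 ∈ K ∧ (∀ s < k, (F s)⁻¹ * S * F s ⊆ K) ∧
        ((K * F k).card : ℝ) ≤ (1 + δ) * (F k).card) ∧
      ∀ k, (((F k)⁻¹ * ((F k)⁻¹ * S * F k)).card : ℝ) ≤ C₁ * (F k).card := by
  have hmono : ∀ {m n : ℕ}, m ≤ n → S ^ m ⊆ S ^ n := fun h => Finset.pow_subset_pow_right h1 h
  have hne : ∀ n : ℕ, (S ^ n).Nonempty := fun n => Finset.Nonempty.pow ⟨1, h1⟩
  obtain ⟨C₁, hC₁, hgr⟩ := growth_seq (fun n => ((S ^ n).card : ℝ))
    (fun n => by exact_mod_cast (hne n).card_pos)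
    (fun m n h => Nat.cast_le.2 (Finset.card_le_card (hmono h))) C d
    (fun n => by exact_mod_cast hg n)
  refine ⟨C₁, hC₁, fun δ hδ hδ1 => ?_⟩
  choose N hN1 hN2 hN3 hN4 using fun r => hgr r δ hδ
  let r : ℕ → ℕ := fun s => Nat.rec 1 (fun _ r => r + 2 * N r + 1) s
  have hr : ∀ s, r (s + 1) = r s + 2 * N (r s) + 1 := fun s => rfl
  have hrm : Monotone r := monotone_nat_of_le_succ fun s => by rw [hr]; omega
  have hrn : ∀ s k, s < k → 2 * N (r s) + 1 ≤ r k := by
    intro s k h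
    have h2 : r (s + 1) ≤ r k := hrm h
    rw [hr] at h2
    omega
  have hinv : ∀ n : ℕ, (S ^ n)⁻¹ = S ^ n := fun n => by rw [← inv_pow, hS]
  have hprod : ∀ a b : ℕ, (S ^ a)⁻¹ * S * S ^ b = S ^ (a + 1 + b) := by
    intro a b
    rw [hinv, pow_add, pow_add, pow_one]
  refine ⟨fun s => S ^ N (r s), fun s => hne _, fun s => ⟨_, rfl⟩, fun s => ?_, fun s => ?_,
    fun k => ⟨S ^ r k, ?_, fun s hs => ?_, ?_⟩, fun k => ?_⟩
  · have h2 : ((range s).biUnion fun s' => (S ^ N (r s'))⁻¹ * S * S ^ N (r s)) ⊆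
        S ^ (N (r s) + r s) := by
      intro g hg
      obtain ⟨s', hs', hg⟩ := Finset.mem_biUnion.1 hg
      rw [hprod] at hg
      have := hrn s' s (Finset.mem_range.1 hs')
      exact hmono (by omega) hg
    have h3 : ((((range s).biUnion fun s' => (S ^ N (r s'))⁻¹ * S * S ^ N (r s))).card : ℝ) ≤
        ((S ^ (N (r s) + r s)).card : ℝ) := by exact_mod_cast Finset.card_le_card h2
    refine h3.trans ((hN3 (r s)).trans ?_)
    have : (0 : ℝ) ≤ ((S ^ N (r s)).card : ℝ) := Nat.cast_nonneg _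
    nlinarith
  · beta_reduce
    rw [hprod]
    have h3 : ((S ^ (N (r s) + 1 + N (r s))).card : ℝ) ≤ ((S ^ (4 * N (r s))).card : ℝ) := by
      have := hN1 (r s)
      exact_mod_cast Finset.card_le_card (hmono (by omega))
    exact h3.trans (hN4 (r s))
  · have := hmono (Nat.zero_le (r k))
    rw [pow_zero] at this
    exact this (Finset.mem_one.2 rfl)
  · beta_reduce
    rw [hprod]
    have := hrn s k hs
    exact hmono (by omega)
  · beta_reduce
    rw [← pow_add, add_comm]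
    exact hN3 (r k)
  · beta_reduce
    rw [hprod, hinv, ← pow_add]
    have h3 : ((S ^ (N (r k) + (N (r k) + 1 + N (r k)))).card : ℝ) ≤
        ((S ^ (4 * N (r k))).card : ℝ) := by
      have := hN1 (r k)
      exact_mod_cast Finset.card_le_card (hmono (by omega))
    exact h3.trans (hN4 (r k))

end Pool.Agent.Helper277_FF
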