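import Pool.Agent.Helper277_FF.Cell
import Pool.Agent.H107_ZS.Final3

set_option autoImplicit false

/-!
# Small remainders
-/

namespace Pool.Agent.Helper277_FF

open Finset Pool.Agent.H107ZS

universe u v w z

section shape

variable {G : Type u} [Group G] {Q : Type w} [Group Q] {q : G →* Q}

theorem card_shape {σ : Q → G} (hσ : ∀ s, q (σ s) = s) {H : Subgroup G} [Finite H]
    (hH : ∀ h ∈ H, q h = 1) (S : Finset Q) : (shape σ H S).card = S.card * Nat.card H := by
  classical
  unfold shape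
  rw [Finset.card_image_of_injOn, Finset.card_product,
    ← Set.ncard_eq_toFinset_card (H : Set G) (Set.toFinite _), ← Nat.card_coe_set_eq]
  · rfl
  · rintro ⟨s, h⟩ hp ⟨s', h'⟩ hp' he
    rw [Finset.mem_coe, Finset.mem_product, Set.Finite.mem_toFinset] at hp hp'
    have h1 := congrArg q he
    simp only [map_mul, hσ, hH h hp.2, hH h' hp'.2, mul_one] at h1
    subst h1
    simp only [mul_right_inj] at he
    rw [he]

open Classical in
theorem fol_shape {σ : Q → G} (hσ : ∀ s, q (σ s) = s) {H : Subgroup G} [Finite H]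
    (hH : ∀ h ∈ H, q h = 1) (K : Finset G) (ε : ℝ) (S : Finset Q) (hS : Fol (K.image q) ε S)
    (hK : ∀ k ∈ K, ∀ s ∈ S, (σ (q k * s))⁻¹ * (k * σ s) ∈ H) : Fol K ε (shape σ H S) := by
  obtain ⟨hne, hS⟩ := hS
  refine ⟨?_, ?_⟩
  · obtain ⟨s, hs⟩ := hne
    refine ⟨σ s, (mem_shape hσ hH).2 ?_⟩
    rw [hσ, inv_mul_cancel]
    exact ⟨hs, H.one_mem⟩
  · intro k hk
    have h1 := hS (q k) (Finset.mem_image_of_mem q hk)
    have h2 : ((shape σ H S).filter fun t => k * t ∉ shape σ H S) ⊆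
        shape σ H (S.filter fun s => q k * s ∉ S) := by
      intro t ht
      rw [Finset.mem_filter] at ht
      obtain ⟨ht, hkt⟩ := ht
      have ht' := (mem_shape hσ hH).1 ht
      refine (mem_shape hσ hH).2 ⟨Finset.mem_filter.2 ⟨ht'.1, fun hq => hkt ?_⟩, ht'.2⟩
      refine (mem_shape hσ hH).2 ?_
      rw [map_mul]
      refine ⟨hq, ?_⟩
      have h3 := H.mul_mem (hK k hk (q t) ht'.1) ht'.2
      have e : (σ (q k * q t))⁻¹ * (k * σ (q t)) * ((σ (q t))⁻¹ * t) =
          (σ (q k * q t))⁻¹ * (k * t) := by group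
      rw [e] at h3
      exact h3
    have h3 := Finset.card_le_card h2
    rw [card_shape hσ hH] at h3
    rw [card_shape hσ hH]
    push_cast
    have h4 : ((((shape σ H S).filter fun t => k * t ∉ shape σ H S)).card : ℝ) ≤
        ((S.filter fun s => q k * s ∉ S).card : ℝ) * Nat.card H := by exact_mod_cast h3
    refine h4.trans ?_
    rw [← mul_assoc]
    refine mul_le_mul_of_nonneg_right ?_ (Nat.cast_nonneg _)
    convert h1 using 2

end shape

/-- distinct translates of a small open set -/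
theorem exists_small {Q : Type w} [Group Q] {X' : Type z} [TopologicalSpace X'] [T2Space X']
    [MulAction Q X'] [ContinuousConstSMul Q X'] (hf : FreeAct Q X') [Nonempty X'] (S : Finset Q) :
    ∃ W : Set X', IsOpen W ∧ W.Nonempty ∧
      ∀ s ∈ S, ∀ s' ∈ S, ∀ x ∈ W, ∀ x' ∈ W, s • x = s' • x' → s = s' := by
  classical
  obtain ⟨x₀⟩ := ‹Nonempty X'›
  have h1 : ∀ s s' : Q, ∃ A : Set X', IsOpen A ∧ x₀ ∈ A ∧
      (s ≠ s' → ∀ x ∈ A, ∀ x' ∈ A, s • x ≠ s' • x') := by
    intro s s'
    by_cases hss : s = s'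
    · exact ⟨Set.univ, isOpen_univ, trivial, fun h => absurd hss h⟩
    · have h2 : s • x₀ ≠ s' • x₀ := by
        intro h
        apply hss
        have h3 : (s'⁻¹ * s) • x₀ = x₀ := by rw [mul_smul, h, inv_smul_smul]
        exact (inv_mul_eq_one.1 (hf _ _ h3)).symm
      obtain ⟨A, B, hA, hB, hxA, hxB, hAB⟩ := t2_separation h2
      refine ⟨(fun x => s • x) ⁻¹' A ∩ (fun x => s' • x) ⁻¹' B,
        (hA.preimage (continuous_const_smul s)).inter (hB.preimage (continuous_const_smul s')),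
        ⟨hxA, hxB⟩, fun _ x hx x' hx' he => ?_⟩
      have h3 : s • x ∈ A := hx.1
      have h4 : s' • x' ∈ B := hx'.2
      rw [he] at h3
      exact Set.disjoint_left.1 hAB h3 h4
  choose A hA hxA hAd using h1
  refine ⟨⋂ s ∈ S, ⋂ s' ∈ S, A s s', ?_, ⟨x₀, ?_⟩, ?_⟩
  · exact isOpen_biInter_finset fun s _ => isOpen_biInter_finset fun s' _ => hA s s'
  · simp only [Set.mem_iInter]
    exact fun s _ s' _ => hxA s s'
  · intro s hs s' hs' x hx x' hx' he
    by_contra hne
    simp only [Set.mem_iInter] at hx hx'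
    exact hAd s s' hne x (hx s hs s' hs') x' (hx' s hs s' hs') he

/-- a sequence of elements which are far apart -/
theorem exists_far {Q : Type w} [Group Q] [Infinite Q] (E : Finset Q) :
    ∃ z : ℕ → Q, ∀ k l, ∀ e ∈ E, ∀ e' ∈ E, e * z k = e' * z l → k = l := by
  classical
  obtain ⟨z, -, hz⟩ := exists_seq_of_forall_finset_exists (fun _ : Q => True)
    (fun x y => ∀ e ∈ E, ∀ e' ∈ E, e * x ≠ e' * y) (by
    intro s _
    obtain ⟨y, hy⟩ := Infinite.exists_notMem_finset
      ((E ×ˢ E ×ˢ s).image fun p => p.2.1⁻¹ * (p.1 * p.2.2))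
    refine ⟨y, trivial, fun x hx e he e' he' h => hy ?_⟩
    refine Finset.mem_image.2 ⟨(e, e', x), ?_, ?_⟩
    · exact Finset.mem_product.2 ⟨he, Finset.mem_product.2 ⟨he', hx⟩⟩
    · show e'⁻¹ * (e * x) = y
      rw [h, inv_mul_cancel_left])
  refine ⟨z, fun k l e he e' he' h => ?_⟩
  rcases lt_trichotomy k l with hkl | hkl | hkl
  · exact absurd h (hz k l hkl e he e' he')
  · exact hkl
  · exact absurd h.symm (hz l k hkl e' he' e he)

end Pool.Agent.Helper277_FF
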