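import Pool.Agent.Helper277_FF.TowerExt
import Pool.Agent.Helper277_FF.Rem

set_option autoImplicit false

/-!
# Comparison from paradoxical towers, modulo a normal subgroup of locally polynomial growth
-/

namespace Pool.Agent.Helper277_FF

open Finset Pool.Agent.H107ZS Pool.Agent.Helper277_DC Pointwise

universe u v w

/-- towers for the finite set `D`, with `M` copies of `k` sets -/
def HasTowers2 {G : Type u} [Group G] (B : Subgroup G) (k : ℕ) (D : Finset G) (M : ℕ) : Prop :=
  ∃ (t : Fin k × Fin M → G) (A : Fin k × Fin M → Set G)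
    (P : (Fin k × Fin M) × G → Set G) (cls : G → G),
    (∀ d ∈ D, ∀ r, ∀ f ∈ B, ∀ h ∈ A r, d * t r * f * h ∈ P (r, cls d)) ∧
    (∀ d ∈ D, ∀ d' ∈ D, ∀ r r', (r, cls d) ≠ (r', cls d') →
      Disjoint (P (r, cls d)) (P (r', cls d'))) ∧
    (∀ (h : G) (χ : Fin M), ∃ κ, h ∈ A (κ, χ)) ∧
    ∀ d ∈ D, ∀ d' ∈ D, cls d = cls d' → ∃ b ∈ B, ∃ l : G, (∀ r, l * t r = t r * l) ∧
      (∀ f ∈ B, l * f = f * l) ∧ d'⁻¹ * d = b * l

theorem infinite_of_towers {G : Type u} [Group G] (B : Subgroup G) (k : ℕ)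
    (htow : ∀ (D : Finset G) (M : ℕ), HasTowers2 B k D M) : Infinite G := by
  classical
  by_contra hfin
  rw [not_infinite_iff_finite] at hfin
  have := Fintype.ofFinite G
  obtain ⟨t, A, P, cls, h1, h2, h3, -⟩ := htow {1} (Fintype.card G + 1)
  choose κ hκ using fun χ => h3 1 χ
  have h4 : ∀ χ, 1 * t (κ χ, χ) * 1 * 1 ∈ P ((κ χ, χ), cls 1) := fun χ =>
    h1 1 (Finset.mem_singleton_self _) _ 1 B.one_mem 1 (hκ χ)
  have h5 : Function.Injective fun χ => 1 * t (κ χ, χ) * 1 * 1 := by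
    intro χ χ' he
    by_contra hne
    have h6 := h2 1 (Finset.mem_singleton_self _) 1 (Finset.mem_singleton_self _) (κ χ, χ)
      (κ χ', χ') (fun h => hne (congrArg (fun p => p.1.2) h))
    have h7 : 1 * t (κ χ, χ) * 1 * 1 ∈ P ((κ χ', χ'), cls 1) := by
      have he' : 1 * t (κ χ, χ) * 1 * 1 = 1 * t (κ χ', χ') * 1 * 1 := he
      rw [he']
      exact h4 χ'
    exact Set.disjoint_left.1 h6 (h4 χ) h7
  have h6 := Fintype.card_le_of_injective _ h5
  rw [Fintype.card_fin] at h6
  omega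

theorem exists_translates {G : Type u} [Group G] [Infinite G] {X : Type v} [TopologicalSpace X]
    [CompactSpace X] [T2Space X] [MulAction G X] [ContinuousConstSMul G X] (hf : FreeAct G X)
    (hm : MinAct G X) (V : Set X) (hV : IsOpen V) (hne : V.Nonempty) (J : Type w) [Finite J] :
    ∃ (g : J → G) (W : Set X), IsOpen W ∧ W.Nonempty ∧ (∀ j, ∀ x ∈ W, g j • x ∈ V) ∧
      ∀ i j, i ≠ j → ∀ x ∈ W, ∀ x' ∈ W, g i • x ≠ g j • x' := by
  classical
  obtain ⟨x₀, hx₀⟩ := hne
  obtain ⟨E, hE⟩ := Fin3.ret hm V hV ⟨x₀, hx₀⟩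
  obtain ⟨z, hz⟩ := exists_far (Q := G) E
  obtain ⟨N, ⟨e⟩⟩ := Finite.exists_equiv_fin J
  choose ee hee1 hee2 using fun j : J => hE (z (e j) • x₀)
  let g : J → G := fun j => ee j * z (e j)
  have hgi : ∀ i j, i ≠ j → g i • x₀ ≠ g j • x₀ := by
    intro i j hij h
    have h1 : ((g j)⁻¹ * g i) • x₀ = x₀ := by rw [mul_smul, h, inv_smul_smul]
    have h2 : g i = g j := (inv_mul_eq_one.1 (hf _ _ h1)).symm
    have h3 := hz _ _ _ (hee1 i) _ (hee1 j) h2
    exact hij (e.injective (Fin.val_injective h3))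
  obtain ⟨U, hU, hUd⟩ := (Set.finite_range fun j => g j • x₀).t2_separation
  refine ⟨g, ⋂ j, (fun x => g j • x) ⁻¹' (U (g j • x₀) ∩ V), ?_, ⟨x₀, ?_⟩, ?_, ?_⟩
  · exact isOpen_iInter_of_finite fun j => ((hU _).2.inter hV).preimage (continuous_const_smul _)
  · refine Set.mem_iInter.2 fun j => ⟨(hU _).1, ?_⟩
    show g j • x₀ ∈ V
    rw [mul_smul]
    exact hee2 j
  · intro j x hx
    exact (Set.mem_iInter.1 hx j).2
  · intro i j hij x hx x' hx' he
    have h1 : g i • x ∈ U (g i • x₀) := (Set.mem_iInter.1 hx i).1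
    have h2 : g j • x' ∈ U (g j • x₀) := (Set.mem_iInter.1 hx' j).1
    rw [he] at h1
    exact Set.disjoint_left.1 (hUd ⟨i, rfl⟩ ⟨j, rfl⟩ (hgi i j hij)) h1 h2

theorem mass_sum {G X : Type} (F : Finset G) (N : X → G → ℝ)
    (hN0 : ∀ x h, 0 ≤ N x h) (x : X) (hN1 : ∑ h ∈ F, N x h = 1) {ι : Type*} (K : Finset ι)
    (A : ι → Set G) (hA : ∀ i ∈ K, ∀ j ∈ K, i ≠ j → Disjoint (A i) (A j)) :
    ∑ i ∈ K, mass F N (A i) x ≤ 1 := by
  classical
  unfold mass
  rw [Finset.sum_comm]
  refine le_trans (Finset.sum_le_sum fun h _ => ?_) hN1.le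
  rw [← Finset.mul_sum]
  refine (mul_le_mul_of_nonneg_left ?_ (hN0 x h)).trans (mul_one _).le
  by_cases hex : ∃ i ∈ K, h ∈ A i
  · obtain ⟨i, hi, hih⟩ := hex
    rw [Finset.sum_eq_single_of_mem i hi, if_pos hih]
    intro j hj hji
    rw [if_neg]
    intro hjh
    exact Set.disjoint_left.1 (hA j hj i hi hji) hjh hih
  · push Not at hex
    rw [Finset.sum_eq_zero]
    · exact zero_le_one
    · intro i hi
      rw [if_neg (hex i hi)]

theorem mass_cover {G X : Type} (F : Finset G) (N : X → G → ℝ)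
    (hN0 : ∀ x h, 0 ≤ N x h) (x : X) (hN1 : ∑ h ∈ F, N x h = 1) (k : ℕ) (hk : 0 < k)
    (A : Fin k → Set G) (hA : ∀ h, ∃ i, h ∈ A i) : ∃ i, 1 / (k : ℝ) ≤ mass F N (A i) x := by
  classical
  by_contra hcon
  push Not at hcon
  have hkr : (0 : ℝ) < k := by exact_mod_cast hk
  have : Nonempty (Fin k) := ⟨⟨0, hk⟩⟩
  have h1 : ∑ i, mass F N (A i) x < 1 := by
    have h2 : ∑ i, mass F N (A i) x < ∑ _i : Fin k, 1 / (k : ℝ) :=
      Finset.sum_lt_sum_of_nonempty Finset.univ_nonempty fun i _ => hcon i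
    rw [Finset.sum_const, Finset.card_univ, Fintype.card_fin, nsmul_eq_mul,
      mul_one_div_cancel hkr.ne'] at h2
    exact h2
  have h3 : 1 ≤ ∑ i, mass F N (A i) x := by
    unfold mass
    rw [Finset.sum_comm]
    refine le_trans hN1.ge (Finset.sum_le_sum fun h _ => ?_)
    rw [← Finset.mul_sum]
    refine (mul_one _).symm.le.trans (mul_le_mul_of_nonneg_left ?_ (hN0 x h))
    obtain ⟨i, hi⟩ := hA h
    have h4 := Finset.single_le_sum (f := fun i => @ite ℝ (h ∈ A i) (Classical.propDecidable _) 1 0)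
      (fun i _ => by positivity) (Finset.mem_univ i)
    refine le_trans ?_ h4
    rw [if_pos hi]
  linarith

/-- truncation to the unit interval -/
noncomputable def cl (x : ℝ) : ℝ := max 0 (min 1 x)

theorem cl_nonneg (x : ℝ) : 0 ≤ cl x := le_max_left _ _

theorem cl_le (x : ℝ) : cl x ≤ 1 := max_le zero_le_one (min_le_left _ _)

theorem cl_one {x : ℝ} (h : 1 ≤ x) : cl x = 1 := by
  unfold cl
  rw [min_eq_left h, max_eq_right zero_le_one]

theorem cl_zero {x : ℝ} (h : x ≤ 0) : cl x = 0 := max_eq_left ((min_le_right _ _).trans h)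

theorem cl_pos {x : ℝ} (h : 0 < cl x) : 0 < x := by
  by_contra hcon
  rw [cl_zero (not_lt.1 hcon)] at h
  exact lt_irrefl _ h

theorem cl_cont : Continuous cl := continuous_const.max (continuous_const.min continuous_id)

section window

variable {Λ : Type w} (K : Finset Λ) (idx : Λ → ℕ) (ms : Λ → ℝ) (δ mid : ℝ)

/-- is positive only if no mass is near `mid` -/
noncomputable def wfree : ℝ := ∏ l ∈ K, cl (4 * |ms l - mid| / δ - 1)

/-- is `1` if the mass is above `mid`, `0` if it is below -/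
noncomputable def ramp (l : Λ) : ℝ := cl ((ms l - mid) * (2 / δ) + 1 / 2)

open Classical in
/-- the number of kinds before `l` that are active -/
noncomputable def cnt (l : Λ) : ℝ := ∑ l' ∈ K.filter (fun l' => idx l' < idx l), ramp ms δ mid l'

/-- the weight of the kind `l` as the `ρ`-th active kind -/
noncomputable def wgt (ρ : ℕ) (l : Λ) : ℝ :=
  wfree K ms δ mid * (ramp ms δ mid l * cl (1 - |cnt K idx ms δ mid l - ρ|))

theorem wfree_nonneg : 0 ≤ wfree K ms δ mid := Finset.prod_nonneg fun _ _ => cl_nonneg _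

theorem wfree_le : wfree K ms δ mid ≤ 1 := Finset.prod_le_one (fun _ _ => cl_nonneg _) fun _ _ => cl_le _

theorem wgt_nonneg (ρ : ℕ) (l : Λ) : 0 ≤ wgt K idx ms δ mid ρ l :=
  mul_nonneg (wfree_nonneg K ms δ mid) (mul_nonneg (cl_nonneg _) (cl_nonneg _))

theorem wgt_le (ρ : ℕ) (l : Λ) : wgt K idx ms δ mid ρ l ≤ 1 :=
  mul_le_one₀ (wfree_le K ms δ mid) (mul_nonneg (cl_nonneg _) (cl_nonneg _))
    (mul_le_one₀ (cl_le _) (cl_nonneg _) (cl_le _))

variable {K idx ms δ mid}

theorem far_of_wfree (hδ : 0 < δ) (h : 0 < wfree K ms δ mid) (l : Λ) (hl : l ∈ K) :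
    δ / 4 < |ms l - mid| := by
  have h1 : 0 < cl (4 * |ms l - mid| / δ - 1) := by
    refine lt_of_le_of_ne (cl_nonneg _) fun h2 => ?_
    rw [wfree, Finset.prod_eq_zero hl h2.symm] at h
    exact lt_irrefl _ h
  have h2 := cl_pos h1
  have h3 : 1 < 4 * |ms l - mid| / δ := by linarith
  rw [lt_div_iff₀ hδ] at h3
  linarith

theorem ramp_eq (hδ : 0 < δ) (l : Λ) (h : δ / 4 ≤ |ms l - mid|) :
    ramp ms δ mid l = if mid < ms l then 1 else 0 := by
  unfold ramp
  split_ifs with h1
  · apply cl_one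
    rw [abs_of_pos (by linarith)] at h
    have h2 : δ / 4 * (2 / δ) ≤ (ms l - mid) * (2 / δ) :=
      mul_le_mul_of_nonneg_right h (by positivity)
    have h3 : δ / 4 * (2 / δ) = 1 / 2 := by field_simp; norm_num
    linarith
  · apply cl_zero
    rw [abs_of_nonpos (by linarith)] at h
    have h2 : δ / 4 * (2 / δ) ≤ -(ms l - mid) * (2 / δ) :=
      mul_le_mul_of_nonneg_right h (by positivity)
    have h3 : δ / 4 * (2 / δ) = 1 / 2 := by field_simp; norm_num
    linarith

open Classical in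
theorem cnt_eq (hδ : 0 < δ) (h : ∀ l ∈ K, δ / 4 ≤ |ms l - mid|) (l : Λ) :
    cnt K idx ms δ mid l =
      ((K.filter (fun l' => idx l' < idx l)).filter fun l' => mid < ms l').card := by
  unfold cnt
  rw [Finset.sum_congr rfl fun l' hl' => ramp_eq hδ l' (h l' (Finset.mem_filter.1 hl').1),
    Finset.sum_ite, Finset.sum_const_zero, add_zero, Finset.sum_const, nsmul_eq_mul, mul_one]

theorem wgt_unique (hδ : 0 < δ) (ρ : ℕ) (l l' : Λ) (hl : l ∈ K) (hl' : l' ∈ K)
    (hidx : ∀ a ∈ K, ∀ b ∈ K, idx a = idx b → a = b)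
    (h : 0 < wgt K idx ms δ mid ρ l) (h' : 0 < wgt K idx ms δ mid ρ l') : l = l' := by
  classical
  have key : ∀ a, a ∈ K → 0 < wgt K idx ms δ mid ρ a → mid < ms a ∧
      ((K.filter (fun b => idx b < idx a)).filter fun b => mid < ms b).card = ρ := by
    intro a ha h
    have h1 : 0 < wfree K ms δ mid := by
      refine lt_of_le_of_ne (wfree_nonneg _ _ _ _) fun h2 => ?_
      rw [wgt, ← h2, zero_mul] at h
      exact lt_irrefl _ h
    have h2 : 0 < ramp ms δ mid a * cl (1 - |cnt K idx ms δ mid a - ρ|) := by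
      refine lt_of_le_of_ne (mul_nonneg (cl_nonneg _) (cl_nonneg _)) fun h2 => ?_
      rw [wgt, ← h2, mul_zero] at h
      exact lt_irrefl _ h
    have h3 : 0 < ramp ms δ mid a := by
      refine lt_of_le_of_ne (cl_nonneg _) fun h3 => ?_
      rw [← h3, zero_mul] at h2
      exact lt_irrefl _ h2
    have h4 : 0 < cl (1 - |cnt K idx ms δ mid a - ρ|) := by
      refine lt_of_le_of_ne (cl_nonneg _) fun h3 => ?_
      rw [← h3, mul_zero] at h2
      exact lt_irrefl _ h2
    have h5 := cl_pos h4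
    have hfar := fun b hb => (far_of_wfree hδ h1 b hb).le
    rw [ramp_eq hδ a (hfar a ha)] at h3
    rw [cnt_eq hδ hfar a] at h5
    refine ⟨?_, ?_⟩
    · by_contra hcon
      rw [if_neg hcon] at h3
      exact lt_irrefl _ h3
    · have h6 : |(((K.filter (fun b => idx b < idx a)).filter fun b => mid < ms b).card : ℝ) - ρ| < 1 := by
        linarith
      rw [abs_lt] at h6
      have h7 : (((K.filter (fun b => idx b < idx a)).filter fun b => mid < ms b).card : ℝ) < ρ + 1 := by
        linarith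
      have h8 : (ρ : ℝ) < ((K.filter (fun b => idx b < idx a)).filter fun b => mid < ms b).card + 1 := by
        linarith
      have h9 : ((K.filter (fun b => idx b < idx a)).filter fun b => mid < ms b).card < ρ + 1 := by
        exact_mod_cast h7
      have h10 : ρ < ((K.filter (fun b => idx b < idx a)).filter fun b => mid < ms b).card + 1 := by
        exact_mod_cast h8
      omega
  have lt : ∀ a b, a ∈ K → b ∈ K → 0 < wgt K idx ms δ mid ρ a → 0 < wgt K idx ms δ mid ρ b →
      ¬ idx a < idx b := by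
    intro a b ha hb h1 h2 hab
    obtain ⟨h3, h4⟩ := key a ha h1
    obtain ⟨h5, h6⟩ := key b hb h2
    have h7 : insert a ((K.filter (fun c => idx c < idx a)).filter fun c => mid < ms c) ⊆
        (K.filter (fun c => idx c < idx b)).filter fun c => mid < ms c := by
      intro c hc
      rcases Finset.mem_insert.1 hc with rfl | hc
      · exact Finset.mem_filter.2 ⟨Finset.mem_filter.2 ⟨ha, hab⟩, h3⟩
      · rw [Finset.mem_filter, Finset.mem_filter] at hc
        exact Finset.mem_filter.2 ⟨Finset.mem_filter.2 ⟨hc.1.1, hc.1.2.trans hab⟩, hc.2⟩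
    have h8 := Finset.card_le_card h7
    rw [Finset.card_insert_of_notMem (by
      rw [Finset.mem_filter, Finset.mem_filter]
      exact fun h => lt_irrefl _ h.1.2), h4, h6] at h8
    omega
  refine hidx l hl l' hl' ?_
  have := lt l l' hl hl' h h'
  have := lt l' l hl' hl h' h
  omega

theorem wgt_one (hδ : 0 < δ) (h : ∀ l ∈ K, δ / 2 ≤ |ms l - mid|) (l : Λ) (hl : l ∈ K)
    (hm : mid < ms l) (ρ : ℕ) (hρ : cnt K idx ms δ mid l = ρ) : wgt K idx ms δ mid ρ l = 1 := by
  have h1 : wfree K ms δ mid = 1 := by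
    refine Finset.prod_eq_one fun a ha => cl_one ?_
    have h2 := h a ha
    rw [le_sub_iff_add_le, le_div_iff₀ hδ]
    linarith
  have h2 : ramp ms δ mid l = 1 := by
    rw [ramp_eq hδ l ((by linarith : δ / 4 ≤ δ / 2).trans (h l hl)), if_pos hm]
  rw [wgt, h1, h2, hρ, sub_self, abs_zero, sub_zero, cl_one le_rfl, one_mul, one_mul]

end window

theorem wgt_cont {X : Type v} [TopologicalSpace X] {Λ : Type w} (K : Finset Λ) (idx : Λ → ℕ)
    (ms : Λ → X → ℝ) (hms : ∀ l, Continuous (ms l)) (δ mid : ℝ) (ρ : ℕ) (l : Λ) :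
    Continuous fun x => wgt K idx (fun l => ms l x) δ mid ρ l := by
  classical
  unfold wgt wfree ramp cnt ramp
  refine Continuous.mul ?_ (Continuous.mul ?_ ?_)
  · refine continuous_finsetProd _ fun a _ => cl_cont.comp ?_
    exact ((continuous_const.mul ((hms a).sub continuous_const).abs).div_const _).sub
      continuous_const
  · exact cl_cont.comp ((((hms l).sub continuous_const).mul continuous_const).add
      continuous_const)
  · refine cl_cont.comp (continuous_const.sub (Continuous.abs (Continuous.sub ?_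
      continuous_const)))
    refine continuous_finsetSum _ fun a _ => cl_cont.comp ?_
    exact (((hms a).sub continuous_const).mul continuous_const).add continuous_const

end Pool.Agent.Helper277_FF
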