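import Pool.Agent.Helper277_FF.FolProd
import Pool.Agent.Helper277_FF.Windows
import Pool.Agent.Helper277_FF.Growth

set_option autoImplicit false

/-!
# A finite transport of small supplies at many scales
-/

namespace Pool.Agent.Helper277_FF

open Finset Pool.Agent.H107ZS Pointwise

universe u v w

section

variable {G : Type u} [Group G] {Q : Type w} {X : Type v} [MulAction G X]

/-- the average of `c` over `σ s F F⁻¹` -/
noncomputable def dens (σ : Q → G) (F : Finset G) (c : X → ℝ) (s : Q) (x : X) : ℝ :=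
  (∑ a ∈ F, ∑ b ∈ F, c ((σ s * (a * b⁻¹)) • x)) / ((F.card : ℝ) * F.card)

/-- the supply of kind `s` -/
noncomputable def supp (σ : Q → G) (F : Finset G) (c f : X → ℝ) (β : ℝ) (s : Q) (x : X) : ℝ :=
  f x * cl (4 / β * dens σ F c s x - 2)

variable (σ : Q → G) (F : Finset G) (hFne : F.Nonempty) {c f : X → ℝ} (hc : ∀ x, 0 ≤ c x)
  (hf : ∀ x, 0 ≤ f x) {β : ℝ} (hβ : 0 < β)

include hc in
theorem dens_nonneg (s : Q) (x : X) : 0 ≤ dens σ F c s x := by
  unfold dens
  have : 0 ≤ ∑ a ∈ F, ∑ b ∈ F, c ((σ s * (a * b⁻¹)) • x) :=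
    Finset.sum_nonneg fun _ _ => Finset.sum_nonneg fun _ _ => hc _
  positivity

include hf in
theorem supp_nonneg (s : Q) (x : X) : 0 ≤ supp σ F c f β s x := mul_nonneg (hf x) (cl_nonneg _)

include hc hf hβ in
theorem supp_le (s : Q) (x : X) :
    supp σ F c f β s x ≤ 2 / β * (f x * dens σ F c s x) := by
  have h0 := dens_nonneg σ F hc s x
  unfold supp
  have h2 : cl (4 / β * dens σ F c s x - 2) ≤ 2 / β * dens σ F c s x := by
    by_cases h : dens σ F c s x ≤ β / 2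
    · rw [cl_zero]
      · positivity
      · have : 4 / β * dens σ F c s x ≤ 4 / β * (β / 2) :=
          mul_le_mul_of_nonneg_left h (by positivity)
        have e : 4 / β * (β / 2) = 2 := by field_simp; norm_num
        linarith
    · push Not at h
      refine (cl_le _).trans ?_
      have : 2 / β * (β / 2) ≤ 2 / β * dens σ F c s x :=
        mul_le_mul_of_nonneg_left h.le (by positivity)
      have e : 2 / β * (β / 2) = 1 := by field_simp
      linarith
  calc f x * cl (4 / β * dens σ F c s x - 2) ≤ f x * (2 / β * dens σ F c s x) :=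
        mul_le_mul_of_nonneg_left h2 (hf x)
    _ = _ := by ring

include hβ in
theorem dens_of_supp (s : Q) (x : X) (h : 0 < supp σ F c f β s x) :
    β / 2 < dens σ F c s x := by
  have h1 : 0 < cl (4 / β * dens σ F c s x - 2) := by
    refine lt_of_le_of_ne (cl_nonneg _) fun h2 => ?_
    unfold supp at h
    rw [← h2, mul_zero] at h
    exact lt_irrefl _ h
  have h2 := cl_pos h1
  by_contra hcon
  push Not at hcon
  have : 4 / β * dens σ F c s x ≤ 4 / β * (β / 2) := mul_le_mul_of_nonneg_left hcon (by positivity)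
  have e : 4 / β * (β / 2) = 2 := by field_simp; norm_num
  linarith

include hβ in
theorem supp_one (s : Q) (x : X) (hfx : f x = 1) (h : β ≤ dens σ F c s x) :
    supp σ F c f β s x = 1 := by
  unfold supp
  rw [hfx, one_mul]
  apply cl_one
  have : 4 / β * β ≤ 4 / β * dens σ F c s x := mul_le_mul_of_nonneg_left h (by positivity)
  have e : 4 / β * β = 4 := by field_simp
  linarith

include hFne in
theorem exists_dens (S : Finset Q) (hS : S.Nonempty)
    (hE1 : ∀ y, β * S.card * F.card ≤ ∑ s ∈ S, ∑ a ∈ F, c ((σ s * a) • y)) (x : X) :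
    ∃ s ∈ S, β ≤ dens σ F c s x := by
  by_contra hcon
  push Not at hcon
  have hFc : (0 : ℝ) < F.card := by exact_mod_cast hFne.card_pos
  have h1 : ∑ s ∈ S, dens σ F c s x < S.card * β := by
    have := Finset.sum_lt_sum_of_nonempty hS hcon
    rwa [Finset.sum_const, nsmul_eq_mul] at this
  have h2 : ∑ s ∈ S, dens σ F c s x =
      (∑ b ∈ F, ∑ s ∈ S, ∑ a ∈ F, c ((σ s * a) • b⁻¹ • x)) / ((F.card : ℝ) * F.card) := by
    unfold dens
    rw [← Finset.sum_div]
    congr 1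
    rw [Finset.sum_comm (s := F) (t := S)]
    refine Finset.sum_congr rfl fun s _ => ?_
    rw [Finset.sum_comm]
    refine Finset.sum_congr rfl fun b _ => Finset.sum_congr rfl fun a _ => ?_
    rw [← mul_smul, mul_assoc]
  have h3 : F.card * (β * S.card * F.card) ≤ ∑ b ∈ F, ∑ s ∈ S, ∑ a ∈ F, c ((σ s * a) • b⁻¹ • x) := by
    refine le_trans (le_of_eq ?_) (Finset.sum_le_sum fun b _ => hE1 (b⁻¹ • x))
    rw [Finset.sum_const, nsmul_eq_mul]
  rw [h2, div_lt_iff₀ (by positivity)] at h1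
  nlinarith

open Classical in
include hFne hc hf hβ in
theorem push {ζ : ℝ} (hE2 : ∀ y, ∑ b ∈ F, f (b • y) ≤ ζ * F.card) (T : Finset G) (s : Q)
    (hT : ∀ a ∈ F, ∀ b ∈ F, σ s * (a * b⁻¹) * (σ s)⁻¹ ∈ T) (m : ℕ) (y : X) :
    ∑ v ∈ T ^ m, supp σ F c f β s (((σ s)⁻¹ * v) • y) ≤
      2 / β * (ζ * ∑ w ∈ T ^ (m + 1), c (w • y)) := by
  have hFc : (0 : ℝ) < F.card := by exact_mod_cast hFne.card_pos
  have h1 : ∑ v ∈ T ^ m, f (((σ s)⁻¹ * v) • y) * dens σ F c s (((σ s)⁻¹ * v) • y) ≤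
      ζ * ∑ w ∈ T ^ (m + 1), c (w • y) := by
    unfold dens
    have e1 : ∑ v ∈ T ^ m, f (((σ s)⁻¹ * v) • y) *
        ((∑ a ∈ F, ∑ b ∈ F, c ((σ s * (a * b⁻¹)) • ((σ s)⁻¹ * v) • y)) /
          ((F.card : ℝ) * F.card)) = (∑ a ∈ F, ∑ b ∈ F, ∑ v ∈ T ^ m,
        f (((σ s)⁻¹ * v) • y) * c ((σ s * (a * b⁻¹)) • ((σ s)⁻¹ * v) • y)) /
          ((F.card : ℝ) * F.card) := by
      have e2 : ∑ a ∈ F, ∑ b ∈ F, ∑ v ∈ T ^ m,
          f (((σ s)⁻¹ * v) • y) * c ((σ s * (a * b⁻¹)) • ((σ s)⁻¹ * v) • y) =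
          ∑ v ∈ T ^ m, f (((σ s)⁻¹ * v) • y) *
            ∑ a ∈ F, ∑ b ∈ F, c ((σ s * (a * b⁻¹)) • ((σ s)⁻¹ * v) • y) := by
        have e3 : ∀ a ∈ F, ∑ b ∈ F, ∑ v ∈ T ^ m,
            f (((σ s)⁻¹ * v) • y) * c ((σ s * (a * b⁻¹)) • ((σ s)⁻¹ * v) • y) =
            ∑ v ∈ T ^ m, f (((σ s)⁻¹ * v) • y) *
              ∑ b ∈ F, c ((σ s * (a * b⁻¹)) • ((σ s)⁻¹ * v) • y) := by
          intro a _
          rw [Finset.sum_comm]
          exact Finset.sum_congr rfl fun v _ => (Finset.mul_sum _ _ _).symm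
        rw [Finset.sum_congr rfl e3, Finset.sum_comm]
        exact Finset.sum_congr rfl fun v _ => (Finset.mul_sum _ _ _).symm
      rw [e2, Finset.sum_div]
      exact Finset.sum_congr rfl fun v _ => (mul_div_assoc _ _ _).symm
    rw [e1, div_le_iff₀ (by positivity)]
    have h2 : ∀ a ∈ F, ∀ b ∈ F, ∑ v ∈ T ^ m,
        f (((σ s)⁻¹ * v) • y) * c ((σ s * (a * b⁻¹)) • ((σ s)⁻¹ * v) • y) ≤
        ∑ w ∈ T ^ (m + 1), f (b • (a⁻¹ * (σ s)⁻¹ * w) • y) * c (w • y) := by
      intro a ha b hb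
      have h3 : ∑ v ∈ T ^ m,
          f (((σ s)⁻¹ * v) • y) * c ((σ s * (a * b⁻¹)) • ((σ s)⁻¹ * v) • y) =
          ∑ w ∈ (T ^ m).image (fun v => σ s * (a * b⁻¹) * (σ s)⁻¹ * v),
            f (b • (a⁻¹ * (σ s)⁻¹ * w) • y) * c (w • y) := by
        rw [Finset.sum_image fun v _ v' _ h => mul_left_cancel h]
        refine Finset.sum_congr rfl fun v _ => ?_
        simp only [← mul_smul]
        congr 3 <;> group
      rw [h3]
      refine Finset.sum_le_sum_of_subset_of_nonneg ?_ fun w _ _ => mul_nonneg (hf _) (hc _)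
      intro w hw
      obtain ⟨v, hv, rfl⟩ := Finset.mem_image.1 hw
      rw [pow_succ']
      exact Finset.mul_mem_mul (hT a ha b hb) hv
    refine (Finset.sum_le_sum fun a ha => Finset.sum_le_sum fun b hb => h2 a ha b hb).trans ?_
    have e4 : ∑ a ∈ F, ∑ b ∈ F, ∑ w ∈ T ^ (m + 1),
        f (b • (a⁻¹ * (σ s)⁻¹ * w) • y) * c (w • y) =
        ∑ w ∈ T ^ (m + 1), (∑ a ∈ F, ∑ b ∈ F, f (b • (a⁻¹ * (σ s)⁻¹ * w) • y)) * c (w • y) := by
      have e3 : ∀ a ∈ F, ∑ b ∈ F, ∑ w ∈ T ^ (m + 1),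
          f (b • (a⁻¹ * (σ s)⁻¹ * w) • y) * c (w • y) =
          ∑ w ∈ T ^ (m + 1), (∑ b ∈ F, f (b • (a⁻¹ * (σ s)⁻¹ * w) • y)) * c (w • y) := by
        intro a _
        rw [Finset.sum_comm]
        exact Finset.sum_congr rfl fun v _ => (Finset.sum_mul _ _ _).symm
      rw [Finset.sum_congr rfl e3, Finset.sum_comm]
      exact Finset.sum_congr rfl fun v _ => (Finset.sum_mul _ _ _).symm
    rw [e4]
    have h5 : ∀ w ∈ T ^ (m + 1),
        (∑ a ∈ F, ∑ b ∈ F, f (b • (a⁻¹ * (σ s)⁻¹ * w) • y)) * c (w • y) ≤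
        F.card * (ζ * F.card) * c (w • y) := by
      intro w _
      refine mul_le_mul_of_nonneg_right ?_ (hc _)
      refine (Finset.sum_le_sum fun a _ => hE2 _).trans ?_
      rw [Finset.sum_const, nsmul_eq_mul]
    refine (Finset.sum_le_sum h5).trans (le_of_eq ?_)
    rw [← Finset.mul_sum]
    ring
  have h2 : ∑ v ∈ T ^ m, supp σ F c f β s (((σ s)⁻¹ * v) • y) ≤
      ∑ v ∈ T ^ m, 2 / β * (f (((σ s)⁻¹ * v) • y) * dens σ F c s (((σ s)⁻¹ * v) • y)) :=
    Finset.sum_le_sum fun v _ => supp_le σ F hc hf hβ s _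
  rw [← Finset.mul_sum] at h2
  exact h2.trans (mul_le_mul_of_nonneg_left h1 (by positivity))

end

theorem dens_cont {G : Type u} [Group G] {Q : Type w} {X : Type v} [TopologicalSpace X]
    [MulAction G X] [ContinuousConstSMul G X] (σ : Q → G) (F : Finset G) (c : C(X, ℝ)) (s : Q) :
    Continuous (dens σ F c s) := by
  unfold dens
  refine Continuous.div_const (continuous_finsetSum _ fun a _ => continuous_finsetSum _
    fun b _ => ?_) _
  exact c.continuous.comp (continuous_const_smul _)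

theorem supp_cont {G : Type u} [Group G] {Q : Type w} {X : Type v} [TopologicalSpace X]
    [MulAction G X] [ContinuousConstSMul G X] (σ : Q → G) (F : Finset G) (c f : C(X, ℝ)) (β : ℝ)
    (s : Q) : Continuous (supp σ F c f β s) := by
  unfold supp
  refine f.continuous.mul (cl_cont.comp ?_)
  exact ((continuous_const.mul (dens_cont σ F c s)).sub continuous_const)

open Classical in
/-- supplies with small averages are absorbed completely -/
theorem absorb {G : Type u} [Group G] {Q : Type w} {X : Type v} [TopologicalSpace X]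
    [MulAction G X] [ContinuousConstSMul G X] (hfree : FreeAct G X) (σ : Q → G) (F : Finset G)
    (hFne : F.Nonempty) (c f : C(X, ℝ)) (hc : ∀ x, 0 ≤ c x) (hc1 : ∀ x, c x ≤ 1)
    (hf : ∀ x, 0 ≤ f x) (β ζ : ℝ) (hβ : 0 < β) (hζ : 0 < ζ)
    (S : Finset Q) (hS : S.Nonempty)
    (hE1 : ∀ y, β * S.card * F.card ≤ ∑ s ∈ S, ∑ a ∈ F, c ((σ s * a) • y))
    (hE2 : ∀ y, ∑ b ∈ F, f (b • y) ≤ ζ * F.card)
    (T : Finset G) (hT1 : (1 : G) ∈ T) (hTi : T⁻¹ = T)
    (hT : ∀ s ∈ S, ∀ a ∈ F, ∀ b ∈ F, σ s * (a * b⁻¹) * (σ s)⁻¹ ∈ T) (C d : ℕ)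
    (hgr : ∀ n : ℕ, (T ^ n).card ≤ C * (n + 1) ^ d)
    (hsm : 3 ^ d * (S.card * (2 / β * ζ)) ≤ 1 / 2) :
    SubEq G {x | f x = 1} {x | 0 < c x} := by
  have hTm : ∀ {m n : ℕ}, m ≤ n → T ^ m ⊆ T ^ n := fun h => Finset.pow_subset_pow_right hT1 h
  have hinv : ∀ n : ℕ, ∀ g ∈ T ^ n, g⁻¹ ∈ T ^ n := by
    intro n g hg
    rw [← hTi, inv_pow]
    exact Finset.inv_mem_inv hg
  set φ : Q → X → ℝ := supp σ F c f β with hφ
  have hφ0 : ∀ s x, 0 ≤ φ s x := fun s x => supp_nonneg σ F hf s x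
  -- the labels
  obtain ⟨m, L, hL0, hLm, hm1, hm2⟩ := exists_concat
    (fun j : ℕ => (S ×ˢ (T ^ (3 ^ j))).image fun r => (r.1, (r.2 * σ r.1)⁻¹))
    (fun j => ((hS.product (Finset.Nonempty.pow ⟨1, hT1⟩ : (T ^ (3 ^ j)).Nonempty)).image _))
    (hS.choose, (1 : G))
  set ε₀ : ℝ := S.card * (2 / β * ζ) with hε₀
  have hε₀0 : 0 < ε₀ := by
    have : (0 : ℝ) < S.card := by exact_mod_cast hS.card_pos
    positivity
  -- the number of stages
  obtain ⟨J, hJ⟩ : ∃ J : ℕ, C * 2 ^ d * (1 / 2 : ℝ) ^ (J + 1) < β / 2 := by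
    obtain ⟨J, hJ⟩ := exists_pow_lt_of_lt_one (x := β / 2 / (C * 2 ^ d + 1)) (by positivity)
      (by norm_num : (1 / 2 : ℝ) < 1)
    refine ⟨J, ?_⟩
    rw [lt_div_iff₀ (by positivity)] at hJ
    have h1 : (1 / 2 : ℝ) ^ (J + 1) ≤ (1 / 2) ^ J := by
      rw [pow_succ]
      have : (0 : ℝ) ≤ (1 / 2) ^ J := by positivity
      linarith
    have h2 : C * 2 ^ d * (1 / 2 : ℝ) ^ (J + 1) ≤ C * 2 ^ d * (1 / 2) ^ J :=
      mul_le_mul_of_nonneg_left h1 (by positivity)
    have h3 : (0 : ℝ) ≤ (1 / 2) ^ J := by positivity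
    nlinarith
  -- everything is served
  have hserved : ∀ x, ∀ s ∈ S, (gr2 m c φ (L (J + 1))).2 s x = 0 := by
    intro x s hs
    by_contra hne
    have hpos : 0 < (gr2 m c φ (L (J + 1))).2 s x :=
      lt_of_le_of_ne ((gr2_nonneg m hc hφ0 _).2 _ _) (Ne.symm hne)
    set y := σ s • x with hy
    set g : ℕ → ℝ := fun n => ∑ h ∈ T ^ n, c (h • y) with hg
    have hinj : Function.Injective fun h : G => h • y := by
      intro a b hab
      have h1 : (b⁻¹ * a) • y = y := by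
        rw [mul_smul]
        have h2 : a • y = b • y := hab
        rw [h2, inv_smul_smul]
      exact (inv_mul_eq_one.1 (hfree _ _ h1)).symm
    -- the first estimate
    have hg1 : β / 2 ≤ g (3 ^ 0) := by
      have h1 : 0 < φ s x := hpos.trans_le ((gr2_anti m hc hφ0 (Nat.zero_le _)).2 _ _)
      have h2 := dens_of_supp σ F hβ s x h1
      by_contra hcon
      push Not at hcon
      have h3 : ∀ a ∈ F, ∀ b ∈ F, c ((σ s * (a * b⁻¹)) • x) ≤ β / 2 := by
        intro a ha b hb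
        refine le_trans ?_ hcon.le
        have h4 : σ s * (a * b⁻¹) * (σ s)⁻¹ ∈ T ^ (3 ^ 0) := by
          rw [pow_zero, pow_one]
          exact hT s hs a ha b hb
        have h5 := Finset.single_le_sum (f := fun h => c (h • y)) (fun h _ => hc _) h4
        refine le_trans (le_of_eq ?_) h5
        rw [hy, ← mul_smul, inv_mul_cancel_right]
      have hFc : (0 : ℝ) < F.card := by exact_mod_cast hFne.card_pos
      have h4 : dens σ F c s x ≤ β / 2 := by
        unfold dens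
        rw [div_le_iff₀ (by positivity)]
        refine (Finset.sum_le_sum fun a ha => Finset.sum_le_sum fun b hb => h3 a ha b hb).trans
          (le_of_eq ?_)
        rw [Finset.sum_const, Finset.sum_const, nsmul_eq_mul, nsmul_eq_mul]
        ring
      linarith
    -- one scale
    have hstep : ∀ j ≤ J, g (3 ^ j) ≤ ε₀ * g (3 ^ (j + 1)) := by
      intro j hj
      have hLe : L (j + 1) ≤ L (J + 1) := hLm (by omega)
      have hpos' : 0 < (gr2 m c φ (L (j + 1))).2 s x :=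
        hpos.trans_le ((gr2_anti m hc hφ0 hLe).2 _ _)
      have hzero : ∀ h ∈ T ^ (3 ^ j), (gr2 m c φ (L (j + 1))).1 (h • y) = 0 := by
        intro h hh
        obtain ⟨i, _, hi, him⟩ := hm2 j (s, (h * σ s)⁻¹)
          (Finset.mem_image.2 ⟨(s, h), Finset.mem_product.2 ⟨hs, hh⟩, rfl⟩)
        have h1 := gr2_sat_dual m hc hφ0 (L (j + 1)) s x hpos' i hi (by rw [him])
        rw [him] at h1
        simp only [inv_inv, mul_smul] at h1
        exact h1
      have habs := gr2_abs_dual m hc hφ0 (L (j + 1)) ((T ^ (3 ^ j)).image fun h => h • y)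
        ((S ×ˢ (T ^ (3 ^ j + 3 ^ j))).image fun r => (r.1, ((σ r.1)⁻¹ * r.2) • y)) (by
        intro i hi x' hx'
        obtain ⟨h, hh, rfl⟩ := Finset.mem_image.1 hx'
        have h1 : ∃ j' ≤ j, m i ∈ (S ×ˢ (T ^ (3 ^ j'))).image fun r => (r.1, (r.2 * σ r.1)⁻¹) := by
          have h2 : ∀ k, i < L (k + 1) → ∃ j' ≤ k, L j' ≤ i ∧ i < L (j' + 1) := by
            intro k
            induction k with
            | zero =>
              intro h
              exact ⟨0, le_rfl, by rw [hL0]; exact Nat.zero_le _, h⟩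
            | succ k ih =>
              intro h
              by_cases h3 : i < L (k + 1)
              · obtain ⟨j', hj', h4⟩ := ih h3
                exact ⟨j', by omega, h4⟩
              · exact ⟨k + 1, le_rfl, not_lt.1 h3, h⟩
          obtain ⟨j', hj', h3, h4⟩ := h2 j hi
          exact ⟨j', hj', hm1 j' i h3 h4⟩
        obtain ⟨j', hj', h2⟩ := h1
        obtain ⟨⟨s', h'⟩, hsh, he⟩ := Finset.mem_image.1 h2
        rw [Finset.mem_product] at hsh
        refine Finset.mem_image.2 ⟨(s', h'⁻¹ * h), Finset.mem_product.2 ⟨hsh.1, ?_⟩, ?_⟩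
        · rw [pow_add]
          refine Finset.mul_mem_mul ?_ hh
          exact hTm (Nat.pow_le_pow_right (by norm_num) hj') (hinv _ _ hsh.2)
        · rw [← he]
          refine Prod.ext rfl ?_
          show ((σ s')⁻¹ * (h'⁻¹ * h)) • y = (h' * σ s')⁻¹ • h • y
          simp only [mul_inv_rev, mul_smul])
      rw [Finset.sum_image fun a _ b _ h => hinj h, Finset.sum_image (by
        rintro ⟨a, v⟩ _ ⟨a', v'⟩ _ h
        have h1 : a = a' := congrArg Prod.fst h
        subst h1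
        have h2 : ((σ a)⁻¹ * v) • y = ((σ a)⁻¹ * v') • y := congrArg Prod.snd h
        have h3 := hinj h2
        rw [mul_left_cancel h3]), Finset.sum_product] at habs
      have h1 : g (3 ^ j) = ∑ h ∈ T ^ (3 ^ j), (c (h • y) -
          (gr2 m c φ (L (j + 1))).1 (h • y)) :=
        Finset.sum_congr rfl fun h hh => by rw [hzero h hh, sub_zero]
      have h2 : ∀ s' ∈ S, ∑ v ∈ T ^ (3 ^ j + 3 ^ j), (φ s' (((σ s')⁻¹ * v) • y) -
          (gr2 m c φ (L (j + 1))).2 s' (((σ s')⁻¹ * v) • y)) ≤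
          2 / β * ζ * g (3 ^ (j + 1)) := by
        intro s' hs'
        have h3 := push σ F hFne hc hf hβ hE2 T s' (hT s' hs') (3 ^ j + 3 ^ j) y
        have h4 : ∑ v ∈ T ^ (3 ^ j + 3 ^ j), (φ s' (((σ s')⁻¹ * v) • y) -
            (gr2 m c φ (L (j + 1))).2 s' (((σ s')⁻¹ * v) • y)) ≤
            ∑ v ∈ T ^ (3 ^ j + 3 ^ j), φ s' (((σ s')⁻¹ * v) • y) :=
          Finset.sum_le_sum fun v _ => sub_le_self _ ((gr2_nonneg m hc hφ0 _).2 _ _)
        have h5 : ∑ w ∈ T ^ (3 ^ j + 3 ^ j + 1), c (w • y) ≤ g (3 ^ (j + 1)) := by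
          refine Finset.sum_le_sum_of_subset_of_nonneg (hTm ?_) fun _ _ _ => hc _
          have : 1 ≤ 3 ^ j := Nat.one_le_pow _ _ (by norm_num)
          rw [pow_succ]
          omega
        refine h4.trans (h3.trans ?_)
        have h6 : ζ * ∑ w ∈ T ^ (3 ^ j + 3 ^ j + 1), c (w • y) ≤ ζ * g (3 ^ (j + 1)) :=
          mul_le_mul_of_nonneg_left h5 hζ.le
        have h7 := mul_le_mul_of_nonneg_left h6 (by positivity : (0:ℝ) ≤ 2 / β)
        linarith
      rw [h1]
      refine habs.trans ((Finset.sum_le_sum h2).trans (le_of_eq ?_))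
      rw [Finset.sum_const, nsmul_eq_mul, hε₀]
      ring
    -- all scales
    have hchain : ∀ j, j ≤ J + 1 → g (3 ^ 0) ≤ ε₀ ^ j * g (3 ^ j) := by
      intro j
      induction j with
      | zero => intro _; simp
      | succ j ih =>
        intro hj
        refine (ih (by omega)).trans ?_
        have h1 := mul_le_mul_of_nonneg_left (hstep j (by omega)) (pow_nonneg hε₀0.le j)
        refine h1.trans (le_of_eq ?_)
        rw [pow_succ ε₀]
        ring
    have h1 := hchain (J + 1) le_rfl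
    have h2 : g (3 ^ (J + 1)) ≤ C * 2 ^ d * (3 ^ d) ^ (J + 1) := by
      have h3 : g (3 ^ (J + 1)) ≤ ((T ^ (3 ^ (J + 1))).card : ℝ) := by
        refine (Finset.sum_le_sum fun h _ => hc1 (h • y)).trans (le_of_eq ?_)
        rw [Finset.sum_const, nsmul_eq_mul, mul_one]
      have h4 : ((T ^ (3 ^ (J + 1))).card : ℝ) ≤ C * ((3 : ℝ) ^ (J + 1) + 1) ^ d := by
        exact_mod_cast hgr (3 ^ (J + 1))
      have h5 : ((3 : ℝ) ^ (J + 1) + 1) ^ d ≤ (2 * 3 ^ (J + 1)) ^ d := by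
        apply pow_le_pow_left₀ (by positivity)
        have : (1 : ℝ) ≤ 3 ^ (J + 1) := one_le_pow₀ (by norm_num)
        linarith
      have h6 : ((2 : ℝ) * 3 ^ (J + 1)) ^ d = 2 ^ d * (3 ^ d) ^ (J + 1) := by
        rw [mul_pow, ← pow_mul, ← pow_mul, mul_comm (J + 1) d]
      refine h3.trans (h4.trans ?_)
      rw [mul_assoc, ← h6]
      exact mul_le_mul_of_nonneg_left h5 (Nat.cast_nonneg _)
    have h3 : ε₀ ^ (J + 1) * g (3 ^ (J + 1)) ≤ C * 2 ^ d * (1 / 2) ^ (J + 1) := by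
      refine (mul_le_mul_of_nonneg_left h2 (pow_nonneg hε₀0.le _)).trans ?_
      have h4 : ε₀ ^ (J + 1) * (C * 2 ^ d * (3 ^ d) ^ (J + 1)) =
          C * 2 ^ d * (3 ^ d * ε₀) ^ (J + 1) := by
        rw [mul_pow]
        ring
      rw [h4]
      refine mul_le_mul_of_nonneg_left ?_ (by positivity)
      exact pow_le_pow_left₀ (by positivity) hsm _
    exact absurd (hg1.trans (h1.trans h3)) (not_le.2 hJ)
  refine (greedy_half m c φ hc hc1 hφ0 c.continuous (supp_cont σ F c f β) (L (J + 1))).mono ?_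
    subset_rfl
  intro x hx
  obtain ⟨s, hs, h1⟩ := exists_dens σ F hFne S hS hE1 x
  refine ⟨s, supp_one σ F hβ s x hx h1, ?_⟩
  rw [hserved x s hs]
  norm_num

end Pool.Agent.Helper277_FF
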