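import Pool.Agent.Helper277_FF.Multi
import Pool.Agent.H107_ZS.TAM

set_option autoImplicit false

/-!
# Foelner sets of subgroups and of extensions
-/

namespace Pool.Agent.Helper277_FF

open Finset Pool.Agent.H107ZS Topology Pointwise

universe u v w

/-- a Foelner set for elements of a subgroup gives a Foelner set in the subgroup -/
theorem fol_into {G : Type u} [Group G] (H : Subgroup G) (K : Finset G) (ε : ℝ) (hε : 0 < ε)
    (hKH : (K : Set G) ⊆ H) (S : Finset G) (hSf : Fol K (ε / (K.card + 1)) S) :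
    ∃ S : Finset G, (S : Set G) ⊆ H ∧ Fol K ε S := by
  classical
  obtain ⟨hS, hfol⟩ := hSf
  -- right cosets of `H`
  let q : G → Quotient (QuotientGroup.rightRel H) := fun s => Quotient.mk _ s
  have hq : ∀ s t : G, q s = q t ↔ t * s⁻¹ ∈ H := by
    intro s t
    show (Quotient.mk _ s : Quotient (QuotientGroup.rightRel H)) = Quotient.mk _ t ↔ _
    rw [Quotient.eq, QuotientGroup.rightRel_apply]
  let P : Finset G → G → Prop := fun T g => g ∈ T
  -- sum over the cosets
  let I := S.image q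
  let part : Quotient (QuotientGroup.rightRel H) → Finset G := fun c => S.filter fun s => q s = c
  have hcard : S.card = ∑ c ∈ I, (part c).card :=
    Finset.card_eq_sum_card_image q S
  have hbad : ∀ g ∈ K, (S.filter fun s => g * s ∉ S).card =
      ∑ c ∈ I, ((part c).filter fun s => g * s ∉ part c).card := by
    intro g hg
    rw [Finset.card_eq_sum_card_fiberwise (f := q) (t := I)
      (s := S.filter fun s => g * s ∉ S) ?_]
    · refine Finset.sum_congr rfl fun c _ => ?_
      congr 1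
      ext s
      simp only [Finset.mem_filter, part]
      constructor
      · rintro ⟨⟨hs, hgs⟩, hc⟩
        exact ⟨⟨hs, hc⟩, fun h => hgs h.1⟩
      · rintro ⟨⟨hs, hc⟩, h⟩
        refine ⟨⟨hs, fun hgs => h ⟨hgs, ?_⟩⟩, hc⟩
        rw [← hc, hq]
        have : s * (g * s)⁻¹ = g⁻¹ := by group
        rw [this]
        exact H.inv_mem (hKH hg)
    · intro s hs
      have := Finset.mem_coe.1 hs
      exact Finset.mem_coe.2 (Finset.mem_image_of_mem q (Finset.mem_filter.1 this).1)
  -- some coset is good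
  have hex : ∃ c ∈ I, ∑ g ∈ K, (((part c).filter fun s => g * s ∉ part c).card : ℝ)
      ≤ ε * (part c).card := by
    by_contra hcon
    push Not at hcon
    have hI : I.Nonempty := hS.image q
    have h1 : ∑ c ∈ I, ε * ((part c).card : ℝ) <
        ∑ c ∈ I, ∑ g ∈ K, (((part c).filter fun s => g * s ∉ part c).card : ℝ) :=
      Finset.sum_lt_sum_of_nonempty hI hcon
    rw [Finset.sum_comm, ← Finset.mul_sum] at h1
    have h2 : ∀ g ∈ K, ∑ c ∈ I, (((part c).filter fun s => g * s ∉ part c).card : ℝ) ≤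
        ε / (K.card + 1) * S.card := by
      intro g hg
      have := hfol g hg
      rw [show (∑ c ∈ I, (((part c).filter fun s => g * s ∉ part c).card : ℝ)) =
        (((S.filter fun s => g * s ∉ S).card : ℕ) : ℝ) by rw [hbad g hg]; push_cast; rfl]
      convert this
    have h3 := Finset.sum_le_sum h2
    rw [Finset.sum_const, nsmul_eq_mul] at h3
    have h4 : (∑ c ∈ I, ((part c).card : ℝ)) = (S.card : ℝ) := by
      rw [hcard]; push_cast; rfl
    rw [h4] at h1
    have h5 : (0:ℝ) < S.card := by exact_mod_cast hS.card_pos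
    have h6 : (K.card : ℝ) * (ε / (K.card + 1) * S.card) < ε * S.card := by
      have : (K.card : ℝ) * (ε / (K.card + 1) * S.card) = (K.card / (K.card + 1)) * (ε * S.card) := by
        field_simp
      rw [this]
      have h7 : (K.card : ℝ) / (K.card + 1) < 1 := by
        rw [div_lt_one (by positivity)]; linarith
      have h8 : 0 < ε * (S.card : ℝ) := by positivity
      nlinarith
    linarith
  obtain ⟨c, hcI, hc⟩ := hex
  obtain ⟨t, htS, htc⟩ := Finset.mem_image.1 hcI
  refine ⟨(part c).image fun s => s * t⁻¹, ?_, ?_, ?_⟩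
  · intro x hx
    obtain ⟨s, hs, rfl⟩ := Finset.mem_image.1 (Finset.mem_coe.1 hx)
    have : q t = q s := by rw [htc]; exact (Finset.mem_filter.1 hs).2.symm
    exact (hq t s).1 this
  · exact ⟨t * t⁻¹, Finset.mem_image_of_mem _ (Finset.mem_filter.2 ⟨htS, htc⟩)⟩
  · intro g hg
    have hinj : Function.Injective fun s : G => s * t⁻¹ := mul_left_injective t⁻¹
    rw [Finset.card_image_of_injective _ hinj]
    refine le_trans ?_ (le_trans (Finset.single_le_sum
      (f := fun g => (((part c).filter fun s => g * s ∉ part c).card : ℝ))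
      (fun _ _ => Nat.cast_nonneg _) hg) hc)
    have : (((part c).image fun s => s * t⁻¹).filter fun s => g * s ∉ (part c).image fun s => s * t⁻¹)
        = ((part c).filter fun s => g * s ∉ part c).image fun s => s * t⁻¹ := by
      ext x
      simp only [Finset.mem_filter, Finset.mem_image]
      constructor
      · rintro ⟨⟨s, hs, rfl⟩, h⟩
        refine ⟨s, ⟨hs, fun hgs => h ⟨g * s, hgs, by group⟩⟩, rfl⟩
      · rintro ⟨s, ⟨hs, h⟩, rfl⟩
        refine ⟨⟨s, hs, rfl⟩, ?_⟩
        rintro ⟨s', hs', h'⟩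
        have : s' = g * s := by
          have := congrArg (· * t) h'
          simpa [mul_assoc] using this
        exact h (this ▸ hs')
    have h9 : (((part c).image fun s => s * t⁻¹).filter
        fun s => g * s ∉ (part c).image fun s => s * t⁻¹).card
        = ((part c).filter fun s => g * s ∉ part c).card := by
      rw [this, Finset.card_image_of_injective _ hinj]
    exact_mod_cast le_of_eq (by convert h9)


/-- `M` is amenable -/
def AmS {G : Type u} [Group G] (M : Subgroup G) : Prop :=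
  ∀ (K : Finset G) (ε : ℝ), 0 < ε → (K : Set G) ⊆ M → ∃ F : Finset G, (F : Set G) ⊆ M ∧ Fol K ε F

theorem ams_mono {G : Type u} [Group G] {N M : Subgroup G} (h : N ≤ M) (hM : AmS M) : AmS N := by
  intro K ε hε hK
  obtain ⟨F, -, hF⟩ := hM K (ε / (K.card + 1)) (by positivity) (hK.trans h)
  exact fol_into N K ε hε hK F hF

theorem ams_bot {G : Type u} [Group G] : AmS (⊥ : Subgroup G) := by
  classical
  intro K ε hε hK
  refine ⟨{1}, ?_, ⟨1, Finset.mem_singleton_self _⟩, fun g hg => ?_⟩
  · intro g hg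
    rw [Finset.coe_singleton, Set.mem_singleton_iff] at hg
    rw [hg]
    exact Subgroup.one_mem _
  · have h2 : g = 1 := by
      have := hK hg
      simpa using this
    rw [h2, Finset.filter_eq_empty_iff.2 (fun s hs => by simpa using hs), Finset.card_empty,
      Nat.cast_zero]
    positivity

open Classical in
/-- Foelner sets from Foelner sets of cosets -/
theorem fol_cos {G : Type u} [Group G] (N : Subgroup G) (K : Finset G) (ε : ℝ)
    (W : Finset (G ⧸ N)) (F : Finset G) (hF : ∀ a ∈ F, a ∈ N) (hWne : W.Nonempty)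
    (hW : ∀ k ∈ K, ((W.filter fun w => ((k * rp w : G) : G ⧸ N) ∉ W).card : ℝ) ≤
      ε / 2 * W.card)
    (hFF : Fol ((K ×ˢ W).image fun r => (rp ((r.1 * rp r.2 : G) : G ⧸ N))⁻¹ * (r.1 * rp r.2))
      (ε / 2) F) : ∃ S : Finset G, Fol K ε S := by
  obtain ⟨w₀, hw₀⟩ := hWne
  obtain ⟨⟨a₀, ha₀⟩, hFF⟩ := hFF
  have hinj : Set.InjOn (fun r : (G ⧸ N) × G => rp r.1 * r.2) (W ×ˢ F : Finset ((G ⧸ N) × G)) := by
    rintro ⟨w, a⟩ h ⟨w', a'⟩ h' he
    rw [Finset.mem_coe, Finset.mem_product] at h h'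
    have he' : rp w * a = rp w' * a' := he
    have h1 : ((rp w * a : G) : G ⧸ N) = w := by
      rw [← co_rp w, QuotientGroup.eq, co_rp]
      have : (rp w * a)⁻¹ * rp w = a⁻¹ := by group
      rw [this]
      exact N.inv_mem (hF a h.2)
    have h2 : ((rp w' * a' : G) : G ⧸ N) = w' := by
      rw [← co_rp w', QuotientGroup.eq, co_rp]
      have : (rp w' * a')⁻¹ * rp w' = a'⁻¹ := by group
      rw [this]
      exact N.inv_mem (hF a' h'.2)
    have h3 : w = w' := by rw [← h1, ← h2, he']
    subst h3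
    rw [mul_left_cancel he']
  refine ⟨(W ×ˢ F).image fun r => rp r.1 * r.2, ⟨rp w₀ * a₀, Finset.mem_image.2
    ⟨(w₀, a₀), Finset.mem_product.2 ⟨hw₀, ha₀⟩, rfl⟩⟩, fun k hk => ?_⟩
  set PF : Finset G := (W ×ˢ F).image fun r => rp r.1 * r.2 with hPF
  have h1 := hW k hk
  have h2 : ∀ w ∈ W, ((F.filter fun a => (rp ((k * rp w : G) : G ⧸ N))⁻¹ * (k * rp w) * a ∉
      F).card : ℝ) ≤ ε / 2 * F.card := by
    intro w hw
    have h3 := hFF ((rp ((k * rp w : G) : G ⧸ N))⁻¹ * (k * rp w))
      (Finset.mem_image.2 ⟨(k, w), Finset.mem_product.2 ⟨hk, hw⟩, rfl⟩)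
    refine le_trans (le_of_eq ?_) h3
    congr
  have h4 : (PF.filter fun s => k * s ∉ PF) ⊆
      (((W.filter fun w => ((k * rp w : G) : G ⧸ N) ∉ W) ×ˢ F) ∪
        W.biUnion fun w => (F.filter fun a => (rp ((k * rp w : G) : G ⧸ N))⁻¹ *
          (k * rp w) * a ∉ F).image fun a => (w, a)).image fun r => rp r.1 * r.2 := by
    intro s hs
    rw [Finset.mem_filter] at hs
    obtain ⟨hs1, hs2⟩ := hs
    obtain ⟨⟨w, a⟩, hwa, rfl⟩ := Finset.mem_image.1 hs1
    rw [Finset.mem_product] at hwa
    refine Finset.mem_image.2 ⟨(w, a), ?_, rfl⟩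
    by_cases h5 : ((k * rp w : G) : G ⧸ N) ∈ W
    · refine Finset.mem_union_right _ (Finset.mem_biUnion.2 ⟨w, hwa.1, Finset.mem_image.2
        ⟨a, Finset.mem_filter.2 ⟨hwa.2, fun h6 => hs2 ?_⟩, rfl⟩⟩)
      refine Finset.mem_image.2 ⟨(((k * rp w : G) : G ⧸ N),
        (rp ((k * rp w : G) : G ⧸ N))⁻¹ * (k * rp w) * a), Finset.mem_product.2 ⟨h5, h6⟩, ?_⟩
      show rp ((k * rp w : G) : G ⧸ N) * ((rp ((k * rp w : G) : G ⧸ N))⁻¹ * (k * rp w) * a) =
        k * (rp w * a)
      group
    · exact Finset.mem_union_left _ (Finset.mem_product.2 ⟨Finset.mem_filter.2 ⟨hwa.1, h5⟩,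
        hwa.2⟩)
  have h5 : ((PF.filter fun s => k * s ∉ PF).card : ℝ) ≤
      ((W.filter fun w => ((k * rp w : G) : G ⧸ N) ∉ W).card : ℝ) * F.card +
        ∑ w ∈ W, ((F.filter fun a => (rp ((k * rp w : G) : G ⧸ N))⁻¹ * (k * rp w) * a ∉
          F).card : ℝ) := by
    have h6 := (Finset.card_le_card h4).trans (Finset.card_image_le.trans
      (Finset.card_union_le _ _))
    have h7 := h6.trans (Nat.add_le_add_left (Finset.card_biUnion_le.trans
      (Finset.sum_le_sum fun w _ => Finset.card_image_le)) _)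
    rw [Finset.card_product] at h7
    exact_mod_cast h7
  have h6 : ∑ w ∈ W, ((F.filter fun a => (rp ((k * rp w : G) : G ⧸ N))⁻¹ * (k * rp w) * a ∉
      F).card : ℝ) ≤ W.card * (ε / 2 * F.card) := by
    refine (Finset.sum_le_sum h2).trans ?_
    rw [Finset.sum_const, nsmul_eq_mul]
  have h7 : ((W.filter fun w => ((k * rp w : G) : G ⧸ N) ∉ W).card : ℝ) * F.card ≤
      ε / 2 * W.card * F.card := mul_le_mul_of_nonneg_right h1 (Nat.cast_nonneg _)
  have h8 : (PF.card : ℝ) = W.card * F.card := by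
    rw [hPF, Finset.card_image_of_injOn hinj, Finset.card_product]
    push_cast
    ring
  rw [h8]
  refine le_trans (le_of_eq ?_) (h5.trans (by linarith))
  congr

open Classical in
/-- amenability of groups of polynomial growth modulo amenable subgroups -/
theorem ams_step {G : Type u} [Group G] (M : Subgroup G)
    (hM : ∀ E : Finset G, (∀ g ∈ E, g ∈ M) → ∃ N : Subgroup G, AmS N ∧ ∃ C d : ℕ, ∀ n : ℕ,
      (cs N E n).card ≤ C * (n + 1) ^ d) : AmS M := by
  intro K ε hε hK
  set E : Finset G := insert 1 K with hE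
  have h1E : (1 : G) ∈ E := Finset.mem_insert_self _ _
  obtain ⟨N, hN, C, d, hC⟩ := hM E (by
    intro g hg
    rcases Finset.mem_insert.1 hg with rfl | hg
    · exact M.one_mem
    · exact hK hg)
  have hne : ∀ n, (cs N E n).Nonempty := fun n =>
    ⟨((1 : G) : G ⧸ N), (mem_cs N E n _).2 ⟨1, Finset.one_mem_pow h1E, rfl⟩⟩
  have hmono : ∀ {m n : ℕ}, m ≤ n → cs N E m ⊆ cs N E n := fun h =>
    Finset.image_subset_image (Finset.pow_subset_pow_right h1E h)
  set δ : ℝ := ε / (K.card + 1) with hδ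
  have hδ0 : 0 < δ := by positivity
  obtain ⟨n, -, -, h2, -⟩ := growth_seq2 (fun n => ((cs N E n).card : ℝ))
    (fun n => by exact_mod_cast (hne n).card_pos)
    (fun m n h => Nat.cast_le.2 (Finset.card_le_card (hmono h))) C d
    (fun n => by exact_mod_cast hC n) 1 (δ / 2) (by positivity)
  have hFs := hN ((K ×ˢ cs N E n).image fun r =>
    (rp ((r.1 * rp r.2 : G) : G ⧸ N))⁻¹ * (r.1 * rp r.2)) (δ / 2) (by positivity) (by
    intro g hg
    obtain ⟨r, _, rfl⟩ := Finset.mem_image.1 (Finset.mem_coe.1 hg)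
    have h3 : ((rp ((r.1 * rp r.2 : G) : G ⧸ N) : G) : G ⧸ N) = ((r.1 * rp r.2 : G) : G ⧸ N) :=
      co_rp _
    rw [QuotientGroup.eq] at h3
    exact h3)
  obtain ⟨F, hFN, hF⟩ := hFs
  obtain ⟨S, hS⟩ := fol_cos N K δ (cs N E n) F (fun a ha => hFN ha) (hne n) (by
    intro k hk
    have h3 : ((cs N E n).filter fun w => ((k * rp w : G) : G ⧸ N) ∉ cs N E n).image
        (fun w => ((k * rp w : G) : G ⧸ N)) ⊆ cs N E (n + 1) \ cs N E n := by
      intro x hx
      obtain ⟨w, hw, rfl⟩ := Finset.mem_image.1 hx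
      rw [Finset.mem_filter] at hw
      refine Finset.mem_sdiff.2 ⟨?_, hw.2⟩
      obtain ⟨g, hg, h4⟩ := (mem_cs N E n w).1 hw.1
      refine (mem_cs N E (n + 1) _).2 ⟨k * g, ?_, ?_⟩
      · rw [pow_succ']
        exact Finset.mul_mem_mul (Finset.mem_insert_of_mem hk) hg
      · rw [QuotientGroup.eq]
        have h5 : ((g : G) : G ⧸ N) = ((rp w : G) : G ⧸ N) := by rw [h4, co_rp]
        rw [QuotientGroup.eq] at h5
        have h6 : (k * g)⁻¹ * (k * rp w) = g⁻¹ * rp w := by group
        rw [h6]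
        exact h5
    have hinj : Set.InjOn (fun w : G ⧸ N => ((k * rp w : G) : G ⧸ N))
        (((cs N E n).filter fun w => ((k * rp w : G) : G ⧸ N) ∉ cs N E n : Finset (G ⧸ N)) :
          Set (G ⧸ N)) := by
      intro x _ y _ hxy
      have h1 : ((k * rp x : G) : G ⧸ N) = ((k * rp y : G) : G ⧸ N) := hxy
      rw [QuotientGroup.eq] at h1
      have h2 : (k * rp x)⁻¹ * (k * rp y) = (rp x)⁻¹ * rp y := by group
      rw [h2, ← QuotientGroup.eq, co_rp, co_rp] at h1
      exact h1
    have h4 := Finset.card_le_card h3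
    rw [Finset.card_image_of_injOn hinj, Finset.card_sdiff_of_subset (hmono (Nat.le_succ n))] at h4
    have h5 : (cs N E n).card ≤ (cs N E (n + 1)).card := Finset.card_le_card (hmono (Nat.le_succ n))
    have h6 : ((((cs N E n).filter fun w => ((k * rp w : G) : G ⧸ N) ∉ cs N E n).card : ℕ) : ℝ) ≤
        ((cs N E (n + 1)).card : ℝ) - (cs N E n).card := by
      rw [← Nat.cast_sub h5]
      exact_mod_cast h4
    refine h6.trans ?_
    have h7 : ((cs N E (n + 1)).card : ℝ) ≤ (1 + δ / 2) * (cs N E n).card := h2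
    linarith) hF
  exact fol_into M K ε hε hK S hS

end Pool.Agent.Helper277_FF
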