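import Pool.Agent.Helper277_FF.Absorb
import Pool.Agent.H107_ZS.TFING

set_option autoImplicit false

/-!
# Comparison for extensions of groups of polynomial growth
-/

namespace Pool.Agent.Helper277_FF

open Finset Pool.Agent.H107ZS MeasureTheory Pointwise

universe u v w

theorem fol_mono {G : Type u} [Group G] {K K' : Finset G} {ε ε' : ℝ} {S : Finset G}
    (h : Fol K ε S) (hK : K' ⊆ K) (hε : ε ≤ ε') : Fol K' ε' S :=
  ⟨h.1, fun k hk => (h.2 k (hK hk)).trans (mul_le_mul_of_nonneg_right hε (Nat.cast_nonneg _))⟩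

open Classical in
theorem prodF_unit {G : Type u} [Group G] (F : Finset G) :
    prodF (fun _ : Unit => (1 : G)) {()} F = F := by
  ext g
  unfold prodF
  rw [Finset.mem_image]
  constructor
  · rintro ⟨⟨w, a⟩, h, rfl⟩
    rw [Finset.mem_product] at h
    show 1 * a ∈ F
    rw [one_mul]
    exact h.2
  · intro hg
    exact ⟨((), g), Finset.mem_product.2 ⟨Finset.mem_singleton_self _, hg⟩, one_mul g⟩

/-- twice a function, truncated -/
noncomputable def dbl {X : Type v} [TopologicalSpace X] (r : C(X, ℝ)) : C(X, ℝ) :=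
  ⟨fun x => min 1 (2 * r x), continuous_const.min (continuous_const.mul r.continuous)⟩

theorem dbl_apply {X : Type v} [TopologicalSpace X] (r : C(X, ℝ)) (x : X) :
    dbl r x = min 1 (2 * r x) := rfl

theorem dbl_sum {G : Type u} [Group G] {X : Type v} [TopologicalSpace X] [MulAction G X]
    (r : C(X, ℝ)) (S : Finset G) (y : X) (δ : ℝ) (h : ∑ s ∈ S, r (s • y) ≤ δ / 2 * S.card) :
    ∑ s ∈ S, dbl r (s • y) ≤ δ * S.card := by
  have h1 : ∑ s ∈ S, dbl r (s • y) ≤ ∑ s ∈ S, 2 * r (s • y) :=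
    Finset.sum_le_sum fun s _ => min_le_right _ _
  rw [← Finset.mul_sum] at h1
  linarith

open Classical in
theorem poly_ext (G : Type) [Group G] [Countable G] [Infinite G] (Q : Type) [Group Q]
    (q : G →* Q) (hq : Function.Surjective q) (d e : ℕ)
    (hN : ∀ T : Finset G, (∀ t ∈ T, t ∈ q.ker) →
      ∃ C : ℕ, ∀ n : ℕ, (T ^ n).card ≤ C * (n + 1) ^ d)
    (hQ : ∀ T : Finset Q, ∃ C : ℕ, ∀ n : ℕ, (T ^ n).card ≤ C * (n + 1) ^ e)
    (X : Type) [TopologicalSpace X] [CompactSpace X] [TopologicalSpace.MetrizableSpace X]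
    [MeasurableSpace X] [BorelSpace X] [MulAction G X] [ContinuousConstSMul G X]
    (hf : FreeAct G X) (hm : MinAct G X) (K V : Set X) (hK : IsCompact K) (hV : IsOpen V)
    (hVne : V.Nonempty)
    (hμ : ∀ μ : MeasureTheory.Measure X, MeasureTheory.IsProbabilityMeasure μ →
      (∀ (g : G) (s : Set X), MeasurableSet s → μ ((fun x => g • x) ⁻¹' s) = μ s) → μ K < μ V) :
    SubEq G K V := by
  obtain ⟨p, hp⟩ := hVne
  have hXne : Nonempty X := ⟨p⟩
  obtain ⟨σ, hσ⟩ := hq.hasRightInverse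
  have hQ' : ∀ T : Finset Q, (∀ t ∈ T, t ∈ (⊤ : Subgroup Q)) →
      ∃ C : ℕ, ∀ n : ℕ, (T ^ n).card ≤ C * (n + 1) ^ e := fun T _ => hQ T
  -- the basic inequality
  obtain ⟨f, g, Ks, ε, γ, hε, hγ, hf0, hf1, hg0, hgK, hfV, hS⟩ := kl G X hf K V p hK hV hμ
  let b : C(X, ℝ) := ⟨fun x => max (f x - γ / 2) 0,
    (f.continuous.sub continuous_const).max continuous_const⟩
  have hbd : ∀ x, b x = max (f x - γ / 2) 0 := fun x => rfl
  have hb0 : ∀ x, 0 ≤ b x := fun x => le_max_right _ _
  have hb1 : ∀ x, b x ≤ 1 := fun x => by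
    rw [hbd]
    exact max_le (by have := hf1 x; linarith) zero_le_one
  have hbV : ∀ x, 0 < b x → γ / 2 < f x := by
    intro x hx
    rw [hbd, lt_max_iff] at hx
    rcases hx with h | h
    · linarith
    · exact absurd h (lt_irrefl _)
  let a : C(X, ℝ) := ⟨fun x => min 1 (g x), continuous_const.min g.continuous⟩
  have ha : ∀ x, a x = min 1 (g x) := fun x => rfl
  -- the reserved open sets
  obtain ⟨gg, W₀, hW₀, hW₀ne, hgW, hgd⟩ := exists_translates hf hm (V ∩ {x | f x < γ / 2})
    (hV.inter (isOpen_lt f.continuous continuous_const)) ⟨p, hp, by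
      have h1 : ¬ 0 < f p := fun h => (hfV p h).2 rfl
      show f p < γ / 2
      linarith⟩ Bool
  have hVi : ∀ i : Bool, IsOpen ((fun x => (gg i)⁻¹ • x) ⁻¹' W₀) := fun i =>
    hW₀.preimage (continuous_const_smul _)
  have hVine : ∀ i : Bool, ((fun x => (gg i)⁻¹ • x) ⁻¹' W₀).Nonempty := by
    intro i
    obtain ⟨x, hx⟩ := hW₀ne
    refine ⟨gg i • x, ?_⟩
    show (gg i)⁻¹ • gg i • x ∈ W₀
    rw [inv_smul_smul]
    exact hx
  choose c E hc0 hc1 hcV _ hcE using fun i : Bool => exists_return hm _ (hVi i) (hVine i)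
  have hcf : ∀ i x, 0 < c i x → x ∈ V ∧ f x < γ / 2 := by
    intro i x hx
    have h1 := hcV i x hx
    have h2 := hgW i _ h1
    rw [smul_inv_smul] at h2
    exact h2
  have hcd : ∀ x, 0 < c true x → 0 < c false x → False := by
    intro x h1 h2
    refine hgd true false (by decide) _ (hcV true x h1) _ (hcV false x h2) ?_
    rw [smul_inv_smul, smul_inv_smul]
  choose Kc εc βc hεc hβc hlow using fun i : Bool => lower G X (c i) (hc0 i) (E i) (hcE i)
  -- the constants
  set δ : ℝ := βc true / 8 ^ (e + 1) with hδ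
  have hδ0 : 0 < δ := by have := hβc true; positivity
  obtain ⟨SQ, -, -, hSQ, -, -, -⟩ := fol_two (⊤ : Subgroup Q) e hQ' ((Kc false).image q)
    (fun _ _ => Subgroup.mem_top _) (εc false / 2) (by have := hεc false; linarith)
  have hSQc : (0 : ℝ) < SQ.card := by exact_mod_cast hSQ.1.card_pos
  set ζ : ℝ := βc false / (4 * 3 ^ d * SQ.card) with hζ
  have hζ0 : 0 < ζ := by have := hβc false; positivity
  -- Foelner sets of the kernel and of `G`
  have hkerF : ∀ (M : Finset G) (t : ℝ), (∀ k ∈ M, k ∈ q.ker) → 0 < t →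
      ∃ F : Finset G, (∀ x ∈ F, x ∈ q.ker) ∧ Fol M t F := by
    intro M t hM ht
    obtain ⟨F, -, hF, hF2, -⟩ := fol_two q.ker d hN M hM t ht
    exact ⟨F, hF, hF2⟩
  have hGF : ∃ F : Finset G, Fol Ks ε F := by
    obtain ⟨W, -, -, hW, -⟩ := fol_two (⊤ : Subgroup Q) e hQ' (Ks.image q)
      (fun _ _ => Subgroup.mem_top _) (ε / 2) (by linarith)
    obtain ⟨F, hF, hF2⟩ := hkerF (moves q σ Ks W) (ε / 2) (moves_ker q σ hσ Ks W) (by linarith)
    exact ⟨_, fol_prod q σ hσ Ks ε W F hF hW hF2⟩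
  -- the first phase
  obtain ⟨rA, hrA0, hrA1, ⟨KA, εA, -, hεA, hA⟩, hsubA⟩ := ph (1 : G →* Unit) (fun _ => (1 : G))
    (fun _ => rfl) (X := X) {()} {()} ⟨(), Finset.mem_singleton_self _⟩
    (fun _ _ _ _ => Finset.mem_singleton_self _) b a hb0 hb1
    (fun x => by rw [ha]; exact le_min zero_le_one (hg0 x))
    (fun x => by rw [ha]; exact min_le_left _ _) (by
    intro ω _ hω
    obtain ⟨F, hF⟩ := hGF
    have h1 := int_fol (1 : G →* Unit) (fun _ => (1 : G)) (fun _ => rfl) ω hω (b - a) 0 {()} F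
      (fun _ _ => rfl) hF.1 (by
      intro y
      rw [prodF_unit, zero_mul]
      have h2 := hS F hF y
      have h3 : ∑ s ∈ F, (f (s • y) - g (s • y) - γ / 2) ≤ ∑ s ∈ F, (b - a) (s • y) := by
        refine Finset.sum_le_sum fun s _ => ?_
        rw [ContinuousMap.sub_apply, hbd, ha]
        have h4 := le_max_left (f (s • y) - γ / 2) 0
        have h5 := min_le_right 1 (g (s • y))
        linarith
      rw [Finset.sum_sub_distrib, Finset.sum_const, nsmul_eq_mul] at h3
      have h6 : (0 : ℝ) ≤ γ * F.card := by positivity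
      linarith)
    rw [zero_mul, zero_mul, Finset.sum_singleton] at h1
    rw [Finset.sum_singleton, Finset.sum_singleton]
    have h2 : ∫ y, (b - a) ((1 : G) • y) ∂ω =
        ∫ y, b ((1 : G) • y) ∂ω - ∫ y, a ((1 : G) • y) ∂ω :=
      integral_sub (int_cont ω _ (b.continuous.comp (continuous_const_smul _)))
        (int_cont ω _ (a.continuous.comp (continuous_const_smul _)))
    rw [h2] at h1
    linarith) (δ / 2) (by linarith)
  have hA' : ∀ F : Finset G, Fol KA εA F → ∀ y, ∑ s ∈ F, dbl rA (s • y) ≤ δ * F.card :=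
    fun F hF y => dbl_sum rA F y δ (hA F (fun _ _ => rfl) hF y)
  -- the second phase
  have hmin : 0 < min (εc true) εA := lt_min (hεc true) hεA
  obtain ⟨W, W', -, hW, hW', hWW, hWc⟩ := fol_two (⊤ : Subgroup Q) e hQ'
    ((Kc true ∪ KA).image q) (fun _ _ => Subgroup.mem_top _) (min (εc true) εA / 2)
    (by linarith)
  obtain ⟨rB, hrB0, hrB1, ⟨KB, εB, hKB, hεB, hB⟩, hsubB⟩ := ph q σ hσ (X := X) W W' hW.1 hWW
    (c true) (dbl rA) (hc0 true) (hc1 true)
    (fun x => le_min zero_le_one (by have := hrA0 x; linarith))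
    (fun x => min_le_left _ _) (by
    intro ω _ hω
    obtain ⟨F₁, hF₁, hF₁'⟩ := hkerF (moves q σ (Kc true) W) (εc true / 2)
      (moves_ker q σ hσ _ _) (by have := hεc true; linarith)
    obtain ⟨F₂, hF₂, hF₂'⟩ := hkerF (moves q σ KA W') (εA / 2)
      (moves_ker q σ hσ _ _) (by linarith)
    have h1 := int_fol q σ hσ ω hω (c true) (βc true) W F₁ hF₁ hF₁'.1
      (hlow true _ (fol_prod q σ hσ _ _ W F₁ hF₁ (fol_mono hW
        (Finset.image_subset_image Finset.subset_union_left)
        (by have := min_le_left (εc true) εA; linarith)) hF₁'))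
    have h2 := int_fol q σ hσ ω hω (-dbl rA) (-δ) W' F₂ hF₂ hF₂'.1 (by
      intro y
      have h3 := hA' _ (fol_prod q σ hσ KA εA W' F₂ hF₂ (fol_mono hW'
        (Finset.image_subset_image Finset.subset_union_right)
        (by have := min_le_right (εc true) εA; linarith)) hF₂') y
      simp only [ContinuousMap.neg_apply, Finset.sum_neg_distrib]
      linarith)
    have h3 : ∑ w ∈ W', ∫ y, (-dbl rA) (σ w • y) ∂ω = -∑ w ∈ W', ∫ y, dbl rA (σ w • y) ∂ω := by
      rw [← Finset.sum_neg_distrib]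
      refine Finset.sum_congr rfl fun w _ => ?_
      simp only [ContinuousMap.neg_apply]
      exact integral_neg _
    rw [h3] at h2
    have h4 : δ * W'.card * ω.real Set.univ ≤ βc true * W.card * ω.real Set.univ := by
      refine mul_le_mul_of_nonneg_right ?_ measureReal_nonneg
      refine (mul_le_mul_of_nonneg_left hWc hδ0.le).trans (le_of_eq ?_)
      rw [hδ]
      field_simp
    linarith) (ζ / 2) (by linarith)
  have hB' : ∀ F : Finset G, (∀ x ∈ F, x ∈ q.ker) → Fol KB εB F →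
      ∀ y, ∑ s ∈ F, dbl rB (s • y) ≤ ζ * F.card :=
    fun F hF hF' y => dbl_sum rB F y ζ (hB F hF hF' y)
  -- the third phase
  have hmin2 : 0 < min (εc false / 2) εB := lt_min (by have := hεc false; linarith) hεB
  obtain ⟨F, hF, hF'⟩ := hkerF (moves q σ (Kc false) SQ ∪ KB) (min (εc false / 2) εB) (by
    intro k hk
    rcases Finset.mem_union.1 hk with hk | hk
    · exact moves_ker q σ hσ _ _ k hk
    · exact hKB hk) hmin2
  let D : Finset G := (SQ ×ˢ (F ×ˢ F)).image fun r => σ r.1 * (r.2.1 * r.2.2⁻¹) * (σ r.1)⁻¹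
  have hDm : ∀ s ∈ SQ, ∀ a ∈ F, ∀ b ∈ F, σ s * (a * b⁻¹) * (σ s)⁻¹ ∈ D := by
    intro s hs a ha b hb
    exact Finset.mem_image.2 ⟨(s, a, b), Finset.mem_product.2 ⟨hs, Finset.mem_product.2 ⟨ha, hb⟩⟩,
      rfl⟩
  have hDk : ∀ t ∈ D, t ∈ q.ker := by
    intro t ht
    obtain ⟨⟨s, a, b⟩, hr, rfl⟩ := Finset.mem_image.1 ht
    rw [Finset.mem_product, Finset.mem_product] at hr
    rw [MonoidHom.mem_ker]
    simp only [map_mul, map_inv, MonoidHom.mem_ker.1 (hF a hr.2.1),
      MonoidHom.mem_ker.1 (hF b hr.2.2), inv_one, mul_one, mul_inv_cancel]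
  let T : Finset G := insert 1 (D ∪ D⁻¹)
  have hT1 : (1 : G) ∈ T := Finset.mem_insert_self _ _
  have hTi : T⁻¹ = T := by
    ext t
    simp only [T, Finset.mem_inv', Finset.mem_insert, Finset.mem_union, inv_eq_one, inv_inv]
    tauto
  have hTk : ∀ t ∈ T, t ∈ q.ker := by
    intro t ht
    rcases Finset.mem_insert.1 ht with rfl | ht
    · exact q.ker.one_mem
    · rcases Finset.mem_union.1 ht with ht | ht
      · exact hDk t ht
      · have h2 := hDk _ (Finset.mem_inv'.1 ht)
        simpa using q.ker.inv_mem h2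
  obtain ⟨C, hC⟩ := hN T hTk
  have hsubC := absorb hf σ F hF'.1 (c false) (dbl rB) (hc0 false) (hc1 false)
    (fun x => le_min zero_le_one (by have := hrB0 x; linarith)) (βc false) ζ (hβc false) hζ0 SQ
    hSQ.1 (by
    intro y
    have h1 := hlow false _ (fol_prod q σ hσ (Kc false) (εc false) SQ F hF hSQ (fol_mono hF'
      Finset.subset_union_left (min_le_left _ _))) y
    rw [prodF_card q σ hσ SQ F hF, prodF_sum q σ hσ SQ F hF] at h1
    push_cast at h1
    rw [mul_assoc]
    exact h1) (hB' F hF (fol_mono hF' Finset.subset_union_right (min_le_right _ _))) T hT1 hTi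
    (fun s hs a ha b hb => Finset.mem_insert_of_mem (Finset.mem_union_left _ (hDm s hs a ha b hb)))
    C d hC (by
    have h1 := (hβc false).ne'
    rw [hζ]
    apply le_of_eq
    field_simp
    norm_num)
  -- the union
  have hu1 := hsubB.union hsubC (by
    refine Set.disjoint_left.2 fun x hx hx' => ?_
    exact hcd x hx hx')
  have hu2 := hsubA.union hu1 (by
    refine Set.disjoint_left.2 fun x hx hx' => ?_
    have h1 := hbV x hx
    rcases hx' with h | h
    · have h2 := (hcf _ x h).2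
      linarith
    · have h2 := (hcf _ x h).2
      linarith)
  refine hu2.mono ?_ ?_
  · intro x hx
    have hax : a x = 1 := by rw [ha, hgK x hx, min_self]
    by_cases h1 : rA x ≤ 1 / 2
    · exact Or.inl ⟨hax, h1⟩
    · have h2 : dbl rA x = 1 := by
        rw [dbl_apply]
        exact min_eq_left (by linarith)
      by_cases h3 : rB x ≤ 1 / 2
      · exact Or.inr (Or.inl ⟨h2, h3⟩)
      · refine Or.inr (Or.inr ?_)
        show dbl rB x = 1
        rw [dbl_apply]
        exact min_eq_left (by linarith)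
  · rintro x (hx | hx | hx)
    · exact (hfV x (lt_trans (by linarith) (hbV x hx))).1
    · exact (hcf _ x hx).1
    · exact (hcf _ x hx).1

theorem poly_ext_nc (G : Type) [Group G] [Countable G] (Q : Type) [Group Q]
    (q : G →* Q) (hq : Function.Surjective q) (d e : ℕ)
    (hN : ∀ T : Finset G, (∀ t ∈ T, t ∈ q.ker) →
      ∃ C : ℕ, ∀ n : ℕ, ((T : Set G) ^ n).ncard ≤ C * (n + 1) ^ d)
    (hQ : ∀ T : Finset Q, ∃ C : ℕ, ∀ n : ℕ, ((T : Set Q) ^ n).ncard ≤ C * (n + 1) ^ e)
    (X : Type) [TopologicalSpace X] [CompactSpace X] [TopologicalSpace.MetrizableSpace X]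
    [MeasurableSpace X] [BorelSpace X] [MulAction G X] [ContinuousConstSMul G X]
    (hf : FreeAct G X) (hm : MinAct G X) (K V : Set X) (hK : IsCompact K) (hV : IsOpen V)
    (hVne : V.Nonempty)
    (hμ : ∀ μ : MeasureTheory.Measure X, MeasureTheory.IsProbabilityMeasure μ →
      (∀ (g : G) (s : Set X), MeasurableSet s → μ ((fun x => g • x) ⁻¹' s) = μ s) → μ K < μ V) :
    SubEq G K V := by
  classical
  rcases finite_or_infinite G with hG | hG
  · exact t_FING G X hf hm K V hK hV hμ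
  · refine poly_ext G Q q hq d e (fun T hT => ?_) (fun T => ?_) X hf hm K V hK hV hVne hμ
    · obtain ⟨C, hC⟩ := hN T hT
      refine ⟨C, fun n => ?_⟩
      have h1 := hC n
      rw [← Finset.coe_pow, Set.ncard_coe_finset] at h1
      convert h1
    · obtain ⟨C, hC⟩ := hQ T
      refine ⟨C, fun n => ?_⟩
      have h1 := hC n
      rw [← Finset.coe_pow, Set.ncard_coe_finset] at h1
      convert h1

end Pool.Agent.Helper277_FF
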