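import Pool.Agent.Helper277_FF.Gp
import Pool.Agent.Helper277_FF.PolyExt
import Pool.Agent.Helper277_FF.Amen

set_option autoImplicit false

/-!
# Absorption of functions with small averages over a subgroup
-/

namespace Pool.Agent.Helper277_FF

open Finset Pool.Agent.H107ZS MeasureTheory Filter Topology Pointwise

universe u v w

/-- `f` has averages at most `ζ` over the Foelner sets of `H` -/
def SmallAv {G : Type u} [Group G] {X : Type v} [TopologicalSpace X] [MulAction G X]
    (H : Subgroup G) (f : C(X, ℝ)) (ζ : ℝ) : Prop :=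
  ∃ (K : Finset G) (ε : ℝ), (K : Set G) ⊆ H ∧ 0 < ε ∧
    ∀ F : Finset G, (F : Set G) ⊆ H → Fol K ε F → ∀ y, ∑ b ∈ F, f (b • y) ≤ ζ * F.card

/-- functions with small averages over `H` can be absorbed by every open set -/
def Abs (G : Type u) [Group G] (X : Type v) [TopologicalSpace X] [MulAction G X]
    (H : Subgroup G) : Prop :=
  ∀ V : Set X, IsOpen V → V.Nonempty → ∃ ζ : ℝ, 0 < ζ ∧ ∀ f : C(X, ℝ), (∀ x, 0 ≤ f x) →
    (∀ x, f x ≤ 1) → SmallAv H f ζ → SubEq G {x | f x = 1} V

open Classical in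
/-- the conjugates of the elements of `E` by the elements of `S` -/
noncomputable def conjs {G : Type u} [Group G] (S E : Finset G) : Finset G :=
  (S ×ˢ E).image fun r => r.1 * r.2 * r.1⁻¹

open Classical in
theorem mem_conjs {G : Type u} [Group G] (S E : Finset G) (t : G) :
    t ∈ conjs S E ↔ ∃ s ∈ S, ∃ g ∈ E, s * g * s⁻¹ = t := by
  unfold conjs
  rw [Finset.mem_image]
  constructor
  · rintro ⟨⟨s, g⟩, h, rfl⟩
    rw [Finset.mem_product] at h
    exact ⟨s, h.1, g, h.2, rfl⟩
  · rintro ⟨s, hs, g, hg, rfl⟩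
    exact ⟨(s, g), Finset.mem_product.2 ⟨hs, hg⟩, rfl⟩

theorem abs_bot (G : Type u) [Group G] (X : Type v) [TopologicalSpace X] [MulAction G X] :
    Abs G X (⊥ : Subgroup G) := by
  classical
  intro V _ _
  refine ⟨1 / 2, by norm_num, fun f _ _ ⟨K, ε, hK, hε, hav⟩ => ?_⟩
  have h1 := hav {1} (by
    intro g hg
    rw [Finset.coe_singleton, Set.mem_singleton_iff] at hg
    rw [hg]
    exact Subgroup.one_mem _) ⟨⟨1, Finset.mem_singleton_self _⟩, fun g hg => by
      have h2 : g = 1 := by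
        have := hK hg
        simpa using this
      rw [h2]
      have h3 : (({1} : Finset G).filter fun s => 1 * s ∉ ({1} : Finset G)) = ∅ := by
        ext s
        simp
      rw [Finset.filter_eq_empty_iff.2 (fun s hs => by simpa using hs)]
      rw [Finset.card_empty, Nat.cast_zero]
      positivity⟩
  refine ⟨0, fun i => i.elim0, fun i => i.elim0, fun i => i.elim0, ?_, fun i => i.elim0,
    fun i => i.elim0⟩
  intro x hx
  exfalso
  have h2 := h1 x
  rw [Finset.sum_singleton, one_smul, Finset.card_singleton] at h2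
  have h3 : f x = 1 := hx
  rw [h3] at h2
  norm_num at h2

open Classical in
theorem abs_step (G : Type u) [Group G] [Countable G] [Infinite G]
    (X : Type u) [TopologicalSpace X] [CompactSpace X] [TopologicalSpace.MetrizableSpace X]
    [MeasurableSpace X] [BorelSpace X] [MulAction G X] [ContinuousConstSMul G X]
    (hf : FreeAct G X) (hm : MinAct G X) (M : Subgroup G) (hA : AmS M)
    (hM : ∀ S : Finset G, ∃ d : ℕ, ∀ E : Finset G, (∀ g ∈ E, g ∈ M) →
      ∃ N N' : Subgroup G, Abs G X N' ∧ (∀ s ∈ S, ∀ n ∈ N, s⁻¹ * n * s ∈ N') ∧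
        (∀ t ∈ conjs S E, ∀ n ∈ N, t * n * t⁻¹ ∈ N) ∧
        ∃ C : ℕ, ∀ n : ℕ, (cs N (conjs S E) n).card ≤ C * (n + 1) ^ d) : Abs G X M := by
  intro V hV hVne
  have hXne : Nonempty X := ⟨hVne.some⟩
  obtain ⟨gg, W₀, hW₀, hW₀ne, hgW, hgd⟩ := exists_translates hf hm V hV hVne Bool
  have hVi : ∀ i : Bool, IsOpen ((fun x => (gg i)⁻¹ • x) ⁻¹' W₀) := fun i =>
    hW₀.preimage (continuous_const_smul _)
  have hVine : ∀ i : Bool, ((fun x => (gg i)⁻¹ • x) ⁻¹' W₀).Nonempty := by
    intro i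
    obtain ⟨x, hx⟩ := hW₀ne
    refine ⟨gg i • x, ?_⟩
    show (gg i)⁻¹ • gg i • x ∈ W₀
    rw [inv_smul_smul]
    exact hx
  have hVV : ∀ i : Bool, ∀ x, (gg i)⁻¹ • x ∈ W₀ → x ∈ V := by
    intro i x hx
    have h2 := hgW i _ hx
    rwa [smul_inv_smul] at h2
  obtain ⟨c, S, hc0, hc1, hcV, hS, hcS⟩ := exists_return hm _ (hVi true) (hVine true)
  have hSc : (0 : ℝ) < S.card := by exact_mod_cast hS.card_pos
  obtain ⟨d, hd⟩ := hM S
  set β : ℝ := 1 / S.card with hβ
  have hβ0 : 0 < β := by positivity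
  set ζ : ℝ := β / (4 * 3 ^ d * S.card) with hζ
  have hζ0 : 0 < ζ := by positivity
  refine ⟨ζ, hζ0, fun f hf0 hf1 ⟨K, ε, hKM, hε, hav⟩ => ?_⟩
  obtain ⟨F, hFM, hF⟩ := hA K ε hε hKM
  have hFne := hF.1
  let E : Finset G := (F ×ˢ F).image fun r => r.1 * r.2⁻¹
  have hEm : ∀ a ∈ F, ∀ b ∈ F, a * b⁻¹ ∈ E := fun a ha b hb =>
    Finset.mem_image.2 ⟨(a, b), Finset.mem_product.2 ⟨ha, hb⟩, rfl⟩
  have hEe : ∀ g ∈ E, ∃ a ∈ F, ∃ b ∈ F, a * b⁻¹ = g := by
    intro g hg
    obtain ⟨⟨a, b⟩, h, rfl⟩ := Finset.mem_image.1 hg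
    rw [Finset.mem_product] at h
    exact ⟨a, h.1, b, h.2, rfl⟩
  obtain ⟨N, N', hAbs, hNN, hTN, C, hC⟩ := hd E (by
    intro g hg
    obtain ⟨a, ha, b, hb, rfl⟩ := hEe g hg
    exact M.mul_mem (hFM ha) (M.inv_mem (hFM hb)))
  obtain ⟨ζ₁, hζ₁, habs⟩ := hAbs _ (hVi false) (hVine false)
  have hT : ∀ s ∈ S, ∀ a ∈ F, ∀ b ∈ F, s * (a * b⁻¹) * s⁻¹ ∈ conjs S E :=
    fun s hs a ha b hb => (mem_conjs S E _).2 ⟨s, hs, _, hEm a ha b hb, rfl⟩
  have hT1 : (1 : G) ∈ conjs S E := by
    obtain ⟨s, hs⟩ := hS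
    obtain ⟨a, ha⟩ := hFne
    have := hT s hs a ha a ha
    simpa using this
  have hTi : (conjs S E)⁻¹ = conjs S E := by
    have key : ∀ t ∈ conjs S E, t⁻¹ ∈ conjs S E := by
      intro t ht
      obtain ⟨s, hs, g, hg, rfl⟩ := (mem_conjs S E t).1 ht
      obtain ⟨a, ha, b, hb, rfl⟩ := hEe g hg
      have h1 : (s * (a * b⁻¹) * s⁻¹)⁻¹ = s * (b * a⁻¹) * s⁻¹ := by group
      rw [h1]
      exact hT s hs b hb a ha
    ext t
    rw [Finset.mem_inv']
    constructor
    · intro h
      have := key _ h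
      rwa [inv_inv] at this
    · exact key t
  obtain ⟨r, hr0, hr1, hrav, hsub⟩ := gp N N' F hFne c f hc0 hc1 hf0 hf1 β ζ hβ0 hζ0 S hS hNN (by
    intro y
    have h1 : β * S.card = 1 := by
      rw [hβ]
      field_simp
    rw [h1, one_mul, Finset.sum_comm]
    have h2 : ∀ a ∈ F, (1 : ℝ) ≤ ∑ s ∈ S, c ((s * a) • y) := by
      intro a _
      obtain ⟨s, hs, h3⟩ := hcS (a • y)
      have h4 := Finset.single_le_sum (f := fun s => c ((s * a) • y)) (fun s _ => hc0 _) hs
      refine le_trans (le_of_eq ?_) h4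
      show 1 = c ((s * a) • y)
      rw [mul_smul, h3]
    refine le_trans (le_of_eq ?_) (Finset.sum_le_sum h2)
    rw [Finset.sum_const, nsmul_eq_mul, mul_one]) (hav F hFM hF) (conjs S E) hT1 hTi hT hTN C d hC
    (by
      rw [hζ]
      apply le_of_eq
      field_simp
      norm_num) (ζ₁ / 2) (by linarith)
  obtain ⟨K₁, ε₁, hK₁, hε₁, hav₁⟩ := hrav
  have hsub2 := habs (dbl r) (fun x => le_min zero_le_one (by have := hr0 x; linarith))
    (fun x => min_le_left _ _) ⟨K₁, ε₁, hK₁, hε₁, fun F' hF' hFol y =>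
      dbl_sum r F' y ζ₁ (hav₁ F' hF' hFol y)⟩
  refine (hsub.union hsub2 ?_).mono ?_ ?_
  · refine Set.disjoint_left.2 fun x hx hx' => ?_
    refine hgd true false (by decide) _ (hcV x hx) _ hx' ?_
    rw [smul_inv_smul, smul_inv_smul]
  · intro x hx
    by_cases h1 : r x ≤ 1 / 2
    · exact Or.inl ⟨hx, h1⟩
    · refine Or.inr ?_
      show dbl r x = 1
      rw [dbl_apply]
      exact min_eq_left (by linarith)
  · rintro x (hx | hx)
    · exact hVV true x (hcV x hx)
    · exact hVV false x hx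

/-- comparison from absorption -/
theorem abs_comp (G : Type u) [Group G] [Countable G] [Infinite G]
    (hA : AmS (⊤ : Subgroup G))
    (X : Type u) [TopologicalSpace X] [CompactSpace X] [TopologicalSpace.MetrizableSpace X]
    [MeasurableSpace X] [BorelSpace X] [MulAction G X] [ContinuousConstSMul G X]
    (hf : FreeAct G X) (hAbs : Abs G X (⊤ : Subgroup G)) (K V : Set X)
    (hK : IsCompact K) (hV : IsOpen V) (hVne : V.Nonempty)
    (hμ : ∀ μ : MeasureTheory.Measure X, MeasureTheory.IsProbabilityMeasure μ →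
      (∀ (g : G) (s : Set X), MeasurableSet s → μ ((fun x => g • x) ⁻¹' s) = μ s) → μ K < μ V) :
    SubEq G K V := by
  classical
  obtain ⟨p, hp⟩ := hVne
  have hXne : Nonempty X := ⟨p⟩
  -- the basic inequality
  obtain ⟨f, g, Ks, ε, γ, hε, hγ, hf0, hf1, hg0, hgK, hfV, hS⟩ := kl G X hf K V p hK hV hμ
  let b : C(X, ℝ) := ⟨fun x => max (f x - γ / 2) 0,
    (f.continuous.sub continuous_const).max continuous_const⟩
  have hbd : ∀ x, b x = max (f x - γ / 2) 0 := fun x => rfl
  have hb0 : ∀ x, 0 ≤ b x := fun x => le_max_right _ _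
  have hb1 : ∀ x, b x ≤ 1 := fun x => by
    rw [hbd]
    exact max_le (by have := hf1 x; linarith) zero_le_one
  have hbV : ∀ x, 0 < b x → γ / 2 < f x := by
    intro x hx
    rw [hbd, lt_max_iff] at hx
    rcases hx with h | h
    · linarith
    · exact absurd h (lt_irrefl _)
  let a : C(X, ℝ) := ⟨fun x => min 1 (g x), continuous_const.min g.continuous⟩
  have ha : ∀ x, a x = min 1 (g x) := fun x => rfl
  -- the reserved open set
  obtain ⟨ζ, hζ, habs⟩ := hAbs (V ∩ {x | f x < γ / 2})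
    (hV.inter (isOpen_lt f.continuous continuous_const)) ⟨p, hp, by
      have h1 : ¬ 0 < f p := fun h => (hfV p h).2 rfl
      show f p < γ / 2
      linarith⟩
  have hGF : ∃ F : Finset G, Fol Ks ε F := by
    obtain ⟨F, -, hF⟩ := hA Ks ε hε (fun _ _ => trivial)
    exact ⟨F, hF⟩
  obtain ⟨rA, hrA0, hrA1, ⟨KA, εA, -, hεA, hA'⟩, hsubA⟩ := ph (1 : G →* Unit) (fun _ => (1 : G))
    (fun _ => rfl) (X := X) {()} {()} ⟨(), Finset.mem_singleton_self _⟩
    (fun _ _ _ _ => Finset.mem_singleton_self _) b a hb0 hb1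
    (fun x => by rw [ha]; exact le_min zero_le_one (hg0 x))
    (fun x => by rw [ha]; exact min_le_left _ _) (by
    intro ω _ hω
    obtain ⟨F, hF⟩ := hGF
    have h1 := int_fol (1 : G →* Unit) (fun _ => (1 : G)) (fun _ => rfl) ω hω (b - a) 0 {()} F
      (fun _ _ => rfl) hF.1 (by
      intro y
      rw [prodF_unit, zero_mul]
      have h2 := hS F hF y
      have h3 : ∑ s ∈ F, (f (s • y) - g (s • y) - γ / 2) ≤ ∑ s ∈ F, (b - a) (s • y) := by
        refine Finset.sum_le_sum fun s _ => ?_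
        rw [ContinuousMap.sub_apply, hbd, ha]
        have h4 := le_max_left (f (s • y) - γ / 2) 0
        have h5 := min_le_right 1 (g (s • y))
        linarith
      rw [Finset.sum_sub_distrib, Finset.sum_const, nsmul_eq_mul] at h3
      have h6 : (0 : ℝ) ≤ γ * F.card := by positivity
      linarith)
    rw [zero_mul, zero_mul, Finset.sum_singleton] at h1
    rw [Finset.sum_singleton, Finset.sum_singleton]
    have h2 : ∫ y, (b - a) ((1 : G) • y) ∂ω =
        ∫ y, b ((1 : G) • y) ∂ω - ∫ y, a ((1 : G) • y) ∂ω :=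
      integral_sub (int_cont ω _ (b.continuous.comp (continuous_const_smul _)))
        (int_cont ω _ (a.continuous.comp (continuous_const_smul _)))
    rw [h2] at h1
    linarith) (ζ / 2) (by linarith)
  have hsubB := habs (dbl rA) (fun x => le_min zero_le_one (by have := hrA0 x; linarith))
    (fun x => min_le_left _ _) ⟨KA, εA, fun _ _ => trivial, hεA, fun F _ hF y =>
      dbl_sum rA F y ζ (hA' F (fun _ _ => rfl) hF y)⟩
  refine (hsubA.union hsubB ?_).mono ?_ ?_
  · refine Set.disjoint_left.2 fun x hx hx' => ?_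
    have h1 := hbV x hx
    have h2 : f x < γ / 2 := hx'.2
    linarith
  · intro x hx
    have hax : a x = 1 := by rw [ha, hgK x hx, min_self]
    by_cases h1 : rA x ≤ 1 / 2
    · exact Or.inl ⟨hax, h1⟩
    · refine Or.inr ?_
      show dbl rA x = 1
      rw [dbl_apply]
      exact min_eq_left (by linarith)
  · rintro x (hx | hx)
    · exact (hfV x (lt_trans (by linarith) (hbV x hx))).1
    · exact hx.1

/-- `P` is a class of subgroups of `G` which contains the trivial subgroup and which contains `M` if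
for every finite subset `S` of `G` there is a natural number `d` such that for every finite subset
`E` of `M` there are subgroups `N` and `N'` of `G`, with `N'` in the class and `s⁻¹ N s ⊆ N'` for all
`s ∈ S`, such that the set `T` of all `s g s⁻¹` with `s ∈ S` and `g ∈ E` normalises `N` and has
polynomial growth of degree at most `d` modulo `N`. -/
structure PolyClass (G : Type u) [Group G] (P : Subgroup G → Prop) : Prop where
  bot : P ⊥
  step : ∀ M : Subgroup G, (∀ S : Finset G, ∃ d : ℕ, ∀ E : Finset G, (∀ g ∈ E, g ∈ M) →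
    ∃ N N' : Subgroup G, P N' ∧ (∀ s ∈ S, ∀ n ∈ N, s⁻¹ * n * s ∈ N') ∧
      (∀ s ∈ S, ∀ g ∈ E, ∀ n ∈ N, (s * g * s⁻¹) * n * (s * g * s⁻¹)⁻¹ ∈ N) ∧
      ∃ C : ℕ, ∀ n : ℕ, ((fun g : G => (g : G ⧸ N)) ''
        ({t : G | ∃ s ∈ S, ∃ g ∈ E, s * g * s⁻¹ = t} ^ n)).ncard ≤ C * (n + 1) ^ d) → P M

/-- `G` belongs to every class of subgroups of `G` with the closure properties of `PolyClass` -/
def PolyReach (G : Type u) [Group G] : Prop :=
  ∀ P : Subgroup G → Prop, PolyClass G P → P ⊤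

open Classical in
theorem conjs_coe {G : Type u} [Group G] (S E : Finset G) :
    ({t : G | ∃ s ∈ S, ∃ g ∈ E, s * g * s⁻¹ = t} : Set G) = (conjs S E : Set G) := by
  ext t
  rw [Finset.mem_coe, mem_conjs]
  rfl

open Classical in
theorem cs_ncard {G : Type u} [Group G] (N : Subgroup G) (T : Finset G) (n : ℕ) :
    ((fun g : G => (g : G ⧸ N)) '' ((T : Set G) ^ n)).ncard = (cs N T n).card := by
  rw [← Finset.coe_pow, ← Finset.coe_image, Set.ncard_coe_finset]
  rfl

open Classical in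
theorem reach_abs (G : Type u) [Group G] [Countable G] [Infinite G] (hG : PolyReach G)
    (X : Type u) [TopologicalSpace X] [CompactSpace X] [TopologicalSpace.MetrizableSpace X]
    [MeasurableSpace X] [BorelSpace X] [MulAction G X] [ContinuousConstSMul G X]
    (hf : FreeAct G X) (hm : MinAct G X) :
    AmS (⊤ : Subgroup G) ∧ Abs G X (⊤ : Subgroup G) := by
  refine hG (fun M => AmS M ∧ Abs G X M) ⟨⟨ams_bot, abs_bot G X⟩, fun M hM => ?_⟩
  have key : ∀ S : Finset G, ∃ d : ℕ, ∀ E : Finset G, (∀ g ∈ E, g ∈ M) →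
      ∃ N N' : Subgroup G, (AmS N' ∧ Abs G X N') ∧ (∀ s ∈ S, ∀ n ∈ N, s⁻¹ * n * s ∈ N') ∧
        (∀ t ∈ conjs S E, ∀ n ∈ N, t * n * t⁻¹ ∈ N) ∧
        ∃ C : ℕ, ∀ n : ℕ, (cs N (conjs S E) n).card ≤ C * (n + 1) ^ d := by
    intro S
    obtain ⟨d, hd⟩ := hM S
    refine ⟨d, fun E hE => ?_⟩
    obtain ⟨N, N', h1, h2, h3, C, hC⟩ := hd E hE
    refine ⟨N, N', h1, h2, ?_, C, fun n => ?_⟩
    · intro t ht n hn
      obtain ⟨s, hs, g, hg, rfl⟩ := (mem_conjs S E t).1 ht
      exact h3 s hs g hg n hn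
    · have h4 := hC n
      rw [conjs_coe, cs_ncard] at h4
      exact h4
  have hA : AmS M := by
    refine ams_step M fun E hE => ?_
    obtain ⟨d, hd⟩ := key {1}
    obtain ⟨N, N', ⟨h1, _⟩, h2, _, C, hC⟩ := hd E hE
    have hNN : N ≤ N' := by
      intro n hn
      have := h2 1 (Finset.mem_singleton_self _) n hn
      simpa using this
    refine ⟨N, ams_mono hNN h1, C, d, fun n => le_trans (Finset.card_le_card ?_) (hC n)⟩
    refine Finset.image_subset_image (Finset.pow_subset_pow_left ?_)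
    intro g hg
    exact (mem_conjs {1} E g).2 ⟨1, Finset.mem_singleton_self _, g, hg, by group⟩
  refine ⟨hA, abs_step G X hf hm M hA fun S => ?_⟩
  obtain ⟨d, hd⟩ := key S
  refine ⟨d, fun E hE => ?_⟩
  obtain ⟨N, N', h1, h2, h3, h4⟩ := hd E hE
  exact ⟨N, N', h1.2, h2, h3, h4⟩

theorem reach_comp (G : Type) [Group G] [Countable G] (hG : PolyReach G)
    (X : Type) [TopologicalSpace X] [CompactSpace X] [TopologicalSpace.MetrizableSpace X]
    [MeasurableSpace X] [BorelSpace X] [MulAction G X] [ContinuousConstSMul G X]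
    (hf : FreeAct G X) (hm : MinAct G X) (K V : Set X) (hK : IsCompact K) (hV : IsOpen V)
    (hVne : V.Nonempty)
    (hμ : ∀ μ : MeasureTheory.Measure X, MeasureTheory.IsProbabilityMeasure μ →
      (∀ (g : G) (s : Set X), MeasurableSet s → μ ((fun x => g • x) ⁻¹' s) = μ s) → μ K < μ V) :
    SubEq G K V := by
  rcases finite_or_infinite G with hGf | hGi
  · exact t_FING G X hf hm K V hK hV hμ
  · obtain ⟨h1, h2⟩ := reach_abs G hG X hf hm
    exact abs_comp G h1 X hf h2 K V hK hV hVne hμ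

open Classical in
/-- groups with a finite series of normal subgroups with factors locally of polynomial growth -/
theorem series_reach (G : Type u) [Group G] (N : ℕ → Subgroup G) (k d : ℕ) (h0 : N 0 = ⊥)
    (hk : N k = ⊤) (hn : ∀ i, (N i).Normal)
    (hg : ∀ i < k, ∀ E : Finset G, (∀ g ∈ E, g ∈ N (i + 1)) → ∃ C : ℕ, ∀ n : ℕ,
      ((fun g : G => (g : G ⧸ N i)) '' ((E : Set G) ^ n)).ncard ≤ C * (n + 1) ^ d) :
    PolyReach G := by
  intro P hP
  have key : ∀ i, i ≤ k → P (N i) := by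
    intro i
    induction i with
    | zero =>
      intro _
      rw [h0]
      exact hP.bot
    | succ i ih =>
      intro hi
      refine hP.step _ fun S => ⟨d, fun E hE => ⟨N i, N i, ih (by omega), ?_, ?_, ?_⟩⟩
      · intro s _ n hn'
        have := (hn i).conj_mem n hn' s⁻¹
        rwa [inv_inv] at this
      · intro s _ g _ n hn'
        exact (hn i).conj_mem n hn' _
      · rw [conjs_coe]
        refine hg i (by omega) (conjs S E) fun t ht => ?_
        obtain ⟨s, _, g, hg', rfl⟩ := (mem_conjs S E t).1 ht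
        exact (hn (i + 1)).conj_mem g (hE g hg') s
  rw [← hk]
  exact key k le_rfl

end Pool.Agent.Helper277_FF
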