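import Pool.Agent.Helper277_FF.TowerExt

set_option autoImplicit false

/-!
# Towers from an action with compressible sets
-/

namespace Pool.Agent.Helper277_FF

open Finset Topology

universe u v

section

variable {G : Type u} [Group G] {Z : Type v} [TopologicalSpace Z] [T2Space Z] [MulAction G Z]

theorem exists_pts (D : Finset G) (Y : Set Z) (hY : Y.Infinite) (n : ℕ) :
    ∃ S : Finset Z, S.card = n ∧ (∀ z ∈ S, z ∈ Y) ∧
      ∀ z ∈ S, ∀ z' ∈ S, z ≠ z' → ∀ d ∈ D, ∀ d' ∈ D, d • z ≠ d' • z' := by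
  classical
  induction n with
  | zero => exact ⟨∅, rfl, by simp, by simp⟩
  | succ n ih =>
    obtain ⟨S, hS, hSY, hSd⟩ := ih
    obtain ⟨z, hzY, hz⟩ := hY.exists_notMem_finset
      (S ∪ ((D ×ˢ D) ×ˢ S).image fun r => r.1.1⁻¹ • r.1.2 • r.2)
    rw [Finset.mem_union, not_or] at hz
    have key : ∀ z' ∈ S, ∀ d ∈ D, ∀ d' ∈ D, d • z ≠ d' • z' := by
      intro z' hz' d hd d' hd' he
      refine hz.2 (Finset.mem_image.2 ⟨((d, d'), z'), ?_, ?_⟩)
      · exact Finset.mem_product.2 ⟨Finset.mem_product.2 ⟨hd, hd'⟩, hz'⟩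
      · show d⁻¹ • d' • z' = z
        rw [← he, inv_smul_smul]
    refine ⟨insert z S, ?_, ?_, ?_⟩
    · rw [Finset.card_insert_of_notMem hz.1, hS]
    · intro y hy
      rcases Finset.mem_insert.1 hy with rfl | hy
      · exact hzY
      · exact hSY y hy
    · intro y hy y' hy' hne d hd d' hd'
      rcases Finset.mem_insert.1 hy with h1 | h1
      · rcases Finset.mem_insert.1 hy' with h2 | h2
        · exact absurd (h1.trans h2.symm) hne
        · rw [h1]
          exact key y' h2 d hd d' hd'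
      · rcases Finset.mem_insert.1 hy' with h2 | h2
        · rw [h2]
          exact fun he => key y h1 d' hd' d hd he.symm
        · exact hSd y h1 y' h2 hne d hd d' hd'

theorem dense_free [ContinuousConstSMul G Z] (S : Finset G)
    (hS : ∀ e ∈ S, interior {z : Z | e • z = z} = ∅) :
    IsOpen {z : Z | ∀ e ∈ S, e • z ≠ z} ∧ Dense {z : Z | ∀ e ∈ S, e • z ≠ z} := by
  classical
  induction S using Finset.induction_on with
  | empty => simp
  | insert a S ha ih =>
    obtain ⟨h1, h2⟩ := ih fun e he => hS e (Finset.mem_insert_of_mem he)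
    have hcl : IsClosed {z : Z | a • z = z} :=
      isClosed_eq (continuous_const_smul a) continuous_id
    have h3 : Dense {z : Z | a • z = z}ᶜ :=
      interior_eq_empty_iff_dense_compl.1 (hS a (Finset.mem_insert_self _ _))
    have e : {z : Z | ∀ e ∈ insert a S, e • z ≠ z} =
        {z : Z | a • z = z}ᶜ ∩ {z : Z | ∀ e ∈ S, e • z ≠ z} := by
      ext z
      simp only [Set.mem_ofPred_eq, Finset.forall_mem_insert, Set.mem_inter_iff, Set.mem_compl_iff]
    rw [e]
    exact ⟨hcl.isOpen_compl.inter h1, h3.inter_of_isOpen_left h2 hcl.isOpen_compl⟩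

theorem exists_open [ContinuousConstSMul G Z] [Nonempty Z] (D : Finset G)
    (hperf : ∀ z : Z, ¬ IsOpen ({z} : Set Z))
    (hfix : ∀ g : G, interior {z : Z | g • z = z} = ∅ ∨ ∀ z : Z, g • z = z) (n : ℕ) :
    ∃ W : Fin n → Set Z, (∀ i, IsOpen (W i)) ∧ (∀ i, (W i).Nonempty) ∧
      ∀ i j, ∀ d ∈ D, ∀ d' ∈ D, (i ≠ j ∨ ¬ ∀ z : Z, (d'⁻¹ * d) • z = z) →
        ∀ z ∈ W i, ∀ z' ∈ W j, d • z ≠ d' • z' := by
  classical
  set E : Finset G := ((D ×ˢ D).image fun r => r.2⁻¹ * r.1).filter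
    fun e => interior {z : Z | e • z = z} = ∅ with hE
  obtain ⟨hYo, hYd⟩ := dense_free (Z := Z) E fun e he => (Finset.mem_filter.1 he).2
  have hYne : {z : Z | ∀ e ∈ E, e • z ≠ z}.Nonempty := hYd.nonempty
  have hYinf : {z : Z | ∀ e ∈ E, e • z ≠ z}.Infinite := by
    obtain ⟨y, hy⟩ := hYne
    have : (𝓝[≠] y).NeBot := ⟨fun h => hperf y ((isOpen_singleton_iff_punctured_nhds y).2 h)⟩
    exact infinite_of_mem_nhds y (hYo.mem_nhds hy)
  obtain ⟨S, hSc, hSY, hSd⟩ := exists_pts D _ hYinf n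
  let zz : Fin n → Z := fun i => ((S.equivFinOfCardEq hSc).symm i : Z)
  have hzS : ∀ i, zz i ∈ S := fun i => ((S.equivFinOfCardEq hSc).symm i).2
  have hzi : Function.Injective zz :=
    Subtype.val_injective.comp (S.equivFinOfCardEq hSc).symm.injective
  have hzz : ∀ i j, ∀ d ∈ D, ∀ d' ∈ D, (i ≠ j ∨ ¬ ∀ z : Z, (d'⁻¹ * d) • z = z) →
      d • zz i ≠ d' • zz j := by
    intro i j d hd d' hd' h
    by_cases hij : i = j
    · subst hij
      rcases h with h | h
      · exact absurd rfl h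
      · rcases hfix (d'⁻¹ * d) with h1 | h1
        · intro he
          refine hSY _ (hzS i) (d'⁻¹ * d) ?_ ?_
          · exact Finset.mem_filter.2 ⟨Finset.mem_image.2 ⟨(d, d'),
              Finset.mem_product.2 ⟨hd, hd'⟩, rfl⟩, h1⟩
          · rw [mul_smul, he, inv_smul_smul]
        · exact absurd h1 h
    · exact hSd _ (hzS i) _ (hzS j) (fun h' => hij (hzi h')) d hd d' hd'
  set Pt : Set Z := (fun r : G × Fin n => r.1 • zz r.2) '' ((D : Set G) ×ˢ Set.univ) with hPt
  have hPtf : Pt.Finite := (D.finite_toSet.prod Set.finite_univ).image _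
  obtain ⟨U, hU, hUd⟩ := hPtf.t2_separation
  refine ⟨fun i => ⋂ d ∈ D, (fun z => d • z) ⁻¹' U (d • zz i), fun i => ?_, fun i => ⟨zz i, ?_⟩, ?_⟩
  · exact isOpen_biInter_finset fun d _ => (hU _).2.preimage (continuous_const_smul d)
  · exact Set.mem_iInter₂.2 fun d _ => (hU _).1
  · intro i j d hd d' hd' h z hz z' hz' he
    have h1 : d • z ∈ U (d • zz i) := Set.mem_iInter₂.1 hz d hd
    have h2 : d' • z' ∈ U (d' • zz j) := Set.mem_iInter₂.1 hz' d' hd'
    rw [he] at h1
    exact Set.disjoint_left.1 (hUd ⟨(d, i), ⟨hd, trivial⟩, rfl⟩ ⟨(d', j), ⟨hd', trivial⟩, rfl⟩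
      (hzz i j d hd d' hd' h)) h1 h2

/-- elements commuting with `N` act trivially -/
theorem trivial_of_comm [ContinuousConstSMul G Z] (N : Subgroup G) (O : Set Z)
    (hO : ∀ W : Set Z, IsOpen W → W.Nonempty → ∃ n ∈ N, ∀ z ∈ O, n • z ∈ W)
    (k : ℕ) (n : Fin k → G) (hk : 0 < k) (hn : ∀ i, n i ∈ N)
    (hcov : ∀ z : Z, 3 * k ≤ 4 * Nat.card {i // n i • z ∈ O}) (l : G)
    (hl : ∀ t ∈ N, l * t = t * l) (z : Z) : l • z = z := by
  classical
  by_contra hne
  obtain ⟨U, U', hU, hU', hzU, hzU', hd⟩ := t2_separation (Ne.symm hne)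
  obtain ⟨c, hc, hcO⟩ := hO (U ∩ (fun z => l • z) ⁻¹' U')
    (hU.inter (hU'.preimage (continuous_const_smul l))) ⟨z, hzU, hzU'⟩
  have key : ∀ y ∈ O, l • y ∉ O := by
    intro y hy hly
    have h1 := (hcO y hy).2
    have h2 := (hcO _ hly).1
    have h3 : c • l • y = l • c • y := by rw [← mul_smul, ← mul_smul, hl c hc]
    rw [h3] at h2
    exact Set.disjoint_left.1 hd h2 h1
  have hcard : ∀ y : Z, Nat.card {i // n i • y ∈ O} = (univ.filter fun i => n i • y ∈ O).card := by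
    intro y
    rw [Nat.card_eq_fintype_card, Fintype.card_subtype]
  have h1 := hcov z
  have h2 := hcov (l • z)
  rw [hcard] at h1 h2
  have h3 : Disjoint (univ.filter fun i => n i • z ∈ O) (univ.filter fun i => n i • l • z ∈ O) := by
    rw [Finset.disjoint_left]
    intro i hi hi'
    rw [Finset.mem_filter] at hi hi'
    refine key _ hi.2 ?_
    have h4 : l • n i • z = n i • l • z := by rw [← mul_smul, ← mul_smul, hl _ (hn i)]
    rw [h4]
    exact hi'.2
  have h4 := Finset.card_le_univ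
    ((univ.filter fun i => n i • z ∈ O) ∪ (univ.filter fun i => n i • l • z ∈ O))
  rw [Finset.card_union_of_disjoint h3, Fintype.card_fin] at h4
  omega

theorem towers_of_boundary [ContinuousConstSMul G Z] [Nonempty Z]
    (hperf : ∀ z : Z, ¬ IsOpen ({z} : Set Z)) (B N : Subgroup G)
    (hB : ∀ b ∈ B, ∀ z : Z, b • z = z) (O : Set Z)
    (hO : ∀ W : Set Z, IsOpen W → W.Nonempty → ∃ n ∈ N, ∀ z ∈ O, n • z ∈ W)
    (hcov : ∃ (k : ℕ) (n : Fin k → G), 0 < k ∧ (∀ i, n i ∈ N) ∧
      ∀ z : Z, 3 * k ≤ 4 * Nat.card {i // n i • z ∈ O})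
    (hfix : ∀ g : G, interior {z : Z | g • z = z} = ∅ ∨ ∃ b ∈ B, ∃ l : G,
      (∀ t ∈ N, l * t = t * l) ∧ (∀ t ∈ B, l * t = t * l) ∧ g = b * l)
    (D : Finset G) (M : ℕ) : HasTowers B D M := by
  classical
  obtain ⟨k, n, hk, hn, hc⟩ := hcov
  obtain ⟨z₀⟩ := ‹Nonempty Z›
  have hfix' : ∀ g : G, interior {z : Z | g • z = z} = ∅ ∨ ∀ z : Z, g • z = z := by
    intro g
    rcases hfix g with h | ⟨b, hb, l, hl, -, rfl⟩
    · exact Or.inl h
    · refine Or.inr fun z => ?_
      rw [mul_smul, trivial_of_comm N O hO k n hk hn hc l hl z, hB b hb]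
  have : Nonempty Z := ⟨z₀⟩
  obtain ⟨W, hW, hWne, hWd⟩ := exists_open D hperf hfix' (k * M)
  choose c hcN hcO using fun r : Fin k × Fin M => hO (W (finProdFinEquiv r)) (hW _) (hWne _)
  set K : Subgroup G := (MulAction.toPermHom G Z).ker with hK
  have hKm : ∀ g : G, g ∈ K ↔ ∀ z : Z, g • z = z := by
    intro g
    rw [hK, MonoidHom.mem_ker]
    constructor
    · intro h z
      have := congrArg (fun p : Equiv.Perm Z => p z) h
      exact this
    · intro h
      ext z
      exact h z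
  let cls : G → G := fun g => ((g : G ⧸ K).out)
  have hcls : ∀ (g : G) (z : Z), (cls g)⁻¹ • g • z = z := by
    intro g z
    have h1 : (cls g)⁻¹ * g ∈ K := by
      rw [← QuotientGroup.eq]
      exact QuotientGroup.out_eq' _
    rw [← mul_smul]
    exact (hKm _).1 h1 z
  have hcls2 : ∀ g g' : G, cls g = cls g' ↔ ∀ z : Z, (g'⁻¹ * g) • z = z := by
    intro g g'
    rw [← hKm]
    constructor
    · intro h
      rw [← QuotientGroup.eq]
      have h1 : ((cls g : G) : G ⧸ K) = g := QuotientGroup.out_eq' _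
      have h2 : ((cls g' : G) : G ⧸ K) = g' := QuotientGroup.out_eq' _
      rw [← h1, ← h2, h]
    · intro h
      have h1 : (g' : G ⧸ K) = g := QuotientGroup.eq.2 h
      show ((g : G ⧸ K).out) = ((g' : G ⧸ K).out)
      rw [h1]
  refine ⟨k, fun r => c r * n r.1, fun r => {h | n r.1 • h • z₀ ∈ O},
    fun p => {g | p.2⁻¹ • g • z₀ ∈ W (finProdFinEquiv p.1)}, cls, hk, ?_, ?_, ?_, ?_⟩
  · intro d _ r f hf h hh
    show (cls d)⁻¹ • (d * (c r * n r.1) * f * h) • z₀ ∈ W (finProdFinEquiv r)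
    have e : (d * (c r * n r.1) * f * h) • z₀ = d • c r • n r.1 • h • z₀ := by
      simp only [mul_smul]
      rw [hB f hf]
    rw [e, hcls]
    exact hcO r _ hh
  · intro d hd d' hd' r r' hne
    rw [Set.disjoint_left]
    intro g hg hg'
    have h1 : (cls d)⁻¹ • g • z₀ ∈ W (finProdFinEquiv r) := hg
    have h2 : (cls d')⁻¹ • g • z₀ ∈ W (finProdFinEquiv r') := hg'
    have h3 : ∀ (e : G) (z : Z), e • (cls e)⁻¹ • z = z := by
      intro e z
      have h4 := hcls e (e⁻¹ • z)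
      rw [smul_inv_smul] at h4
      rw [h4, smul_inv_smul]
    refine hWd _ _ d hd d' hd' ?_ _ h1 _ h2 ?_
    · by_contra hcon
      push Not at hcon
      exact hne (Prod.ext (finProdFinEquiv.injective hcon.1) ((hcls2 d d').2 hcon.2))
    · rw [h3, h3]
  · intro h χ
    exact hc (h • z₀)
  · intro d _ d' _ he
    have h1 := (hcls2 d d').1 he
    rcases hfix (d'⁻¹ * d) with h | ⟨b, hb, l, hl, hl', hbl⟩
    · exfalso
      have h2 : {z : Z | (d'⁻¹ * d) • z = z} = Set.univ := Set.eq_univ_of_forall h1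
      rw [h2, interior_univ] at h
      exact Set.empty_ne_univ h.symm
    · exact ⟨b, hb, l, fun r => hl _ (N.mul_mem (hcN r) (hn r.1)), hl', hbl⟩

end

end Pool.Agent.Helper277_FF
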