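import Pool.Agent.Helper277_FF.Windows

set_option autoImplicit false

/-!
# Comparison from paradoxical towers, modulo a normal subgroup of locally polynomial growth
-/

namespace Pool.Agent.Helper277_FF

open Finset Pool.Agent.H107ZS Pool.Agent.Helper277_DC Pointwise

universe u v w

open Classical in
theorem tower_ext2 {G X : Type} [Group G] [TopologicalSpace X] [CompactSpace X] [T2Space X]
    [MulAction G X] [ContinuousConstSMul G X] (B : Subgroup G) [B.Normal]
    (hPG : ∀ E : Finset G, (∀ e ∈ E, e ∈ B) →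
      ∃ C d : ℕ, ∀ n : ℕ, ((E : Set G) ^ n).ncard ≤ C * (n + 1) ^ d)
    (k₀ : ℕ) (hk₀ : 0 < k₀) (htow : ∀ (D : Finset G) (M : ℕ), HasTowers2 B k₀ D M)
    (hfree : FreeAct G X) (hmin : MinAct G X) (ham : TopAmC G X)
    (V : Set X) (hV : IsOpen V) (hVne : V.Nonempty) : SubEq G Set.univ V := by
  have hGinf : Infinite G := infinite_of_towers B k₀ htow
  have hk₀r : (0 : ℝ) < k₀ := by exact_mod_cast hk₀
  -- windows
  set q₀ : ℕ := 2 * k₀ with hq₀
  set S₁ : ℕ := q₀ + 1 with hS₁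
  have hS₁r : (0 : ℝ) < S₁ := by rw [hS₁]; positivity
  set δ : ℝ := 1 / (4 * k₀ * S₁) with hδdef
  have hδ : 0 < δ := by positivity
  let mid : Fin S₁ → ℝ := fun s => 1 / (2 * k₀) + ((s : ℕ) + 1 / 2) * δ
  have hSδ : S₁ * δ = 1 / (4 * k₀) := by
    rw [hδdef]
    field_simp
  have hmid1 : ∀ s, 1 / (2 * (k₀ : ℝ)) < mid s := fun s => by
    have : (0 : ℝ) < ((s : ℕ) + 1 / 2) * δ := by positivity
    simp only [mid]
    linarith
  have hmid2 : ∀ s, mid s < 3 / (4 * (k₀ : ℝ)) := fun s => by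
    have h1 : ((s : ℕ) : ℝ) + 1 ≤ S₁ := by exact_mod_cast s.2
    have h2 : (((s : ℕ) : ℝ) + 1 / 2) * δ < S₁ * δ := mul_lt_mul_of_pos_right (by linarith) hδ
    have h3 : 3 / (4 * (k₀ : ℝ)) = 1 / (2 * k₀) + 1 / (4 * k₀) := by field_simp; norm_num
    simp only [mid]
    rw [h3, ← hSδ]
    linarith
  -- the small set
  obtain ⟨gj, V₀, hV₀, hV₀ne, hV₀V, hV₀d⟩ := exists_translates hfree hmin V hV hVne
    (Fin S₁ × Fin q₀)
  obtain ⟨b, D, hb0, hb1, hbV, hDne, hD⟩ := exists_return hmin V₀ hV₀ hV₀ne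
  have hDc : 0 < D.card := hDne.card_pos
  set M : ℕ := D.card * (2 * D.card ^ 2 + 1) with hM
  have hMpos : 0 < M := by positivity
  obtain ⟨t, A, Ps, cls, hmove, hP, hcovA, hcls⟩ := htow D M
  -- classes
  have hbl : ∀ g : G, ∃ bl : G × G, bl.1 ∈ B ∧
      ((∀ r, bl.2 * t r = t r * bl.2) ∧ (∀ f ∈ B, bl.2 * f = f * bl.2)) ∧
      ((∃ d ∈ D, ∃ d' ∈ D, cls d = cls d' ∧ d'⁻¹ * d = g) → g = bl.1 * bl.2) := by
    intro g
    by_cases h : ∃ d ∈ D, ∃ d' ∈ D, cls d = cls d' ∧ d'⁻¹ * d = g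
    · obtain ⟨d, hd, d', hd', h1, h2⟩ := h
      obtain ⟨b₁, hb₁, l, h3, h4, h5⟩ := hcls d hd d' hd' h1
      exact ⟨(b₁, l), hb₁, ⟨h3, h4⟩, fun _ => by rw [← h2, h5]⟩
    · exact ⟨(1, 1), B.one_mem, ⟨fun _ => by rw [one_mul, mul_one],
        fun _ _ => by rw [one_mul, mul_one]⟩, fun h' => absurd h' h⟩
  choose bl hbl1 hbl2 hbl3 using hbl
  set E' : Finset G := ((univ : Finset (Fin k₀ × Fin M)) ×ˢ D ×ˢ D).image
    fun r => (t r.1)⁻¹ * (bl (r.2.1⁻¹ * r.2.2)).1 * t r.1 with hE'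
  set L₀ : Finset G := (D ×ˢ D).image fun r => (bl (r.1⁻¹ * r.2)).2 with hL₀
  have hL₀c : L₀.card ≤ D.card ^ 2 := by
    refine Finset.card_image_le.trans ?_
    rw [Finset.card_product, sq]
  have hE1 : ∀ e ∈ E', e ∈ B := by
    intro e he
    obtain ⟨r, _, rfl⟩ := Finset.mem_image.1 he
    have h1 := (inferInstance : B.Normal).conj_mem _ (hbl1 (r.2.1⁻¹ * r.2.2)) (t r.1)⁻¹
    rwa [inv_inv] at h1
  set S₀ : Finset G := E' ∪ E'⁻¹ ∪ {1} with hS₀
  have hS1 : ∀ e ∈ S₀, e ∈ B := by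
    intro e he
    rw [hS₀, Finset.mem_union, Finset.mem_union] at he
    rcases he with (he | he) | he
    · exact hE1 e he
    · have := hE1 _ (Finset.mem_inv'.1 he)
      rwa [inv_mem_iff] at this
    · rw [Finset.mem_singleton.1 he]
      exact B.one_mem
  have hSpow : ∀ n : ℕ, ∀ g ∈ S₀ ^ n, g ∈ B := by
    intro n
    induction n with
    | zero =>
      intro g hg
      rw [pow_zero, Finset.mem_one] at hg
      rw [hg]
      exact B.one_mem
    | succ n ih =>
      intro g hg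
      rw [pow_succ] at hg
      obtain ⟨x, hx, y, hy, rfl⟩ := Finset.mem_mul.1 hg
      exact B.mul_mem (ih x hx) (hS1 y hy)
  have h1S : (1 : G) ∈ S₀ := Finset.mem_union_right _ (Finset.mem_singleton_self _)
  have hSinv : S₀⁻¹ = S₀ := by
    rw [hS₀]
    exact sym_union E'
  obtain ⟨Cg, dg, hgr⟩ := hPG S₀ hS1
  obtain ⟨C₁, hC₁, hsets⟩ := exists_sets S₀ h1S hSinv Cg dg (fun n => by
    have := hgr n
    rw [← Finset.coe_pow, Set.ncard_coe_finset] at this
    exact this)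
  obtain ⟨k, hk⟩ := exists_nat_gt (2 * (C₁ ^ 2 * (L₀.card : ℝ) ^ 2) + 1)
  have hq0 : 0 ≤ C₁ ^ 2 * (L₀.card : ℝ) ^ 2 := by positivity
  have hkr : (1 : ℝ) < k := by linarith
  have hk0 : 0 < k := by
    have : (0 : ℝ) < k := by linarith
    exact_mod_cast this
  obtain ⟨F, hFne, hFS, hF1, hF2, hF3, hF4⟩ := hsets (1 / k) (by positivity) (by
    rw [div_le_one (by linarith)]
    exact hkr.le)
  have hFq : ∀ s, ∀ f ∈ F s, f ∈ B := by
    intro s f hf
    obtain ⟨n, hn⟩ := hFS s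
    rw [hn] at hf
    exact hSpow n f hf
  -- the moves
  have hDN : Nonempty D := ⟨⟨hDne.choose, hDne.choose_spec⟩⟩
  have hne1 : Nonempty (Fin k₀ × Fin M) := ⟨(⟨0, hk₀⟩, ⟨0, hMpos⟩)⟩
  have hne2 : Nonempty (Fin S₁ × Fin q₀) := ⟨(⟨0, by omega⟩, ⟨0, by omega⟩)⟩
  set mv : (Fin S₁ × Fin q₀) × (Fin k₀ × Fin M) × D × G →
      ((Fin S₁ × Fin q₀) × ((Fin k₀ × Fin M) × G)) × G := fun r =>
    ((r.1, (r.2.1, cls r.2.2.1)), gj r.1 * ((r.2.2.1 : G) * t r.2.1 * r.2.2.2)) with hmv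
  set MM : ℕ → Finset (((Fin S₁ × Fin q₀) × ((Fin k₀ × Fin M) × G)) × G) := fun s =>
    ((univ : Finset (Fin S₁ × Fin q₀)) ×ˢ (univ : Finset (Fin k₀ × Fin M)) ×ˢ
      (univ : Finset D) ×ˢ F s).image mv with hMM
  obtain ⟨m, L, hL0, hLm, hm1, hm2⟩ := exists_concat MM (fun s => by
    refine Finset.Nonempty.image ?_ _
    exact Finset.univ_nonempty.product (Finset.univ_nonempty.product
      (Finset.univ_nonempty.product (hFne s))))
    ((Classical.arbitrary _, (Classical.arbitrary _, 1)), 1)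
  have hstage : ∀ s i, i < L s → ∃ s' < s, L s' ≤ i ∧ i < L (s' + 1) := by
    intro s
    induction s with
    | zero => intro i hi; rw [hL0] at hi; omega
    | succ s ih =>
      intro i hi
      by_cases h : i < L s
      · obtain ⟨s', hs', h1⟩ := ih i h
        exact ⟨s', by omega, h1⟩
      · exact ⟨s, by omega, by omega, hi⟩
  -- the field of probability vectors
  obtain ⟨F₁, N, hN0, hNc, hNF, hN1, hNi⟩ := exists_field (X := X)
    ((range (L (k + 1))).image fun i => (gj (m i).1.1)⁻¹ * (m i).2) (1 / (4 * k₀))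
    (by positivity) ham
  -- the kinds
  set KD : Finset ((Fin k₀ × Fin M) × G) :=
    (univ : Finset (Fin k₀ × Fin M)) ×ˢ (D.image cls) with hKD
  have hKDd : ∀ l ∈ KD, ∀ l' ∈ KD, l ≠ l' → Disjoint (Ps l) (Ps l') := by
    rintro ⟨r, e⟩ hl ⟨r', e'⟩ hl' hne
    obtain ⟨d, hd, rfl⟩ := Finset.mem_image.1 (Finset.mem_product.1 hl).2
    obtain ⟨d', hd', rfl⟩ := Finset.mem_image.1 (Finset.mem_product.1 hl').2
    exact hP d hd d' hd' r r' hne
  let idx : (Fin k₀ × Fin M) × G → ℕ := fun l =>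
    if h : l ∈ KD then (KD.equivFin ⟨l, h⟩ : ℕ) else 0
  have hidx : ∀ a ∈ KD, ∀ b ∈ KD, idx a = idx b → a = b := by
    intro a ha b hb h
    simp only [idx, dif_pos ha, dif_pos hb] at h
    exact congrArg Subtype.val (KD.equivFin.injective (Fin.val_injective h))
  set ms : X → ((Fin k₀ × Fin M) × G) → ℝ := fun z l => mass F₁ N (Ps l) z with hms
  have hmsum : ∀ (z : X) (K' : Finset ((Fin k₀ × Fin M) × G)), K' ⊆ KD →
      ∑ l ∈ K', ms z l ≤ 1 := fun z K' hK' =>
    mass_sum F₁ N hN0 z (hN1 z) K' Ps fun i hi j hj => hKDd i (hK' hi) j (hK' hj)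
  have hmany : ∀ (z : X) (K' : Finset ((Fin k₀ × Fin M) × G)), K' ⊆ KD →
      (∀ l ∈ K', 1 / (2 * (k₀ : ℝ)) < ms z l) → K'.card < q₀ := by
    intro z K' hK' h
    rcases K'.eq_empty_or_nonempty with h0 | h0
    · rw [h0, Finset.card_empty]
      omega
    · have h1 : ∑ _l ∈ K', 1 / (2 * (k₀ : ℝ)) < ∑ l ∈ K', ms z l :=
        Finset.sum_lt_sum_of_nonempty h0 h
      rw [Finset.sum_const, nsmul_eq_mul] at h1
      have h2 := lt_of_lt_of_le h1 (hmsum z K' hK')
      rw [mul_one_div, div_lt_one (by positivity)] at h2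
      have h3 : K'.card < 2 * k₀ := by exact_mod_cast h2
      exact h3
  -- a free window
  have hwin : ∀ z : X, ∃ s : Fin S₁, ∀ l ∈ KD, δ / 2 ≤ |ms z l - mid s| := by
    intro z
    by_contra hcon
    push Not at hcon
    choose lam hlam1 hlam2 using hcon
    have hinj : Function.Injective lam := by
      intro s s' h
      have h1 := hlam2 s
      have h2 := hlam2 s'
      rw [h] at h1
      rw [abs_lt] at h1 h2
      simp only [mid] at h1 h2
      have h3 : (((s : ℕ) : ℝ) - (s' : ℕ)) * δ < 1 * δ := by linarith [h1.1, h2.2]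
      have h4 : (((s' : ℕ) : ℝ) - (s : ℕ)) * δ < 1 * δ := by linarith [h1.2, h2.1]
      have h5 := lt_of_mul_lt_mul_right h3 hδ.le
      have h6 := lt_of_mul_lt_mul_right h4 hδ.le
      have h7 : ((s : ℕ) : ℝ) < (s' : ℕ) + 1 := by linarith
      have h8 : ((s' : ℕ) : ℝ) < (s : ℕ) + 1 := by linarith
      have h9 : (s : ℕ) < (s' : ℕ) + 1 := by exact_mod_cast h7
      have h10 : (s' : ℕ) < (s : ℕ) + 1 := by exact_mod_cast h8
      exact Fin.ext (by omega)
    have h1 := hmany z ((univ : Finset (Fin S₁)).image lam) (by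
      intro l hl
      obtain ⟨s, _, rfl⟩ := Finset.mem_image.1 hl
      exact hlam1 s) (by
      intro l hl
      obtain ⟨s, _, rfl⟩ := Finset.mem_image.1 hl
      have h2 := hlam2 s
      rw [abs_lt] at h2
      simp only [mid] at h2
      have h3 : (0 : ℝ) ≤ ((s : ℕ) : ℝ) * δ := by positivity
      linarith [h2.1])
    rw [Finset.card_image_of_injective _ hinj, Finset.card_univ, Fintype.card_fin] at h1
    omega
  set c : (Fin S₁ × Fin q₀) × ((Fin k₀ × Fin M) × G) → X → ℝ := fun l z =>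
    b ((gj l.1)⁻¹ • z) * wgt KD idx (ms ((gj l.1)⁻¹ • z)) δ (mid l.1.1) l.1.2 l.2 with hc
  have hc0 : ∀ l z, 0 ≤ c l z := fun l z => mul_nonneg (hb0 _) (wgt_nonneg _ _ _ _ _ _ _)
  have hc1 : ∀ l z, c l z ≤ 1 := fun l z => mul_le_one₀ (hb1 _) (wgt_nonneg _ _ _ _ _ _ _)
    (wgt_le _ _ _ _ _ _ _)
  have hcc : ∀ l, Continuous (c l) := fun l =>
    (b.continuous.comp (continuous_const_smul _)).mul
      ((wgt_cont KD idx (fun l' z => ms z l') (fun l' => mass_continuous F₁ N hNc _) δ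
        (mid l.1.1) l.1.2 l.2).comp (continuous_const_smul _))
  have hcb : ∀ l z, 0 < c l z → (gj l.1)⁻¹ • z ∈ V₀ ∧
      0 < wgt KD idx (ms ((gj l.1)⁻¹ • z)) δ (mid l.1.1) l.1.2 l.2 := by
    intro l z h
    have h1 : 0 < b ((gj l.1)⁻¹ • z) := by
      refine lt_of_le_of_ne (hb0 _) fun h2 => ?_
      simp only [hc, ← h2, zero_mul, lt_irrefl] at h
    refine ⟨hbV _ h1, ?_⟩
    refine lt_of_le_of_ne (wgt_nonneg _ _ _ _ _ _ _) fun h2 => ?_
    simp only [hc, ← h2, mul_zero, lt_irrefl] at h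
  -- only one kind of targets is active at each point
  have hact : ∀ i < L (k + 1), ∀ j < L (k + 1), ∀ z, 0 < c (m i).1 z → 0 < c (m j).1 z →
      (m i).1 = (m j).1 := by
    intro i hi j hj z h1 h2
    obtain ⟨si, _, hsi1, hsi2⟩ := hstage _ i hi
    obtain ⟨sj, _, hsj1, hsj2⟩ := hstage _ j hj
    obtain ⟨⟨a, r, d, f⟩, _, hr⟩ := Finset.mem_image.1 (hm1 si i hsi1 hsi2)
    obtain ⟨⟨a', r', d', f'⟩, _, hr'⟩ := Finset.mem_image.1 (hm1 sj j hsj1 hsj2)
    have e1 : (m i).1 = (a, (r, cls d)) := by rw [← hr]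
    have e2 : (m j).1 = (a', (r', cls d')) := by rw [← hr']
    rw [e1] at h1 ⊢
    rw [e2] at h2 ⊢
    obtain ⟨h3, h4⟩ := hcb _ _ h1
    obtain ⟨h5, h6⟩ := hcb _ _ h2
    have haa : a = a' := by
      by_contra hne
      refine hV₀d a a' hne _ h3 _ h5 ?_
      rw [smul_inv_smul, smul_inv_smul]
    subst haa
    have h7 : ((r, cls d) : (Fin k₀ × Fin M) × G) ∈ KD := Finset.mem_product.2
      ⟨Finset.mem_univ _, Finset.mem_image_of_mem _ d.2⟩
    have h8 : ((r', cls d') : (Fin k₀ × Fin M) × G) ∈ KD := Finset.mem_product.2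
      ⟨Finset.mem_univ _, Finset.mem_image_of_mem _ d'.2⟩
    rw [wgt_unique hδ a.2 _ _ h7 h8 hidx h4 h6]
  -- every point is served
  have hz : ∀ x, (gr2 m (fun _ => (1 : ℝ)) c (L (k + 1))).1 x = 0 := by
    refine staged m hc0 L hL0 hLm k F S₀ L₀ ?_ C₁ (1 / k) (by positivity) ?_
      (fun s _ => hFne s) (fun s _ => hF1 s) (fun s _ => hF2 s) (hF3 k) (hF4 k) hk0 ?_ hC₁
    · intro l hl f hf
      obtain ⟨r, hr, rfl⟩ := Finset.mem_image.1 hl
      exact (hbl2 _).2 f (hFq k f hf)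
    swap
    · have h1 : C₁ ^ 2 * (L₀.card : ℝ) ^ 2 * (1 / k + 1 / k) =
          2 * (C₁ ^ 2 * (L₀.card : ℝ) ^ 2) / k := by ring
      rw [h1, div_lt_one (by linarith)]
      linarith
    intro x s hs
    choose κ hκ using fun χ => mass_cover F₁ N hN0 x (hN1 x) k₀ hk₀ (fun κ => A (κ, χ))
      (fun h => hcovA h χ)
    choose dd hdd1 hdd2 using fun (r : Fin M × G) => hD ((t (κ r.1, r.1) * r.2) • x)
    -- the point in `V₀`
    let zz : Fin M × G → X := fun r => (dd r * t (κ r.1, r.1) * r.2) • x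
    choose ws hws using fun r : Fin M × G => hwin (zz r)
    let kd : Fin M × G → (Fin k₀ × Fin M) × G := fun r => ((κ r.1, r.1), cls (dd r))
    have hkd : ∀ r, kd r ∈ KD := fun r => Finset.mem_product.2
      ⟨Finset.mem_univ _, Finset.mem_image_of_mem _ (hdd1 r)⟩
    let rk : Fin M × G → ℕ := fun r =>
      ((KD.filter (fun l' => idx l' < idx (kd r))).filter fun l' =>
        mid (ws r) < ms (zz r) l').card
    have hrk : ∀ r, rk r < q₀ := by
      intro r
      refine hmany (zz r) _ ((Finset.filter_subset _ _).trans (Finset.filter_subset _ _)) ?_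
      intro l hl
      exact (hmid1 (ws r)).trans (Finset.mem_filter.1 hl).2
    let jj : Fin M × G → Fin S₁ × Fin q₀ := fun r => (ws r, ⟨rk r, hrk r⟩)
    let tg : Fin M × G → ((Fin S₁ × Fin q₀) × ((Fin k₀ × Fin M) × G)) × X := fun r =>
      ((jj r, kd r), (gj (jj r) * (dd r * t (κ r.1, r.1) * r.2)) • x)
    set T : Finset (((Fin S₁ × Fin q₀) × ((Fin k₀ × Fin M) × G)) × X) :=
      ((univ : Finset (Fin M)) ×ˢ F s).image tg with hT
    have hmem : ∀ r : Fin M × G, r.2 ∈ F s →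
        mv (jj r, (κ r.1, r.1), ⟨dd r, hdd1 r⟩, r.2) ∈ MM s := by
      intro r hr
      exact Finset.mem_image.2 ⟨_, Finset.mem_product.2 ⟨Finset.mem_univ _,
        Finset.mem_product.2 ⟨Finset.mem_univ _,
          Finset.mem_product.2 ⟨Finset.mem_univ _, hr⟩⟩⟩, rfl⟩
    refine ⟨T, ?_, ?_, ?_⟩
    · intro τ hτ
      obtain ⟨r, hr, rfl⟩ := Finset.mem_image.1 hτ
      rw [Finset.mem_product] at hr
      obtain ⟨i, hi, hi', hi2⟩ := hm2 s _ (hmem r hr.2)
      refine ⟨i, hi, hi', ?_⟩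
      rw [hi2]
    · have hcT : ∀ τ ∈ T, c τ.1 τ.2 = 1 := by
        intro τ hτ
        obtain ⟨r, hr, rfl⟩ := Finset.mem_image.1 hτ
        rw [Finset.mem_product] at hr
        have e0 : (gj (jj r))⁻¹ • (gj (jj r) * (dd r * t (κ r.1, r.1) * r.2)) • x = zz r := by
          rw [mul_smul, inv_smul_smul]
        have h1 : b (zz r) = 1 := by
          show b ((dd r * t (κ r.1, r.1) * r.2) • x) = 1
          rw [mul_assoc, mul_smul]
          exact hdd2 r
        obtain ⟨i, hi, hi', hi2⟩ := hm2 s _ (hmem r hr.2)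
        have h2 := mass_push F₁ N hN0 hNF (dd r * t (κ r.1, r.1) * r.2) x (1 / (4 * k₀))
          (hNi _ (Finset.mem_image.2 ⟨i, Finset.mem_range.2
            (lt_of_lt_of_le hi' (hLm (by omega))), by
              rw [hi2]
              exact inv_mul_cancel_left _ _⟩) x) (A (κ r.1, r.1))
          (Ps (kd r)) (by
            intro v hv
            have h4 := hmove (dd r) (hdd1 r) _ r.2 (hFq s _ hr.2) _ hv
            rw [mul_inv_cancel_left] at h4
            exact h4)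
        have h4 : 1 / (k₀ : ℝ) ≤ mass F₁ N (A (κ r.1, r.1)) x := hκ r.1
        have h5 : 3 / (4 * (k₀ : ℝ)) ≤ ms (zz r) (kd r) := by
          have h6 : 3 / (4 * (k₀ : ℝ)) = 1 / k₀ - 1 / (4 * k₀) := by field_simp; norm_num
          have h7 : mass F₁ N (Ps (kd r)) ((dd r * t (κ r.1, r.1) * r.2) • x) =
              ms (zz r) (kd r) := rfl
          rw [h7] at h2
          linarith
        have h8 : wgt KD idx (ms (zz r)) δ (mid (ws r)) (rk r) (kd r) = 1 := by
          refine wgt_one hδ (hws r) _ (hkd r) (lt_of_lt_of_le (hmid2 _) h5) _ ?_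
          rw [cnt_eq hδ fun l hl => (by linarith : δ / 4 ≤ δ / 2).trans (hws r l hl)]
        show b ((gj (jj r))⁻¹ • (gj (jj r) * (dd r * t (κ r.1, r.1) * r.2)) • x) *
          wgt KD idx (ms ((gj (jj r))⁻¹ • (gj (jj r) * (dd r * t (κ r.1, r.1) * r.2)) • x)) δ
            (mid (ws r)) (rk r) (kd r) = 1
        rw [e0, h1, h8, one_mul]
      rw [Finset.sum_congr rfl hcT, Finset.sum_const, nsmul_eq_mul, mul_one]
      have hT1 : ((univ : Finset (Fin M)) ×ˢ F s).card ≤ D.card * T.card := by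
        refine Finset.card_le_mul_card_image _ _ fun τ hτ => ?_
        refine Finset.card_le_card_of_injOn dd (fun r _ => hdd1 r) ?_
        intro r hr r' hr' hrr
        rw [Finset.mem_coe, Finset.mem_filter] at hr hr'
        have h1 : tg r = tg r' := hr.2.trans hr'.2.symm
        have h2 : r.1 = r'.1 := congrArg (fun τ => τ.1.2.1.2) h1
        have h0 : jj r = jj r' := congrArg (fun τ => τ.1.1) h1
        have h3 : (gj (jj r) * (dd r * t (κ r.1, r.1) * r.2)) • x =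
            (gj (jj r') * (dd r' * t (κ r'.1, r'.1) * r'.2)) • x :=
          congrArg (fun τ => τ.2) h1
        rw [← h0, ← h2, ← hrr] at h3
        have h4 : (gj (jj r) * (dd r * t (κ r.1, r.1) * r'.2))⁻¹ *
            (gj (jj r) * (dd r * t (κ r.1, r.1) * r.2)) = 1 := by
          refine hfree _ x ?_
          rw [mul_smul, h3, inv_smul_smul]
        have h5 : r'.2 = r.2 := by
          have h6 := inv_mul_eq_one.1 h4
          exact mul_left_cancel (mul_left_cancel h6)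
        exact Prod.ext h2 h5.symm
      rw [Finset.card_product, Finset.card_univ, Fintype.card_fin] at hT1
      have hL₀r : (2 * (L₀.card : ℝ) + 1) * (F s).card ≤ (2 * (D.card : ℝ) ^ 2 + 1) * (F s).card := by
        refine mul_le_mul_of_nonneg_right ?_ (Nat.cast_nonneg _)
        have : (L₀.card : ℝ) ≤ (D.card : ℝ) ^ 2 := by exact_mod_cast hL₀c
        linarith
      refine hL₀r.trans ?_
      have h7 : D.card * ((2 * D.card ^ 2 + 1) * (F s).card) ≤ D.card * T.card := by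
        rw [← mul_assoc, ← hM]
        exact hT1
      have h8 := Nat.le_of_mul_le_mul_left h7 hDc
      exact_mod_cast h8
    · intro s' _ i hi hi' z hiz
      obtain ⟨r, hr, hrz⟩ := Finset.mem_image.1 hiz
      obtain ⟨⟨a', r', d', f'⟩, hr', hmi⟩ := Finset.mem_image.1 (hm1 s' i hi hi')
      rw [Finset.mem_product] at hr
      rw [Finset.mem_product, Finset.mem_product, Finset.mem_product] at hr'
      have e1 : (m i).1 = (a', (r', cls d')) := by rw [← hmi]
      have e2 : (m i).2 = gj a' * ((d' : G) * t r' * f') := by rw [← hmi]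
      rw [e1] at hrz
      have e0 : jj r = a' := congrArg (fun τ => τ.1.1) hrz
      have e3 : (κ r.1, r.1) = r' := congrArg (fun τ => τ.1.2.1) hrz
      have e4 : cls (dd r) = cls d' := congrArg (fun τ => τ.1.2.2) hrz
      have e5 : (gj (jj r) * (dd r * t (κ r.1, r.1) * r.2)) • x = z := congrArg (fun τ => τ.2) hrz
      have h8 := (hbl2 ((d' : G)⁻¹ * dd r)).1
      have h8' := (hbl2 ((d' : G)⁻¹ * dd r)).2
      have h9 := hbl3 ((d' : G)⁻¹ * dd r) ⟨dd r, hdd1 r, d', d'.2, e4, rfl⟩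
      set h := (d' : G)⁻¹ * dd r with hh
      refine ⟨f'⁻¹ * ((t r')⁻¹ * (bl h).1 * t r') * r.2, ?_, (bl h).2, ?_, ?_⟩
      · refine Finset.mul_mem_mul (Finset.mul_mem_mul (Finset.inv_mem_inv hr'.2.2.2) ?_) hr.2
        refine Finset.mem_union_left _ (Finset.mem_union_left _ ?_)
        exact Finset.mem_image.2 ⟨(r', (d' : G), dd r), Finset.mem_product.2
          ⟨Finset.mem_univ _, Finset.mem_product.2 ⟨d'.2, hdd1 r⟩⟩, rfl⟩
      · exact Finset.mem_image.2 ⟨((d' : G), dd r), Finset.mem_product.2 ⟨d'.2, hdd1 r⟩, rfl⟩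
      · show (m i).2⁻¹ • z = (f'⁻¹ * ((t r')⁻¹ * (bl h).1 * t r') * r.2 * (bl h).2) • x
        symm
        rw [e2, ← e5, e3, e0, ← mul_smul]
        congr 1
        have h10 : (bl h).2 * t r' = t r' * (bl h).2 := h8 r'
        have h11 : (bl h).2 * r.2 = r.2 * (bl h).2 := h8' _ (hFq s _ hr.2)
        have h12 : dd r = (d' : G) * ((bl h).1 * (bl h).2) := by
          rw [← h9, hh, mul_inv_cancel_left]
        rw [h12]
        calc f'⁻¹ * ((t r')⁻¹ * (bl h).1 * t r') * r.2 * (bl h).2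
            = f'⁻¹ * (t r')⁻¹ * (bl h).1 * t r' * (r.2 * (bl h).2) := by group
          _ = f'⁻¹ * (t r')⁻¹ * (bl h).1 * (t r' * (bl h).2) * r.2 := by rw [← h11]; group
          _ = (gj a' * ((d' : G) * t r' * f'))⁻¹ *
              (gj a' * ((d' : G) * ((bl h).1 * (bl h).2) * t r' * r.2)) := by
              rw [← h10]; group
  have hfin := greedy_sub m (fun _ => (1 : ℝ)) c (fun _ => zero_le_one) hc0 hc1 continuous_const
    hcc (L (k + 1)) hz hact
  refine hfin.mono (fun _ _ => rfl) ?_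
  rintro z ⟨i, _, hi⟩
  have h1 := hV₀V (m i).1.1 _ (hcb _ _ hi).1
  rwa [smul_inv_smul] at h1

end Pool.Agent.Helper277_FF
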