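import Pool.Agent.Helper277_FF.Boundary
import Pool.Agent.Helper277_FF.TowerExt2

set_option autoImplicit false

/-!
# Comparison for groups with an action that has a compressible set
-/

namespace Pool.Agent.Helper277_FF

open Finset Topology Pool.Agent.H107ZS Pointwise

universe u v

section

variable {G : Type u} [Group G] {Z : Type v} [TopologicalSpace Z] [T2Space Z] [MulAction G Z]

/-- elements commuting with `N` that fix an open set act trivially -/
theorem trivial_of_comm2 (N : Subgroup G) (O : Set Z)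
    (hO : ∀ W : Set Z, IsOpen W → W.Nonempty → ∃ n ∈ N, ∀ z ∈ O, n • z ∈ W)
    (k : ℕ) (n : Fin k → G) (hn : ∀ i, n i ∈ N) (hcov : ∀ z : Z, ∃ i, n i • z ∈ O) (l : G)
    (hl : ∀ t ∈ N, l * t = t * l) (hfix : (interior {z : Z | l • z = z}).Nonempty) (z : Z) :
    l • z = z := by
  obtain ⟨c, hc, hcO⟩ := hO _ isOpen_interior hfix
  obtain ⟨i, hi⟩ := hcov z
  have h0 : c • n i • z ∈ {z : Z | l • z = z} := interior_subset (hcO _ hi)
  have h1 : l • c • n i • z = c • n i • z := h0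
  have h2 : l * (c * n i) = (c * n i) * l := hl _ (N.mul_mem hc (hn i))
  have h3 : (c * n i) • l • z = (c * n i) • z := by
    rw [← mul_smul, ← h2, mul_smul, mul_smul c, h1]
  exact smul_left_cancel _ h3

theorem towers2_of_boundary [ContinuousConstSMul G Z] [Nonempty Z]
    (hperf : ∀ z : Z, ¬ IsOpen ({z} : Set Z)) (B N : Subgroup G)
    (hB : ∀ b ∈ B, ∀ z : Z, b • z = z) (O : Set Z)
    (hO : ∀ W : Set Z, IsOpen W → W.Nonempty → ∃ n ∈ N, ∀ z ∈ O, n • z ∈ W)
    (k : ℕ) (n : Fin k → G) (hn : ∀ i, n i ∈ N) (hcov : ∀ z : Z, ∃ i, n i • z ∈ O)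
    (hfix : ∀ g : G, interior {z : Z | g • z = z} = ∅ ∨ ∃ b ∈ B, ∃ l : G,
      (∀ t ∈ N, l * t = t * l) ∧ (∀ t ∈ B, l * t = t * l) ∧ g = b * l)
    (D : Finset G) (M : ℕ) : HasTowers2 B k D M := by
  classical
  obtain ⟨z₀⟩ := ‹Nonempty Z›
  have hfix' : ∀ g : G, interior {z : Z | g • z = z} = ∅ ∨ ∀ z : Z, g • z = z := by
    intro g
    by_cases hi : interior {z : Z | g • z = z} = ∅
    · exact Or.inl hi
    rcases hfix g with h | ⟨b, hb, l, hl, -, rfl⟩
    · exact Or.inl h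
    · refine Or.inr fun z => ?_
      have e : {z : Z | (b * l) • z = z} = {z : Z | l • z = z} := by
        ext y
        simp only [Set.mem_ofPred_eq, mul_smul, hB b hb]
      rw [e] at hi
      rw [mul_smul, trivial_of_comm2 N O hO k n hn hcov l hl (Set.nonempty_iff_ne_empty.2 hi) z,
        hB b hb]
  have : Nonempty Z := ⟨z₀⟩
  obtain ⟨W, hW, hWne, hWd⟩ := exists_open D hperf hfix' (k * M)
  choose c hcN hcO using fun r : Fin k × Fin M => hO (W (finProdFinEquiv r)) (hW _) (hWne _)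
  set K : Subgroup G := (MulAction.toPermHom G Z).ker with hK
  have hKm : ∀ g : G, g ∈ K ↔ ∀ z : Z, g • z = z := by
    intro g
    rw [hK, MonoidHom.mem_ker]
    constructor
    · intro h z
      have := congrArg (fun p : Equiv.Perm Z => p z) h
      exact this
    · intro h
      ext z
      exact h z
  let cls : G → G := fun g => ((g : G ⧸ K).out)
  have hcls : ∀ (g : G) (z : Z), (cls g)⁻¹ • g • z = z := by
    intro g z
    have h1 : (cls g)⁻¹ * g ∈ K := by
      rw [← QuotientGroup.eq]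
      exact QuotientGroup.out_eq' _
    rw [← mul_smul]
    exact (hKm _).1 h1 z
  have hcls2 : ∀ g g' : G, cls g = cls g' ↔ ∀ z : Z, (g'⁻¹ * g) • z = z := by
    intro g g'
    rw [← hKm]
    constructor
    · intro h
      rw [← QuotientGroup.eq]
      have h1 : ((cls g : G) : G ⧸ K) = g := QuotientGroup.out_eq' _
      have h2 : ((cls g' : G) : G ⧸ K) = g' := QuotientGroup.out_eq' _
      rw [← h1, ← h2, h]
    · intro h
      have h1 : (g' : G ⧸ K) = g := QuotientGroup.eq.2 h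
      show ((g : G ⧸ K).out) = ((g' : G ⧸ K).out)
      rw [h1]
  refine ⟨fun r => c r * n r.1, fun r => {h | n r.1 • h • z₀ ∈ O},
    fun p => {g | p.2⁻¹ • g • z₀ ∈ W (finProdFinEquiv p.1)}, cls, ?_, ?_, ?_, ?_⟩
  · intro d _ r f hf h hh
    show (cls d)⁻¹ • (d * (c r * n r.1) * f * h) • z₀ ∈ W (finProdFinEquiv r)
    have e : (d * (c r * n r.1) * f * h) • z₀ = d • c r • n r.1 • h • z₀ := by
      simp only [mul_smul]
      rw [hB f hf]
    rw [e, hcls]
    exact hcO r _ hh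
  · intro d hd d' hd' r r' hne
    rw [Set.disjoint_left]
    intro g hg hg'
    have h1 : (cls d)⁻¹ • g • z₀ ∈ W (finProdFinEquiv r) := hg
    have h2 : (cls d')⁻¹ • g • z₀ ∈ W (finProdFinEquiv r') := hg'
    have h3 : ∀ (e : G) (z : Z), e • (cls e)⁻¹ • z = z := by
      intro e z
      have h4 := hcls e (e⁻¹ • z)
      rw [smul_inv_smul] at h4
      rw [h4, smul_inv_smul]
    refine hWd _ _ d hd d' hd' ?_ _ h1 _ h2 ?_
    · by_contra hcon
      push Not at hcon
      exact hne (Prod.ext (finProdFinEquiv.injective hcon.1) ((hcls2 d d').2 hcon.2))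
    · rw [h3, h3]
  · intro h χ
    exact hcov (h • z₀)
  · intro d _ d' _ he
    have h1 := (hcls2 d d').1 he
    rcases hfix (d'⁻¹ * d) with h | ⟨b, hb, l, hl, hl', hbl⟩
    · exfalso
      have h2 : {z : Z | (d'⁻¹ * d) • z = z} = Set.univ := Set.eq_univ_of_forall h1
      rw [h2, interior_univ] at h
      exact Set.empty_ne_univ h.symm
    · exact ⟨b, hb, l, fun r => hl _ (N.mul_mem (hcN r) (hn r.1)), hl', hbl⟩

end

theorem boundary_cmp {G : Type} [Group G] {Z : Type v} [TopologicalSpace Z] [T2Space Z]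
    [MulAction G Z] [ContinuousConstSMul G Z] [Nonempty Z]
    (hperf : ∀ z : Z, ¬ IsOpen ({z} : Set Z)) (B N : Subgroup G) [B.Normal]
    (hPG : ∀ E : Finset G, (∀ e ∈ E, e ∈ B) →
      ∃ C d : ℕ, ∀ n : ℕ, ((E : Set G) ^ n).ncard ≤ C * (n + 1) ^ d)
    (hB : ∀ b ∈ B, ∀ z : Z, b • z = z) (O : Set Z)
    (hO : ∀ W : Set Z, IsOpen W → W.Nonempty → ∃ n ∈ N, ∀ z ∈ O, n • z ∈ W)
    (k : ℕ) (n : Fin k → G) (hn : ∀ i, n i ∈ N) (hcov : ∀ z : Z, ∃ i, n i • z ∈ O)
    (hfix : ∀ g : G, interior {z : Z | g • z = z} = ∅ ∨ ∃ b ∈ B, ∃ l : G,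
      (∀ t ∈ N, l * t = t * l) ∧ (∀ t ∈ B, l * t = t * l) ∧ g = b * l)
    {X : Type} [TopologicalSpace X] [CompactSpace X] [T2Space X]
    [MulAction G X] [ContinuousConstSMul G X] (hfree : FreeAct G X) (hmin : MinAct G X)
    (ham : TopAmC G X) (V : Set X) (hV : IsOpen V) (hVne : V.Nonempty) :
    SubEq G Set.univ V := by
  have hk : 0 < k := by
    obtain ⟨z₀⟩ := ‹Nonempty Z›
    obtain ⟨i, _⟩ := hcov z₀
    exact i.pos
  exact tower_ext2 B hPG k hk (towers2_of_boundary hperf B N hB O hO k n hn hcov hfix)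
    hfree hmin ham V hV hVne

end Pool.Agent.Helper277_FF
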