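import Pool.Agent.Helper277_FF.Greedy
import Pool.Agent.H107_ZS.Defs

set_option autoImplicit false

/-!
# Subequivalence of sets and matchings inside the cells of a castle on a factor
-/

namespace Pool.Agent.Helper277_FF

open Finset Pool.Agent.H107ZS

universe u v w z

section sub

variable {G : Type u} [Group G] {X : Type v} [TopologicalSpace X] [MulAction G X]

/-- `A` is covered by finitely many open sets with disjoint translates inside `B` -/
def SubEq (G : Type u) [Group G] {X : Type v} [TopologicalSpace X] [MulAction G X]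
    (A B : Set X) : Prop :=
  ∃ (n : ℕ) (W : Fin n → Set X) (t : Fin n → G), (∀ i, IsOpen (W i)) ∧ A ⊆ ⋃ i, W i ∧
      (∀ i, ∀ x ∈ W i, t i • x ∈ B) ∧
      ∀ i j, i ≠ j → ∀ x ∈ W i, ∀ x' ∈ W j, t i • x ≠ t j • x'

theorem pack {ι : Type*} [Finite ι] {A B : Set X} (W : ι → Set X) (t : ι → G)
    (h1 : ∀ i, IsOpen (W i)) (h2 : ∀ x ∈ A, ∃ i, x ∈ W i) (h3 : ∀ i, ∀ x ∈ W i, t i • x ∈ B)
    (h4 : ∀ i j, ∀ x ∈ W i, ∀ x' ∈ W j, t i • x = t j • x' → i = j) : SubEq G A B := by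
  obtain ⟨n, ⟨e⟩⟩ := Finite.exists_equiv_fin ι
  refine ⟨n, fun k => W (e.symm k), fun k => t (e.symm k), fun k => h1 _, ?_, fun k => h3 _, ?_⟩
  · intro x hx
    obtain ⟨i, hi⟩ := h2 x hx
    refine Set.mem_iUnion.2 ⟨e i, ?_⟩
    rw [Equiv.symm_apply_apply]
    exact hi
  · intro k l hkl x hx x' hx' heq
    exact hkl (e.symm.injective (h4 _ _ x hx x' hx' heq))

theorem SubEq.trans [ContinuousConstSMul G X] {A B C : Set X} (h : SubEq G A B)
    (h' : SubEq G B C) : SubEq G A C := by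
  obtain ⟨n, W, t, h1, h2, h3, h4⟩ := h
  obtain ⟨n', W', t', h1', h2', h3', h4'⟩ := h'
  refine pack (ι := Fin n × Fin n') (fun p => W p.1 ∩ (fun x => t p.1 • x) ⁻¹' W' p.2)
    (fun p => t' p.2 * t p.1) ?_ ?_ ?_ ?_
  · exact fun p => (h1 _).inter ((h1' _).preimage (continuous_const_smul _))
  · intro x hx
    obtain ⟨i, hi⟩ := Set.mem_iUnion.1 (h2 hx)
    obtain ⟨j, hj⟩ := Set.mem_iUnion.1 (h2' (h3 i x hi))
    exact ⟨(i, j), hi, hj⟩
  · rintro ⟨i, j⟩ x ⟨hx, hx'⟩
    rw [mul_smul]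
    exact h3' j _ hx'
  · rintro ⟨i, j⟩ ⟨k, l⟩ x ⟨hx, hx2⟩ x' ⟨hx', hx2'⟩ heq
    simp only [mul_smul] at heq
    have hjl : j = l := by
      by_contra hne
      exact h4' j l hne _ hx2 _ hx2' heq
    subst hjl
    have h5 : t i • x = t k • x' := smul_left_cancel _ heq
    have hik : i = k := by
      by_contra hne
      exact h4 i k hne _ hx _ hx' h5
    rw [hik]

theorem SubEq.union {A A' B B' : Set X} (h : SubEq G A B) (h' : SubEq G A' B')
    (hd : Disjoint B B') : SubEq G (A ∪ A') (B ∪ B') := by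
  obtain ⟨n, W, t, h1, h2, h3, h4⟩ := h
  obtain ⟨n', W', t', h1', h2', h3', h4'⟩ := h'
  refine pack (ι := Fin n ⊕ Fin n') (Sum.elim W W') (Sum.elim t t') ?_ ?_ ?_ ?_
  · rintro (i | i)
    · exact h1 i
    · exact h1' i
  · rintro x (hx | hx)
    · obtain ⟨i, hi⟩ := Set.mem_iUnion.1 (h2 hx)
      exact ⟨Sum.inl i, hi⟩
    · obtain ⟨i, hi⟩ := Set.mem_iUnion.1 (h2' hx)
      exact ⟨Sum.inr i, hi⟩
  · rintro (i | i) x hx
    · exact Or.inl (h3 i x hx)
    · exact Or.inr (h3' i x hx)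
  · rintro (i | i) (j | j) x hx x' hx' heq
    · by_contra hne
      exact h4 i j (fun h => hne (by rw [h])) x hx x' hx' heq
    · exact absurd (h3' j x' hx') (by
        rw [← show t i • x = t' j • x' from heq]
        exact Set.disjoint_left.1 hd (h3 i x hx))
    · exact absurd (h3' i x hx) (by
        rw [show t' i • x = t j • x' from heq]
        exact Set.disjoint_left.1 hd (h3 j x' hx'))
    · by_contra hne
      exact h4' i j (fun h => hne (by rw [h])) x hx x' hx' heq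

theorem SubEq.mono {A A' B B' : Set X} (h : SubEq G A B) (hA : A' ⊆ A) (hB : B ⊆ B') :
    SubEq G A' B' := by
  obtain ⟨n, W, t, h1, h2, h3, h4⟩ := h
  exact ⟨n, W, t, h1, hA.trans h2, fun i x hx => hB (h3 i x hx), h4⟩

end sub

section shape

variable {G : Type u} [Group G] {Q : Type w} [Group Q] {q : G →* Q}

open Classical in
/-- the set `⋃ s ∈ S, σ s H` -/
noncomputable def shape (σ : Q → G) (H : Subgroup G) [Finite H] (S : Finset Q) : Finset G :=
  (S ×ˢ (Set.toFinite (H : Set G)).toFinset).image fun p => σ p.1 * p.2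

theorem mem_shape {σ : Q → G} (hσ : ∀ s, q (σ s) = s) {H : Subgroup G} [Finite H]
    (hH : ∀ h ∈ H, q h = 1) {S : Finset Q} {t : G} :
    t ∈ shape σ H S ↔ q t ∈ S ∧ (σ (q t))⁻¹ * t ∈ H := by
  classical
  unfold shape
  rw [Finset.mem_image]
  constructor
  · rintro ⟨⟨s, h⟩, hp, rfl⟩
    rw [Finset.mem_product, Set.Finite.mem_toFinset] at hp
    have h1 : q h = 1 := hH h hp.2
    have h2 : q (σ s * h) = s := by rw [map_mul, hσ, h1, mul_one]
    refine ⟨?_, ?_⟩
    · show q (σ s * h) ∈ S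
      rw [h2]; exact hp.1
    · show (σ (q (σ s * h)))⁻¹ * (σ s * h) ∈ H
      rw [h2, inv_mul_cancel_left]
      exact hp.2
  · rintro ⟨h1, h2⟩
    refine ⟨(q t, (σ (q t))⁻¹ * t), ?_, ?_⟩
    · rw [Finset.mem_product, Set.Finite.mem_toFinset]
      exact ⟨h1, h2⟩
    · show σ (q t) * ((σ (q t))⁻¹ * t) = t
      rw [mul_inv_cancel_left]

end shape

theorem exists_moves {G : Type u} [Group G] (T : Finset G) :
    ∃ (L : ℕ) (g : ℕ → G), ∀ t ∈ T, ∀ t' ∈ T, ∃ i < L, g i * t = t' := by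
  classical
  refine ⟨((T ×ˢ T).image fun p => p.2 * p.1⁻¹).toList.length,
    fun i => ((T ×ˢ T).image fun p => p.2 * p.1⁻¹).toList.getD i 1, fun t ht t' ht' => ?_⟩
  have h1 : t' * t⁻¹ ∈ ((T ×ˢ T).image fun p => p.2 * p.1⁻¹).toList := by
    rw [Finset.mem_toList, Finset.mem_image]
    exact ⟨(t, t'), Finset.mem_product.2 ⟨ht, ht'⟩, rfl⟩
  obtain ⟨i, hi, hi2⟩ := List.mem_iff_getElem.1 h1
  refine ⟨i, hi, ?_⟩
  beta_reduce
  rw [List.getD_eq_getElem _ _ hi, hi2, inv_mul_cancel_right]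

section cell

variable {G : Type u} [Group G] {Q : Type w} [Group Q] {q : G →* Q}
  {X : Type v} [TopologicalSpace X] [MulAction G X] [ContinuousConstSMul G X]
  {X' : Type z} [TopologicalSpace X'] [MulAction Q X'] {π : X → X'}

open Classical in
/-- matchings inside the cells of a castle on the factor -/
theorem cell (hπ : Continuous π) (heq : ∀ (g : G) x, π (g • x) = q g • π x) (H : Subgroup G)
    [Finite H] (hH : ∀ h ∈ H, q h = 1) (σ : Q → G) (hσ : ∀ s, q (σ s) = s) {m : ℕ}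
    (S : Fin m → Finset Q) (V : Fin m → Set X') (hV : ∀ j, IsOpen (V j)) (hL : Levels S V)
    (a : Fin m → Q → C(X, ℝ)) (b : C(X, ℝ)) (ha : ∀ j s x, 0 ≤ a j s x)
    (hb : ∀ x, 0 ≤ b x) (hb1 : ∀ x, b x ≤ 1)
    (hlt : ∀ j, ∀ y, π y ∈ V j →
      ∑ t ∈ shape σ H (S j), a j (q t) (t • y) < ∑ t ∈ shape σ H (S j), b (t • y)) :
    SubEq G {x | ∃ j, ∃ s ∈ S j, s⁻¹ • π x ∈ V j ∧ a j s x = 1} {x | 0 < b x} := by
  choose L g hg using fun j => exists_moves (shape σ H (S j))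
  let α : Fin m → X → G → ℝ := fun j y t => if t ∈ shape σ H (S j) then a j (q t) (t • y) else 0
  let β : Fin m → X → G → ℝ := fun j y t => if t ∈ shape σ H (S j) then b (t • y) else 0
  have hα : ∀ j y t, 0 ≤ α j y t := by
    intro j y t
    show 0 ≤ if t ∈ shape σ H (S j) then a j (q t) (t • y) else 0
    split_ifs
    · exact ha _ _ _
    · exact le_rfl
  have hβ : ∀ j y t, 0 ≤ β j y t := by
    intro j y t
    show 0 ≤ if t ∈ shape σ H (S j) then b (t • y) else 0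
    split_ifs
    · exact hb _
    · exact le_rfl
  have hβ1 : ∀ j y t, β j y t ≤ 1 := by
    intro j y t
    show (if t ∈ shape σ H (S j) then b (t • y) else 0) ≤ 1
    split_ifs
    · exact hb1 _
    · exact zero_le_one
  have hα0 : ∀ j y t, t ∉ shape σ H (S j) → α j y t = 0 := fun j y t ht => if_neg ht
  have hβ0 : ∀ j y t, t ∉ shape σ H (S j) → β j y t = 0 := fun j y t ht => if_neg ht
  have hα1 : ∀ j y t, t ∈ shape σ H (S j) → α j y t = a j (q t) (t • y) := fun j y t ht => if_pos ht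
  have hβt : ∀ j y t, t ∈ shape σ H (S j) → β j y t = b (t • y) := fun j y t ht => if_pos ht
  have hαc : ∀ j t, Continuous fun y => α j y t := by
    intro j t
    by_cases ht : t ∈ shape σ H (S j)
    · simp only [hα1 j _ t ht]
      exact (a j (q t)).continuous.comp (continuous_const_smul t)
    · simp only [hα0 j _ t ht]
      exact continuous_const
  have hβc : ∀ j t, Continuous fun y => β j y t := by
    intro j t
    by_cases ht : t ∈ shape σ H (S j)
    · simp only [hβt j _ t ht]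
      exact b.continuous.comp (continuous_const_smul t)
    · simp only [hβ0 j _ t ht]
      exact continuous_const
  have hTh : ∀ j t, ∀ h ∈ H, (t * h ∈ shape σ H (S j) ↔ t ∈ shape σ H (S j)) := by
    intro j t h hh
    rw [mem_shape hσ hH, mem_shape hσ hH, map_mul, hH h hh, mul_one, ← mul_assoc]
    exact and_congr_right fun _ => H.mul_mem_cancel_right hh
  have hαe : ∀ j y, ∀ h ∈ H, α j (h • y) = fun t => α j y (t * h) := by
    intro j y h hh
    funext t
    by_cases ht : t ∈ shape σ H (S j)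
    · rw [hα1 j _ t ht, hα1 j _ (t * h) ((hTh j t h hh).2 ht), map_mul, hH h hh, mul_one, mul_smul]
    · rw [hα0 j _ t ht, hα0 j _ (t * h) (fun h' => ht ((hTh j t h hh).1 h'))]
  have hβe : ∀ j y, ∀ h ∈ H, β j (h • y) = fun t => β j y (t * h) := by
    intro j y h hh
    funext t
    by_cases ht : t ∈ shape σ H (S j)
    · rw [hβt j _ t ht, hβt j _ (t * h) ((hTh j t h hh).2 ht), mul_smul]
    · rw [hβ0 j _ t ht, hβ0 j _ (t * h) (fun h' => ht ((hTh j t h hh).1 h'))]
  have hπσ : ∀ s x, π ((σ s)⁻¹ • x) = s⁻¹ • π x := by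
    intro s x
    rw [heq, map_inv, hσ]
  -- the capacity of `t` after `i` steps
  let c : (j : Fin m) → ℕ → X → G → ℝ := fun j i y t => (gr (g j) (α j y) (β j y) i).2 t
  have hcc : ∀ j i t, Continuous fun y => c j i y t := fun j i t =>
    (gr_cont (g j) (α j) (β j) (hαc j) (hβc j) i).2 t
  have hce : ∀ j i y t, ∀ h ∈ H, c j i (h • y) t = c j i y (t * h) := by
    intro j i y t h hh
    show (gr (g j) (α j (h • y)) (β j (h • y)) i).2 t = (gr (g j) (α j y) (β j y) i).2 (t * h)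
    rw [hαe j y h hh, hβe j y h hh]
    exact (gr_equiv (g j) (α j y) (β j y) h i).2 t
  refine pack (ι := Σ j : Fin m, S j × Fin (L j))
    (fun p => {x | (p.2.1 : Q)⁻¹ • π x ∈ V p.1 ∧
      g p.1 p.2.2 * σ p.2.1 ∈ shape σ H (S p.1) ∧
      c p.1 (p.2.2 + 1) ((σ p.2.1)⁻¹ • x) (g p.1 p.2.2 * σ p.2.1) < 2 ^ (p.2.2 : ℕ) / 2 ^ L p.1 ∧
      2 ^ (p.2.2 : ℕ) / 2 ^ L p.1 < c p.1 p.2.2 ((σ p.2.1)⁻¹ • x) (g p.1 p.2.2 * σ p.2.1)})
    (fun p => g p.1 p.2.2) ?_ ?_ ?_ ?_
  · rintro ⟨j, s, i⟩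
    have e1 : IsOpen {x : X | (s : Q)⁻¹ • π x ∈ V j} := by
      have : {x : X | (s : Q)⁻¹ • π x ∈ V j} = (fun x => π ((σ s)⁻¹ • x)) ⁻¹' V j := by
        ext x
        rw [Set.mem_preimage, hπσ]
        rfl
      rw [this]
      exact (hV j).preimage (hπ.comp (continuous_const_smul _))
    refine e1.inter (isOpen_const.inter (IsOpen.inter ?_ ?_))
    · exact isOpen_lt ((hcc j _ _).comp (continuous_const_smul _)) continuous_const
    · exact isOpen_lt continuous_const ((hcc j _ _).comp (continuous_const_smul _))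
  · rintro x ⟨j, s, hs, hx, hax⟩
    have hσT : σ s ∈ shape σ H (S j) := by
      rw [mem_shape hσ hH, hσ, inv_mul_cancel]
      exact ⟨hs, H.one_mem⟩
    set y := (σ s)⁻¹ • x with hy
    have hyV : π y ∈ V j := by rw [hπσ]; exact hx
    have hsy : σ s • y = x := by rw [hy, smul_inv_smul]
    have hαs : α j y (σ s) = 1 := by rw [hα1 j y _ hσT, hσ, hsy, hax]
    have hsum : ∑ t ∈ shape σ H (S j), α j y t < ∑ t ∈ shape σ H (S j), β j y t := by
      rw [Finset.sum_congr rfl (hα1 j y), Finset.sum_congr rfl (hβt j y)]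
      exact hlt j y hyV
    have hz := gr_served (g j) (hα j y) (hβ j y) (shape σ H (S j)) (hα0 j y) (hβ0 j y) (L j) (hg j)
      hsum (σ s) hσT
    obtain ⟨i, hi, h1, h2⟩ := gr_cross (g j) (hα j y) (hβ j y) (hβ1 j y) (L j) (σ s) hz hαs
    refine ⟨⟨j, ⟨s, hs⟩, ⟨i, hi⟩⟩, hx, ?_, h1, h2⟩
    by_contra hT
    have h3 := (gr_supp (g j) (hα j y) (hβ j y) (shape σ H (S j)) (hα0 j y) (hβ0 j y) i).2 _ hT
    rw [h3] at h2
    have : (0 : ℝ) < 2 ^ i / 2 ^ L j := by positivity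
    linarith
  · rintro ⟨j, s, i⟩ x ⟨hx, hT, h1, h2⟩
    beta_reduce at h1 h2 hT ⊢
    dsimp only at h1 h2 hT ⊢
    have h3 := (gr_anti (g j) (hα j ((σ s)⁻¹ • x)) (hβ j ((σ s)⁻¹ • x)) (Nat.zero_le (i : ℕ))).2
      (g j i * σ s)
    have h4 : (0 : ℝ) < 2 ^ (i : ℕ) / 2 ^ L j := by positivity
    have h5 : 0 < β j ((σ s)⁻¹ • x) (g j i * σ s) := (h4.trans h2).trans_le h3
    rw [hβt j _ _ hT, mul_smul, smul_inv_smul] at h5
    exact h5
  · rintro ⟨j, s, i⟩ ⟨k, s', i'⟩ x ⟨hx, hT, h1, h2⟩ x' ⟨hx', hT', h1', h2'⟩ hxx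
    dsimp only at hx hT h1 h2 hx' hT' h1' h2' hxx
    set y := (σ s)⁻¹ • x with hy
    set y' := (σ s')⁻¹ • x' with hy'
    have hsy : σ s • y = x := by rw [hy, smul_inv_smul]
    have hsy' : σ s' • y' = x' := by rw [hy', smul_inv_smul]
    have hyV : π y ∈ V j := by rw [hπσ]; exact hx
    have hyV' : π y' ∈ V k := by rw [hπσ]; exact hx'
    have e1 : (g j i * σ s) • y = (g k i' * σ s') • y' := by
      rw [mul_smul, mul_smul, hsy, hsy', hxx]
    have hTm := (mem_shape hσ hH).1 hT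
    have hTm' := (mem_shape hσ hH).1 hT'
    have e2 := congrArg π e1
    rw [heq _ y, heq _ y'] at e2
    obtain ⟨hjk, hqq⟩ := hL j k _ _ hTm.1 hTm'.1 _ hyV _ hyV' e2
    subst hjk
    have hh : (g j i * σ s)⁻¹ * (g j i' * σ s') ∈ H := by
      have := H.mul_mem (H.inv_mem hTm.2) hTm'.2
      rw [hqq, mul_inv_rev, inv_inv, mul_assoc, mul_inv_cancel_left] at this
      exact this
    have hyy : y = ((g j i * σ s)⁻¹ * (g j i' * σ s')) • y' := by
      rw [mul_smul, ← e1, inv_smul_smul]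
    rw [hyy, hce j _ _ _ _ hh, mul_inv_cancel_left] at h1 h2
    have hii : (i : ℕ) = i' := cross_unique (g j) (hα j y') (hβ j y') (L j) _ i i' ⟨h1, h2⟩
      ⟨h1', h2'⟩
    have hii2 : i = i' := Fin.ext hii
    subst hii2
    have hxe : x = x' := smul_left_cancel _ hxx
    have e3 : (s : Q) • π y = (s' : Q) • π y' := by
      have := congrArg π (hsy.trans (hxe.trans hsy'.symm))
      rw [heq _ y, heq _ y', hσ, hσ] at this
      exact this
    have hss := (hL j j _ _ s.2 s'.2 _ hyV _ hyV' e3).2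
    have hss2 : s = s' := Subtype.ext hss
    subst hss2
    rfl

end cell

end Pool.Agent.Helper277_FF
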