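import Pool.Agent.H107_ZS.TMEA
import Pool.Agent.H107_ZS.TKL

set_option autoImplicit false

/-!
# Positive averages over Foelner sets
-/

namespace Pool.Agent.Helper277_FF

open Finset Pool.Agent.H107ZS MeasureTheory Filter Topology
open scoped BoundedContinuousFunction NNReal ENNReal

universe u

/-- the measure of an invariant state is invariant -/
theorem state_inv {G : Type*} [Group G] {X : Type*} [TopologicalSpace X]
    [CompactSpace X] [TopologicalSpace.MetrizableSpace X] [MeasurableSpace X] [BorelSpace X]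
    [MulAction G X] [ContinuousConstSMul G X] (Λ : C(X, ℝ) →ₗ[ℝ] ℝ)
    (hΛ : InvState (⊤ : Subgroup G) Λ) :
    ∃ ν : Measure X, IsProbabilityMeasure ν ∧ (∀ f : C(X, ℝ), ∫ y, f y ∂ν = Λ f) ∧
      ∀ (g : G) (s : Set X), MeasurableSet s → ν ((fun x => g • x) ⁻¹' s) = ν s := by
  let _ := TopologicalSpace.metrizableSpaceMetric X
  obtain ⟨ν, hν1, hν⟩ := TMEA.riesz Λ hΛ.one hΛ.nonneg
  refine ⟨ν, hν1, hν, ?_⟩
  intro g s hs
  have hgm : Measurable (fun x : X => g • x) := (continuous_const_smul g).measurable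
  have hfin : IsFiniteMeasure (ν.map (fun x => g • x)) := Measure.isFiniteMeasure_map _ _
  have hmap : ν.map (fun x => g • x) = ν := by
    refine ext_of_forall_integral_eq_of_IsFiniteMeasure fun f => ?_
    rw [integral_map hgm.aemeasurable f.continuous.aestronglyMeasurable]
    have h1 := hν ⟨fun y => f y, f.continuous⟩
    have h2 := hν ((⟨fun y => f y, f.continuous⟩ : C(X, ℝ)).comp (tr g))
    rw [hΛ.inv g trivial, ← h1] at h2
    simp only [ContinuousMap.comp_apply, ContinuousMap.coe_mk, tr] at h2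
    exact h2
  have h3 := congrArg (fun m : Measure X => m s) hmap
  rw [Measure.map_apply hgm hs] at h3
  exact h3

/-- the averages over Foelner sets of `f - g`, where `g ≥ 1_K`, `f ≤ 1_V` and `f p = 0` -/
theorem kl (G : Type u) [Group G] [Countable G] [Infinite G] (X : Type u) [TopologicalSpace X]
    [CompactSpace X] [TopologicalSpace.MetrizableSpace X] [MeasurableSpace X] [BorelSpace X]
    [MulAction G X] [ContinuousConstSMul G X] (hf : FreeAct G X) (K V : Set X) (p : X)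
    (hK : IsCompact K) (hV : IsOpen V)
    (hμ : ∀ μ : MeasureTheory.Measure X, MeasureTheory.IsProbabilityMeasure μ →
      (∀ (g : G) (s : Set X), MeasurableSet s → μ ((fun x => g • x) ⁻¹' s) = μ s) → μ K < μ V) :
    ∃ (f g : C(X, ℝ)) (Ks : Finset G) (ε γ : ℝ), 0 < ε ∧ 0 < γ ∧ (∀ x, 0 ≤ f x) ∧
      (∀ x, f x ≤ 1) ∧ (∀ x, 0 ≤ g x) ∧ (∀ x ∈ K, g x = 1) ∧ (∀ x, 0 < f x → x ∈ V ∧ x ≠ p) ∧
      ∀ S : Finset G, Fol Ks ε S → ∀ y, γ * S.card ≤ ∑ s ∈ S, (f (s • y) - g (s • y)) := by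
  let _ := TopologicalSpace.metrizableSpaceMetric X
  have hne : Nonempty X := ⟨p⟩
  have hO : IsOpen (V \ {p}) := hV.sdiff isClosed_singleton
  have hδ : ∀ n : ℕ, (0 : ℝ) < 1 / ((n : ℝ) + 1) := fun n => by positivity
  let g' : ℕ → C(X, ℝ) := fun n => ⟨fun x => (thickenedIndicator (hδ n) K x : ℝ),
    NNReal.continuous_coe.comp (thickenedIndicator (hδ n) K).continuous⟩
  let h' : ℕ → C(X, ℝ) := fun n => ⟨fun x => (thickenedIndicator (hδ n) (V \ {p})ᶜ x : ℝ),
    NNReal.continuous_coe.comp (thickenedIndicator (hδ n) (V \ {p})ᶜ).continuous⟩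
  have hanti : ∀ n, (1 : ℝ) / (((n + 1 : ℕ) : ℝ) + 1) ≤ 1 / ((n : ℝ) + 1) := by
    intro n
    apply one_div_le_one_div_of_le (by positivity)
    push_cast
    linarith
  have hg' : ∀ n x, g' (n + 1) x ≤ g' n x := by
    intro n x
    exact NNReal.coe_le_coe.2 (thickenedIndicator_mono (hδ (n + 1)) (hδ n) (hanti n) K x)
  have hh' : ∀ n x, h' (n + 1) x ≤ h' n x := by
    intro n x
    exact NNReal.coe_le_coe.2
      (thickenedIndicator_mono (hδ (n + 1)) (hδ n) (hanti n) (V \ {p})ᶜ x)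
  let φ : ℕ → C(X, ℝ) := fun n => (1 - h' n) - g' n
  have hlim : Tendsto (fun n : ℕ => (1 : ℝ) / ((n : ℝ) + 1)) atTop (𝓝 0) :=
    tendsto_one_div_add_atTop_nhds_zero_nat
  obtain ⟨n, Ks, ε, γ, -, hε, hγ, hS⟩ := t_KL G X (⊤ : Subgroup G) φ (by
    intro n y
    show 1 - h' n y - g' n y ≤ 1 - h' (n + 1) y - g' (n + 1) y
    have := hg' n y
    have := hh' n y
    linarith) (by
    intro Λ hΛ
    obtain ⟨ν, hν1, hν, hinv⟩ := state_inv (G := G) Λ hΛ
    have hKV : ν K < ν (V \ {p}) := by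
      rw [measure_sdiff_null (TMEA.point hf ν hinv p)]
      exact hμ _ hν1 hinv
    have t1 := tendsto_lintegral_thickenedIndicator_of_isClosed ν hK.isClosed hδ hlim
    have t2 := tendsto_lintegral_thickenedIndicator_of_isClosed ν hO.isClosed_compl hδ hlim
    have t1' := (ENNReal.tendsto_toReal (measure_ne_top ν K)).comp t1
    have t2' := (ENNReal.tendsto_toReal (measure_ne_top ν (V \ {p})ᶜ)).comp t2
    have t3 : Tendsto (fun n => Λ (φ n)) atTop
        (𝓝 (1 - (ν (V \ {p})ᶜ).toReal - (ν K).toReal)) := by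
      have e : ∀ n, Λ (φ n) = 1 -
          (∫⁻ x, (thickenedIndicator (hδ n) (V \ {p})ᶜ x : ℝ≥0∞) ∂ν).toReal -
          (∫⁻ x, (thickenedIndicator (hδ n) K x : ℝ≥0∞) ∂ν).toReal := by
        intro n
        have e1 : Λ (φ n) = Λ 1 - Λ (h' n) - Λ (g' n) := by
          show Λ (1 - h' n - g' n) = _
          rw [map_sub, map_sub]
        rw [e1, hΛ.one, ← hν (h' n), ← hν (g' n),
          BoundedContinuousFunction.toReal_lintegral_coe_eq_integral,
          BoundedContinuousFunction.toReal_lintegral_coe_eq_integral]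
        rfl
      have e2 : (fun n => Λ (φ n)) = fun n => 1 -
          (∫⁻ x, (thickenedIndicator (hδ n) (V \ {p})ᶜ x : ℝ≥0∞) ∂ν).toReal -
          (∫⁻ x, (thickenedIndicator (hδ n) K x : ℝ≥0∞) ∂ν).toReal := funext e
      rw [e2]
      exact (tendsto_const_nhds.sub t2').sub t1'
    have hpos : 0 < 1 - (ν (V \ {p})ᶜ).toReal - (ν K).toReal := by
      have h1 : (ν (V \ {p})ᶜ).toReal = 1 - (ν (V \ {p})).toReal :=
        probReal_compl_eq_one_sub hO.measurableSet
      have h2 : (ν K).toReal < (ν (V \ {p})).toReal :=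
        (ENNReal.toReal_lt_toReal (measure_ne_top _ _) (measure_ne_top _ _)).2 hKV
      rw [h1]
      linarith
    exact (t3.eventually (lt_mem_nhds hpos)).exists)
  have hh1 : ∀ x, h' n x ≤ 1 := fun x =>
    NNReal.coe_le_coe.2 (thickenedIndicator_le_one (hδ n) (V \ {p})ᶜ x)
  refine ⟨1 - h' n, g' n, Ks, ε, γ, hε, hγ, fun x => ?_, fun x => ?_, fun x => ?_, fun x hx => ?_,
    fun x hx => ?_, fun S hS' y => ?_⟩
  · show 0 ≤ 1 - h' n x
    have := hh1 x
    linarith
  · show 1 - h' n x ≤ 1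
    have : 0 ≤ h' n x := NNReal.coe_nonneg _
    linarith
  · exact NNReal.coe_nonneg _
  · show ((thickenedIndicator (hδ n) K x : ℝ≥0) : ℝ) = 1
    rw [thickenedIndicator_one (hδ n) K hx]
    rfl
  · have h1 : 0 < 1 - h' n x := hx
    by_contra hcon
    have h2 : x ∈ (V \ {p})ᶜ := fun h => hcon ⟨h.1, h.2⟩
    have h3 : h' n x = 1 := by
      show ((thickenedIndicator (hδ n) (V \ {p})ᶜ x : ℝ≥0) : ℝ) = 1
      rw [thickenedIndicator_one (hδ n) _ h2]
      rfl
    linarith
  · exact hS S (fun _ _ => Subgroup.mem_top _) hS' y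

end Pool.Agent.Helper277_FF
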