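import Pool.Agent.H107_ZS.DStubs7
import Pool.Agent.Helper277_DC.Gap

set_option autoImplicit false

/-!
# Topologically amenable actions of non-amenable groups have no invariant probability measure
-/

namespace Pool.Agent.Helper277_FF

open Finset Pool.Agent.H107ZS Pool.Agent.Helper277_DC MeasureTheory

theorem no_inv {G : Type} [Group G] {X : Type*} [TopologicalSpace X] [CompactSpace X]
    [MeasurableSpace X] [BorelSpace X] [MulAction G X] [ContinuousConstSMul G X]
    (hG : ¬ Amenable G) (ha : TopAmC G X) (μ : Measure X) [IsProbabilityMeasure μ]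
    (hinv : ∀ (g : G) (s : Set X), MeasurableSet s → μ ((fun x => g • x) ⁻¹' s) = μ s) :
    False := by
  classical
  unfold Amenable at hG
  push Not at hG
  obtain ⟨S, c, hc, hS⟩ := hG
  obtain ⟨m, hm0, hmc, hmF, hma⟩ := ha
  -- isoperimetric inequality
  have hiso : ∀ E : Finset G, c * (E.card : ℝ) ≤
      ∑ s ∈ S, ((E.filter fun x => s * x ∉ E).card : ℝ) := by
    intro E
    rcases E.eq_empty_or_nonempty with rfl | hE
    · simp
    have h1 := hS E
    unfold Fol at h1
    push Not at h1
    obtain ⟨s, hs, h2⟩ := h1 hE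
    have h3 := Finset.single_le_sum
      (f := fun s => ((E.filter fun x => s * x ∉ E).card : ℝ)) (s := S)
      (fun _ _ => Nat.cast_nonneg _) hs
    have h4 : c * (E.card : ℝ) < ((E.filter fun x => s * x ∉ E).card : ℝ) := by
      convert h2 using 2
    exact h4.le.trans h3
  set δ : ℝ := c / (2 * (S.card + 1)) with hδ
  have hδ0 : 0 < δ := by positivity
  choose N hN using fun g => hma g δ hδ0
  set n := S.sup N with hn
  obtain ⟨A, hA0, hA1⟩ := hmF n
  let F : G → ℝ := fun h => ∫ x, m n x h ∂μ
  have hint : ∀ h, Integrable (fun x => m n x h) μ := fun h =>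
    (hmc n h).integrable_of_hasCompactSupport (HasCompactSupport.of_compactSpace _)
  have hF0 : ∀ h, 0 ≤ F h := fun h => integral_nonneg fun x => hm0 n x h
  have hFA : ∀ h, h ∉ A → F h = 0 := by
    intro h hh
    show ∫ x, m n x h ∂μ = 0
    have : (fun x => m n x h) = fun _ => 0 := funext fun x => hA0 x h hh
    rw [this, integral_zero]
  have hF1 : ∑ h ∈ A, F h = 1 := by
    show ∑ h ∈ A, ∫ x, m n x h ∂μ = 1
    rw [← integral_finsetSum A fun h _ => hint h]
    simp only [hA1]
    simp
  have hsm : ∀ (g h : G), F h = ∫ x, m n (g • x) h ∂μ := by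
    intro g h
    have hgm : Measurable (fun x : X => g • x) := (continuous_const_smul g).measurable
    have hmap : μ.map (fun x => g • x) = μ := by
      ext s hs
      rw [Measure.map_apply hgm hs]
      exact hinv g s hs
    show ∫ x, m n x h ∂μ = _
    conv_lhs => rw [← hmap]
    rw [integral_map hgm.aemeasurable]
    exact (hmc n h).aestronglyMeasurable
  have key := coarea S c hiso A.card A F le_rfl hF0 hFA
  rw [hF1, mul_one] at key
  have hs : ∀ s ∈ S, ∑ x ∈ A, max (F x - F (s * x)) 0 ≤ δ := by
    intro s hs
    have hNn : N s ≤ n := Finset.le_sup hs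
    have e1 : ∀ h, max (F h - F (s * h)) 0 ≤ ∫ x, |m n (s • x) (s * h) - m n x h| ∂μ := by
      intro h
      have i1 : Integrable (fun x => m n (s • x) (s * h)) μ :=
        ((hmc n (s * h)).comp (continuous_const_smul s)).integrable_of_hasCompactSupport
          (HasCompactSupport.of_compactSpace _)
      have e2 : F h - F (s * h) = ∫ x, (m n x h - m n (s • x) (s * h)) ∂μ := by
        rw [integral_sub (hint h) i1, ← hsm s (s * h)]
      refine max_le ?_ (integral_nonneg fun x => abs_nonneg _)
      rw [e2]
      refine integral_mono ((hint h).sub i1) ((i1.sub (hint h)).abs) fun x => ?_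
      show m n x h - m n (s • x) (s * h) ≤ |m n (s • x) (s * h) - m n x h|
      rw [abs_sub_comm]
      exact le_abs_self _
    have i2 : ∀ h, Integrable (fun x => |m n (s • x) (s * h) - m n x h|) μ := fun h =>
      ((((hmc n (s * h)).comp (continuous_const_smul s)).sub (hmc n h)).abs
        ).integrable_of_hasCompactSupport (HasCompactSupport.of_compactSpace _)
    refine (Finset.sum_le_sum fun h _ => e1 h).trans ?_
    rw [← integral_finsetSum A fun h _ => i2 h]
    have e3 : ∀ x, ∑ h ∈ A, |m n (s • x) (s * h) - m n x h| ≤ δ := by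
      intro x
      refine le_trans ?_ (hN s n hNn x).le
      refine Summable.sum_le_tsum A (fun _ _ => abs_nonneg _) ?_
      refine summable_of_hasFiniteSupport ?_
      refine ((A ∪ A.image fun a => s⁻¹ * a).finite_toSet).subset fun h hh => ?_
      by_contra hcon
      rw [Finset.mem_coe, Finset.mem_union, not_or] at hcon
      refine hh ?_
      beta_reduce
      rw [hA0 x h hcon.1, hA0 (s • x) (s * h) (fun h' => hcon.2
        (Finset.mem_image.2 ⟨s * h, h', inv_mul_cancel_left s h⟩)), sub_zero, abs_zero]
    calc ∫ x, ∑ h ∈ A, |m n (s • x) (s * h) - m n x h| ∂μ ≤ ∫ _, δ ∂μ :=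
          integral_mono (integrable_finsetSum A fun h _ => i2 h) (integrable_const _) e3
      _ = δ := by simp
  have h5 := Finset.sum_le_sum hs
  rw [Finset.sum_const, nsmul_eq_mul] at h5
  have h6 : (S.card : ℝ) * δ < c := by
    rw [hδ]
    have h7 : (0 : ℝ) < 2 * ((S.card : ℝ) + 1) := by positivity
    rw [mul_div_assoc', div_lt_iff₀ h7]
    nlinarith [Nat.cast_nonneg (α := ℝ) S.card]
  linarith

end Pool.Agent.Helper277_FF
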