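import Pool.Agent.Helper277_FF.Rem2
import Pool.Agent.Helper277_FF.Meas
import Pool.Agent.Helper277_FF.NoInv
import Pool.Agent.H107_ZS.Final5
import Pool.Agent.H107_ZS.TCP
import Pool.Agent.H107_ZS.TPART
import Pool.Agent.H107_ZS.TCOMP

set_option autoImplicit false

/-!
# Dynamical comparison for actions with a finite-dimensional factor
-/

namespace Pool.Agent.Helper277_FF

open Finset Pool.Agent.H107ZS

universe u v w z

/-- comparison from castles on the factor -/
theorem core (G : Type u) [Group G] [Countable G] [Infinite G] (Q : Type w) [Group Q] (q : G →* Q)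
    (hlf : LocFinKer q) (X : Type u) [TopologicalSpace X] [CompactSpace X]
    [TopologicalSpace.MetrizableSpace X] [MeasurableSpace X] [BorelSpace X] [MulAction G X]
    [ContinuousConstSMul G X] (X' : Type z) [TopologicalSpace X'] [MulAction Q X'] (π : X → X')
    (hπ : Continuous π) (heq : ∀ (g : G) x, π (g • x) = q g • π x) (σ : Q → G)
    (hσ : ∀ s, q (σ s) = s) (hfX : FreeAct G X)
    (hcastle : ∀ V₀ : Set X, IsOpen V₀ → V₀.Nonempty → ∀ (Kq : Finset Q) (ε : ℝ), 0 < ε →
      ∃ (m : ℕ) (S : Fin m → Finset Q) (V : Fin m → Set X'), (∀ j, Fol Kq ε (S j)) ∧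
        (∀ j, IsOpen (V j)) ∧ Levels S V ∧ SubEq G {x | ∀ j, ∀ s ∈ S j, s⁻¹ • π x ∉ V j} V₀)
    (K V : Set X) (hK : IsCompact K) (hV : IsOpen V) (hVne : V.Nonempty)
    (hμ : ∀ μ : MeasureTheory.Measure X, MeasureTheory.IsProbabilityMeasure μ →
      (∀ (g : G) (s : Set X), MeasurableSet s → μ ((fun x => g • x) ⁻¹' s) = μ s) → μ K < μ V) :
    SubEq G K V := by
  classical
  obtain ⟨p, hp⟩ := hVne
  obtain ⟨f, g, Ks, ε, γ, hε, hγ, hf0, hf1, hg0, hgK, hfV, hS⟩ := kl G X hfX K V p hK hV hμ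
  let b : C(X, ℝ) := ⟨fun x => max (f x - γ / 2) 0,
    (f.continuous.sub continuous_const).max continuous_const⟩
  have hbd : ∀ x, b x = max (f x - γ / 2) 0 := fun x => rfl
  have hb0 : ∀ x, 0 ≤ b x := fun x => le_max_right _ _
  have hb1 : ∀ x, b x ≤ 1 := fun x => by
    rw [hbd]
    exact max_le (by have := hf1 x; linarith) zero_le_one
  have hbV : ∀ x, 0 < b x → γ / 2 < f x := by
    intro x hx
    rw [hbd, lt_max_iff] at hx
    rcases hx with h | h
    · linarith
    · exact absurd h (lt_irrefl _)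
  obtain ⟨m, S, V', hSF, hV', hL, hR⟩ := hcastle (V ∩ {x | f x < γ / 2})
    (hV.inter (isOpen_lt f.continuous continuous_const)) ⟨p, hp, by
      have h1 : ¬ 0 < f p := fun h => (hfV p h).2 rfl
      show f p < γ / 2
      linarith⟩ (Ks.image q) ε hε
  obtain ⟨H, hHfin, hH, hHm⟩ := hlf ((Ks ×ˢ Finset.univ.biUnion S).image
    fun r => (σ (q r.1 * r.2))⁻¹ * (r.1 * σ r.2)) (by
    intro g hg
    obtain ⟨r, _, rfl⟩ := Finset.mem_image.1 hg
    rw [map_mul, map_inv, hσ, map_mul, hσ, inv_mul_cancel])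
  have hF : ∀ j, Fol Ks ε (shape σ H (S j)) := by
    intro j
    refine fol_shape hσ hH Ks ε (S j) (hSF j) fun k hk s hs => hHm _ ?_
    exact Finset.mem_image.2 ⟨(k, s), Finset.mem_product.2
      ⟨hk, Finset.mem_biUnion.2 ⟨j, Finset.mem_univ _, hs⟩⟩, rfl⟩
  have hc := cell hπ heq H hH σ hσ S V' hV' hL (fun _ _ => g) b (fun _ _ x => hg0 x) hb0 hb1 (by
    intro j y _
    have h1 := hS _ (hF j) y
    have h2 : (0 : ℝ) < (shape σ H (S j)).card := by exact_mod_cast (hF j).1.card_pos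
    have h3 : ∑ t ∈ shape σ H (S j), (f (t • y) - γ / 2) ≤ ∑ t ∈ shape σ H (S j), b (t • y) :=
      Finset.sum_le_sum fun t _ => le_max_left _ _
    rw [Finset.sum_sub_distrib, Finset.sum_const, nsmul_eq_mul] at h3
    rw [Finset.sum_sub_distrib] at h1
    nlinarith)
  have hu := hR.union hc (by
    refine Set.disjoint_left.2 fun x hx hx' => ?_
    have h1 : f x < γ / 2 := hx.2
    have h2 := hbV x hx'
    linarith)
  refine hu.mono ?_ ?_
  · intro x hx
    by_cases h : ∀ j, ∀ s ∈ S j, s⁻¹ • π x ∉ V' j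
    · exact Or.inl h
    · push Not at h
      obtain ⟨j, s, hs, hxs⟩ := h
      exact Or.inr ⟨j, s, hs, hxs, hgK x hx⟩
  · rintro x (hx | hx)
    · exact hx.1
    · exact (hfV x (lt_trans (by linarith) (hbV x hx))).1

theorem min_factor {G : Type u} [Group G] {Q : Type w} [Group Q] {q : G →* Q} {X : Type v}
    [TopologicalSpace X] [MulAction G X] {X' : Type z} [TopologicalSpace X'] [MulAction Q X']
    {π : X → X'} (hπ : Continuous π) (hπs : Function.Surjective π)
    (heq : ∀ (g : G) x, π (g • x) = q g • π x) (hm : MinAct G X) : MinAct Q X' := by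
  intro x'
  obtain ⟨x, rfl⟩ := hπs x'
  refine (hπs.denseRange.dense_image hπ (hm x)).mono ?_
  rintro _ ⟨_, ⟨g, rfl⟩, rfl⟩
  exact ⟨q g, (heq g x).symm⟩

/-- dynamical comparison for actions with a finite-dimensional factor -/
theorem cmp_ext (G : Type) [Group G] [Countable G] (Q : Type) [Group Q] (q : G →* Q)
    (hq : Function.Surjective q) (hlf : LocFinKer q) (X : Type) [TopologicalSpace X]
    [CompactSpace X] [TopologicalSpace.MetrizableSpace X] [MeasurableSpace X] [BorelSpace X]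
    [MulAction G X] [ContinuousConstSMul G X] (X' : Type) [TopologicalSpace X'] [CompactSpace X']
    [TopologicalSpace.MetrizableSpace X'] [MulAction Q X'] [ContinuousConstSMul Q X'] (π : X → X')
    (hπ : Continuous π) (hπs : Function.Surjective π) (heq : ∀ (g : G) x, π (g • x) = q g • π x)
    (d : ℕ) (hd : DimLE X' d) (hfX : FreeAct G X) (hf : FreeAct Q X') (hm : MinAct G X)
    (ha : TopAmC Q X') (K V : Set X) (hK : IsCompact K) (hV : IsOpen V) (hVne : V.Nonempty)
    (hμ : ∀ μ : MeasureTheory.Measure X, MeasureTheory.IsProbabilityMeasure μ →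
      (∀ (g : G) (s : Set X), MeasurableSet s → μ ((fun x => g • x) ⁻¹' s) = μ s) → μ K < μ V) :
    SubEq G K V := by
  classical
  have hm' : MinAct Q X' := min_factor hπ hπs heq hm
  have hQc : Countable Q := hq.countable
  have hne : Nonempty X' := ⟨π hVne.some⟩
  obtain ⟨σ, hσ⟩ := hq.hasRightInverse
  rcases finite_or_infinite G with hG | hG
  · exact t_FING G X hfX hm K V hK hV hμ
  rcases finite_or_infinite Q with hQ | hQ
  · -- `Q` is finite
    refine core G Q q hlf X X' π hπ heq σ hσ hfX ?_ K V hK hV hVne hμ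
    intro V₀ hV₀ _ Kq ε hε
    obtain ⟨x₀⟩ := hne
    have hX' : Finite X' := TFING.finite_of_min hm'
    have hfQ : Fintype Q := Fintype.ofFinite Q
    refine ⟨1, fun _ => Finset.univ, fun _ => {x₀}, fun _ => ⟨Finset.univ_nonempty, ?_⟩,
      fun _ => isOpen_discrete _, ?_, ?_⟩
    · intro k _
      have : (Finset.univ.filter fun s : Q => k * s ∉ (Finset.univ : Finset Q)) = ∅ := by
        rw [Finset.filter_eq_empty_iff]
        intro s _ h
        exact h (Finset.mem_univ _)
      have h0 : (((Finset.univ.filter fun s : Q => k * s ∉ (Finset.univ : Finset Q)).card : ℕ) :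
          ℝ) = 0 := by rw [this]; simp
      refine le_trans (le_of_eq ?_) (mul_nonneg hε.le (Nat.cast_nonneg _))
      convert h0 using 2
    · intro j j' s s' _ _ x hx x' hx' he
      rw [Set.mem_singleton_iff] at hx hx'
      subst hx
      rw [hx'] at he
      refine ⟨Subsingleton.elim _ _, ?_⟩
      have h3 : (s'⁻¹ * s) • x = x := by rw [mul_smul, he, inv_smul_smul]
      exact (inv_mul_eq_one.1 (hf _ _ h3)).symm
    · refine pack (ι := Empty) (fun i => i.elim) (fun i => i.elim) (fun i => i.elim) ?_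
        (fun i => i.elim) (fun i => i.elim)
      intro x hx
      exfalso
      obtain ⟨s, hs⟩ := TFING.trans_of_min hm' x₀ (π x)
      exact hx 0 s (Finset.mem_univ _) (by rw [← hs, inv_smul_smul]; rfl)
  by_cases hA : Amenable Q
  · -- `Q` is amenable
    refine core G Q q hlf X X' π hπ heq σ hσ hfX ?_ K V hK hV hVne hμ
    intro V₀ hV₀ hV₀ne Kq ε hε
    have hcas : CastleProp Q X' (2 ^ d * 2 ^ d) := by
      obtain ⟨Y, _, _, _, _, _, _, π', hπ', hπs', hπe', hπf', hπc'⟩ :=
        t_ZE (t_ZE3 (t_ZE2 t_ZE1)) t_ZE4 Q X' d hf hd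
      have hfY : FreeAct Q Y := by
        intro g y hy
        refine hf g (π' y) ?_
        rw [← hπe', hy]
      exact t_CP (t_CYR t_CY t_PART) t_ND t_COL Q X' Y π' (2 ^ d) hA hm' hf hπ' hπs' hπe' hπf' hπc'
        (t_COMP (t_RED (t_MAIN t_PA t_BL (t_US t_BL) (t_RC t_RC1) t_TRF)) Q Y hA hfY)
    obtain ⟨W, hW, hWne, hWR⟩ := remainder hπ heq σ hσ hlf hf hm V₀ hV₀ hV₀ne (2 ^ d * 2 ^ d)
    obtain ⟨ρ, hρ, hc⟩ := hcas W hW hWne
    obtain ⟨m, S, V', C, hSF, hV', -, hCV, hL, -, hM⟩ := hc Kq ε hε 1 (fun _ => Set.univ)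
      (fun _ => isOpen_univ) (fun _ => ⟨0, trivial⟩)
    obtain ⟨n, c, g, U, hU, hRU, hUW, hUd⟩ := hM S (fun j => ⟨subset_rfl, by
      have := Nat.cast_nonneg (α := ℝ) (S j).card
      nlinarith⟩)
    refine ⟨m, S, V', hSF, hV', hL, ?_⟩
    refine (hWR {x' | ∀ j, ∀ s ∈ S j, s⁻¹ • x' ∉ V' j} ⟨n, c, g, U, hU, ?_,
      fun i x hx => (hUW i x hx).1, hUd⟩)
    intro x hx
    exact hRU x fun j s hs h => hx j s hs (hCV j (interior_subset h))
  · -- `Q` is not amenable
    obtain ⟨W, hW, hWne, hWR⟩ := remainder hπ heq σ hσ hlf hf hm V hV hVne 1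
    let _ : MeasurableSpace X' := borel X'
    have hB : BorelSpace X' := ⟨rfl⟩
    obtain ⟨n, W', t, h1, h2, h3, h4⟩ := cmp_fd Q X' d hd hf hm' ha Set.univ W isCompact_univ hW
      hWne (fun μ hμp hinv => (no_inv hA ha μ hinv).elim)
    refine (hWR Set.univ ⟨n, fun _ => 0, t, W', h1, fun x _ => Set.mem_iUnion.1 (h2 trivial), h3,
      fun i j hij _ => h4 i j hij⟩).mono (fun x _ => trivial) subset_rfl

end Pool.Agent.Helper277_FF
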