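import Pool.Agent.Helper277_FF.Greedy2

set_option autoImplicit false

/-!
# The greedy transport with the roles of supplies and capacities exchanged

Here the function `p` of `gr2` is a capacity and the functions `c l` are supplies of kind `l`. In
step `i` the supply of kind `(m i).1` at `z` is sent to the point `(m i).2⁻¹ • z`.
-/

namespace Pool.Agent.Helper277_FF

open Finset

universe u v w

section

variable {G : Type u} [Group G] {X : Type v} [MulAction G X] {Λ : Type w} [DecidableEq Λ]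

/-- the amount sent in step `i` by the kind `(m i).1` at the point `z` -/
noncomputable def amt (m : ℕ → Λ × G) (p : X → ℝ) (c : Λ → X → ℝ) (i : ℕ) (z : X) : ℝ :=
  min ((gr2 m p c i).1 ((m i).2⁻¹ • z)) ((gr2 m p c i).2 (m i).1 z)

theorem gr2_sum_two (m : ℕ → Λ × G) (p : X → ℝ) (c : Λ → X → ℝ) (n : ℕ) (l : Λ) (z : X) :
    c l z - (gr2 m p c n).2 l z = ∑ i ∈ range n, if l = (m i).1 then amt m p c i z else 0 := by
  induction n with
  | zero => simp [gr2]
  | succ n ih =>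
    rw [Finset.sum_range_succ, ← ih, gr2_two]
    unfold amt
    ring

theorem gr2_sum_one (m : ℕ → Λ × G) (p : X → ℝ) (c : Λ → X → ℝ) (n : ℕ) (x : X) :
    p x - (gr2 m p c n).1 x = ∑ i ∈ range n, amt m p c i ((m i).2 • x) := by
  induction n with
  | zero => simp [gr2]
  | succ n ih =>
    rw [Finset.sum_range_succ, ← ih, gr2_one]
    unfold amt
    rw [inv_smul_smul]
    ring

variable (m : ℕ → Λ × G) {p : X → ℝ} {c : Λ → X → ℝ} (hp : ∀ x, 0 ≤ p x) (hc : ∀ l x, 0 ≤ c l x)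

include hp hc

theorem amt_nonneg (i : ℕ) (z : X) : 0 ≤ amt m p c i z :=
  le_min ((gr2_nonneg m hp hc i).1 _) ((gr2_nonneg m hp hc i).2 _ _)

/-- the capacities used at the points of `S` come from the supplies of `T` -/
theorem gr2_abs_dual (n : ℕ) (S : Finset X) (T : Finset (Λ × X))
    (hST : ∀ i < n, ∀ x ∈ S, ((m i).1, (m i).2 • x) ∈ T) :
    ∑ x ∈ S, (p x - (gr2 m p c n).1 x) ≤ ∑ t ∈ T, (c t.1 t.2 - (gr2 m p c n).2 t.1 t.2) := by
  classical
  simp only [gr2_sum_one, gr2_sum_two]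
  rw [Finset.sum_comm, Finset.sum_comm (s := T)]
  refine Finset.sum_le_sum fun i hi => ?_
  rw [← Finset.sum_filter]
  have hinj : Set.InjOn (fun x : X => (((m i).1, (m i).2 • x) : Λ × X)) (S : Set X) := by
    intro x _ x' _ h
    exact smul_left_cancel _ (congrArg Prod.snd h)
  have h1 : ∑ x ∈ S, amt m p c i ((m i).2 • x) =
      ∑ t ∈ S.image (fun x : X => (((m i).1, (m i).2 • x) : Λ × X)), amt m p c i t.2 := by
    rw [Finset.sum_image hinj]
  rw [h1]
  refine Finset.sum_le_sum_of_subset_of_nonneg ?_ fun _ _ _ => amt_nonneg m hp hc _ _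
  intro t ht
  obtain ⟨x, hx, rfl⟩ := Finset.mem_image.1 ht
  exact Finset.mem_filter.2 ⟨hST i (Finset.mem_range.1 hi) x hx, rfl⟩

theorem gr2_sat_dual (n : ℕ) (l : Λ) (z : X) (hz : 0 < (gr2 m p c n).2 l z) (i : ℕ) (hi : i < n)
    (hl : (m i).1 = l) : (gr2 m p c n).1 ((m i).2⁻¹ • z) = 0 := by
  by_contra hne
  have h1 : 0 < (gr2 m p c n).1 ((m i).2⁻¹ • z) :=
    lt_of_le_of_ne ((gr2_nonneg m hp hc n).1 _) (Ne.symm hne)
  have h2 := gr2_sat m hp hc n _ h1 i hi
  rw [smul_inv_smul, hl] at h2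
  linarith

theorem gr2_half (hp1 : ∀ x, p x ≤ 1) (L : ℕ) (l : Λ) (z : X)
    (hz : (gr2 m p c L).2 l z ≤ 1 / 2) (hcz : c l z = 1) : ∃ i < L,
      (gr2 m p c (i + 1)).1 ((m i).2⁻¹ • z) < 2 ^ i / 2 ^ (L + 1) ∧
      2 ^ i / 2 ^ (L + 1) < (gr2 m p c i).1 ((m i).2⁻¹ • z) := by
  by_contra hcon
  push Not at hcon
  have hL : (0 : ℝ) < 2 ^ (L + 1) := by positivity
  have key : ∀ i, i ≤ L → 1 - (2 ^ i - 1) / 2 ^ (L + 1) ≤ (gr2 m p c i).2 l z := by
    intro i
    induction i with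
    | zero =>
      intro _
      show 1 - (2 ^ 0 - 1) / 2 ^ (L + 1) ≤ c l z
      rw [hcz]; norm_num
    | succ i ih =>
      intro hi
      have ih := ih (by omega)
      have hc' := hcon i (by omega)
      obtain ⟨h1, h2⟩ := gr2_nonneg m hp hc i
      have hle : (gr2 m p c i).1 ((m i).2⁻¹ • z) ≤ 1 :=
        ((gr2_anti m hp hc (Nat.zero_le i)).1 _).trans (hp1 _)
      rw [gr2_two]
      have e0 : (2 : ℝ) ^ (i + 1) = 2 ^ i + 2 ^ i := by rw [pow_succ]; ring
      have e1 : ((2 : ℝ) ^ (i + 1) - 1) / 2 ^ (L + 1) =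
          (2 ^ i - 1) / 2 ^ (L + 1) + 2 ^ i / 2 ^ (L + 1) := by
        rw [e0]; ring
      have h7 : (0 : ℝ) < 2 ^ i / 2 ^ (L + 1) := by positivity
      rw [e1]
      by_cases hl : l = (m i).1
      swap
      · rw [if_neg hl]
        linarith
      rw [if_pos hl]
      by_cases h : (gr2 m p c i).1 ((m i).2⁻¹ • z) ≤ 2 ^ i / 2 ^ (L + 1)
      · have := min_le_left ((gr2 m p c i).1 ((m i).2⁻¹ • z)) ((gr2 m p c i).2 (m i).1 z)
        linarith
      · exfalso
        rw [not_le] at h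
        have h5 : 2 ^ i / 2 ^ (L + 1) ≤ (gr2 m p c (i + 1)).1 ((m i).2⁻¹ • z) := by
          by_contra h6
          rw [not_le] at h6
          exact absurd (hc' h6) (not_le.2 h)
        rw [gr2_one, smul_inv_smul, ← hl] at h5
        rcases le_total ((gr2 m p c i).1 ((m i).2⁻¹ • z)) ((gr2 m p c i).2 l z)
          with h8 | h8
        · rw [min_eq_left h8, sub_self] at h5
          linarith
        · rw [min_eq_right h8] at h5
          have : (2 : ℝ) ^ i / 2 ^ (L + 1) ≤ (2 ^ i - 1) / 2 ^ (L + 1) := by linarith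
          rw [div_le_div_iff_of_pos_right hL] at this
          linarith
  have h9 := (key L le_rfl).trans hz
  have h10 : ((2 : ℝ) ^ L - 1) / 2 ^ (L + 1) < 1 / 2 := by
    rw [div_lt_div_iff₀ hL two_pos, pow_succ]
    linarith
  linarith

theorem cross_unique_dual (L : ℕ) (x : X) (i i' : ℕ)
    (h : (gr2 m p c (i + 1)).1 x < 2 ^ i / 2 ^ L ∧ 2 ^ i / 2 ^ L < (gr2 m p c i).1 x)
    (h' : (gr2 m p c (i' + 1)).1 x < 2 ^ i' / 2 ^ L ∧ 2 ^ i' / 2 ^ L < (gr2 m p c i').1 x) :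
    i = i' := by
  have key : ∀ i i' : ℕ, (gr2 m p c (i + 1)).1 x < 2 ^ i / 2 ^ L →
      2 ^ i' / 2 ^ L < (gr2 m p c i').1 x → ¬ i < i' := by
    intro i i' h1 h2 hlt
    have h3 := (gr2_anti m hp hc (Nat.succ_le_of_lt hlt)).1 x
    have h4 : (2 : ℝ) ^ i / 2 ^ L ≤ 2 ^ i' / 2 ^ L := by
      apply div_le_div_of_nonneg_right _ (by positivity)
      exact pow_le_pow_right₀ (by norm_num) hlt.le
    rw [Nat.succ_eq_add_one] at h3
    linarith
  rcases lt_trichotomy i i' with h1 | h1 | h1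
  · exact absurd h1 (key i i' h.1 h'.2)
  · exact h1
  · exact absurd h1 (key i' i h'.1 h.2)

end

/-- comparison from a greedy transport that leaves at most half of the supplies -/
theorem greedy_half {G : Type u} [Group G] {X : Type v} [TopologicalSpace X] [MulAction G X]
    [ContinuousConstSMul G X] {Λ : Type w} [DecidableEq Λ] (m : ℕ → Λ × G) (p : X → ℝ)
    (c : Λ → X → ℝ) (hp : ∀ x, 0 ≤ p x) (hp1 : ∀ x, p x ≤ 1) (hc : ∀ l x, 0 ≤ c l x)
    (hpc : Continuous p) (hcc : ∀ l, Continuous (c l)) (L : ℕ) :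
    SubEq G {z | ∃ l, c l z = 1 ∧ (gr2 m p c L).2 l z ≤ 1 / 2} {x | 0 < p x} := by
  refine pack (ι := Fin L) (fun i => {z | (gr2 m p c (i + 1)).1 ((m i).2⁻¹ • z) <
      2 ^ (i : ℕ) / 2 ^ (L + 1) ∧ 2 ^ (i : ℕ) / 2 ^ (L + 1) < (gr2 m p c i).1 ((m i).2⁻¹ • z)})
    (fun i => (m i).2⁻¹) ?_ ?_ ?_ ?_
  · intro i
    refine IsOpen.inter ?_ ?_
    · exact isOpen_lt ((gr2_cont m p c hpc hcc _).1.comp (continuous_const_smul _))
        continuous_const
    · exact isOpen_lt continuous_const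
        ((gr2_cont m p c hpc hcc _).1.comp (continuous_const_smul _))
  · rintro z ⟨l, hz, hz2⟩
    obtain ⟨i, hi, h1, h2⟩ := gr2_half m hp hc hp1 L l z hz2 hz
    exact ⟨⟨i, hi⟩, h1, h2⟩
  · intro i z hz
    have h4 : (0 : ℝ) < 2 ^ (i : ℕ) / 2 ^ (L + 1) := by positivity
    exact (h4.trans hz.2).trans_le ((gr2_anti m hp hc (Nat.zero_le _)).1 _)
  · intro i j x hx x' hx' he
    have hx1 := hx'
    obtain ⟨h8, h9⟩ := hx1
    rw [← he] at h8 h9
    exact Fin.ext (cross_unique_dual m hp hc (L + 1) _ _ _ hx ⟨h8, h9⟩)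

end Pool.Agent.Helper277_FF
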