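import Pool.Agent.Helper277_FF.Greedy2
import Pool.Agent.Helper277_FF.Rem
import Pool.Agent.Helper277_DC.FreeNormal

set_option autoImplicit false

/-!
# Comparison for groups with a free normal subgroup modulo a small normal subgroup
-/

namespace Pool.Agent.Helper277_FF

open Finset Pool.Agent.H107ZS Pool.Agent.Helper277_DC

universe u v w

theorem exists_enum {α : Type*} (S : Finset α) (a₀ : α) :
    ∃ (L : ℕ) (m : ℕ → α), (∀ i < L, m i ∈ S) ∧ ∀ s ∈ S, ∃ i < L, m i = s := by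
  refine ⟨S.toList.length, fun i => S.toList.getD i a₀, fun i hi => ?_, fun s hs => ?_⟩
  · beta_reduce
    rw [List.getD_eq_getElem _ _ hi, ← Finset.mem_toList]
    exact List.getElem_mem hi
  · obtain ⟨i, hi, h⟩ := List.mem_iff_getElem.1 (Finset.mem_toList.2 hs)
    refine ⟨i, hi, ?_⟩
    beta_reduce
    rw [List.getD_eq_getElem _ _ hi, h]

/-- a function supported in an open set which is `1` at some return of every point -/
theorem exists_return {G : Type u} [Group G] {X : Type v} [TopologicalSpace X] [CompactSpace X]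
    [T2Space X] [MulAction G X] [ContinuousConstSMul G X] (hm : MinAct G X) (V₀ : Set X)
    (hV₀ : IsOpen V₀) (hne : V₀.Nonempty) :
    ∃ (b : C(X, ℝ)) (E : Finset G), (∀ x, 0 ≤ b x) ∧ (∀ x, b x ≤ 1) ∧ (∀ x, 0 < b x → x ∈ V₀) ∧
      E.Nonempty ∧ ∀ x, ∃ e ∈ E, b (e • x) = 1 := by
  obtain ⟨x₀, hx₀⟩ := hne
  obtain ⟨f, hf0, hf1, hf01⟩ := exists_continuous_zero_one_of_isClosed (hV₀.isClosed_compl)
    (isClosed_singleton (x := x₀)) (Set.disjoint_singleton_right.2 (fun h => h hx₀))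
  let b : C(X, ℝ) := ⟨fun x => min (2 * f x) 1,
    (continuous_const.mul f.continuous).min continuous_const⟩
  have hbd : ∀ x, b x = min (2 * f x) 1 := fun x => rfl
  have hx₀f : f x₀ = 1 := hf1 rfl
  obtain ⟨E, hE⟩ := Fin3.ret hm {x | 1 / 2 < f x} (isOpen_lt continuous_const f.continuous)
    ⟨x₀, by show 1 / 2 < f x₀; rw [hx₀f]; norm_num⟩
  refine ⟨b, E, fun x => ?_, fun x => min_le_right _ _, fun x hx => ?_, ?_, fun x => ?_⟩
  · rw [hbd]
    exact le_min (by have := (hf01 x).1; linarith) zero_le_one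
  · by_contra hcon
    have h1 : f x = 0 := hf0 hcon
    rw [hbd, h1] at hx
    norm_num at hx
  · obtain ⟨e, he, _⟩ := hE x₀
    exact ⟨e, he⟩
  · obtain ⟨e, he, h1⟩ := hE x
    refine ⟨e, he, ?_⟩
    have h1' : 1 / 2 < f (e • x) := h1
    rw [hbd]
    exact min_eq_right (by linarith)

open Classical in
theorem mass_disj {G X : Type} (F : Finset G) (N : X → G → ℝ)
    (hN0 : ∀ x h, 0 ≤ N x h) (x : X) (hN1 : ∑ h ∈ F, N x h = 1) (A B : Set G)
    (hAB : Disjoint A B) : mass F N A x + mass F N B x ≤ 1 := by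
  unfold mass
  rw [← Finset.sum_add_distrib]
  refine le_trans (Finset.sum_le_sum fun h _ => ?_) hN1.le
  rw [← mul_add]
  refine (mul_le_mul_of_nonneg_left ?_ (hN0 x h)).trans (mul_one _).le
  by_cases h1 : h ∈ A
  · rw [if_pos h1, if_neg (Set.disjoint_left.1 hAB h1), add_zero]
  · rw [if_neg h1, zero_add]
    split_ifs <;> norm_num

open Classical in
theorem exists_heavy {G X : Type} (F : Finset G) (N : X → G → ℝ)
    (hN0 : ∀ x h, 0 ≤ N x h) (x : X) (hN1 : ∑ h ∈ F, N x h = 1) {ι : Type} [Fintype ι] [Nonempty ι]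
    (A : ι → Set G)
    (hA : ∀ h, 3 * Fintype.card ι ≤ 4 * ((univ : Finset ι).filter fun i => h ∈ A i).card) :
    ∃ i, 3 / 4 ≤ mass F N (A i) x := by
  have h1 : ∑ i, mass F N (A i) x =
      ∑ h ∈ F, N x h * (((univ : Finset ι).filter fun i => h ∈ A i).card : ℝ) := by
    unfold mass
    rw [Finset.sum_comm]
    refine Finset.sum_congr rfl fun h _ => ?_
    rw [← Finset.mul_sum, Finset.sum_boole]
  have h2 : ∀ h ∈ F, N x h * (3 / 4 * (Fintype.card ι : ℝ)) ≤
      N x h * (((univ : Finset ι).filter fun i => h ∈ A i).card : ℝ) := by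
    intro h _
    refine mul_le_mul_of_nonneg_left ?_ (hN0 _ _)
    have h3 : (3 * Fintype.card ι : ℝ) ≤
        4 * (((univ : Finset ι).filter fun i => h ∈ A i).card : ℝ) := by
      exact_mod_cast hA h
    linarith
  have h4 := Finset.sum_le_sum h2
  rw [← Finset.sum_mul, hN1, one_mul, ← h1] at h4
  by_contra hcon
  push Not at hcon
  have h5 := Finset.sum_lt_sum_of_nonempty (Finset.univ_nonempty (α := ι)) fun i _ => hcon i
  rw [Finset.sum_const, nsmul_eq_mul, Finset.card_univ] at h5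
  linarith

theorem mass_push {G X : Type} [Group G] [MulAction G X] [TopologicalSpace X] [CompactSpace X]
    [T2Space X] [ContinuousConstSMul G X] (F : Finset G) (N : X → G → ℝ)
    (hN0 : ∀ x h, 0 ≤ N x h) (hNF : ∀ x h, h ∉ F → N x h = 0) (g : G) (x : X) (ε : ℝ)
    (hg : ∑ h ∈ F, |N (g • x) (g * h) - N x h| ≤ ε) (A B : Set G)
    (hAB : ∀ v, g⁻¹ * v ∈ A → v ∈ B) : mass F N A x ≤ mass F N B (g • x) + ε := by
  classical
  refine (mass_move F N hN0 hNF g x ε hg A).trans ?_
  have h3 : ∑ v ∈ F, N (g • x) v * (@ite ℝ (g⁻¹ * v ∈ A) (Classical.propDecidable _) 1 0) ≤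
      mass F N B (g • x) := by
    unfold mass
    refine Finset.sum_le_sum fun v _ => mul_le_mul_of_nonneg_left ?_ (hN0 _ _)
    by_cases hv : g⁻¹ * v ∈ A
    · rw [if_pos hv, if_pos (hAB v hv)]
    · rw [if_neg hv]
      split_ifs <;> norm_num
  linarith

open Classical in
theorem free_ext {G X : Type} [Group G] [TopologicalSpace X] [CompactSpace X] [T2Space X]
    [MulAction G X] [ContinuousConstSMul G X] {P : Type} [Group P] (q : G →* P)
    (hq : Function.Surjective q) (Γ : Subgroup P) [Γ.Normal] [IsFreeGroup Γ]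
    (hna : ∃ a ∈ Γ, ∃ b ∈ Γ, a * b ≠ b * a) (C₀ : ℕ)
    (hTP : ∀ E : Finset G, (∀ e ∈ E, q e = 1) → ∃ F : Finset G, F.Nonempty ∧
      (∀ f ∈ F, q f = 1) ∧
      ({g | ∃ a ∈ F, ∃ e ∈ E, ∃ b ∈ F, g = a⁻¹ * e * b} : Set G).ncard ≤ C₀ * F.card)
    (hC : ∀ g : G, (∀ γ ∈ Γ, q g * γ = γ * q g) →
      ∃ b l : G, q b = 1 ∧ (∀ t : G, q t ∈ Γ → l * t = t * l) ∧ g = b * l)
    (hfree : FreeAct G X) (hmin : MinAct G X) (ham : TopAmC G X)
    (V : Set X) (hV : IsOpen V) (hVne : V.Nonempty) : SubEq G Set.univ V := by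
  obtain ⟨b, D, hb0, hb1, hbV, hDne, hD⟩ := exists_return hmin V hV hVne
  have hDc : 0 < D.card := hDne.card_pos
  have : Nonempty D := ⟨⟨hDne.choose, hDne.choose_spec⟩⟩
  -- conjugation on the free group
  let φ := IsFreeGroup.mulEquiv Γ
  let σ : D → FreeGroup (IsFreeGroup.Generators Γ) ≃* FreeGroup (IsFreeGroup.Generators Γ) :=
    fun d => (φ.trans (MulAut.conjNormal (q d))).trans φ.symm
  have hσ : ∀ (d : D) (w), ((φ (σ d w) : Γ) : P) = q d * (φ w : P) * (q d)⁻¹ := by
    intro d w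
    simp only [σ, MulEquiv.trans_apply, MulEquiv.apply_symm_apply]
    exact MulAut.conjNormal_apply _ _
  -- representatives
  let rp : D → D := fun d => Classical.choose (⟨d, rfl⟩ : ∃ d' : D, σ d' = σ d)
  have hrp : ∀ d, σ (rp d) = σ d := fun d =>
    Classical.choose_spec (⟨d, rfl⟩ : ∃ d' : D, σ d' = σ d)
  have hrp2 : ∀ d d', σ d = σ d' → rp d = rp d' := by
    intro d d' h
    simp only [rp, h]
  obtain ⟨a, ha, b', hb', hab⟩ := hna
  have hab' : φ.symm ⟨a, ha⟩ * φ.symm ⟨b', hb'⟩ ≠ φ.symm ⟨b', hb'⟩ * φ.symm ⟨a, ha⟩ := by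
    rw [← map_mul, ← map_mul]
    intro h
    exact hab (congrArg Subtype.val (φ.symm.injective h))
  set M : ℕ := C₀ * D.card ^ 3 + 1 with hM
  obtain ⟨t0, P', N0, hPN, hP, hN⟩ := pingpong_family (ι := Fin (4 * D.card) × Fin M) σ hab'
  set ψ : G → FreeGroup (IsFreeGroup.Generators Γ) := fun g => φ.symm (sect Γ (q g)) with hψ
  have hψm : ∀ (γ : Γ) (h g : G), q h = γ → ψ (h * g) = φ.symm γ * ψ g := by
    intro γ h g hγ
    simp only [hψ]
    rw [map_mul, hγ, sect_mul, map_mul]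
  choose t ht using fun (r : Fin (4 * D.card) × Fin M) => hq (φ (t0 r) : P)
  have htΓ : ∀ r, q (t r) ∈ Γ := fun r => by rw [ht]; exact (φ (t0 r)).2
  set A : Fin (4 * D.card) × Fin M → Set G := fun r =>
    {h | ∀ d : D, ψ ((d : G) * h) ∉ N0 (rp d) r} with hA
  have hmove : ∀ (d : D) r (f : G), q f = 1 → ∀ h ∈ A r,
      ψ ((d : G) * t r * f * h) ∈ P' (rp d) r := by
    intro d r f hf h hh
    have h1 : ψ ((d : G) * t r * f * h) = φ.symm (φ (σ d (t0 r))) * ψ ((d : G) * h) := by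
      have h2 : (d : G) * t r * f * h = ((d : G) * t r * f * (d : G)⁻¹) * ((d : G) * h) := by
        group
      rw [h2]
      apply hψm
      rw [hσ, map_mul, map_mul, map_mul, hf, mul_one, ht, map_inv]
    rw [h1, MulEquiv.symm_apply_apply, ← hrp]
    exact hPN (rp d) r _ (hh d)
  have hcardA : ∀ h χ, 3 * Fintype.card (Fin (4 * D.card)) ≤
      4 * (univ.filter fun κ => h ∈ A (κ, χ)).card := by
    intro h χ
    have h1 : (univ.filter fun κ => ¬ (h ∈ A (κ, χ))).card ≤ D.card := by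
      have h2 : (univ.filter fun κ => ¬ (h ∈ A (κ, χ))) ⊆ (univ : Finset D).biUnion fun d =>
          univ.filter fun κ => ψ ((d : G) * h) ∈ N0 (rp d) (κ, χ) := by
        intro κ hκ
        simp only [mem_filter, mem_univ, true_and, hA, Set.mem_ofPred_eq, not_forall, not_not]
          at hκ
        obtain ⟨d, hd⟩ := hκ
        simp only [mem_biUnion, mem_univ, mem_filter, true_and]
        exact ⟨d, hd⟩
      refine (Finset.card_le_card h2).trans ?_
      refine (Finset.card_biUnion_le_card_mul _ _ 1 fun d _ => ?_).trans ?_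
      · rw [Finset.card_le_one]
        intro κ hκ κ' hκ'
        simp only [mem_filter, mem_univ, true_and] at hκ hκ'
        by_contra hne
        refine Set.disjoint_left.1 (hN (rp d) (κ, χ) (rp d) (κ', χ) (Or.inl ?_)) hκ hκ'
        intro h3
        exact hne (congrArg Prod.fst h3)
      · rw [Finset.card_univ, Fintype.card_coe, mul_one]
    have h3 := Finset.card_filter_add_card_filter_not (s := (univ : Finset (Fin (4 * D.card))))
      (fun κ => h ∈ A (κ, χ))
    rw [Finset.card_univ, Fintype.card_fin] at h3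
    rw [Fintype.card_fin]
    omega
  -- centralising elements
  let cen : G → Prop := fun g => ∀ γ ∈ Γ, q g * γ = γ * q g
  have hbl : ∀ g : G, ∃ bl : G × G, q bl.1 = 1 ∧
      (cen g → (∀ s : G, q s ∈ Γ → bl.2 * s = s * bl.2) ∧ g = bl.1 * bl.2) := by
    intro g
    by_cases h : cen g
    · obtain ⟨b₁, l, h1, h2, h3⟩ := hC g h
      exact ⟨(b₁, l), h1, fun _ => ⟨h2, h3⟩⟩
    · exact ⟨(1, 1), map_one q, fun h' => absurd h' h⟩
  choose bl hbl1 hbl2 using hbl
  set E' : Finset G := ((univ : Finset (Fin (4 * D.card) × Fin M)) ×ˢ D ×ˢ D).image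
    fun r => (t r.1)⁻¹ * (bl (r.2.1⁻¹ * r.2.2)).1 * t r.1 with hE'
  set L₀ : Finset G := (D ×ˢ D).image fun r => (bl (r.1⁻¹ * r.2)).2 with hL₀
  have hL₀c : L₀.card ≤ D.card ^ 2 := by
    refine Finset.card_image_le.trans ?_
    rw [Finset.card_product, sq]
  obtain ⟨F, hFne, hF1, hFc⟩ := hTP E' (by
    intro e he
    obtain ⟨r, _, rfl⟩ := Finset.mem_image.1 he
    rw [map_mul, map_mul, hbl1, mul_one, map_inv, inv_mul_cancel])
  set FEF : Finset G := (F ×ˢ E' ×ˢ F).image fun r => r.1⁻¹ * r.2.1 * r.2.2 with hFEF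
  have hFEFc : FEF.card ≤ C₀ * F.card := by
    have e : ({g | ∃ a ∈ F, ∃ e ∈ E', ∃ b ∈ F, g = a⁻¹ * e * b} : Set G) = (FEF : Set G) := by
      ext g
      rw [Finset.mem_coe, hFEF, Finset.mem_image]
      constructor
      · rintro ⟨a, ha, e, he, b, hb, rfl⟩
        exact ⟨(a, e, b), Finset.mem_product.2 ⟨ha, Finset.mem_product.2 ⟨he, hb⟩⟩, rfl⟩
      · rintro ⟨⟨a, e, b⟩, hr, rfl⟩
        rw [Finset.mem_product, Finset.mem_product] at hr
        exact ⟨a, hr.1, e, hr.2.1, b, hr.2.2, rfl⟩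
    rw [e, Set.ncard_coe_finset] at hFc
    exact hFc
  -- the moves
  set mv : (Fin (4 * D.card) × Fin M) × D × G →
      ((Fin (4 * D.card) × Fin M) × D) × G := fun r =>
    ((r.1, rp r.2.1), (r.2.1 : G) * t r.1 * r.2.2) with hmv
  obtain ⟨L, m, hm1, hm2⟩ := exists_enum
    (((univ : Finset (Fin (4 * D.card) × Fin M)) ×ˢ (univ : Finset D) ×ˢ F).image mv)
    (((⟨0, by omega⟩, ⟨0, by omega⟩), Classical.arbitrary D), 1)
  -- the field of probability vectors
  obtain ⟨F₁, N, hN0, hNc, hNF, hN1, hNi⟩ := exists_field (X := X)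
    ((((univ : Finset (Fin (4 * D.card) × Fin M)) ×ˢ (univ : Finset D) ×ˢ F).image mv).image
      Prod.snd) (1/8) (by norm_num) ham
  set Ps : (Fin (4 * D.card) × Fin M) × D → Set G := fun l => {v | ψ v ∈ P' l.2 l.1} with hPs
  set c : (Fin (4 * D.card) × Fin M) × D → X → ℝ := fun l z =>
    b z * max 0 (min 1 (8 * mass F₁ N (Ps l) z - 4)) with hc
  have hc0 : ∀ l z, 0 ≤ c l z := fun l z => mul_nonneg (hb0 z) (le_max_left _ _)
  have hc1 : ∀ l z, c l z ≤ 1 := fun l z => mul_le_one₀ (hb1 z) (le_max_left _ _)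
    (max_le zero_le_one (min_le_left _ _))
  have hcc : ∀ l, Continuous (c l) := fun l => b.continuous.mul (continuous_const.max
    (continuous_const.min ((continuous_const.mul (mass_continuous F₁ N hNc _)).sub
      continuous_const)))
  have hcb : ∀ l z, 0 < c l z → z ∈ V ∧ 1 / 2 < mass F₁ N (Ps l) z := by
    intro l z h
    have h1 : 0 < b z := by
      by_contra hcon
      have h2 : b z = 0 := le_antisymm (not_lt.1 hcon) (hb0 z)
      simp only [hc, h2, zero_mul, lt_irrefl] at h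
    refine ⟨hbV z h1, ?_⟩
    by_contra hcon
    have h2 : max 0 (min 1 (8 * mass F₁ N (Ps l) z - 4)) = (0 : ℝ) :=
      max_eq_left ((min_le_right _ _).trans (by linarith))
    simp only [hc, h2, mul_zero, lt_irrefl] at h
  -- only one kind of targets is active at each point
  have hact : ∀ i < L, ∀ j < L, ∀ z, 0 < c (m i).1 z → 0 < c (m j).1 z →
      (m i).1 = (m j).1 := by
    intro i hi j hj z h1 h2
    obtain ⟨⟨r, d, f⟩, _, hr⟩ := Finset.mem_image.1 (hm1 i hi)
    obtain ⟨⟨r', d', f'⟩, _, hr'⟩ := Finset.mem_image.1 (hm1 j hj)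
    have e1 : (m i).1 = (r, rp d) := by rw [← hr]
    have e2 : (m j).1 = (r', rp d') := by rw [← hr']
    rw [e1] at h1 ⊢
    rw [e2] at h2 ⊢
    by_contra hne
    have h3 : r ≠ r' ∨ σ (rp d) ≠ σ (rp d') := by
      by_contra hcon
      push Not at hcon
      refine hne ?_
      rw [hcon.1, hrp2 d d' (by rw [← hrp d, ← hrp d', hcon.2])]
    have h4 : Disjoint (Ps (r, rp d)) (Ps (r', rp d')) := by
      rw [Set.disjoint_left]
      intro v hv hv'
      exact Set.disjoint_left.1 (hP _ _ _ _ h3) hv hv'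
    have h5 := mass_disj F₁ N hN0 z (hN1 z) _ _ h4
    have h6 := (hcb _ _ h1).2
    have h7 := (hcb _ _ h2).2
    linarith
  -- every point is served
  have hz : ∀ x, (gr2 m (fun _ => (1 : ℝ)) c L).1 x = 0 := by
    intro x
    have hFne' : Nonempty (Fin (4 * D.card)) := ⟨⟨0, by omega⟩⟩
    have hsum : ∀ χ, ∃ κ, 3 / 4 ≤ mass F₁ N (A (κ, χ)) x := by
      intro χ
      refine exists_heavy F₁ N hN0 x (hN1 x) (fun κ => A (κ, χ)) fun h => ?_
      convert hcardA h χ
    choose κ hκ using hsum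
    choose dd hdd1 hdd2 using fun (r : Fin M × G) => hD ((t (κ r.1, r.1) * r.2) • x)
    let tg : Fin M × G → ((Fin (4 * D.card) × Fin M) × D) × X := fun r =>
      (((κ r.1, r.1), rp ⟨dd r, hdd1 r⟩), (dd r * t (κ r.1, r.1) * r.2) • x)
    set T : Finset (((Fin (4 * D.card) × Fin M) × D) × X) :=
      ((univ : Finset (Fin M)) ×ˢ F).image tg with hT
    set S : Finset X := (FEF ×ˢ L₀).image fun r => (r.1 * r.2) • x with hS
    have hmem : ∀ r : Fin M × G, r.2 ∈ F → mv ((κ r.1, r.1), ⟨dd r, hdd1 r⟩, r.2) ∈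
        ((univ : Finset (Fin (4 * D.card) × Fin M)) ×ˢ (univ : Finset D) ×ˢ F).image mv := by
      intro r hr
      exact Finset.mem_image.2 ⟨_, Finset.mem_product.2 ⟨Finset.mem_univ _,
        Finset.mem_product.2 ⟨Finset.mem_univ _, hr⟩⟩, rfl⟩
    refine gr2_served m (fun _ => zero_le_one) hc0 L x T S ?_ ?_ ?_
    · intro τ hτ
      obtain ⟨r, hr, rfl⟩ := Finset.mem_image.1 hτ
      rw [Finset.mem_product] at hr
      obtain ⟨i, hi, hi2⟩ := hm2 _ (hmem r hr.2)
      refine ⟨i, hi, ?_⟩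
      rw [hi2]
    · intro i hi z hiz
      obtain ⟨r, hr, hrz⟩ := Finset.mem_image.1 hiz
      obtain ⟨⟨r', d', f'⟩, hr', hmi⟩ := Finset.mem_image.1 (hm1 i hi)
      rw [Finset.mem_product] at hr
      rw [Finset.mem_product, Finset.mem_product] at hr'
      have e1 : (m i).1 = (r', rp d') := by rw [← hmi]
      have e2 : (m i).2 = (d' : G) * t r' * f' := by rw [← hmi]
      rw [e1] at hrz
      have e3 : (κ r.1, r.1) = r' := congrArg (fun τ => τ.1.1) hrz
      have e4 : rp ⟨dd r, hdd1 r⟩ = rp d' := congrArg (fun τ => τ.1.2) hrz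
      have e5 : (dd r * t (κ r.1, r.1) * r.2) • x = z := congrArg (fun τ => τ.2) hrz
      have e6 : σ ⟨dd r, hdd1 r⟩ = σ d' := by rw [← hrp ⟨dd r, hdd1 r⟩, ← hrp d', e4]
      have hcen : cen ((d' : G)⁻¹ * dd r) := by
        intro γ hγ
        have h6 : ((φ (σ ⟨dd r, hdd1 r⟩ (φ.symm ⟨γ, hγ⟩)) : Γ) : P) =
            ((φ (σ d' (φ.symm ⟨γ, hγ⟩)) : Γ) : P) := by rw [e6]
        rw [hσ, hσ, MulEquiv.apply_symm_apply] at h6
        have h7 : q (dd r) * γ = q d' * γ * (q d')⁻¹ * q (dd r) := by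
          rw [← h6, inv_mul_cancel_right]
        rw [map_mul, map_inv]
        calc (q d')⁻¹ * q (dd r) * γ = (q d')⁻¹ * (q (dd r) * γ) := by group
          _ = γ * ((q d')⁻¹ * q (dd r)) := by rw [h7]; group
      obtain ⟨h8, h9⟩ := hbl2 _ hcen
      set h := (d' : G)⁻¹ * dd r with hh
      refine Finset.mem_image.2 ⟨(f'⁻¹ * ((t r')⁻¹ * (bl h).1 * t r') * r.2, (bl h).2), ?_, ?_⟩
      · refine Finset.mem_product.2 ⟨?_, ?_⟩
        · refine Finset.mem_image.2 ⟨(f', (t r')⁻¹ * (bl h).1 * t r', r.2), ?_, rfl⟩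
          refine Finset.mem_product.2 ⟨hr'.2.2, Finset.mem_product.2 ⟨?_, hr.2⟩⟩
          exact Finset.mem_image.2 ⟨(r', (d' : G), dd r), Finset.mem_product.2
            ⟨Finset.mem_univ _, Finset.mem_product.2 ⟨d'.2, hdd1 r⟩⟩, rfl⟩
        · exact Finset.mem_image.2 ⟨((d' : G), dd r), Finset.mem_product.2 ⟨d'.2, hdd1 r⟩, rfl⟩
      · show (f'⁻¹ * ((t r')⁻¹ * (bl h).1 * t r') * r.2 * (bl h).2) • x = (m i).2⁻¹ • z
        rw [e2, ← e5, e3, ← mul_smul]
        congr 1
        have h10 : (bl h).2 * t r' = t r' * (bl h).2 := h8 _ (htΓ r')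
        have h11 : (bl h).2 * r.2 = r.2 * (bl h).2 := h8 _ (by rw [hF1 _ hr.2]; exact Γ.one_mem)
        have h12 : dd r = (d' : G) * ((bl h).1 * (bl h).2) := by
          rw [← h9, hh, mul_inv_cancel_left]
        rw [h12]
        calc f'⁻¹ * ((t r')⁻¹ * (bl h).1 * t r') * r.2 * (bl h).2
            = f'⁻¹ * (t r')⁻¹ * (bl h).1 * t r' * (r.2 * (bl h).2) := by group
          _ = f'⁻¹ * (t r')⁻¹ * (bl h).1 * (t r' * (bl h).2) * r.2 := by rw [← h11]; group
          _ = ((d' : G) * t r' * f')⁻¹ * ((d' : G) * ((bl h).1 * (bl h).2) * t r' * r.2) := by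
              rw [← h10]; group
    · -- counting
      have hcT : ∀ τ ∈ T, c τ.1 τ.2 = 1 := by
        intro τ hτ
        obtain ⟨r, hr, rfl⟩ := Finset.mem_image.1 hτ
        rw [Finset.mem_product] at hr
        have h1 : b ((dd r * t (κ r.1, r.1) * r.2) • x) = 1 := by
          rw [mul_assoc, mul_smul]
          exact hdd2 r
        have h2 := mass_push F₁ N hN0 hNF (dd r * t (κ r.1, r.1) * r.2) x (1/8)
          (hNi _ (Finset.mem_image.2 ⟨_, hmem r hr.2, rfl⟩) x) (A (κ r.1, r.1))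
          (Ps ((κ r.1, r.1), rp ⟨dd r, hdd1 r⟩)) (by
            intro v hv
            have h4 := hmove ⟨dd r, hdd1 r⟩ _ r.2 (hF1 _ hr.2) _ hv
            rw [mul_inv_cancel_left] at h4
            exact h4)
        have h4 := hκ r.1
        have h5 : 5 / 8 ≤ mass F₁ N (Ps ((κ r.1, r.1), rp ⟨dd r, hdd1 r⟩))
              ((dd r * t (κ r.1, r.1) * r.2) • x) := by linarith
        show b ((dd r * t (κ r.1, r.1) * r.2) • x) * max 0 (min 1 (8 * mass F₁ N
          (Ps ((κ r.1, r.1), rp ⟨dd r, hdd1 r⟩)) ((dd r * t (κ r.1, r.1) * r.2) • x) - 4)) = 1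
        rw [h1, min_eq_left (by linarith), max_eq_right zero_le_one, one_mul]
      rw [Finset.sum_congr rfl hcT, Finset.sum_const, Finset.sum_const, nsmul_eq_mul, nsmul_eq_mul,
        mul_one, mul_one]
      have hT1 : ((univ : Finset (Fin M)) ×ˢ F).card ≤ D.card * T.card := by
        refine Finset.card_le_mul_card_image _ _ fun τ hτ => ?_
        refine Finset.card_le_card_of_injOn dd (fun r _ => hdd1 r) ?_
        intro r hr r' hr' hrr
        rw [Finset.mem_coe, Finset.mem_filter] at hr hr'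
        have h1 : tg r = tg r' := hr.2.trans hr'.2.symm
        have h2 : r.1 = r'.1 := congrArg (fun τ => τ.1.1.2) h1
        have h3 : (dd r * t (κ r.1, r.1) * r.2) • x = (dd r' * t (κ r'.1, r'.1) * r'.2) • x :=
          congrArg (fun τ => τ.2) h1
        rw [← h2, ← hrr] at h3
        have h4 : (dd r * t (κ r.1, r.1) * r'.2)⁻¹ * (dd r * t (κ r.1, r.1) * r.2) = 1 := by
          refine hfree _ x ?_
          rw [mul_smul, h3, inv_smul_smul]
        have h5 : r'.2 = r.2 := by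
          have h6 := inv_mul_eq_one.1 h4
          exact mul_left_cancel h6
        exact Prod.ext h2 h5.symm
      rw [Finset.card_product, Finset.card_univ, Fintype.card_fin] at hT1
      have hS1 : S.card ≤ C₀ * F.card * D.card ^ 2 := by
        refine Finset.card_image_le.trans ?_
        rw [Finset.card_product]
        exact Nat.mul_le_mul hFEFc hL₀c
      have hFp : 0 < F.card := hFne.card_pos
      have h6 : S.card < T.card := by
        by_contra hcon
        push Not at hcon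
        have h7 : M * F.card ≤ D.card * (C₀ * F.card * D.card ^ 2) :=
          hT1.trans (Nat.mul_le_mul_left _ (hcon.trans hS1))
        have h8 : D.card * (C₀ * F.card * D.card ^ 2) = (C₀ * D.card ^ 3) * F.card := by ring
        rw [h8] at h7
        have h9 := Nat.le_of_mul_le_mul_right h7 hFp
        omega
      exact_mod_cast h6
  have hfin := greedy_sub m (fun _ => (1 : ℝ)) c (fun _ => zero_le_one) hc0 hc1 continuous_const
    hcc L hz hact
  refine hfin.mono (fun _ _ => rfl) ?_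
  rintro z ⟨i, _, hi⟩
  exact (hcb _ _ hi).1

end Pool.Agent.Helper277_FF
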