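import Pool.Agent.Helper277_FF.Phase
import Pool.Agent.Helper277_FF.FreeExt

set_option autoImplicit false

/-!
# Foelner sets of extensions and of groups of polynomial growth
-/

namespace Pool.Agent.Helper277_FF

open Finset Pool.Agent.H107ZS MeasureTheory Filter Topology Pointwise

universe u v w

/-- a sequence of polynomial growth is doubling at many almost stationary places -/
theorem growth_seq2 (a : ℕ → ℝ) (ha1 : ∀ n, 1 ≤ a n) (ham : Monotone a) (C d : ℕ)
    (hg : ∀ n, a n ≤ C * ((n : ℝ) + 1) ^ d) (r₀ : ℕ) (δ : ℝ) (hδ : 0 < δ) :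
      ∃ n, 1 ≤ n ∧ r₀ ≤ n ∧ a (n + r₀) ≤ (1 + δ) * a n ∧ a (4 * n) ≤ 8 ^ (d + 1) * a n := by
  -- we may assume `1 ≤ r`
  obtain ⟨r, hr1, hr0⟩ : ∃ r, 1 ≤ r ∧ r₀ ≤ r := ⟨r₀ + 1, by omega, by omega⟩
  -- arbitrarily large doubling places
  have h1 : ∀ j₀ : ℕ, ∃ j ≥ j₀, a (8 ^ (j + 1)) ≤ 8 ^ (d + 1) * a (8 ^ j) := by
    intro j₀
    by_contra hcon
    push Not at hcon
    have h2 : ∀ i : ℕ, (8 : ℝ) ^ ((d + 1) * i) ≤ a (8 ^ (j₀ + i)) := by
      intro i
      induction i with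
      | zero => simpa using ha1 (8 ^ j₀)
      | succ i ih =>
        have h3 := hcon (j₀ + i) (by omega)
        have h4 : (8 : ℝ) ^ ((d + 1) * (i + 1)) = 8 ^ (d + 1) * 8 ^ ((d + 1) * i) := by
          rw [← pow_add]; congr 1; ring
        rw [h4]
        exact (mul_le_mul_of_nonneg_left ih (by positivity)).trans h3.le
    have h3 : ∀ i : ℕ, (8 : ℝ) ^ i ≤ C * (2 ^ d * 8 ^ (d * j₀)) := by
      intro i
      have h4 := (h2 i).trans (hg (8 ^ (j₀ + i)))
      have h5 : (((8 ^ (j₀ + i) : ℕ) : ℝ) + 1) ^ d ≤ (2 * 8 ^ (j₀ + i)) ^ d := by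
        apply pow_le_pow_left₀ (by positivity)
        push_cast
        have : (1 : ℝ) ≤ 8 ^ (j₀ + i) := one_le_pow₀ (by norm_num)
        linarith
      have h6 : ((2 : ℝ) * 8 ^ (j₀ + i)) ^ d = 2 ^ d * 8 ^ (d * j₀) * 8 ^ (d * i) := by
        rw [mul_pow, ← pow_mul, mul_assoc, ← pow_add]
        congr 2
        ring
      have h7 : (8 : ℝ) ^ ((d + 1) * i) = 8 ^ i * 8 ^ (d * i) := by
        rw [← pow_add]; congr 1; ring
      have h8 : (8 : ℝ) ^ i * 8 ^ (d * i) ≤ C * (2 ^ d * 8 ^ (d * j₀)) * 8 ^ (d * i) := by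
        rw [← h7]
        refine h4.trans ?_
        rw [mul_assoc]
        refine mul_le_mul_of_nonneg_left ?_ (Nat.cast_nonneg _)
        rw [← h6]
        exact h5
      exact le_of_mul_le_mul_right h8 (by positivity)
    obtain ⟨i, hi⟩ := pow_unbounded_of_one_lt (C * (2 ^ d * 8 ^ (d * j₀)) : ℝ)
      (by norm_num : (1 : ℝ) < 8)
    exact absurd (h3 i) (not_le.2 hi)
  -- a long interval
  obtain ⟨N, hN⟩ := pow_unbounded_of_one_lt ((8 : ℝ) ^ (d + 1)) (by linarith : (1 : ℝ) < 1 + δ)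
  obtain ⟨j, hj, hj2⟩ := h1 (N * r + r)
  have hjm : N * r + r ≤ 8 ^ j := hj.trans (Nat.lt_pow_self (by norm_num)).le
  set m := 8 ^ j with hm
  have h2 : ∃ i < N, a (m + i * r + r) ≤ (1 + δ) * a (m + i * r) := by
    by_contra hcon
    push Not at hcon
    have h3 : ∀ i ≤ N, (1 + δ) ^ i * a m ≤ a (m + i * r) := by
      intro i
      induction i with
      | zero => intro _; simp
      | succ i ih =>
        intro hi
        have h4 := hcon i (by omega)
        have h5 : m + (i + 1) * r = m + i * r + r := by ring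
        rw [h5, pow_succ']
        have h6 := mul_le_mul_of_nonneg_left (ih (by omega)) (by linarith : (0:ℝ) ≤ 1 + δ)
        linarith
    have h4 := h3 N le_rfl
    have h5 : a (m + N * r) ≤ a (8 ^ (j + 1)) := ham (by
      rw [pow_succ, ← hm]; omega)
    have h6 : (1 + δ) ^ N * a m ≤ 8 ^ (d + 1) * a m := h4.trans (h5.trans hj2)
    have h7 := le_of_mul_le_mul_right h6 (lt_of_lt_of_le one_pos (ha1 m))
    exact absurd h7 (not_le.2 hN)
  obtain ⟨i, hi, h3⟩ := h2
  have hir : i * r + r ≤ N * r := by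
    have : (i + 1) * r ≤ N * r := Nat.mul_le_mul_right r hi
    linarith
  refine ⟨m + i * r, by omega, by omega, ?_, ?_⟩
  · refine le_trans (ham ?_) h3
    omega
  · have h4 : a (4 * (m + i * r)) ≤ a (8 ^ (j + 1)) := ham (by
      rw [pow_succ, ← hm]; omega)
    refine h4.trans (hj2.trans ?_)
    exact mul_le_mul_of_nonneg_left (ham (by omega)) (by positivity)


/-- two stationary places of comparable size -/
theorem growth_two (a : ℕ → ℝ) (ha1 : ∀ n, 1 ≤ a n) (ham : Monotone a) (C d : ℕ)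
    (hg : ∀ n, a n ≤ C * ((n : ℝ) + 1) ^ d) (δ : ℝ) (hδ : 0 < δ) :
    ∃ n n', n + n ≤ n' ∧ a (n + 1) ≤ (1 + δ) * a n ∧ a (n' + 1) ≤ (1 + δ) * a n' ∧
      a n' ≤ 8 ^ (d + 1) * a n := by
  obtain ⟨r, hr⟩ := pow_unbounded_of_one_lt ((8 : ℝ) ^ (d + 1)) (by linarith : (1 : ℝ) < 1 + δ)
  obtain ⟨n, hn1, hnr, h1, h2⟩ := growth_seq2 a ha1 ham C d hg (r + 1) δ hδ
  have hex : ∃ i < 2 * n, a (2 * n + i + 1) ≤ (1 + δ) * a (2 * n + i) := by
    by_contra hcon
    push Not at hcon
    have h3 : ∀ i ≤ 2 * n, (1 + δ) ^ i * a (2 * n) ≤ a (2 * n + i) := by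
      intro i
      induction i with
      | zero => intro _; simp
      | succ i ih =>
        intro hi
        have h4 := hcon i (by omega)
        have h5 : 2 * n + (i + 1) = 2 * n + i + 1 := by ring
        rw [h5, pow_succ']
        have h6 := mul_le_mul_of_nonneg_left (ih (by omega)) (by linarith : (0:ℝ) ≤ 1 + δ)
        linarith
    have h4 := h3 (2 * n) le_rfl
    have h5 : 2 * n + 2 * n = 4 * n := by ring
    rw [h5] at h4
    have h6 : a n ≤ a (2 * n) := ham (by omega)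
    have h7 : (1 + δ) ^ r ≤ (1 + δ) ^ (2 * n) :=
      pow_le_pow_right₀ (by linarith) (by omega)
    have h8 : (8 : ℝ) ^ (d + 1) * a n < (1 + δ) ^ (2 * n) * a (2 * n) := by
      have h9 : (8 : ℝ) ^ (d + 1) * a n < (1 + δ) ^ (2 * n) * a n :=
        mul_lt_mul_of_pos_right (hr.trans_le h7) (lt_of_lt_of_le one_pos (ha1 n))
      exact h9.trans_le (mul_le_mul_of_nonneg_left h6 (by positivity))
    linarith
  obtain ⟨i, hi, h3⟩ := hex
  refine ⟨n, 2 * n + i, by omega, ?_, h3, ?_⟩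
  · exact (ham (by omega)).trans h1
  · exact (ham (by omega)).trans h2

open Classical in
/-- powers with small growth are Foelner sets -/
theorem fol_pow {G : Type u} [Group G] (T K : Finset G) (h1 : (1 : G) ∈ T) (hK : K ⊆ T) (δ : ℝ)
    (n : ℕ) (hn : ((T ^ (n + 1)).card : ℝ) ≤ (1 + δ) * (T ^ n).card) : Fol K δ (T ^ n) := by
  refine ⟨Finset.Nonempty.pow ⟨1, h1⟩, fun k hk => ?_⟩
  have h2 : (((T ^ n).filter fun s => k * s ∉ T ^ n).image fun s => k * s) ⊆
      T ^ (n + 1) \ T ^ n := by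
    intro g hg
    obtain ⟨s, hs, rfl⟩ := Finset.mem_image.1 hg
    rw [Finset.mem_filter] at hs
    refine Finset.mem_sdiff.2 ⟨?_, hs.2⟩
    rw [pow_succ']
    exact Finset.mul_mem_mul (hK hk) hs.1
  have h3 := Finset.card_le_card h2
  rw [Finset.card_image_of_injective _ (mul_right_injective k),
    Finset.card_sdiff_of_subset (Finset.pow_subset_pow_right h1 (Nat.le_succ n))] at h3
  have h4 : (T ^ n).card ≤ (T ^ (n + 1)).card :=
    Finset.card_le_card (Finset.pow_subset_pow_right h1 (Nat.le_succ n))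
  have h5 : ((((T ^ n).filter fun s => k * s ∉ T ^ n).card : ℕ) : ℝ) ≤
      ((T ^ (n + 1)).card : ℝ) - (T ^ n).card := by
    rw [← Nat.cast_sub h4]
    exact_mod_cast h3
  refine le_trans (le_of_eq ?_) (h5.trans (by linarith))
  congr

open Classical in
/-- Foelner sets with Foelner sets around their differences -/
theorem fol_two {G : Type u} [Group G] (H : Subgroup G) (d : ℕ)
    (hg : ∀ T : Finset G, (∀ t ∈ T, t ∈ H) → ∃ C : ℕ, ∀ n : ℕ, (T ^ n).card ≤ C * (n + 1) ^ d)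
    (K : Finset G) (hK : ∀ k ∈ K, k ∈ H) (ε : ℝ) (hε : 0 < ε) :
    ∃ W W' : Finset G, (∀ w ∈ W, w ∈ H) ∧ Fol K ε W ∧ Fol K ε W' ∧
      (∀ u ∈ W, ∀ w ∈ W, w⁻¹ * u ∈ W') ∧ (W'.card : ℝ) ≤ 8 ^ (d + 1) * W.card := by
  let T : Finset G := insert 1 (K ∪ K⁻¹)
  have h1 : (1 : G) ∈ T := Finset.mem_insert_self _ _
  have hKT : K ⊆ T := fun k hk => Finset.mem_insert_of_mem (Finset.mem_union_left _ hk)
  have hTH : ∀ t ∈ T, t ∈ H := by
    intro t ht
    rcases Finset.mem_insert.1 ht with rfl | ht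
    · exact H.one_mem
    · rcases Finset.mem_union.1 ht with ht | ht
      · exact hK t ht
      · have h2 := hK _ (Finset.mem_inv'.1 ht)
        simpa using H.inv_mem h2
  have hTi : T⁻¹ = T := by
    ext t
    simp only [T, Finset.mem_inv', Finset.mem_insert, Finset.mem_union, inv_eq_one, inv_inv]
    tauto
  obtain ⟨C, hC⟩ := hg T hTH
  obtain ⟨n, n', hn, h2, h3, h4⟩ := growth_two (fun n => ((T ^ n).card : ℝ))
    (fun n => by
      have := (Finset.Nonempty.pow (n := n) ⟨1, h1⟩ : (T ^ n).Nonempty).card_pos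
      exact_mod_cast this)
    (fun m n h => Nat.cast_le.2 (Finset.card_le_card (Finset.pow_subset_pow_right h1 h))) C d
    (fun n => by exact_mod_cast hC n) ε hε
  refine ⟨T ^ n, T ^ n', ?_, fol_pow T K h1 hKT ε n h2, fol_pow T K h1 hKT ε n' h3, ?_, h4⟩
  · have : ∀ n : ℕ, ∀ w ∈ T ^ n, w ∈ H := by
      intro n
      induction n with
      | zero =>
        intro w hw
        rw [pow_zero, Finset.mem_one] at hw
        rw [hw]
        exact H.one_mem
      | succ n ih =>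
        intro w hw
        rw [pow_succ] at hw
        obtain ⟨a, ha, b, hb, rfl⟩ := Finset.mem_mul.1 hw
        exact H.mul_mem (ih a ha) (hTH b hb)
    exact this n
  · intro u hu w hw
    have h5 : w⁻¹ ∈ T ^ n := by
      rw [← hTi, inv_pow]
      exact Finset.inv_mem_inv hw
    have h6 : w⁻¹ * u ∈ T ^ (n + n) := by
      rw [pow_add]
      exact Finset.mul_mem_mul h5 hu
    exact Finset.pow_subset_pow_right h1 hn h6

section

variable {G : Type u} [Group G] {Q : Type w} [Group Q] (q : G →* Q) (σ : Q → G)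
  (hσ : ∀ s, q (σ s) = s)

open Classical in
/-- the set `⋃ w ∈ W, σ w F` -/
noncomputable def prodF (σ : Q → G) (W : Finset Q) (F : Finset G) : Finset G :=
  (W ×ˢ F).image fun r => σ r.1 * r.2

open Classical in
/-- the elements of the kernel that describe the action of `K` on the sections -/
noncomputable def moves (q : G →* Q) (σ : Q → G) (K : Finset G) (W : Finset Q) : Finset G :=
  (K ×ˢ W).image fun r => (σ (q r.1 * r.2))⁻¹ * (r.1 * σ r.2)

include hσ

theorem moves_ker (K : Finset G) (W : Finset Q) : ∀ g ∈ moves q σ K W, g ∈ q.ker := by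
  classical
  intro g hg
  obtain ⟨r, _, rfl⟩ := Finset.mem_image.1 hg
  rw [MonoidHom.mem_ker, map_mul, map_inv, hσ, map_mul, hσ, inv_mul_cancel]

theorem prodF_inj (W : Finset Q) (F : Finset G) (hF : ∀ a ∈ F, a ∈ q.ker) :
    Set.InjOn (fun r : Q × G => σ r.1 * r.2) (W ×ˢ F : Finset (Q × G)) := by
  rintro ⟨w, a⟩ h ⟨w', a'⟩ h' he
  rw [Finset.mem_coe, Finset.mem_product] at h h'
  have he' : σ w * a = σ w' * a' := he
  have h1 : q (σ w * a) = w := by rw [map_mul, hσ, MonoidHom.mem_ker.1 (hF a h.2), mul_one]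
  have h2 : q (σ w' * a') = w' := by rw [map_mul, hσ, MonoidHom.mem_ker.1 (hF a' h'.2), mul_one]
  have h3 : w = w' := by rw [← h1, ← h2, he']
  subst h3
  rw [mul_left_cancel he']

theorem prodF_card (W : Finset Q) (F : Finset G) (hF : ∀ a ∈ F, a ∈ q.ker) :
    (prodF σ W F).card = W.card * F.card := by
  classical
  unfold prodF
  rw [Finset.card_image_of_injOn (prodF_inj q σ hσ W F hF), Finset.card_product]

theorem prodF_sum (W : Finset Q) (F : Finset G) (hF : ∀ a ∈ F, a ∈ q.ker) (φ : G → ℝ) :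
    ∑ s ∈ prodF σ W F, φ s = ∑ w ∈ W, ∑ a ∈ F, φ (σ w * a) := by
  classical
  unfold prodF
  rw [Finset.sum_image (prodF_inj q σ hσ W F hF), Finset.sum_product]

open Classical in
theorem fol_prod (K : Finset G) (ε : ℝ) (W : Finset Q) (F : Finset G)
    (hF : ∀ a ∈ F, a ∈ q.ker) (hW : Fol (K.image q) (ε / 2) W)
    (hFF : Fol (moves q σ K W) (ε / 2) F) : Fol K ε (prodF σ W F) := by
  obtain ⟨⟨w₀, hw₀⟩, hW⟩ := hW
  obtain ⟨⟨a₀, ha₀⟩, hFF⟩ := hFF
  refine ⟨⟨σ w₀ * a₀, Finset.mem_image.2 ⟨(w₀, a₀), Finset.mem_product.2 ⟨hw₀, ha₀⟩, rfl⟩⟩,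
    fun k hk => ?_⟩
  have h1 := hW (q k) (Finset.mem_image_of_mem _ hk)
  have h2 : ∀ w ∈ W, ((F.filter fun a => (σ (q k * w))⁻¹ * (k * σ w) * a ∉ F).card : ℝ) ≤
      ε / 2 * F.card := by
    intro w hw
    have h3 := hFF ((σ (q k * w))⁻¹ * (k * σ w))
      (Finset.mem_image.2 ⟨(k, w), Finset.mem_product.2 ⟨hk, hw⟩, rfl⟩)
    refine le_trans (le_of_eq ?_) h3
    congr
  have h4 : ((prodF σ W F).filter fun s => k * s ∉ prodF σ W F) ⊆
      (((W.filter fun w => q k * w ∉ W) ×ˢ F) ∪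
        W.biUnion fun w => (F.filter fun a => (σ (q k * w))⁻¹ * (k * σ w) * a ∉ F).image
          fun a => (w, a)).image fun r => σ r.1 * r.2 := by
    intro s hs
    rw [Finset.mem_filter] at hs
    obtain ⟨hs1, hs2⟩ := hs
    obtain ⟨⟨w, a⟩, hwa, rfl⟩ := Finset.mem_image.1 hs1
    rw [Finset.mem_product] at hwa
    refine Finset.mem_image.2 ⟨(w, a), ?_, rfl⟩
    by_cases h5 : q k * w ∈ W
    · refine Finset.mem_union_right _ (Finset.mem_biUnion.2 ⟨w, hwa.1, Finset.mem_image.2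
        ⟨a, Finset.mem_filter.2 ⟨hwa.2, fun h6 => hs2 ?_⟩, rfl⟩⟩)
      refine Finset.mem_image.2 ⟨(q k * w, (σ (q k * w))⁻¹ * (k * σ w) * a),
        Finset.mem_product.2 ⟨h5, h6⟩, ?_⟩
      show σ (q k * w) * ((σ (q k * w))⁻¹ * (k * σ w) * a) = k * (σ w * a)
      group
    · exact Finset.mem_union_left _ (Finset.mem_product.2 ⟨Finset.mem_filter.2 ⟨hwa.1, h5⟩,
        hwa.2⟩)
  have h5 : (((prodF σ W F).filter fun s => k * s ∉ prodF σ W F).card : ℝ) ≤
      ((W.filter fun w => q k * w ∉ W).card : ℝ) * F.card +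
        ∑ w ∈ W, ((F.filter fun a => (σ (q k * w))⁻¹ * (k * σ w) * a ∉ F).card : ℝ) := by
    have h6 := (Finset.card_le_card h4).trans (Finset.card_image_le.trans
      (Finset.card_union_le _ _))
    have h7 := h6.trans (Nat.add_le_add_left (Finset.card_biUnion_le.trans
      (Finset.sum_le_sum fun w _ => Finset.card_image_le)) _)
    rw [Finset.card_product] at h7
    exact_mod_cast h7
  have h6 : ∑ w ∈ W, ((F.filter fun a => (σ (q k * w))⁻¹ * (k * σ w) * a ∉ F).card : ℝ) ≤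
      W.card * (ε / 2 * F.card) := by
    refine (Finset.sum_le_sum h2).trans ?_
    rw [Finset.sum_const, nsmul_eq_mul]
  have h7 : ((W.filter fun w => q k * w ∉ W).card : ℝ) * F.card ≤
      ε / 2 * W.card * F.card := by
    refine mul_le_mul_of_nonneg_right (le_trans (le_of_eq ?_) h1) (Nat.cast_nonneg _)
    congr
  have h8 : (((prodF σ W F).card : ℕ) : ℝ) = W.card * F.card := by
    rw [prodF_card q σ hσ W F hF]
    push_cast
    ring
  rw [h8]
  refine le_trans (le_of_eq ?_) (h5.trans (by linarith))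
  congr

/-- integration of inequalities for sums over Foelner sets -/
theorem int_fol {X : Type v} [TopologicalSpace X] [CompactSpace X] [MeasurableSpace X]
    [BorelSpace X] [MulAction G X] [ContinuousConstSMul G X] (ω : Measure X) [IsFiniteMeasure ω]
    (hω : InvM q.ker ω) (φ : C(X, ℝ)) (γ : ℝ) (W : Finset Q) (F : Finset G)
    (hF : ∀ a ∈ F, a ∈ q.ker) (hFne : F.Nonempty)
    (h : ∀ y, γ * (prodF σ W F).card ≤ ∑ s ∈ prodF σ W F, φ (s • y)) :
    γ * W.card * ω.real Set.univ ≤ ∑ w ∈ W, ∫ y, φ (σ w • y) ∂ω := by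
  classical
  have hsm : ∀ g : G, Continuous fun y => φ (g • y) :=
    fun g => φ.continuous.comp (continuous_const_smul g)
  have hFc : (0 : ℝ) < F.card := by exact_mod_cast hFne.card_pos
  have h1 : ∫ _y : X, γ * ((prodF σ W F).card : ℝ) ∂ω ≤
      ∫ y, ∑ w ∈ W, ∑ a ∈ F, φ ((σ w * a) • y) ∂ω := by
    refine integral_mono (integrable_const _) (int_cont ω _ ?_) fun y => ?_
    · exact continuous_finsetSum _ fun w _ => continuous_finsetSum _ fun a _ => hsm _
    · have := h y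
      rw [prodF_sum q σ hσ W F hF] at this
      exact this
  have h2 : ∫ y, ∑ w ∈ W, ∑ a ∈ F, φ ((σ w * a) • y) ∂ω =
      F.card * ∑ w ∈ W, ∫ y, φ (σ w • y) ∂ω := by
    rw [integral_finsetSum _ fun w _ => int_cont ω _ (continuous_finsetSum _ fun a _ => hsm _),
      Finset.mul_sum]
    refine Finset.sum_congr rfl fun w _ => ?_
    rw [integral_finsetSum _ fun a _ => int_cont ω _ (hsm _)]
    have h3 : ∀ a ∈ F, ∫ y, φ ((σ w * a) • y) ∂ω = ∫ y, φ (σ w • y) ∂ω := by
      intro a ha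
      rw [int_move q σ hσ ω hω φ φ.continuous (σ w * a), map_mul, hσ,
        MonoidHom.mem_ker.1 (hF a ha), mul_one]
    rw [Finset.sum_congr rfl h3, Finset.sum_const, nsmul_eq_mul]
  rw [h2, integral_const, prodF_card q σ hσ W F hF, smul_eq_mul] at h1
  push_cast at h1
  have h4 : F.card * (γ * W.card * ω.real Set.univ) ≤
      F.card * ∑ w ∈ W, ∫ y, φ (σ w • y) ∂ω := by
    refine le_trans (le_of_eq ?_) h1
    ring
  exact le_of_mul_le_mul_left h4 hFc

end

/-- a function that is `1` somewhere in a finite piece of every orbit has large averages -/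
theorem lower (G : Type u) [Group G] [Countable G] (X : Type u) [TopologicalSpace X]
    [CompactSpace X] [Nonempty X] [MulAction G X] [ContinuousConstSMul G X]
    (c : C(X, ℝ)) (hc : ∀ x, 0 ≤ c x) (E : Finset G) (hE : ∀ x, ∃ e ∈ E, c (e • x) = 1) :
    ∃ (K : Finset G) (ε β : ℝ), 0 < ε ∧ 0 < β ∧
      ∀ S : Finset G, Fol K ε S → ∀ y, β * S.card ≤ ∑ s ∈ S, c (s • y) := by
  classical
  obtain ⟨n, K, ε, β, -, hε, hβ, hS⟩ := t_KL G X (⊤ : Subgroup G) (fun _ => c)
    (fun _ _ => le_rfl) (by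
    intro Λ hΛ
    refine ⟨0, ?_⟩
    have h1 : 0 ≤ Λ (∑ e ∈ E, c.comp (tr e) - 1) := by
      refine hΛ.nonneg _ fun x => ?_
      show 0 ≤ (∑ e ∈ E, c.comp (tr e) - 1 : C(X, ℝ)) x
      rw [ContinuousMap.sub_apply, ContinuousMap.coe_sum, Finset.sum_apply,
        ContinuousMap.one_apply]
      obtain ⟨e, he, h2⟩ := hE x
      have h3 := Finset.single_le_sum (f := fun e => (c.comp (tr e) : C(X, ℝ)) x)
        (fun e _ => hc _) he
      have h4 : (c.comp (tr e) : C(X, ℝ)) x = 1 := h2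
      rw [h4] at h3
      linarith
    rw [map_sub, hΛ.one, map_sum] at h1
    have h2 : ∀ e ∈ E, Λ (c.comp (tr e)) = Λ c := fun e _ => hΛ.inv e trivial c
    rw [Finset.sum_congr rfl h2, Finset.sum_const, nsmul_eq_mul] at h1
    show 0 < Λ c
    by_contra hcon
    push Not at hcon
    have h3 : (E.card : ℝ) * Λ c ≤ 0 := mul_nonpos_of_nonneg_of_nonpos (Nat.cast_nonneg _) hcon
    linarith)
  exact ⟨K, ε, β, hε, hβ, fun S hS' y => hS S (fun _ _ => Subgroup.mem_top _) hS' y⟩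

end Pool.Agent.Helper277_FF
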