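import Pool.Agent.Helper277_FF.Greedy2

set_option autoImplicit false

/-!
# The greedy transport in several stages
-/

namespace Pool.Agent.Helper277_FF

open Finset Pointwise

universe u v w

theorem sum_image_le' {α β : Type*} [DecidableEq β] (s : Finset α) (f : α → β) (w : β → ℝ)
    (hw : ∀ b, 0 ≤ w b) : ∑ b ∈ s.image f, w b ≤ ∑ a ∈ s, w (f a) := by
  classical
  induction s using Finset.induction_on with
  | empty => simp
  | insert a s ha ih =>
    rw [Finset.image_insert, Finset.sum_insert ha]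
    by_cases h : f a ∈ s.image f
    · rw [Finset.insert_eq_of_mem h]
      have := hw (f a)
      linarith
    · rw [Finset.sum_insert h]
      linarith

section

variable {G : Type u} [Group G] {X : Type v} [MulAction G X] {Λ : Type w} [DecidableEq Λ]

theorem gr2_absorbed' (m : ℕ → Λ × G) {p : X → ℝ} {c : Λ → X → ℝ} (hp : ∀ x, 0 ≤ p x)
    (hc : ∀ l x, 0 ≤ c l x) (n₁ n₂ : ℕ) (hn : n₁ ≤ n₂) (T : Finset (Λ × X)) (S : Finset X)
    (hTS : ∀ i, n₁ ≤ i → i < n₂ → ∀ z, ((m i).1, z) ∈ T → (m i).2⁻¹ • z ∈ S) :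
    ∑ t ∈ T, ((gr2 m p c n₁).2 t.1 t.2 - (gr2 m p c n₂).2 t.1 t.2) ≤
      ∑ x ∈ S, ((gr2 m p c n₁).1 x - (gr2 m p c n₂).1 x) := by
  classical
  induction n₂, hn using Nat.le_induction with
  | base =>
    simp only [sub_self, Finset.sum_const_zero, le_refl]
  | succ n hn ih =>
    have ih := ih fun i hi hi' => hTS i hi (by omega)
    obtain ⟨h1, h2⟩ := gr2_nonneg m hp hc n
    have e1 : ∀ t : Λ × X, (gr2 m p c n₁).2 t.1 t.2 - (gr2 m p c (n + 1)).2 t.1 t.2 =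
        ((gr2 m p c n₁).2 t.1 t.2 - (gr2 m p c n).2 t.1 t.2) + if t.1 = (m n).1 then
          min ((gr2 m p c n).1 ((m n).2⁻¹ • t.2)) ((gr2 m p c n).2 (m n).1 t.2) else 0 := by
      intro t
      rw [gr2_two]
      ring
    have e2 : ∀ x, (gr2 m p c n₁).1 x - (gr2 m p c (n + 1)).1 x =
        ((gr2 m p c n₁).1 x - (gr2 m p c n).1 x) +
        min ((gr2 m p c n).1 x) ((gr2 m p c n).2 (m n).1 ((m n).2 • x)) := by
      intro x
      rw [gr2_one]
      ring
    simp only [e1, e2]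
    rw [Finset.sum_add_distrib, Finset.sum_add_distrib]
    refine add_le_add ih ?_
    rw [← Finset.sum_filter]
    have hinj : Set.InjOn (fun t : Λ × X => (m n).2⁻¹ • t.2)
        (T.filter fun t => t.1 = (m n).1 : Finset _) := by
      rintro ⟨l, z⟩ ht ⟨l', z'⟩ ht' h
      rw [Finset.mem_coe, Finset.mem_filter] at ht ht'
      have h3 : z = z' := smul_left_cancel _ h
      have h4 : l = l' := ht.2.trans ht'.2.symm
      rw [h3, h4]
    have h3 : ∑ t ∈ T.filter (fun t => t.1 = (m n).1),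
        min ((gr2 m p c n).1 ((m n).2⁻¹ • t.2)) ((gr2 m p c n).2 (m n).1 t.2) =
        ∑ x ∈ (T.filter fun t => t.1 = (m n).1).image (fun t => (m n).2⁻¹ • t.2),
          min ((gr2 m p c n).1 x) ((gr2 m p c n).2 (m n).1 ((m n).2 • x)) := by
      rw [Finset.sum_image hinj]
      refine Finset.sum_congr rfl fun t _ => ?_
      rw [smul_inv_smul]
    rw [h3]
    refine Finset.sum_le_sum_of_subset_of_nonneg ?_ fun _ _ _ => le_min (h1 _) (h2 _ _)
    intro x hx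
    obtain ⟨⟨l, z⟩, ht, rfl⟩ := Finset.mem_image.1 hx
    rw [Finset.mem_filter] at ht
    have h5 : l = (m n).1 := ht.2
    subst h5
    exact hTS n hn (by omega) z ht.1

open Classical in
/-- The staged greedy transport serves everybody. -/
theorem staged (m : ℕ → Λ × G) {c : Λ → X → ℝ} (hc : ∀ l x, 0 ≤ c l x)
    (L : ℕ → ℕ) (hL0 : L 0 = 0) (hL : Monotone L) (k : ℕ) (F : ℕ → Finset G) (E L₀ : Finset G)
    (hcomm : ∀ l ∈ L₀, ∀ f ∈ F k, l * f = f * l) (C₁ δ : ℝ) (hδ : 0 ≤ δ)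
    (hT : ∀ x, ∀ s ≤ k, ∃ T : Finset (Λ × X),
      (∀ t ∈ T, ∃ i, L s ≤ i ∧ i < L (s + 1) ∧ t = ((m i).1, (m i).2 • x)) ∧
      (2 * (L₀.card : ℝ) + 1) * (F s).card ≤ ∑ t ∈ T, c t.1 t.2 ∧
      ∀ s' ≤ s, ∀ i, L s' ≤ i → i < L (s' + 1) → ∀ z, ((m i).1, z) ∈ T →
        ∃ a ∈ (F s')⁻¹ * E * F s, ∃ l ∈ L₀, (m i).2⁻¹ • z = (a * l) • x)
    (hF : ∀ s ≤ k, (F s).Nonempty)
    (hF1 : ∀ s ≤ k, (((range s).biUnion fun s' => (F s')⁻¹ * E * F s).card : ℝ) ≤
      2 * (F s).card)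
    (hF2 : ∀ s < k, (((F s)⁻¹ * E * F s).card : ℝ) ≤ C₁ * (F s).card)
    (hF3 : ∃ K : Finset G, 1 ∈ K ∧ (∀ s < k, (F s)⁻¹ * E * F s ⊆ K) ∧
      ((K * F k).card : ℝ) ≤ (1 + δ) * (F k).card)
    (hF4 : (((F k)⁻¹ * ((F k)⁻¹ * E * F k)).card : ℝ) ≤ C₁ * (F k).card)
    (hk : 0 < k) (hnum : C₁ ^ 2 * (L₀.card : ℝ) ^ 2 * (1 / k + δ) < 1) (hC₁ : 0 ≤ C₁) (x : X) :
    (gr2 m (fun _ => (1 : ℝ)) c (L (k + 1))).1 x = 0 := by
  have hp : ∀ x : X, (0 : ℝ) ≤ (fun _ => (1 : ℝ)) x := fun _ => zero_le_one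
  set P : ℕ → X → ℝ := fun s => (gr2 m (fun _ => (1 : ℝ)) c (L s)).1 with hP
  set Cc : ℕ → Λ → X → ℝ := fun s => (gr2 m (fun _ => (1 : ℝ)) c (L s)).2 with hCc
  have hP0 : ∀ s x, 0 ≤ P s x := fun s => (gr2_nonneg m hp hc (L s)).1
  have hP1 : ∀ s x, P s x ≤ 1 := fun s x => (gr2_anti m hp hc (Nat.zero_le (L s))).1 x
  have hPa : ∀ s x, P (s + 1) x ≤ P s x := fun s x =>
    (gr2_anti m hp hc (hL (Nat.le_succ s))).1 x
  have hstage : ∀ s i, i < L s → ∃ s' < s, L s' ≤ i ∧ i < L (s' + 1) := by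
    intro s
    induction s with
    | zero => intro i hi; rw [hL0] at hi; omega
    | succ s ih =>
      intro i hi
      by_cases h : i < L s
      · obtain ⟨s', hs', h1⟩ := ih i h
        exact ⟨s', by omega, h1⟩
      · exact ⟨s, by omega, by omega, hi⟩
  -- step A and B
  have hB : ∀ s ≤ k, ∀ x, 0 < P (s + 1) x → ((F s).card : ℝ) ≤
      ∑ a ∈ (F s)⁻¹ * E * F s, ∑ l ∈ L₀, (P s ((a * l) • x) - P (s + 1) ((a * l) • x)) := by
    intro s hs x hx
    obtain ⟨T, hT1, hT2, hT3⟩ := hT x s hs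
    -- absorbed before stage `s`
    have hA1 := gr2_absorbed' m hp hc 0 (L s) (Nat.zero_le _) T
      ((((range s).biUnion fun s' => (F s')⁻¹ * E * F s) ×ˢ L₀).image fun r => (r.1 * r.2) • x)
      (by
        intro i _ hi z hz
        obtain ⟨s', hs', h1, h2⟩ := hstage s i hi
        obtain ⟨a, ha, l, hl, h3⟩ := hT3 s' hs'.le i h1 h2 z hz
        refine Finset.mem_image.2 ⟨(a, l), Finset.mem_product.2 ⟨?_, hl⟩, h3.symm⟩
        exact Finset.mem_biUnion.2 ⟨s', Finset.mem_range.2 hs', ha⟩)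
    have hA2 : ∑ y ∈ (((range s).biUnion fun s' => (F s')⁻¹ * E * F s) ×ˢ L₀).image
        (fun r => (r.1 * r.2) • x), ((gr2 m (fun _ => (1 : ℝ)) c 0).1 y - P s y) ≤
        2 * (F s).card * L₀.card := by
      refine (Finset.sum_le_sum (g := fun _ => (1 : ℝ)) fun y _ => ?_).trans ?_
      · have h1 : (gr2 m (fun _ => (1 : ℝ)) c 0).1 y = 1 := rfl
        rw [h1]
        have := hP0 s y
        linarith
      · rw [Finset.sum_const, nsmul_eq_mul, mul_one]
        refine le_trans (Nat.cast_le.2 Finset.card_image_le) ?_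
        rw [Finset.card_product]
        push_cast
        exact mul_le_mul_of_nonneg_right (hF1 s hs) (Nat.cast_nonneg _)
    have hA3 : ∑ t ∈ T, ((gr2 m (fun _ => (1 : ℝ)) c 0).2 t.1 t.2 - Cc s t.1 t.2) =
        ∑ t ∈ T, c t.1 t.2 - ∑ t ∈ T, Cc s t.1 t.2 := by
      rw [Finset.sum_sub_distrib]
      rfl
    have hA : ((F s).card : ℝ) ≤ ∑ t ∈ T, Cc s t.1 t.2 := by
      have h4 : ∑ t ∈ T, ((gr2 m (fun _ => (1 : ℝ)) c 0).2 t.1 t.2 - Cc s t.1 t.2) ≤
          2 * (F s).card * L₀.card := le_trans hA1 hA2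
      rw [hA3] at h4
      linarith
    -- absorbed in stage `s`
    have hB1 := gr2_absorbed' m hp hc (L s) (L (s + 1)) (hL (Nat.le_succ s)) T
      ((((F s)⁻¹ * E * F s) ×ˢ L₀).image fun r => (r.1 * r.2) • x)
      (by
        intro i h1 h2 z hz
        obtain ⟨a, ha, l, hl, h3⟩ := hT3 s le_rfl i h1 h2 z hz
        exact Finset.mem_image.2 ⟨(a, l), Finset.mem_product.2 ⟨ha, hl⟩, h3.symm⟩)
    have hB2 : ∀ t ∈ T, Cc (s + 1) t.1 t.2 = 0 := by
      intro t ht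
      obtain ⟨i, h1, h2, rfl⟩ := hT1 t ht
      exact gr2_sat m hp hc (L (s + 1)) x hx i h2
    have hB3 : ∑ t ∈ T, (Cc s t.1 t.2 - Cc (s + 1) t.1 t.2) = ∑ t ∈ T, Cc s t.1 t.2 :=
      Finset.sum_congr rfl fun t ht => by rw [hB2 t ht, sub_zero]
    have hB4 := sum_image_le' (((F s)⁻¹ * E * F s) ×ˢ L₀) (fun r => (r.1 * r.2) • x)
      (fun y => P s y - P (s + 1) y) (fun y => sub_nonneg.2 (hPa s y))
    rw [Finset.sum_product] at hB4
    calc ((F s).card : ℝ) ≤ ∑ t ∈ T, Cc s t.1 t.2 := hA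
      _ = ∑ t ∈ T, (Cc s t.1 t.2 - Cc (s + 1) t.1 t.2) := hB3.symm
      _ ≤ _ := hB1
      _ ≤ _ := hB4
  -- step C
  set Ω := F k with hΩ
  have hΩp : (0 : ℝ) < Ω.card := by exact_mod_cast (hF k le_rfl).card_pos
  set A : ℕ → X → ℝ := fun s y => ∑ ω ∈ Ω, P s (ω • y) with hAdef
  obtain ⟨K, hK1, hKs, hKc⟩ := hF3
  have hshift : ∀ s, ∀ a ∈ K, ∀ y, ∑ ω ∈ Ω, (P s ((a * ω) • y) - P (s + 1) ((a * ω) • y)) ≤
      A s y - A (s + 1) y + δ * Ω.card := by
    intro s a ha y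
    set w : G → ℝ := fun g => P s (g • y) - P (s + 1) (g • y) with hw
    have hw0 : ∀ g, 0 ≤ w g := fun g => sub_nonneg.2 (hPa s _)
    have hw1 : ∀ g, w g ≤ 1 := fun g => by
      have h1 := hP1 s (g • y)
      have h2 := hP0 (s + 1) (g • y)
      simp only [hw]
      linarith
    have h1 : ∑ ω ∈ Ω, w (a * ω) ≤ ∑ g ∈ K * Ω, w g := by
      rw [← Finset.sum_image (f := w) (fun x _ y _ h => mul_left_cancel h)]
      refine Finset.sum_le_sum_of_subset_of_nonneg ?_ fun _ _ _ => hw0 _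
      intro g hg
      obtain ⟨ω, hω, rfl⟩ := Finset.mem_image.1 hg
      exact Finset.mul_mem_mul ha hω
    have h2 : Ω ⊆ K * Ω := fun ω hω => by
      have := Finset.mul_mem_mul hK1 hω
      rwa [one_mul] at this
    have h3 : ∑ g ∈ K * Ω, w g = ∑ g ∈ (K * Ω) \ Ω, w g + ∑ ω ∈ Ω, w ω :=
      (Finset.sum_sdiff h2).symm
    have h4 : ∑ g ∈ (K * Ω) \ Ω, w g ≤ δ * Ω.card := by
      refine (Finset.sum_le_sum (g := fun _ => (1 : ℝ)) fun g _ => hw1 g).trans ?_
      rw [Finset.sum_const, nsmul_eq_mul, mul_one, Finset.card_sdiff_of_subset h2,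
        Nat.cast_sub (Finset.card_le_card h2)]
      linarith
    have h5 : ∑ ω ∈ Ω, w ω = A s y - A (s + 1) y := by
      simp only [hw, hAdef]
      rw [Finset.sum_sub_distrib]
    linarith
  have hC : ∀ s < k, ∀ y, A (s + 1) y ≤
      C₁ * ∑ l ∈ L₀, (A s (l • y) - A (s + 1) (l • y) + δ * Ω.card) := by
    intro s hs y
    have hFs : (0 : ℝ) < (F s).card := by exact_mod_cast (hF s hs.le).card_pos
    have h1 : ∀ ω ∈ Ω, (F s).card * P (s + 1) (ω • y) ≤
        ∑ a ∈ (F s)⁻¹ * E * F s, ∑ l ∈ L₀,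
          (P s ((a * l) • ω • y) - P (s + 1) ((a * l) • ω • y)) := by
      intro ω _
      rcases (hP0 (s + 1) (ω • y)).eq_or_lt with h | h
      · rw [← h, mul_zero]
        exact Finset.sum_nonneg fun a _ => Finset.sum_nonneg fun l _ => sub_nonneg.2 (hPa s _)
      · refine le_trans ?_ (hB s hs.le (ω • y) h)
        have := hP1 (s + 1) (ω • y)
        nlinarith
    have h2 := Finset.sum_le_sum h1
    rw [← Finset.mul_sum] at h2
    have h3 : ∑ ω ∈ Ω, ∑ a ∈ (F s)⁻¹ * E * F s, ∑ l ∈ L₀,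
          (P s ((a * l) • ω • y) - P (s + 1) ((a * l) • ω • y)) =
        ∑ a ∈ (F s)⁻¹ * E * F s, ∑ l ∈ L₀, ∑ ω ∈ Ω,
          (P s ((a * ω) • l • y) - P (s + 1) ((a * ω) • l • y)) := by
      rw [Finset.sum_comm]
      refine Finset.sum_congr rfl fun a _ => ?_
      rw [Finset.sum_comm]
      refine Finset.sum_congr rfl fun l hl => Finset.sum_congr rfl fun ω hω => ?_
      have h4 : (a * l) • ω • y = (a * ω) • l • y := by
        rw [← mul_smul, ← mul_smul, mul_assoc, mul_assoc, hcomm l hl ω hω]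
      rw [h4]
    rw [h3] at h2
    have h4 : ∑ a ∈ (F s)⁻¹ * E * F s, ∑ l ∈ L₀, ∑ ω ∈ Ω,
          (P s ((a * ω) • l • y) - P (s + 1) ((a * ω) • l • y)) ≤
        ∑ a ∈ (F s)⁻¹ * E * F s, ∑ l ∈ L₀, (A s (l • y) - A (s + 1) (l • y) + δ * Ω.card) :=
      Finset.sum_le_sum fun a ha => Finset.sum_le_sum fun l _ => hshift s a (hKs s hs ha) _
    rw [Finset.sum_const, nsmul_eq_mul] at h4
    have h5 : 0 ≤ ∑ l ∈ L₀, (A s (l • y) - A (s + 1) (l • y) + δ * Ω.card) := by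
      refine Finset.sum_nonneg fun l _ => ?_
      have h6 : A (s + 1) (l • y) ≤ A s (l • y) := Finset.sum_le_sum fun ω _ => hPa s _
      have h7 : 0 ≤ δ * (Ω.card : ℝ) := by positivity
      linarith
    have h6 : ((F s).card : ℝ) * A (s + 1) y ≤ (F s).card *
        (C₁ * ∑ l ∈ L₀, (A s (l • y) - A (s + 1) (l • y) + δ * Ω.card)) := by
      refine (h2.trans h4).trans ?_
      refine (mul_le_mul_of_nonneg_right (hF2 s hs) h5).trans (le_of_eq ?_)
      ring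
    exact le_of_mul_le_mul_left h6 hFs
  -- step D
  have hA0 : ∀ s y, 0 ≤ A s y := fun s y => Finset.sum_nonneg fun ω _ => hP0 s _
  have hAa : ∀ s y, A (s + 1) y ≤ A s y := fun s y => Finset.sum_le_sum fun ω _ => hPa s _
  have hA1 : ∀ s y, A s y ≤ Ω.card := by
    intro s y
    refine (Finset.sum_le_sum (g := fun _ => (1 : ℝ)) fun ω _ => hP1 s _).trans ?_
    rw [Finset.sum_const, nsmul_eq_mul, mul_one]
  have hD : ∀ y, A k y ≤ C₁ * L₀.card * Ω.card * (1 / k + δ) := by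
    intro y
    have hkr : (0 : ℝ) < k := by exact_mod_cast hk
    have key : ∀ n ≤ k, (n : ℝ) * A n y ≤
        C₁ * ∑ l ∈ L₀, (A 0 (l • y) - A n (l • y) + n * (δ * Ω.card)) := by
      intro n
      induction n with
      | zero =>
        intro _
        simp
      | succ n ih =>
        intro hn
        have ih := ih (by omega)
        have h1 := hC n (by omega) y
        have h2 : ((n + 1 : ℕ) : ℝ) * A (n + 1) y ≤ n * A n y + A (n + 1) y := by
          push_cast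
          have := mul_le_mul_of_nonneg_left (hAa n y) (Nat.cast_nonneg (α := ℝ) n)
          linarith
        refine (h2.trans (add_le_add ih h1)).trans (le_of_eq ?_)
        rw [← mul_add, ← Finset.sum_add_distrib]
        congr 1
        refine Finset.sum_congr rfl fun l _ => ?_
        push_cast
        ring
    have h1 := key k le_rfl
    have h2 : ∑ l ∈ L₀, (A 0 (l • y) - A k (l • y) + k * (δ * Ω.card)) ≤
        ∑ l ∈ L₀, ((Ω.card : ℝ) + k * (δ * Ω.card)) := by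
      refine Finset.sum_le_sum fun l _ => ?_
      have := hA1 0 (l • y)
      have := hA0 k (l • y)
      linarith
    rw [Finset.sum_const, nsmul_eq_mul] at h2
    have h3 := h1.trans (mul_le_mul_of_nonneg_left h2 hC₁)
    have h4 : (k : ℝ) * A k y ≤ k * (C₁ * L₀.card * Ω.card * (1 / k + δ)) := by
      refine h3.trans (le_of_eq ?_)
      field_simp
    exact le_of_mul_le_mul_left h4 hkr
  -- step E
  by_contra hne
  have hpos : 0 < P (k + 1) x := lt_of_le_of_ne (hP0 _ x) (Ne.symm hne)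
  have h1 := hB k le_rfl x hpos
  set Dk := (F k)⁻¹ * E * F k with hDk
  have h2 : ∀ y, (Ω.card : ℝ) * ∑ a ∈ Dk, P k (a • y) ≤
      C₁ * Ω.card * (C₁ * L₀.card * Ω.card * (1 / k + δ)) := by
    intro y
    have e1 : ∀ a ∈ Dk, (Ω.card : ℝ) * P k (a • y) =
        ∑ ω ∈ Ω, P k (ω • (ω⁻¹ * a) • y) := by
      intro a _
      rw [Finset.sum_congr rfl (g := fun _ => P k (a • y)), Finset.sum_const, nsmul_eq_mul]
      intro ω _
      rw [← mul_smul, mul_inv_cancel_left]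
    rw [Finset.mul_sum, Finset.sum_congr rfl e1, Finset.sum_comm]
    have e2 : ∀ ω ∈ Ω, ∑ a ∈ Dk, P k (ω • (ω⁻¹ * a) • y) ≤
        ∑ g ∈ Ω⁻¹ * Dk, P k (ω • g • y) := by
      intro ω hω
      rw [← Finset.sum_image (f := fun g => P k (ω • g • y)) (g := fun a => ω⁻¹ * a)
        (fun x _ y _ h => mul_left_cancel h)]
      refine Finset.sum_le_sum_of_subset_of_nonneg ?_ fun _ _ _ => hP0 _ _
      intro g hg
      obtain ⟨a, ha, rfl⟩ := Finset.mem_image.1 hg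
      exact Finset.mul_mem_mul (Finset.inv_mem_inv hω) ha
    refine (Finset.sum_le_sum e2).trans ?_
    rw [Finset.sum_comm]
    have e3 : ∀ g ∈ Ω⁻¹ * Dk, ∑ ω ∈ Ω, P k (ω • g • y) ≤
        C₁ * L₀.card * Ω.card * (1 / k + δ) := fun g _ => hD (g • y)
    refine (Finset.sum_le_sum e3).trans ?_
    rw [Finset.sum_const, nsmul_eq_mul]
    refine mul_le_mul_of_nonneg_right hF4 ?_
    have : (0 : ℝ) ≤ 1 / k := by positivity
    positivity
  have h3 : ∑ a ∈ Dk, ∑ l ∈ L₀, (P k ((a * l) • x) - P (k + 1) ((a * l) • x)) ≤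
      ∑ l ∈ L₀, ∑ a ∈ Dk, P k (a • l • x) := by
    rw [Finset.sum_comm]
    refine Finset.sum_le_sum fun l _ => Finset.sum_le_sum fun a _ => ?_
    rw [mul_smul]
    have := hP0 (k + 1) (a • l • x)
    linarith
  have h4 : (Ω.card : ℝ) * ∑ l ∈ L₀, ∑ a ∈ Dk, P k (a • l • x) ≤
      L₀.card * (C₁ * Ω.card * (C₁ * L₀.card * Ω.card * (1 / k + δ))) := by
    rw [Finset.mul_sum]
    refine (Finset.sum_le_sum fun l _ => h2 (l • x)).trans ?_
    rw [Finset.sum_const, nsmul_eq_mul]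
  have h5 : (Ω.card : ℝ) * Ω.card ≤
      L₀.card * (C₁ * Ω.card * (C₁ * L₀.card * Ω.card * (1 / k + δ))) :=
    (mul_le_mul_of_nonneg_left (h1.trans h3) hΩp.le).trans h4
  have h6 : (L₀.card : ℝ) * (C₁ * Ω.card * (C₁ * L₀.card * Ω.card * (1 / k + δ))) =
      (Ω.card * Ω.card) * (C₁ ^ 2 * (L₀.card : ℝ) ^ 2 * (1 / k + δ)) := by ring
  rw [h6] at h5
  have h7 : (0 : ℝ) < Ω.card * Ω.card := mul_pos hΩp hΩp
  nlinarith

end

end Pool.Agent.Helper277_FF
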