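import Pool.Agent.Helper277_FF.FreeExt
import Pool.Agent.Helper277_FF.Stage
import Pool.Agent.Helper277_FF.Growth

set_option autoImplicit false

/-!
# Comparison for groups with a free normal subgroup modulo a normal subgroup of locally polynomial
growth
-/

namespace Pool.Agent.Helper277_FF

open Finset Pool.Agent.H107ZS Pool.Agent.Helper277_DC Pointwise

universe u v w

lemma sym_union {G : Type*} [Group G] [DecidableEq G] (E : Finset G) :
    (E ∪ E⁻¹ ∪ {1})⁻¹ = E ∪ E⁻¹ ∪ {1} := by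
  have key : ∀ g : G, g ∈ E ∪ E⁻¹ ∪ {1} → g⁻¹ ∈ E ∪ E⁻¹ ∪ {1} := by
    intro g h
    rw [Finset.mem_union, Finset.mem_union, Finset.mem_singleton] at h ⊢
    rcases h with (h | h) | h
    · exact Or.inl (Or.inr (Finset.inv_mem_inv h))
    · exact Or.inl (Or.inl (Finset.mem_inv'.1 h))
    · exact Or.inr (by rw [h, inv_one])
  ext g
  rw [Finset.mem_inv']
  exact ⟨fun h => by have := key _ h; rwa [inv_inv] at this, key g⟩

open Classical in
theorem free_ext2 {G X : Type} [Group G] [TopologicalSpace X] [CompactSpace X] [T2Space X]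
    [MulAction G X] [ContinuousConstSMul G X] {P : Type} [Group P] (q : G →* P)
    (hq : Function.Surjective q) (Γ : Subgroup P) [Γ.Normal] [IsFreeGroup Γ]
    (hna : ∃ a ∈ Γ, ∃ b ∈ Γ, a * b ≠ b * a)
    (hPG : ∀ E : Finset G, (∀ e ∈ E, q e = 1) →
      ∃ C d : ℕ, ∀ n : ℕ, ((E : Set G) ^ n).ncard ≤ C * (n + 1) ^ d)
    (hC : ∀ g : G, (∀ γ ∈ Γ, q g * γ = γ * q g) →
      ∃ b l : G, q b = 1 ∧ (∀ t : G, q t ∈ Γ → l * t = t * l) ∧ g = b * l)
    (hfree : FreeAct G X) (hmin : MinAct G X) (ham : TopAmC G X)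
    (V : Set X) (hV : IsOpen V) (hVne : V.Nonempty) : SubEq G Set.univ V := by
  obtain ⟨b, D, hb0, hb1, hbV, hDne, hD⟩ := exists_return hmin V hV hVne
  have hDc : 0 < D.card := hDne.card_pos
  have : Nonempty D := ⟨⟨hDne.choose, hDne.choose_spec⟩⟩
  -- conjugation on the free group
  let φ := IsFreeGroup.mulEquiv Γ
  let σ : D → FreeGroup (IsFreeGroup.Generators Γ) ≃* FreeGroup (IsFreeGroup.Generators Γ) :=
    fun d => (φ.trans (MulAut.conjNormal (q d))).trans φ.symm
  have hσ : ∀ (d : D) (w), ((φ (σ d w) : Γ) : P) = q d * (φ w : P) * (q d)⁻¹ := by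
    intro d w
    simp only [σ, MulEquiv.trans_apply, MulEquiv.apply_symm_apply]
    exact MulAut.conjNormal_apply _ _
  -- representatives
  let rp : D → D := fun d => Classical.choose (⟨d, rfl⟩ : ∃ d' : D, σ d' = σ d)
  have hrp : ∀ d, σ (rp d) = σ d := fun d =>
    Classical.choose_spec (⟨d, rfl⟩ : ∃ d' : D, σ d' = σ d)
  have hrp2 : ∀ d d', σ d = σ d' → rp d = rp d' := by
    intro d d' h
    simp only [rp, h]
  obtain ⟨a, ha, b', hb', hab⟩ := hna
  have hab' : φ.symm ⟨a, ha⟩ * φ.symm ⟨b', hb'⟩ ≠ φ.symm ⟨b', hb'⟩ * φ.symm ⟨a, ha⟩ := by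
    rw [← map_mul, ← map_mul]
    intro h
    exact hab (congrArg Subtype.val (φ.symm.injective h))
  set M : ℕ := D.card * (2 * D.card ^ 2 + 1) with hM
  obtain ⟨t0, P', N0, hPN, hP, hN⟩ := pingpong_family (ι := Fin (4 * D.card) × Fin M) σ hab'
  set ψ : G → FreeGroup (IsFreeGroup.Generators Γ) := fun g => φ.symm (sect Γ (q g)) with hψ
  have hψm : ∀ (γ : Γ) (h g : G), q h = γ → ψ (h * g) = φ.symm γ * ψ g := by
    intro γ h g hγ
    simp only [hψ]
    rw [map_mul, hγ, sect_mul, map_mul]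
  choose t ht using fun (r : Fin (4 * D.card) × Fin M) => hq (φ (t0 r) : P)
  have htΓ : ∀ r, q (t r) ∈ Γ := fun r => by rw [ht]; exact (φ (t0 r)).2
  set A : Fin (4 * D.card) × Fin M → Set G := fun r =>
    {h | ∀ d : D, ψ ((d : G) * h) ∉ N0 (rp d) r} with hA
  have hmove : ∀ (d : D) r (f : G), q f = 1 → ∀ h ∈ A r,
      ψ ((d : G) * t r * f * h) ∈ P' (rp d) r := by
    intro d r f hf h hh
    have h1 : ψ ((d : G) * t r * f * h) = φ.symm (φ (σ d (t0 r))) * ψ ((d : G) * h) := by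
      have h2 : (d : G) * t r * f * h = ((d : G) * t r * f * (d : G)⁻¹) * ((d : G) * h) := by
        group
      rw [h2]
      apply hψm
      rw [hσ, map_mul, map_mul, map_mul, hf, mul_one, ht, map_inv]
    rw [h1, MulEquiv.symm_apply_apply, ← hrp]
    exact hPN (rp d) r _ (hh d)
  have hcardA : ∀ h χ, 3 * Fintype.card (Fin (4 * D.card)) ≤
      4 * (univ.filter fun κ => h ∈ A (κ, χ)).card := by
    intro h χ
    have h1 : (univ.filter fun κ => ¬ (h ∈ A (κ, χ))).card ≤ D.card := by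
      have h2 : (univ.filter fun κ => ¬ (h ∈ A (κ, χ))) ⊆ (univ : Finset D).biUnion fun d =>
          univ.filter fun κ => ψ ((d : G) * h) ∈ N0 (rp d) (κ, χ) := by
        intro κ hκ
        simp only [mem_filter, mem_univ, true_and, hA, Set.mem_ofPred_eq, not_forall, not_not]
          at hκ
        obtain ⟨d, hd⟩ := hκ
        simp only [mem_biUnion, mem_univ, mem_filter, true_and]
        exact ⟨d, hd⟩
      refine (Finset.card_le_card h2).trans ?_
      refine (Finset.card_biUnion_le_card_mul _ _ 1 fun d _ => ?_).trans ?_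
      · rw [Finset.card_le_one]
        intro κ hκ κ' hκ'
        simp only [mem_filter, mem_univ, true_and] at hκ hκ'
        by_contra hne
        refine Set.disjoint_left.1 (hN (rp d) (κ, χ) (rp d) (κ', χ) (Or.inl ?_)) hκ hκ'
        intro h3
        exact hne (congrArg Prod.fst h3)
      · rw [Finset.card_univ, Fintype.card_coe, mul_one]
    have h3 := Finset.card_filter_add_card_filter_not (s := (univ : Finset (Fin (4 * D.card))))
      (fun κ => h ∈ A (κ, χ))
    rw [Finset.card_univ, Fintype.card_fin] at h3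
    rw [Fintype.card_fin]
    omega
  -- centralising elements
  let cen : G → Prop := fun g => ∀ γ ∈ Γ, q g * γ = γ * q g
  have hbl : ∀ g : G, ∃ bl : G × G, q bl.1 = 1 ∧
      (∀ s : G, q s ∈ Γ → bl.2 * s = s * bl.2) ∧ (cen g → g = bl.1 * bl.2) := by
    intro g
    by_cases h : cen g
    · obtain ⟨b₁, l, h1, h2, h3⟩ := hC g h
      exact ⟨(b₁, l), h1, h2, fun _ => h3⟩
    · exact ⟨(1, 1), map_one q, fun s _ => by rw [one_mul, mul_one],
        fun h' => absurd h' h⟩
  choose bl hbl1 hbl2 hbl3 using hbl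
  set E' : Finset G := ((univ : Finset (Fin (4 * D.card) × Fin M)) ×ˢ D ×ˢ D).image
    fun r => (t r.1)⁻¹ * (bl (r.2.1⁻¹ * r.2.2)).1 * t r.1 with hE'
  set L₀ : Finset G := (D ×ˢ D).image fun r => (bl (r.1⁻¹ * r.2)).2 with hL₀
  have hL₀c : L₀.card ≤ D.card ^ 2 := by
    refine Finset.card_image_le.trans ?_
    rw [Finset.card_product, sq]
  have hE1 : ∀ e ∈ E', q e = 1 := by
    intro e he
    obtain ⟨r, _, rfl⟩ := Finset.mem_image.1 he
    rw [map_mul, map_mul, hbl1, mul_one, map_inv, inv_mul_cancel]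
  set S₀ : Finset G := E' ∪ E'⁻¹ ∪ {1} with hS₀
  have hS1 : ∀ e ∈ S₀, q e = 1 := by
    intro e he
    rw [hS₀, Finset.mem_union, Finset.mem_union] at he
    rcases he with (he | he) | he
    · exact hE1 e he
    · have := hE1 _ (Finset.mem_inv'.1 he)
      rwa [map_inv, inv_eq_one] at this
    · rw [Finset.mem_singleton.1 he, map_one]
  have hSpow : ∀ n : ℕ, ∀ g ∈ S₀ ^ n, q g = 1 := by
    intro n
    induction n with
    | zero =>
      intro g hg
      rw [pow_zero, Finset.mem_one] at hg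
      rw [hg, map_one]
    | succ n ih =>
      intro g hg
      rw [pow_succ] at hg
      obtain ⟨x, hx, y, hy, rfl⟩ := Finset.mem_mul.1 hg
      rw [map_mul, ih x hx, hS1 y hy, one_mul]
  have h1S : (1 : G) ∈ S₀ := Finset.mem_union_right _ (Finset.mem_singleton_self _)
  have hSinv : S₀⁻¹ = S₀ := by
    rw [hS₀]
    exact sym_union E'
  obtain ⟨Cg, dg, hgr⟩ := hPG S₀ hS1
  obtain ⟨C₁, hC₁, hsets⟩ := exists_sets S₀ h1S hSinv Cg dg (fun n => by
    have := hgr n
    rw [← Finset.coe_pow, Set.ncard_coe_finset] at this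
    exact this)
  obtain ⟨k, hk⟩ := exists_nat_gt (2 * (C₁ ^ 2 * (L₀.card : ℝ) ^ 2) + 1)
  have hq0 : 0 ≤ C₁ ^ 2 * (L₀.card : ℝ) ^ 2 := by positivity
  have hkr : (1 : ℝ) < k := by linarith
  have hk0 : 0 < k := by
    have : (0 : ℝ) < k := by linarith
    exact_mod_cast this
  obtain ⟨F, hFne, hFS, hF1, hF2, hF3, hF4⟩ := hsets (1 / k) (by positivity) (by
    rw [div_le_one (by linarith)]
    exact hkr.le)
  have hFq : ∀ s, ∀ f ∈ F s, q f = 1 := by
    intro s f hf
    obtain ⟨n, hn⟩ := hFS s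
    rw [hn] at hf
    exact hSpow n f hf
  -- the moves
  set mv : (Fin (4 * D.card) × Fin M) × D × G →
      ((Fin (4 * D.card) × Fin M) × D) × G := fun r =>
    ((r.1, rp r.2.1), (r.2.1 : G) * t r.1 * r.2.2) with hmv
  have hMpos : 0 < M := by positivity
  have hne1 : Nonempty (Fin (4 * D.card) × Fin M) := ⟨(⟨0, by omega⟩, ⟨0, hMpos⟩)⟩
  set MM : ℕ → Finset (((Fin (4 * D.card) × Fin M) × D) × G) := fun s =>
    ((univ : Finset (Fin (4 * D.card) × Fin M)) ×ˢ (univ : Finset D) ×ˢ F s).image mv with hMM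
  obtain ⟨m, L, hL0, hLm, hm1, hm2⟩ := exists_concat MM (fun s => by
    refine Finset.Nonempty.image ?_ _
    exact Finset.univ_nonempty.product (Finset.univ_nonempty.product (hFne s)))
    ((Classical.arbitrary _, Classical.arbitrary D), 1)
  have hstage : ∀ s i, i < L s → ∃ s' < s, L s' ≤ i ∧ i < L (s' + 1) := by
    intro s
    induction s with
    | zero => intro i hi; rw [hL0] at hi; omega
    | succ s ih =>
      intro i hi
      by_cases h : i < L s
      · obtain ⟨s', hs', h1⟩ := ih i h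
        exact ⟨s', by omega, h1⟩
      · exact ⟨s, by omega, by omega, hi⟩
  -- the field of probability vectors
  obtain ⟨F₁, N, hN0, hNc, hNF, hN1, hNi⟩ := exists_field (X := X)
    ((range (L (k + 1))).image fun i => (m i).2) (1/8) (by norm_num) ham
  set Ps : (Fin (4 * D.card) × Fin M) × D → Set G := fun l => {v | ψ v ∈ P' l.2 l.1} with hPs
  set c : (Fin (4 * D.card) × Fin M) × D → X → ℝ := fun l z =>
    b z * max 0 (min 1 (8 * mass F₁ N (Ps l) z - 4)) with hc
  have hc0 : ∀ l z, 0 ≤ c l z := fun l z => mul_nonneg (hb0 z) (le_max_left _ _)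
  have hc1 : ∀ l z, c l z ≤ 1 := fun l z => mul_le_one₀ (hb1 z) (le_max_left _ _)
    (max_le zero_le_one (min_le_left _ _))
  have hcc : ∀ l, Continuous (c l) := fun l => b.continuous.mul (continuous_const.max
    (continuous_const.min ((continuous_const.mul (mass_continuous F₁ N hNc _)).sub
      continuous_const)))
  have hcb : ∀ l z, 0 < c l z → z ∈ V ∧ 1 / 2 < mass F₁ N (Ps l) z := by
    intro l z h
    have h1 : 0 < b z := by
      by_contra hcon
      have h2 : b z = 0 := le_antisymm (not_lt.1 hcon) (hb0 z)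
      simp only [hc, h2, zero_mul, lt_irrefl] at h
    refine ⟨hbV z h1, ?_⟩
    by_contra hcon
    have h2 : max 0 (min 1 (8 * mass F₁ N (Ps l) z - 4)) = (0 : ℝ) :=
      max_eq_left ((min_le_right _ _).trans (by linarith))
    simp only [hc, h2, mul_zero, lt_irrefl] at h
  -- only one kind of targets is active at each point
  have hact : ∀ i < L (k + 1), ∀ j < L (k + 1), ∀ z, 0 < c (m i).1 z → 0 < c (m j).1 z →
      (m i).1 = (m j).1 := by
    intro i hi j hj z h1 h2
    obtain ⟨si, _, hsi1, hsi2⟩ := hstage _ i hi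
    obtain ⟨sj, _, hsj1, hsj2⟩ := hstage _ j hj
    obtain ⟨⟨r, d, f⟩, _, hr⟩ := Finset.mem_image.1 (hm1 si i hsi1 hsi2)
    obtain ⟨⟨r', d', f'⟩, _, hr'⟩ := Finset.mem_image.1 (hm1 sj j hsj1 hsj2)
    have e1 : (m i).1 = (r, rp d) := by rw [← hr]
    have e2 : (m j).1 = (r', rp d') := by rw [← hr']
    rw [e1] at h1 ⊢
    rw [e2] at h2 ⊢
    by_contra hne
    have h3 : r ≠ r' ∨ σ (rp d) ≠ σ (rp d') := by
      by_contra hcon
      push Not at hcon
      refine hne ?_
      rw [hcon.1, hrp2 d d' (by rw [← hrp d, ← hrp d', hcon.2])]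
    have h4 : Disjoint (Ps (r, rp d)) (Ps (r', rp d')) := by
      rw [Set.disjoint_left]
      intro v hv hv'
      exact Set.disjoint_left.1 (hP _ _ _ _ h3) hv hv'
    have h5 := mass_disj F₁ N hN0 z (hN1 z) _ _ h4
    have h6 := (hcb _ _ h1).2
    have h7 := (hcb _ _ h2).2
    linarith
  -- every point is served
  have hz : ∀ x, (gr2 m (fun _ => (1 : ℝ)) c (L (k + 1))).1 x = 0 := by
    refine staged m hc0 L hL0 hLm k F S₀ L₀ ?_ C₁ (1 / k) (by positivity) ?_
      (fun s _ => hFne s) (fun s _ => hF1 s) (fun s _ => hF2 s) (hF3 k) (hF4 k) hk0 ?_ hC₁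
    · intro l hl f hf
      obtain ⟨r, hr, rfl⟩ := Finset.mem_image.1 hl
      exact hbl2 _ f (by rw [hFq k f hf]; exact Γ.one_mem)
    swap
    · have h1 : C₁ ^ 2 * (L₀.card : ℝ) ^ 2 * (1 / k + 1 / k) =
          2 * (C₁ ^ 2 * (L₀.card : ℝ) ^ 2) / k := by ring
      rw [h1, div_lt_one (by linarith)]
      linarith
    intro x s hs
    have hFne' : Nonempty (Fin (4 * D.card)) := ⟨⟨0, by omega⟩⟩
    have hsum : ∀ χ, ∃ κ, 3 / 4 ≤ mass F₁ N (A (κ, χ)) x := by
      intro χ
      refine exists_heavy F₁ N hN0 x (hN1 x) (fun κ => A (κ, χ)) fun h => ?_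
      convert hcardA h χ
    choose κ hκ using hsum
    choose dd hdd1 hdd2 using fun (r : Fin M × G) => hD ((t (κ r.1, r.1) * r.2) • x)
    let tg : Fin M × G → ((Fin (4 * D.card) × Fin M) × D) × X := fun r =>
      (((κ r.1, r.1), rp ⟨dd r, hdd1 r⟩), (dd r * t (κ r.1, r.1) * r.2) • x)
    set T : Finset (((Fin (4 * D.card) × Fin M) × D) × X) :=
      ((univ : Finset (Fin M)) ×ˢ F s).image tg with hT
    have hmem : ∀ r : Fin M × G, r.2 ∈ F s → mv ((κ r.1, r.1), ⟨dd r, hdd1 r⟩, r.2) ∈ MM s := by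
      intro r hr
      exact Finset.mem_image.2 ⟨_, Finset.mem_product.2 ⟨Finset.mem_univ _,
        Finset.mem_product.2 ⟨Finset.mem_univ _, hr⟩⟩, rfl⟩
    refine ⟨T, ?_, ?_, ?_⟩
    · intro τ hτ
      obtain ⟨r, hr, rfl⟩ := Finset.mem_image.1 hτ
      rw [Finset.mem_product] at hr
      obtain ⟨i, hi, hi', hi2⟩ := hm2 s _ (hmem r hr.2)
      refine ⟨i, hi, hi', ?_⟩
      rw [hi2]
    · have hcT : ∀ τ ∈ T, c τ.1 τ.2 = 1 := by
        intro τ hτ
        obtain ⟨r, hr, rfl⟩ := Finset.mem_image.1 hτ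
        rw [Finset.mem_product] at hr
        have h1 : b ((dd r * t (κ r.1, r.1) * r.2) • x) = 1 := by
          rw [mul_assoc, mul_smul]
          exact hdd2 r
        obtain ⟨i, hi, hi', hi2⟩ := hm2 s _ (hmem r hr.2)
        have h2 := mass_push F₁ N hN0 hNF (dd r * t (κ r.1, r.1) * r.2) x (1/8)
          (hNi _ (Finset.mem_image.2 ⟨i, Finset.mem_range.2
            (lt_of_lt_of_le hi' (hLm (by omega))), by rw [hi2]⟩) x) (A (κ r.1, r.1))
          (Ps ((κ r.1, r.1), rp ⟨dd r, hdd1 r⟩)) (by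
            intro v hv
            have h4 := hmove ⟨dd r, hdd1 r⟩ _ r.2 (hFq s _ hr.2) _ hv
            rw [mul_inv_cancel_left] at h4
            exact h4)
        have h4 := hκ r.1
        have h5 : 5 / 8 ≤ mass F₁ N (Ps ((κ r.1, r.1), rp ⟨dd r, hdd1 r⟩))
              ((dd r * t (κ r.1, r.1) * r.2) • x) := by linarith
        show b ((dd r * t (κ r.1, r.1) * r.2) • x) * max 0 (min 1 (8 * mass F₁ N
          (Ps ((κ r.1, r.1), rp ⟨dd r, hdd1 r⟩)) ((dd r * t (κ r.1, r.1) * r.2) • x) - 4)) = 1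
        rw [h1, min_eq_left (by linarith), max_eq_right zero_le_one, one_mul]
      rw [Finset.sum_congr rfl hcT, Finset.sum_const, nsmul_eq_mul, mul_one]
      have hT1 : ((univ : Finset (Fin M)) ×ˢ F s).card ≤ D.card * T.card := by
        refine Finset.card_le_mul_card_image _ _ fun τ hτ => ?_
        refine Finset.card_le_card_of_injOn dd (fun r _ => hdd1 r) ?_
        intro r hr r' hr' hrr
        rw [Finset.mem_coe, Finset.mem_filter] at hr hr'
        have h1 : tg r = tg r' := hr.2.trans hr'.2.symm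
        have h2 : r.1 = r'.1 := congrArg (fun τ => τ.1.1.2) h1
        have h3 : (dd r * t (κ r.1, r.1) * r.2) • x = (dd r' * t (κ r'.1, r'.1) * r'.2) • x :=
          congrArg (fun τ => τ.2) h1
        rw [← h2, ← hrr] at h3
        have h4 : (dd r * t (κ r.1, r.1) * r'.2)⁻¹ * (dd r * t (κ r.1, r.1) * r.2) = 1 := by
          refine hfree _ x ?_
          rw [mul_smul, h3, inv_smul_smul]
        have h5 : r'.2 = r.2 := by
          have h6 := inv_mul_eq_one.1 h4
          exact mul_left_cancel h6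
        exact Prod.ext h2 h5.symm
      rw [Finset.card_product, Finset.card_univ, Fintype.card_fin] at hT1
      have hL₀r : (2 * (L₀.card : ℝ) + 1) * (F s).card ≤ (2 * (D.card : ℝ) ^ 2 + 1) * (F s).card := by
        refine mul_le_mul_of_nonneg_right ?_ (Nat.cast_nonneg _)
        have : (L₀.card : ℝ) ≤ (D.card : ℝ) ^ 2 := by exact_mod_cast hL₀c
        linarith
      refine hL₀r.trans ?_
      have h7 : D.card * ((2 * D.card ^ 2 + 1) * (F s).card) ≤ D.card * T.card := by
        rw [← mul_assoc, ← hM]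
        exact hT1
      have h8 := Nat.le_of_mul_le_mul_left h7 hDc
      exact_mod_cast h8
    · intro s' _ i hi hi' z hiz
      obtain ⟨r, hr, hrz⟩ := Finset.mem_image.1 hiz
      obtain ⟨⟨r', d', f'⟩, hr', hmi⟩ := Finset.mem_image.1 (hm1 s' i hi hi')
      rw [Finset.mem_product] at hr
      rw [Finset.mem_product, Finset.mem_product] at hr'
      have e1 : (m i).1 = (r', rp d') := by rw [← hmi]
      have e2 : (m i).2 = (d' : G) * t r' * f' := by rw [← hmi]
      rw [e1] at hrz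
      have e3 : (κ r.1, r.1) = r' := congrArg (fun τ => τ.1.1) hrz
      have e4 : rp ⟨dd r, hdd1 r⟩ = rp d' := congrArg (fun τ => τ.1.2) hrz
      have e5 : (dd r * t (κ r.1, r.1) * r.2) • x = z := congrArg (fun τ => τ.2) hrz
      have e6 : σ ⟨dd r, hdd1 r⟩ = σ d' := by rw [← hrp ⟨dd r, hdd1 r⟩, ← hrp d', e4]
      have hcen : cen ((d' : G)⁻¹ * dd r) := by
        intro γ hγ
        have h6 : ((φ (σ ⟨dd r, hdd1 r⟩ (φ.symm ⟨γ, hγ⟩)) : Γ) : P) =
            ((φ (σ d' (φ.symm ⟨γ, hγ⟩)) : Γ) : P) := by rw [e6]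
        rw [hσ, hσ, MulEquiv.apply_symm_apply] at h6
        have h7 : q (dd r) * γ = q d' * γ * (q d')⁻¹ * q (dd r) := by
          rw [← h6, inv_mul_cancel_right]
        rw [map_mul, map_inv]
        calc (q d')⁻¹ * q (dd r) * γ = (q d')⁻¹ * (q (dd r) * γ) := by group
          _ = γ * ((q d')⁻¹ * q (dd r)) := by rw [h7]; group
      have h8 := hbl2 ((d' : G)⁻¹ * dd r)
      have h9 := hbl3 _ hcen
      set h := (d' : G)⁻¹ * dd r with hh
      refine ⟨f'⁻¹ * ((t r')⁻¹ * (bl h).1 * t r') * r.2, ?_, (bl h).2, ?_, ?_⟩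
      · refine Finset.mul_mem_mul (Finset.mul_mem_mul (Finset.inv_mem_inv hr'.2.2) ?_) hr.2
        refine Finset.mem_union_left _ (Finset.mem_union_left _ ?_)
        exact Finset.mem_image.2 ⟨(r', (d' : G), dd r), Finset.mem_product.2
          ⟨Finset.mem_univ _, Finset.mem_product.2 ⟨d'.2, hdd1 r⟩⟩, rfl⟩
      · exact Finset.mem_image.2 ⟨((d' : G), dd r), Finset.mem_product.2 ⟨d'.2, hdd1 r⟩, rfl⟩
      · show (m i).2⁻¹ • z = (f'⁻¹ * ((t r')⁻¹ * (bl h).1 * t r') * r.2 * (bl h).2) • x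
        symm
        rw [e2, ← e5, e3, ← mul_smul]
        congr 1
        have h10 : (bl h).2 * t r' = t r' * (bl h).2 := h8 _ (htΓ r')
        have h11 : (bl h).2 * r.2 = r.2 * (bl h).2 := h8 _ (by rw [hFq s _ hr.2]; exact Γ.one_mem)
        have h12 : dd r = (d' : G) * ((bl h).1 * (bl h).2) := by
          rw [← h9, hh, mul_inv_cancel_left]
        rw [h12]
        calc f'⁻¹ * ((t r')⁻¹ * (bl h).1 * t r') * r.2 * (bl h).2
            = f'⁻¹ * (t r')⁻¹ * (bl h).1 * t r' * (r.2 * (bl h).2) := by group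
          _ = f'⁻¹ * (t r')⁻¹ * (bl h).1 * (t r' * (bl h).2) * r.2 := by rw [← h11]; group
          _ = ((d' : G) * t r' * f')⁻¹ * ((d' : G) * ((bl h).1 * (bl h).2) * t r' * r.2) := by
              rw [← h10]; group
  have hfin := greedy_sub m (fun _ => (1 : ℝ)) c (fun _ => zero_le_one) hc0 hc1 continuous_const
    hcc (L (k + 1)) hz hact
  refine hfin.mono (fun _ _ => rfl) ?_
  rintro z ⟨i, _, hi⟩
  exact (hcb _ _ hi).1

end Pool.Agent.Helper277_FF
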