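import Pool.Agent.Helper277_FF.Multi

set_option autoImplicit false

/-!
# The multi-stage transport
-/

namespace Pool.Agent.Helper277_FF

open Finset Pool.Agent.H107ZS MeasureTheory Filter Topology Pointwise

universe u v w

open Classical in
theorem cs_mono {G : Type u} [Group G] (N : Subgroup G) (T : Finset G) (hT1 : (1 : G) ∈ T)
    {m n : ℕ} (h : m ≤ n) : cs N T m ⊆ cs N T n :=
  Finset.image_subset_image (Finset.pow_subset_pow_right hT1 h)

open Classical in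
theorem pow_norm {G : Type u} [Group G] (N : Subgroup G) (T : Finset G)
    (hTN : ∀ t ∈ T, ∀ n ∈ N, t * n * t⁻¹ ∈ N) (k : ℕ) :
    ∀ g ∈ T ^ k, ∀ n ∈ N, g * n * g⁻¹ ∈ N := by
  induction k with
  | zero =>
    intro g hg n hn
    rw [pow_zero, Finset.mem_one] at hg
    rw [hg]
    simpa using hn
  | succ k ih =>
    intro g hg n hn
    rw [pow_succ] at hg
    obtain ⟨a, ha, b, hb, rfl⟩ := Finset.mem_mul.1 hg
    have h1 := ih a ha _ (hTN b hb n hn)
    have h2 : a * b * n * (a * b)⁻¹ = a * (b * n * b⁻¹) * a⁻¹ := by group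
    rw [h2]
    exact h1

open Classical in
theorem cs_div {G : Type u} [Group G] (N : Subgroup G) (T : Finset G)
    (hTi : T⁻¹ = T) (hTN : ∀ t ∈ T, ∀ n ∈ N, t * n * t⁻¹ ∈ N) (k : ℕ) (h : G)
    (hh : (h : G ⧸ N) ∈ cs N T k) (u : G ⧸ N) (hu : u ∈ cs N T k) :
    ((h⁻¹ * rp u : G) : G ⧸ N) ∈ cs N T (k + k) := by
  obtain ⟨g, hg, h1⟩ := (mem_cs N T k _).1 hh
  obtain ⟨g', hg', h2⟩ := (mem_cs N T k _).1 hu
  have hinv : ∀ g ∈ T ^ k, g⁻¹ ∈ T ^ k := by
    intro g hg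
    rw [← hTi, inv_pow]
    exact Finset.inv_mem_inv hg
  refine (mem_cs N T (k + k) _).2 ⟨g⁻¹ * g', ?_, ?_⟩
  · rw [pow_add]
    exact Finset.mul_mem_mul (hinv g hg) hg'
  · rw [QuotientGroup.eq] at h1 ⊢
    have h3 : ((g' : G) : G ⧸ N) = ((rp u : G) : G ⧸ N) := by rw [h2, co_rp]
    rw [QuotientGroup.eq] at h3
    have h4 : (g⁻¹ * h)⁻¹ ∈ N := N.inv_mem h1
    have h5 : g'⁻¹ * g ∈ T ^ (k + k) := by
      rw [pow_add]
      exact Finset.mul_mem_mul (hinv g' hg') hg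
    have h6 := pow_norm N T hTN (k + k) _ h5 _ h4
    have h7 : (g⁻¹ * g')⁻¹ * (h⁻¹ * rp u) =
        (g'⁻¹ * g) * (g⁻¹ * h)⁻¹ * (g'⁻¹ * g)⁻¹ * (g'⁻¹ * rp u) := by group
    rw [h7]
    exact N.mul_mem h6 h3

open Classical in
/-- a supply with small averages over a group is transported; the leftover has small averages
over a subgroup -/
theorem gp {G : Type u} [Group G] [Countable G] (N N2 : Subgroup G) {X : Type u}
    [TopologicalSpace X] [CompactSpace X] [TopologicalSpace.MetrizableSpace X] [Nonempty X]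
    [MeasurableSpace X] [BorelSpace X] [MulAction G X] [ContinuousConstSMul G X]
    (F : Finset G) (hFne : F.Nonempty) (c f : C(X, ℝ)) (hc : ∀ x, 0 ≤ c x) (hc1 : ∀ x, c x ≤ 1)
    (hf : ∀ x, 0 ≤ f x) (hf1 : ∀ x, f x ≤ 1) (β ζ : ℝ) (hβ : 0 < β) (hζ : 0 < ζ)
    (S : Finset G) (hS : S.Nonempty) (hN2 : ∀ s ∈ S, ∀ n ∈ N, s⁻¹ * n * s ∈ N2)
    (hE1 : ∀ y, β * S.card * F.card ≤ ∑ s ∈ S, ∑ a ∈ F, c ((s * a) • y))
    (hE2 : ∀ y, ∑ b ∈ F, f (b • y) ≤ ζ * F.card)
    (T : Finset G) (hT1 : (1 : G) ∈ T) (hTi : T⁻¹ = T)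
    (hT : ∀ s ∈ S, ∀ a ∈ F, ∀ b ∈ F, s * (a * b⁻¹) * s⁻¹ ∈ T)
    (hTN : ∀ t ∈ T, ∀ n ∈ N, t * n * t⁻¹ ∈ N) (C d : ℕ)
    (hgr : ∀ n : ℕ, (cs N T n).card ≤ C * (n + 1) ^ d)
    (hsm : 3 ^ d * (S.card * (2 / β * ζ)) ≤ 1 / 2) (ζ' : ℝ) (hζ' : 0 < ζ') :
    ∃ r : C(X, ℝ), (∀ x, 0 ≤ r x) ∧ (∀ x, r x ≤ 1) ∧
      (∃ (K : Finset G) (ε : ℝ), (K : Set G) ⊆ N2 ∧ 0 < ε ∧
        ∀ F : Finset G, (F : Set G) ⊆ N2 → Fol K ε F → ∀ y, ∑ b ∈ F, r (b • y) ≤ ζ' * F.card) ∧
      SubEq G {z | f z = 1 ∧ r z ≤ 1 / 2} {x | 0 < c x} := by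
  have hsm' : ∀ (F : X → ℝ), Continuous F → ∀ g : G, Continuous fun y => F (g • y) :=
    fun F hF g => hF.comp (continuous_const_smul g)
  have hSc : (0 : ℝ) < S.card := by exact_mod_cast hS.card_pos
  have hFc : (0 : ℝ) < F.card := by exact_mod_cast hFne.card_pos
  set φ : G → X → ℝ := supp (fun s : G => s) F c f β with hφ
  have hφ0 : ∀ s x, 0 ≤ φ s x := fun s x => supp_nonneg (fun s : G => s) F hf s x
  have hφ1 : ∀ s x, φ s x ≤ 1 := fun s x =>
    mul_le_one₀ (hf1 x) (cl_nonneg _) (cl_le _)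
  have hφc : ∀ s, Continuous (φ s) := supp_cont (fun s : G => s) F c f β
  set ε₀ : ℝ := S.card * (2 / β * ζ) with hε₀
  have hε₀0 : 0 < ε₀ := by positivity
  set P : ℕ → Finset (G ⧸ N) := fun k => cs N T (3 ^ k) with hP
  have hPm : ∀ k, P k ⊆ P (k + 1) := fun k =>
    cs_mono N T hT1 (Nat.pow_le_pow_right (by norm_num) (Nat.le_succ k))
  set ζ'' : ℝ := ζ' / S.card with hζ''
  have hζ''0 : 0 < ζ'' := by positivity
  -- the number of stages
  obtain ⟨K, hK⟩ : ∃ K : ℕ, 2 / β * (C * 2 ^ d * (1 / 2 : ℝ) ^ K) < ζ'' := by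
    obtain ⟨K, hK⟩ := exists_pow_lt_of_lt_one (x := ζ'' / (2 / β * (C * 2 ^ d) + 1))
      (by positivity) (by norm_num : (1 / 2 : ℝ) < 1)
    refine ⟨K, ?_⟩
    rw [lt_div_iff₀ (by positivity)] at hK
    have h3 : (0 : ℝ) < (1 / 2) ^ K := by positivity
    nlinarith
  have hPK : ε₀ ^ K * ((P K).card : ℝ) ≤ C * 2 ^ d * (1 / 2 : ℝ) ^ K := by
    have h4 : ((P K).card : ℝ) ≤ C * ((3 : ℝ) ^ K + 1) ^ d := by
      exact_mod_cast hgr (3 ^ K)
    have h5 : ((3 : ℝ) ^ K + 1) ^ d ≤ (2 * 3 ^ K) ^ d := by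
      apply pow_le_pow_left₀ (by positivity)
      have : (1 : ℝ) ≤ 3 ^ K := one_le_pow₀ (by norm_num)
      linarith
    have h6 : ((2 : ℝ) * 3 ^ K) ^ d = 2 ^ d * (3 ^ d) ^ K := by
      rw [mul_pow, ← pow_mul, ← pow_mul, mul_comm K d]
    have h7 : ((P K).card : ℝ) ≤ C * 2 ^ d * (3 ^ d) ^ K := by
      refine h4.trans ?_
      rw [mul_assoc, ← h6]
      exact mul_le_mul_of_nonneg_left h5 (Nat.cast_nonneg _)
    refine (mul_le_mul_of_nonneg_left h7 (pow_nonneg hε₀0.le _)).trans ?_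
    have h8 : ε₀ ^ K * (C * 2 ^ d * (3 ^ d) ^ K) = C * 2 ^ d * (3 ^ d * ε₀) ^ K := by
      rw [mul_pow]
      ring
    rw [h8]
    refine mul_le_mul_of_nonneg_left ?_ (by positivity)
    exact pow_le_pow_left₀ (by positivity) hsm _
  set B : ℕ → ℝ := fun k => ε₀ ^ (K - k) * ((P K).card : ℝ) with hB
  let Bad : ℕ → (ℕ → G × G) → ℕ → G → Prop := fun k m n s => ∃ ω : Measure X, SubM N ω ∧
    ζ'' ≤ ∫ y, (gr2 m c φ n).2 s (s⁻¹ • y) ∂ω ∧ ∑ u ∈ P k, ∫ y, c (rp u • y) ∂ω ≤ B k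
  -- the push
  have hpush : ∀ k, ∀ ω : Measure X, IsFiniteMeasure ω → InvM N ω →
      ∑ s ∈ S, ∑ v ∈ cs N T (3 ^ k + 3 ^ k), ∫ y, φ s ((s⁻¹ * rp v) • y) ∂ω ≤
        ε₀ * ∑ u ∈ P (k + 1), ∫ y, c (rp u • y) ∂ω := by
    intro k ω _ hω
    have h1 : ∀ s ∈ S, ∑ v ∈ cs N T (3 ^ k + 3 ^ k), ∫ y, φ s ((s⁻¹ * rp v) • y) ∂ω ≤
        2 / β * (ζ * ∑ u ∈ P (k + 1), ∫ y, c (rp u • y) ∂ω) := by
      intro s hs
      refine (mpush N c f hc hf F hFne hβ hE2 T s (hT s hs) (3 ^ k + 3 ^ k) ω hω).trans ?_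
      refine mul_le_mul_of_nonneg_left (mul_le_mul_of_nonneg_left ?_ hζ.le) (by positivity)
      refine Finset.sum_le_sum_of_subset_of_nonneg (cs_mono N T hT1 ?_) fun _ _ _ =>
        integral_nonneg fun y => hc _
      have : 1 ≤ 3 ^ k := Nat.one_le_pow _ _ (by norm_num)
      rw [pow_succ]
      omega
    refine (Finset.sum_le_sum h1).trans (le_of_eq ?_)
    rw [Finset.sum_const, nsmul_eq_mul, hε₀]
    ring
  -- the claim
  have hclaim : ∀ k, k ≤ K → ∃ (m : ℕ → G × G) (n : ℕ),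
      (∀ i < n, (m i).1 ∈ S ∧ ∃ h : G, (h : G ⧸ N) ∈ P k ∧ (m i).2 = (h * (m i).1)⁻¹) ∧
      ∀ s ∈ S, ¬ Bad k m n s := by
    intro k
    induction k with
    | zero =>
      intro _
      refine ⟨fun _ => (1, 1), 0, fun i hi => absurd hi (Nat.not_lt_zero _), ?_⟩
      rintro s hs ⟨ω, hω, h1, h2⟩
      have hωf := hω.fin
      have hint : ∀ (F : X → ℝ), Continuous F → Integrable F ω := fun F hF => int_cont ω F hF
      have h3 : ∫ y, (gr2 (fun _ => ((1 : G), (1 : G))) c φ 0).2 s (s⁻¹ • y) ∂ω ≤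
          ∫ y, 2 / β * ((∑ a ∈ F, ∑ b ∈ F, c ((s * (a * b⁻¹) * s⁻¹) • y)) /
            ((F.card : ℝ) * F.card)) ∂ω := by
        refine integral_mono (hint _ (hsm' _ (hφc s) _)) (hint _ ?_) fun y => ?_
        · exact continuous_const.mul (Continuous.div_const (continuous_finsetSum _ fun a _ =>
            continuous_finsetSum _ fun b _ => hsm' _ c.continuous _) _)
        · show φ s (s⁻¹ • y) ≤ _
          have h4 := supp_le (fun s : G => s) F hc hf hβ s (s⁻¹ • y)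
          have h5 := dens_nonneg (fun s : G => s) F hc s (s⁻¹ • y)
          have h6 : f (s⁻¹ • y) * dens (fun s : G => s) F c s (s⁻¹ • y) ≤
              dens (fun s : G => s) F c s (s⁻¹ • y) := mul_le_of_le_one_left h5 (hf1 _)
          have h7 : dens (fun s : G => s) F c s (s⁻¹ • y) =
              (∑ a ∈ F, ∑ b ∈ F, c ((s * (a * b⁻¹) * s⁻¹) • y)) /
                ((F.card : ℝ) * F.card) := by
            unfold dens
            congr 1
            refine Finset.sum_congr rfl fun a _ => Finset.sum_congr rfl fun b _ => ?_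
            rw [mul_smul _ s⁻¹ y]
          rw [← h7]
          exact h4.trans (mul_le_mul_of_nonneg_left h6 (by positivity))
      rw [integral_const_mul, integral_div, integral_finsetSum _ fun a _ => hint _
        (continuous_finsetSum _ fun b _ => hsm' _ c.continuous _)] at h3
      have h4 : ∀ a ∈ F, ∫ y, ∑ b ∈ F, c ((s * (a * b⁻¹) * s⁻¹) • y) ∂ω ≤ F.card * B 0 := by
        intro a ha
        rw [integral_finsetSum _ fun b _ => hint _ (hsm' _ c.continuous _)]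
        have h5 : ∀ b ∈ F, ∫ y, c ((s * (a * b⁻¹) * s⁻¹) • y) ∂ω ≤ B 0 := by
          intro b hb
          refine le_trans ?_ h2
          have h6 := int_move2 N ω hω.inv c c.continuous (s * (a * b⁻¹) * s⁻¹)
          rw [h6]
          have h7 : ((s * (a * b⁻¹) * s⁻¹ : G) : G ⧸ N) ∈ P 0 := by
            refine (mem_cs N T _ _).2 ⟨s * (a * b⁻¹) * s⁻¹, ?_, rfl⟩
            rw [pow_zero, pow_one]
            exact hT s hs a ha b hb
          exact Finset.single_le_sum (f := fun u : G ⧸ N => ∫ y, c (rp u • y) ∂ω)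
            (fun u _ => integral_nonneg fun y => hc _) h7
        refine (Finset.sum_le_sum h5).trans (le_of_eq ?_)
        rw [Finset.sum_const, nsmul_eq_mul]
      have h5 : ∑ a ∈ F, ∫ y, ∑ b ∈ F, c ((s * (a * b⁻¹) * s⁻¹) • y) ∂ω ≤
          F.card * (F.card * B 0) := by
        refine (Finset.sum_le_sum h4).trans (le_of_eq ?_)
        rw [Finset.sum_const, nsmul_eq_mul]
      have h6 : (∑ a ∈ F, ∫ y, ∑ b ∈ F, c ((s * (a * b⁻¹) * s⁻¹) • y) ∂ω) /
          ((F.card : ℝ) * F.card) ≤ B 0 := by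
        rw [div_le_iff₀ (by positivity)]
        linarith
      have h7 := mul_le_mul_of_nonneg_left h6 (by positivity : (0 : ℝ) ≤ 2 / β)
      have h8 : B 0 ≤ C * 2 ^ d * (1 / 2 : ℝ) ^ K := by
        show ε₀ ^ (K - 0) * ((P K).card : ℝ) ≤ _
        rw [Nat.sub_zero]
        exact hPK
      have h9 := mul_le_mul_of_nonneg_left h8 (by positivity : (0 : ℝ) ≤ 2 / β)
      linarith
    | succ k ih =>
      intro hk
      obtain ⟨m₀, n₀, hm₀, hbad⟩ := ih (by omega)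
      have hP1 : ((1 : G) : G ⧸ N) ∈ P k := by
        refine (mem_cs N T _ _).2 ⟨1, ?_, rfl⟩
        exact Finset.one_mem_pow hT1
      have hne : Nonempty {p : G × G // p.1 ∈ S ∧ (p.2 : G ⧸ N) ∈ P k} :=
        ⟨⟨(hS.choose, 1), hS.choose_spec, hP1⟩⟩
      obtain ⟨e, he⟩ := exists_surjective_nat {p : G × G // p.1 ∈ S ∧ (p.2 : G ⧸ N) ∈ P k}
      let m : ℕ → G × G := fun i => if i < n₀ then m₀ i else
        ((e (i - n₀)).1.1, ((e (i - n₀)).1.2 * (e (i - n₀)).1.1)⁻¹)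
      have hmlt : ∀ i, i < n₀ → m i = m₀ i := fun i hi => if_pos hi
      have hmge : ∀ i, ¬ i < n₀ → m i =
        ((e (i - n₀)).1.1, ((e (i - n₀)).1.2 * (e (i - n₀)).1.1)⁻¹) := fun i hi => if_neg hi
      have hm1 : ∀ i, (m i).1 ∈ S ∧ ∃ h : G, (h : G ⧸ N) ∈ P k ∧ (m i).2 = (h * (m i).1)⁻¹ := by
        intro i
        by_cases hi : i < n₀
        · rw [hmlt i hi]
          exact hm₀ i hi
        · rw [hmge i hi]
          exact ⟨(e (i - n₀)).2.1, (e (i - n₀)).1.2, (e (i - n₀)).2.2, rfl⟩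
      have hst : ∀ s ∈ S, ∃ n, ¬ Bad (k + 1) m n s := by
        intro s hs
        by_contra hcon
        push Not at hcon
        obtain ⟨ω, hω1, hω2, hω3⟩ := stage N c hc hc1 φ hφ0 hφ1 hφc S s m (P k)
          (cs N T (3 ^ k + 3 ^ k)) (P (k + 1)) hm1 (by
            intro h hh
            obtain ⟨i, hi⟩ := he ⟨(s, h), hs, hh⟩
            refine ⟨i + n₀, ?_⟩
            rw [hmge _ (by omega), Nat.add_sub_cancel, hi])
          (fun h hh u hu => cs_div N T hTi hTN (3 ^ k) h hh u hu) ε₀ hε₀0.le (hpush k)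
          (B (k + 1)) ζ'' hcon
        refine hbad s hs ⟨ω, hω1, ?_, ?_⟩
        · have h1 := hω2 n₀
          rw [gr2_congr m m₀ (c : X → ℝ) φ n₀ hmlt] at h1
          exact h1
        · refine hω3.trans (le_of_eq ?_)
          show ε₀ * (ε₀ ^ (K - (k + 1)) * ((P K).card : ℝ)) = ε₀ ^ (K - k) * ((P K).card : ℝ)
          have h2 : K - k = (K - (k + 1)) + 1 := by omega
          rw [h2, pow_succ']
          ring
      choose! ns hns using hst
      refine ⟨m, S.sup ns, fun i _ => ?_, ?_⟩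
      · obtain ⟨h1, h, hh, h2⟩ := hm1 i
        exact ⟨h1, h, hPm k hh, h2⟩
      · rintro s hs ⟨ω, hω, h1, h2⟩
        have hωf := hω.fin
        refine hns s hs ⟨ω, hω, h1.trans ?_, h2⟩
        have hcont := gr2_cont m c φ c.continuous hφc
        refine integral_mono (int_cont ω _ (hsm' _ ((hcont _).2 s) _))
          (int_cont ω _ (hsm' _ ((hcont _).2 s) _)) fun y => ?_
        exact (gr2_anti m hc hφ0 (Finset.le_sup hs)).2 s _
  obtain ⟨m, n, -, hbad⟩ := hclaim K le_rfl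
  have hcont := gr2_cont m c φ c.continuous hφc
  let L : G → C(X, ℝ) := fun s => ⟨(gr2 m c φ n).2 s, (hcont n).2 s⟩
  have hL0 : ∀ s x, 0 ≤ L s x := (gr2_nonneg m hc hφ0 n).2
  have hsmall : ∀ s ∈ S, ∀ ω : Measure X, SubM N ω → ∫ y, L s (s⁻¹ • y) ∂ω < ζ'' := by
    intro s hs ω hω
    by_contra hcon
    push Not at hcon
    have hωf := hω.fin
    refine hbad s hs ⟨ω, hω, hcon, ?_⟩
    show ∑ u ∈ P K, ∫ y, c (rp u • y) ∂ω ≤ ε₀ ^ (K - K) * ((P K).card : ℝ)
    rw [Nat.sub_self, pow_zero, one_mul]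
    have h1 : ∀ u ∈ P K, ∫ y, c (rp u • y) ∂ω ≤ 1 := by
      intro u _
      have h2 : ∫ y, c (rp u • y) ∂ω ≤ ∫ _y : X, (1 : ℝ) ∂ω :=
        integral_mono (int_cont ω _ (hsm' _ c.continuous _)) (integrable_const _) fun y => hc1 _
      rw [integral_const, smul_eq_mul, mul_one] at h2
      exact h2.trans hω.mass
    refine (Finset.sum_le_sum h1).trans (le_of_eq ?_)
    rw [Finset.sum_const, nsmul_eq_mul, mul_one]
  let R : C(X, ℝ) := ∑ s ∈ S, L s
  have hR : ∀ x, R x = ∑ s ∈ S, L s x := by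
    intro x
    show (∑ s ∈ S, L s : C(X, ℝ)) x = _
    rw [ContinuousMap.coe_sum, Finset.sum_apply]
  let r : C(X, ℝ) := ⟨fun x => min 1 (R x), continuous_const.min R.continuous⟩
  have hr : ∀ x, r x = min 1 (R x) := fun x => rfl
  have hR0 : ∀ x, 0 ≤ R x := fun x => by
    rw [hR]
    exact Finset.sum_nonneg fun s _ => hL0 s x
  let ψ : C(X, ℝ) := ζ' • (1 : C(X, ℝ)) - R
  have hψ : ∀ x, ψ x = ζ' - R x := by
    intro x
    show ζ' * 1 - R x = _
    rw [mul_one]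
  obtain ⟨_, K', ε, γ, hK', hε, hγ, hF⟩ := t_KL G X N2 (fun _ => ψ) (fun _ _ => le_rfl) (by
    intro Λ hΛ
    obtain ⟨ν, hν1, hν, hinv⟩ := state_inv' N2 Λ hΛ
    refine ⟨0, ?_⟩
    show 0 < Λ ψ
    have h1 : Λ ψ = ζ' - ∑ s ∈ S, ∫ y, L s y ∂ν := by
      show Λ (ζ' • (1 : C(X, ℝ)) - R) = _
      rw [map_sub, map_smul, hΛ.one, smul_eq_mul, mul_one]
      congr 1
      show Λ (∑ s ∈ S, L s) = _
      rw [map_sum]
      exact Finset.sum_congr rfl fun s _ => (hν (L s)).symm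
    have h2 : ∀ s ∈ S, ∫ y, L s y ∂ν < ζ'' := by
      intro s hs
      have hgm : ∀ g : G, Measurable (fun x : X => g • x) := fun g =>
        (continuous_const_smul g).measurable
      have h3 := hsmall s hs (ν.map fun x => s • x) ⟨Measure.isFiniteMeasure_map _ _, ?_, ?_⟩
      · rw [integral_map (hgm s).aemeasurable
          (hsm' _ (L s).continuous _).aestronglyMeasurable] at h3
        simp only [inv_smul_smul] at h3
        exact h3
      · rw [map_measureReal_apply (hgm s) MeasurableSet.univ, Set.preimage_univ]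
        simp
      · intro n hn
        rw [Measure.map_map (hgm n) (hgm s)]
        have h4 : ((fun x : X => n • x) ∘ fun x => s • x) =
            (fun x => s • x) ∘ fun x => (s⁻¹ * n * s) • x := by
          funext x
          show n • s • x = s • (s⁻¹ * n * s) • x
          simp only [mul_smul, smul_inv_smul]
        rw [h4, ← Measure.map_map (hgm s) (hgm _), hinv _ (hN2 s hs n hn)]
    rw [h1]
    have h3 := Finset.sum_lt_sum_of_nonempty hS h2
    rw [Finset.sum_const, nsmul_eq_mul, hζ''] at h3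
    have h4 : (S.card : ℝ) * (ζ' / S.card) = ζ' := by field_simp
    rw [h4] at h3
    linarith)
  refine ⟨r, fun x => ?_, fun x => ?_, ⟨K', ε, hK', hε, fun F' hF' hFol y => ?_⟩, ?_⟩
  · rw [hr]
    exact le_min zero_le_one (hR0 x)
  · rw [hr]
    exact min_le_left _ _
  · have h1 := hF F' hF' hFol y
    have h2 : ∑ s ∈ F', ψ (s • y) = ζ' * F'.card - ∑ s ∈ F', R (s • y) := by
      simp only [hψ]
      rw [Finset.sum_sub_distrib, Finset.sum_const, nsmul_eq_mul, mul_comm]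
    rw [h2] at h1
    have h3 : 0 ≤ γ * F'.card := by positivity
    have h4 : ∑ s ∈ F', r (s • y) ≤ ∑ s ∈ F', R (s • y) :=
      Finset.sum_le_sum fun s _ => by rw [hr]; exact min_le_right _ _
    linarith
  · refine (greedy_half m c φ hc hc1 hφ0 c.continuous hφc n).mono ?_ subset_rfl
    rintro z ⟨h1, h2⟩
    obtain ⟨s, hs, h3⟩ := exists_dens (fun s : G => s) F hFne S hS hE1 z
    refine ⟨s, supp_one (fun s : G => s) F hβ s z h1 h3, ?_⟩
    have h4 : R z ≤ 1 / 2 := by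
      rw [hr] at h2
      rcases min_le_iff.1 h2 with h5 | h5
      · norm_num at h5
      · exact h5
    have h5 := Finset.single_le_sum (f := fun s => L s z) (fun s _ => hL0 s z) hs
    rw [hR] at h4
    exact h5.trans h4

end Pool.Agent.Helper277_FF
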