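import Mathlib

set_option autoImplicit false

/-!
# The greedy transport inside a finite piece of an orbit

Every point `t` of a finite set `T` has a supply `α t` and a capacity `β t`; in step `i` every `t`
sends as much as possible to `g i * t`. The rule: `t` holds `g i * t` if in step `i` the remaining
capacity of `g i * t` crosses the level `2 ^ i / 2 ^ L`. The rule is given by open conditions; no
point is held twice, and every `t` with supply `1` holds some point.
(The rule is due to helper107.)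
-/

namespace Pool.Agent.Helper277_FF

open Finset

variable {G : Type*} [Group G]

/-- one step of the greedy transport: every `t` sends as much as possible to `g * t` -/
noncomputable def step (g : G) (s : (G → ℝ) × (G → ℝ)) : (G → ℝ) × (G → ℝ) :=
  (fun t => s.1 t - min (s.1 t) (s.2 (g * t)), fun t => s.2 t - min (s.1 (g⁻¹ * t)) (s.2 t))

/-- the remaining supplies and capacities after `i` steps -/
noncomputable def gr (g : ℕ → G) (α β : G → ℝ) : ℕ → (G → ℝ) × (G → ℝ)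
  | 0 => (α, β)
  | i + 1 => step (g i) (gr g α β i)

theorem gr_one (g : ℕ → G) (α β : G → ℝ) (i : ℕ) (t : G) : (gr g α β (i + 1)).1 t =
    (gr g α β i).1 t - min ((gr g α β i).1 t) ((gr g α β i).2 (g i * t)) := rfl

theorem gr_two (g : ℕ → G) (α β : G → ℝ) (i : ℕ) (t : G) : (gr g α β (i + 1)).2 t =
    (gr g α β i).2 t - min ((gr g α β i).1 ((g i)⁻¹ * t)) ((gr g α β i).2 t) := rfl

section basic

variable (g : ℕ → G) {α β : G → ℝ} (hα : ∀ t, 0 ≤ α t) (hβ : ∀ t, 0 ≤ β t)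

include hα hβ

theorem gr_nonneg (i : ℕ) : (∀ t, 0 ≤ (gr g α β i).1 t) ∧ ∀ t, 0 ≤ (gr g α β i).2 t := by
  induction i with
  | zero => exact ⟨hα, hβ⟩
  | succ i ih =>
    refine ⟨fun t => ?_, fun t => ?_⟩
    · rw [gr_one]
      exact sub_nonneg.2 (min_le_left _ _)
    · rw [gr_two]
      exact sub_nonneg.2 (min_le_right _ _)

theorem gr_succ (i : ℕ) : (∀ t, (gr g α β (i + 1)).1 t ≤ (gr g α β i).1 t) ∧
    ∀ t, (gr g α β (i + 1)).2 t ≤ (gr g α β i).2 t := by
  obtain ⟨h1, h2⟩ := gr_nonneg g hα hβ i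
  refine ⟨fun t => ?_, fun t => ?_⟩
  · rw [gr_one]
    exact sub_le_self _ (le_min (h1 _) (h2 _))
  · rw [gr_two]
    exact sub_le_self _ (le_min (h1 _) (h2 _))

theorem gr_anti {i j : ℕ} (hij : i ≤ j) : (∀ t, (gr g α β j).1 t ≤ (gr g α β i).1 t) ∧
    ∀ t, (gr g α β j).2 t ≤ (gr g α β i).2 t := by
  induction j, hij using Nat.le_induction with
  | base => exact ⟨fun _ => le_rfl, fun _ => le_rfl⟩
  | succ j _ ih =>
    obtain ⟨h1, h2⟩ := gr_succ g hα hβ j
    exact ⟨fun t => (h1 t).trans (ih.1 t), fun t => (h2 t).trans (ih.2 t)⟩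

theorem gr_supp (T : Finset G) (hα0 : ∀ t, t ∉ T → α t = 0) (hβ0 : ∀ t, t ∉ T → β t = 0) (i : ℕ) :
    (∀ t, t ∉ T → (gr g α β i).1 t = 0) ∧ ∀ t, t ∉ T → (gr g α β i).2 t = 0 := by
  obtain ⟨h1, h2⟩ := gr_nonneg g hα hβ i
  obtain ⟨h3, h4⟩ := gr_anti g hα hβ (Nat.zero_le i)
  refine ⟨fun t ht => le_antisymm ?_ (h1 t), fun t ht => le_antisymm ?_ (h2 t)⟩
  · rw [← hα0 t ht]; exact h3 t
  · rw [← hβ0 t ht]; exact h4 t

theorem gr_sum (T : Finset G) (hα0 : ∀ t, t ∉ T → α t = 0) (hβ0 : ∀ t, t ∉ T → β t = 0) (i : ℕ) :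
    ∑ t ∈ T, (gr g α β i).1 t - ∑ t ∈ T, (gr g α β i).2 t = ∑ t ∈ T, α t - ∑ t ∈ T, β t := by
  induction i with
  | zero => rfl
  | succ i ih =>
    obtain ⟨h1, h2⟩ := gr_nonneg g hα hβ i
    obtain ⟨s1, s2⟩ := gr_supp g hα hβ T hα0 hβ0 i
    have key : ∑ t ∈ T, min ((gr g α β i).1 t) ((gr g α β i).2 (g i * t)) =
        ∑ t ∈ T, min ((gr g α β i).1 ((g i)⁻¹ * t)) ((gr g α β i).2 t) := by
      have e := (Equiv.mulLeft (g i)).tsum_eq
        (fun t => min ((gr g α β i).1 ((g i)⁻¹ * t)) ((gr g α β i).2 t))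
      simp only [Equiv.coe_mulLeft, inv_mul_cancel_left] at e
      rw [tsum_eq_sum (s := T), tsum_eq_sum (s := T)] at e
      · exact e
      · intro t ht
        rw [s2 t ht]
        exact min_eq_right (h1 _)
      · intro t ht
        rw [s1 t ht]
        exact min_eq_left (h2 _)
    simp only [gr_one, gr_two]
    rw [Finset.sum_sub_distrib, Finset.sum_sub_distrib, key]
    linarith

theorem gr_served (T : Finset G) (hα0 : ∀ t, t ∉ T → α t = 0) (hβ0 : ∀ t, t ∉ T → β t = 0) (L : ℕ)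
    (hg : ∀ t ∈ T, ∀ t' ∈ T, ∃ i < L, g i * t = t') (hlt : ∑ t ∈ T, α t < ∑ t ∈ T, β t) :
    ∀ t ∈ T, (gr g α β L).1 t = 0 := by
  intro t ht
  by_contra hne
  obtain ⟨h1, h2⟩ := gr_nonneg g hα hβ L
  have hpos : 0 < (gr g α β L).1 t := lt_of_le_of_ne (h1 t) (Ne.symm hne)
  have hz : ∀ t' ∈ T, (gr g α β L).2 t' = 0 := by
    intro t' ht'
    obtain ⟨i, hi, hit⟩ := hg t ht t' ht'
    refine le_antisymm ?_ (h2 t')
    have a1 := (gr_anti g hα hβ (Nat.succ_le_of_lt hi)).1 t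
    have a2 := (gr_anti g hα hβ (Nat.succ_le_of_lt hi)).2 t'
    refine a2.trans ?_
    have e1 : (g i)⁻¹ * t' = t := by rw [← hit, inv_mul_cancel_left]
    rw [Nat.succ_eq_add_one, gr_one, hit] at a1
    rw [Nat.succ_eq_add_one, gr_two, e1]
    rcases le_total ((gr g α β i).1 t) ((gr g α β i).2 t') with h | h
    · rw [min_eq_left h] at a1
      linarith
    · rw [min_eq_right h, sub_self]
  have hs := gr_sum g hα hβ T hα0 hβ0 L
  rw [Finset.sum_eq_zero hz, sub_zero] at hs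
  have := Finset.sum_nonneg fun t (_ : t ∈ T) => h1 t
  linarith

theorem gr_cross (hβ1 : ∀ t, β t ≤ 1) (L : ℕ) (t : G) (hz : (gr g α β L).1 t = 0)
    (hαt : α t = 1) : ∃ i < L, (gr g α β (i + 1)).2 (g i * t) < 2 ^ i / 2 ^ L ∧
      2 ^ i / 2 ^ L < (gr g α β i).2 (g i * t) := by
  by_contra hcon
  push Not at hcon
  have hL : (0 : ℝ) < 2 ^ L := by positivity
  have key : ∀ i, i ≤ L → 1 - (2 ^ i - 1) / 2 ^ L ≤ (gr g α β i).1 t := by
    intro i
    induction i with
    | zero =>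
      intro _
      show 1 - (2 ^ 0 - 1) / 2 ^ L ≤ α t
      rw [hαt]; norm_num
    | succ i ih =>
      intro hi
      have ih := ih (by omega)
      have hc := hcon i (by omega)
      obtain ⟨h1, h2⟩ := gr_nonneg g hα hβ i
      have hle : (gr g α β i).2 (g i * t) ≤ 1 :=
        ((gr_anti g hα hβ (Nat.zero_le i)).2 _).trans (hβ1 _)
      rw [gr_one]
      have e0 : (2 : ℝ) ^ (i + 1) = 2 ^ i + 2 ^ i := by rw [pow_succ]; ring
      have e1 : ((2 : ℝ) ^ (i + 1) - 1) / 2 ^ L = (2 ^ i - 1) / 2 ^ L + 2 ^ i / 2 ^ L := by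
        rw [e0]; ring
      rw [e1]
      by_cases h : (gr g α β i).2 (g i * t) ≤ 2 ^ i / 2 ^ L
      · have := min_le_right ((gr g α β i).1 t) ((gr g α β i).2 (g i * t))
        linarith
      · exfalso
        rw [not_le] at h
        have h5 : 2 ^ i / 2 ^ L ≤ (gr g α β (i + 1)).2 (g i * t) := by
          by_contra h6
          rw [not_le] at h6
          exact absurd (hc h6) (not_le.2 h)
        rw [gr_two, inv_mul_cancel_left] at h5
        have h7 : (0 : ℝ) < 2 ^ i / 2 ^ L := by positivity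
        rcases le_total ((gr g α β i).1 t) ((gr g α β i).2 (g i * t)) with h8 | h8
        · rw [min_eq_left h8] at h5
          have : (2 : ℝ) ^ i / 2 ^ L ≤ (2 ^ i - 1) / 2 ^ L := by linarith
          rw [div_le_div_iff_of_pos_right hL] at this
          linarith
        · rw [min_eq_right h8, sub_self] at h5
          linarith
  have := key L le_rfl
  rw [hz] at this
  have h9 : ((2 : ℝ) ^ L - 1) / 2 ^ L < 1 := by
    rw [div_lt_one hL]; linarith
  linarith

theorem cross_unique (L : ℕ) (t : G) (i i' : ℕ)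
    (h : (gr g α β (i + 1)).2 t < 2 ^ i / 2 ^ L ∧ 2 ^ i / 2 ^ L < (gr g α β i).2 t)
    (h' : (gr g α β (i' + 1)).2 t < 2 ^ i' / 2 ^ L ∧ 2 ^ i' / 2 ^ L < (gr g α β i').2 t) :
    i = i' := by
  have key : ∀ i i' : ℕ, (gr g α β (i + 1)).2 t < 2 ^ i / 2 ^ L →
      2 ^ i' / 2 ^ L < (gr g α β i').2 t → ¬ i < i' := by
    intro i i' h1 h2 hlt
    have h3 := (gr_anti g hα hβ (Nat.succ_le_of_lt hlt)).2 t
    have h4 : (2 : ℝ) ^ i / 2 ^ L ≤ 2 ^ i' / 2 ^ L := by
      apply div_le_div_of_nonneg_right _ (by positivity)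
      exact pow_le_pow_right₀ (by norm_num) hlt.le
    rw [Nat.succ_eq_add_one] at h3
    linarith
  rcases lt_trichotomy i i' with h1 | h1 | h1
  · exact absurd h1 (key i i' h.1 h'.2)
  · exact h1
  · exact absurd h1 (key i' i h'.1 h.2)

end basic

theorem gr_cont {Y : Type*} [TopologicalSpace Y] (g : ℕ → G) (α β : Y → G → ℝ)
    (hα : ∀ t, Continuous fun y => α y t) (hβ : ∀ t, Continuous fun y => β y t) (i : ℕ) :
    (∀ t, Continuous fun y => (gr g (α y) (β y) i).1 t) ∧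
      ∀ t, Continuous fun y => (gr g (α y) (β y) i).2 t := by
  induction i with
  | zero => exact ⟨hα, hβ⟩
  | succ i ih =>
    refine ⟨fun t => ?_, fun t => ?_⟩
    · simp only [gr_one]
      exact (ih.1 t).sub ((ih.1 t).min (ih.2 _))
    · simp only [gr_two]
      exact (ih.2 t).sub ((ih.1 _).min (ih.2 t))

theorem gr_equiv (g : ℕ → G) (α β : G → ℝ) (h : G) (i : ℕ) :
    (∀ t, (gr g (fun t => α (t * h)) (fun t => β (t * h)) i).1 t = (gr g α β i).1 (t * h)) ∧
      ∀ t, (gr g (fun t => α (t * h)) (fun t => β (t * h)) i).2 t = (gr g α β i).2 (t * h) := by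
  induction i with
  | zero => exact ⟨fun _ => rfl, fun _ => rfl⟩
  | succ i ih =>
    refine ⟨fun t => ?_, fun t => ?_⟩
    · rw [gr_one, gr_one, ih.1, ih.2, mul_assoc]
    · rw [gr_two, gr_two, ih.1, ih.2, mul_assoc]

end Pool.Agent.Helper277_FF
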