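import Pool.Agent.Helper277_FF.Cell

set_option autoImplicit false

/-!
# The greedy transport with several kinds of targets

Every point `x` has a supply `p x`, and every point `z` has a capacity `c l z` for every kind `l` of
targets. In step `i` every `x` sends as much as possible to the target `(l i, g i • x)`.
-/

namespace Pool.Agent.Helper277_FF

open Finset

universe u v w

section

variable {G : Type u} [Group G] {X : Type v} [MulAction G X] {Λ : Type w} [DecidableEq Λ]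

/-- one step of the greedy transport -/
noncomputable def step2 (l : Λ) (g : G) (s : (X → ℝ) × (Λ → X → ℝ)) : (X → ℝ) × (Λ → X → ℝ) :=
  (fun x => s.1 x - min (s.1 x) (s.2 l (g • x)),
    fun l' z => s.2 l' z - if l' = l then min (s.1 (g⁻¹ • z)) (s.2 l z) else 0)

/-- the remaining supplies and capacities after `i` steps -/
noncomputable def gr2 (m : ℕ → Λ × G) (p : X → ℝ) (c : Λ → X → ℝ) :
    ℕ → (X → ℝ) × (Λ → X → ℝ)
  | 0 => (p, c)
  | i + 1 => step2 (m i).1 (m i).2 (gr2 m p c i)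

theorem gr2_one (m : ℕ → Λ × G) (p : X → ℝ) (c : Λ → X → ℝ) (i : ℕ) (x : X) :
    (gr2 m p c (i + 1)).1 x = (gr2 m p c i).1 x -
      min ((gr2 m p c i).1 x) ((gr2 m p c i).2 (m i).1 ((m i).2 • x)) := rfl

theorem gr2_two (m : ℕ → Λ × G) (p : X → ℝ) (c : Λ → X → ℝ) (i : ℕ) (l : Λ) (z : X) :
    (gr2 m p c (i + 1)).2 l z = (gr2 m p c i).2 l z -
      if l = (m i).1 then min ((gr2 m p c i).1 ((m i).2⁻¹ • z)) ((gr2 m p c i).2 (m i).1 z)
      else 0 := rfl

theorem gr2_cont [TopologicalSpace X] [ContinuousConstSMul G X] (m : ℕ → Λ × G) (p : X → ℝ)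
    (c : Λ → X → ℝ) (hp : Continuous p) (hc : ∀ l, Continuous (c l)) (i : ℕ) :
    Continuous (gr2 m p c i).1 ∧ ∀ l, Continuous ((gr2 m p c i).2 l) := by
  induction i with
  | zero => exact ⟨hp, hc⟩
  | succ i ih =>
    refine ⟨?_, fun l => ?_⟩
    · exact ih.1.sub (ih.1.min ((ih.2 _).comp (continuous_const_smul _)))
    · by_cases hl : l = (m i).1
      · have e : (gr2 m p c (i + 1)).2 l = fun z => (gr2 m p c i).2 l z -
            min ((gr2 m p c i).1 ((m i).2⁻¹ • z)) ((gr2 m p c i).2 (m i).1 z) := by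
          funext z
          rw [gr2_two, if_pos hl]
        rw [e]
        exact (ih.2 l).sub ((ih.1.comp (continuous_const_smul _)).min (ih.2 _))
      · have e : (gr2 m p c (i + 1)).2 l = (gr2 m p c i).2 l := by
          funext z
          rw [gr2_two, if_neg hl, sub_zero]
        rw [e]
        exact ih.2 l

variable (m : ℕ → Λ × G) {p : X → ℝ} {c : Λ → X → ℝ} (hp : ∀ x, 0 ≤ p x) (hc : ∀ l x, 0 ≤ c l x)

include hp hc

theorem gr2_nonneg (i : ℕ) : (∀ x, 0 ≤ (gr2 m p c i).1 x) ∧ ∀ l x, 0 ≤ (gr2 m p c i).2 l x := by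
  induction i with
  | zero => exact ⟨hp, hc⟩
  | succ i ih =>
    refine ⟨fun x => ?_, fun l x => ?_⟩
    · rw [gr2_one]
      exact sub_nonneg.2 (min_le_left _ _)
    · rw [gr2_two]
      split_ifs with h
      · rw [h]
        exact sub_nonneg.2 (min_le_right _ _)
      · rw [sub_zero]
        exact ih.2 _ _

theorem gr2_succ (i : ℕ) : (∀ x, (gr2 m p c (i + 1)).1 x ≤ (gr2 m p c i).1 x) ∧
    ∀ l x, (gr2 m p c (i + 1)).2 l x ≤ (gr2 m p c i).2 l x := by
  obtain ⟨h1, h2⟩ := gr2_nonneg m hp hc i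
  refine ⟨fun x => ?_, fun l x => ?_⟩
  · rw [gr2_one]
    exact sub_le_self _ (le_min (h1 _) (h2 _ _))
  · rw [gr2_two]
    refine sub_le_self _ ?_
    split_ifs
    · exact le_min (h1 _) (h2 _ _)
    · exact le_rfl

theorem gr2_anti {i j : ℕ} (hij : i ≤ j) : (∀ x, (gr2 m p c j).1 x ≤ (gr2 m p c i).1 x) ∧
    ∀ l x, (gr2 m p c j).2 l x ≤ (gr2 m p c i).2 l x := by
  induction j, hij using Nat.le_induction with
  | base => exact ⟨fun _ => le_rfl, fun _ _ => le_rfl⟩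
  | succ j _ ih =>
    obtain ⟨h1, h2⟩ := gr2_succ m hp hc j
    exact ⟨fun t => (h1 t).trans (ih.1 t), fun l t => (h2 l t).trans (ih.2 l t)⟩

theorem gr2_absorbed (n : ℕ) (T : Finset (Λ × X)) (S : Finset X)
    (hTS : ∀ i < n, ∀ z, ((m i).1, z) ∈ T → (m i).2⁻¹ • z ∈ S) :
    ∑ t ∈ T, (c t.1 t.2 - (gr2 m p c n).2 t.1 t.2) ≤ ∑ x ∈ S, (p x - (gr2 m p c n).1 x) := by
  classical
  induction n with
  | zero =>
    have e1 : ∀ t : Λ × X, c t.1 t.2 - (gr2 m p c 0).2 t.1 t.2 = 0 := fun t => sub_self _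
    have e2 : ∀ x, p x - (gr2 m p c 0).1 x = 0 := fun x => sub_self _
    simp only [e1, e2, Finset.sum_const_zero, le_refl]
  | succ n ih =>
    have ih := ih fun i hi => hTS i (by omega)
    obtain ⟨h1, h2⟩ := gr2_nonneg m hp hc n
    have e1 : ∀ t : Λ × X, c t.1 t.2 - (gr2 m p c (n + 1)).2 t.1 t.2 =
        (c t.1 t.2 - (gr2 m p c n).2 t.1 t.2) + if t.1 = (m n).1 then
          min ((gr2 m p c n).1 ((m n).2⁻¹ • t.2)) ((gr2 m p c n).2 (m n).1 t.2) else 0 := by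
      intro t
      rw [gr2_two]
      ring
    have e2 : ∀ x, p x - (gr2 m p c (n + 1)).1 x = (p x - (gr2 m p c n).1 x) +
        min ((gr2 m p c n).1 x) ((gr2 m p c n).2 (m n).1 ((m n).2 • x)) := by
      intro x
      rw [gr2_one]
      ring
    simp only [e1, e2]
    rw [Finset.sum_add_distrib, Finset.sum_add_distrib]
    refine add_le_add ih ?_
    rw [← Finset.sum_filter]
    have hinj : Set.InjOn (fun t : Λ × X => (m n).2⁻¹ • t.2)
        (T.filter fun t => t.1 = (m n).1 : Finset _) := by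
      rintro ⟨l, z⟩ ht ⟨l', z'⟩ ht' h
      rw [Finset.mem_coe, Finset.mem_filter] at ht ht'
      have h3 : z = z' := smul_left_cancel _ h
      have h4 : l = l' := ht.2.trans ht'.2.symm
      rw [h3, h4]
    have h3 : ∑ t ∈ T.filter (fun t => t.1 = (m n).1),
        min ((gr2 m p c n).1 ((m n).2⁻¹ • t.2)) ((gr2 m p c n).2 (m n).1 t.2) =
        ∑ x ∈ (T.filter fun t => t.1 = (m n).1).image (fun t => (m n).2⁻¹ • t.2),
          min ((gr2 m p c n).1 x) ((gr2 m p c n).2 (m n).1 ((m n).2 • x)) := by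
      rw [Finset.sum_image hinj]
      refine Finset.sum_congr rfl fun t _ => ?_
      rw [smul_inv_smul]
    rw [h3]
    refine Finset.sum_le_sum_of_subset_of_nonneg ?_ fun _ _ _ => le_min (h1 _) (h2 _ _)
    intro x hx
    obtain ⟨⟨l, z⟩, ht, rfl⟩ := Finset.mem_image.1 hx
    rw [Finset.mem_filter] at ht
    have h5 : l = (m n).1 := ht.2
    subst h5
    exact hTS n (by omega) z ht.1

theorem gr2_sat (n : ℕ) (x : X) (hx : 0 < (gr2 m p c n).1 x) (i : ℕ) (hi : i < n) :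
    (gr2 m p c n).2 (m i).1 ((m i).2 • x) = 0 := by
  obtain ⟨h1, h2⟩ := gr2_nonneg m hp hc n
  refine le_antisymm ?_ (h2 _ _)
  have a1 := (gr2_anti m hp hc (Nat.succ_le_of_lt hi)).1 x
  have a2 := (gr2_anti m hp hc (Nat.succ_le_of_lt hi)).2 (m i).1 ((m i).2 • x)
  refine a2.trans ?_
  rw [Nat.succ_eq_add_one, gr2_one] at a1
  rw [Nat.succ_eq_add_one, gr2_two, if_pos rfl, inv_smul_smul]
  rcases le_total ((gr2 m p c i).1 x) ((gr2 m p c i).2 (m i).1 ((m i).2 • x)) with h | h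
  · rw [min_eq_left h] at a1
    linarith
  · rw [min_eq_right h, sub_self]

/-- a point with sufficiently many targets is served -/
theorem gr2_served (n : ℕ) (x : X) (T : Finset (Λ × X)) (S : Finset X)
    (hT : ∀ t ∈ T, ∃ i < n, t = ((m i).1, (m i).2 • x))
    (hTS : ∀ i < n, ∀ z, ((m i).1, z) ∈ T → (m i).2⁻¹ • z ∈ S)
    (hlt : ∑ x ∈ S, p x < ∑ t ∈ T, c t.1 t.2) : (gr2 m p c n).1 x = 0 := by
  by_contra hne
  obtain ⟨h1, h2⟩ := gr2_nonneg m hp hc n
  have hpos : 0 < (gr2 m p c n).1 x := lt_of_le_of_ne (h1 x) (Ne.symm hne)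
  have h3 := gr2_absorbed m hp hc n T S hTS
  have h4 : ∀ t ∈ T, (gr2 m p c n).2 t.1 t.2 = 0 := by
    intro t ht
    obtain ⟨i, hi, rfl⟩ := hT t ht
    exact gr2_sat m hp hc n x hpos i hi
  have h5 : ∑ t ∈ T, (c t.1 t.2 - (gr2 m p c n).2 t.1 t.2) = ∑ t ∈ T, c t.1 t.2 :=
    Finset.sum_congr rfl fun t ht => by rw [h4 t ht, sub_zero]
  have h6 : ∑ x ∈ S, (p x - (gr2 m p c n).1 x) ≤ ∑ x ∈ S, p x :=
    Finset.sum_le_sum fun x _ => by linarith [h1 x]
  linarith

theorem gr2_cross (hc1 : ∀ l x, c l x ≤ 1) (L : ℕ) (x : X) (hz : (gr2 m p c L).1 x = 0)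
    (hpx : p x = 1) : ∃ i < L, (gr2 m p c (i + 1)).2 (m i).1 ((m i).2 • x) < 2 ^ i / 2 ^ L ∧
      2 ^ i / 2 ^ L < (gr2 m p c i).2 (m i).1 ((m i).2 • x) := by
  by_contra hcon
  push Not at hcon
  have hL : (0 : ℝ) < 2 ^ L := by positivity
  have key : ∀ i, i ≤ L → 1 - (2 ^ i - 1) / 2 ^ L ≤ (gr2 m p c i).1 x := by
    intro i
    induction i with
    | zero =>
      intro _
      show 1 - (2 ^ 0 - 1) / 2 ^ L ≤ p x
      rw [hpx]; norm_num
    | succ i ih =>
      intro hi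
      have ih := ih (by omega)
      have hc' := hcon i (by omega)
      obtain ⟨h1, h2⟩ := gr2_nonneg m hp hc i
      have hle : (gr2 m p c i).2 (m i).1 ((m i).2 • x) ≤ 1 :=
        ((gr2_anti m hp hc (Nat.zero_le i)).2 _ _).trans (hc1 _ _)
      rw [gr2_one]
      have e0 : (2 : ℝ) ^ (i + 1) = 2 ^ i + 2 ^ i := by rw [pow_succ]; ring
      have e1 : ((2 : ℝ) ^ (i + 1) - 1) / 2 ^ L = (2 ^ i - 1) / 2 ^ L + 2 ^ i / 2 ^ L := by
        rw [e0]; ring
      rw [e1]
      by_cases h : (gr2 m p c i).2 (m i).1 ((m i).2 • x) ≤ 2 ^ i / 2 ^ L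
      · have := min_le_right ((gr2 m p c i).1 x) ((gr2 m p c i).2 (m i).1 ((m i).2 • x))
        linarith
      · exfalso
        rw [not_le] at h
        have h5 : 2 ^ i / 2 ^ L ≤ (gr2 m p c (i + 1)).2 (m i).1 ((m i).2 • x) := by
          by_contra h6
          rw [not_le] at h6
          exact absurd (hc' h6) (not_le.2 h)
        rw [gr2_two, if_pos rfl, inv_smul_smul] at h5
        have h7 : (0 : ℝ) < 2 ^ i / 2 ^ L := by positivity
        rcases le_total ((gr2 m p c i).1 x) ((gr2 m p c i).2 (m i).1 ((m i).2 • x)) with h8 | h8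
        · rw [min_eq_left h8] at h5
          have : (2 : ℝ) ^ i / 2 ^ L ≤ (2 ^ i - 1) / 2 ^ L := by linarith
          rw [div_le_div_iff_of_pos_right hL] at this
          linarith
        · rw [min_eq_right h8, sub_self] at h5
          linarith
  have := key L le_rfl
  rw [hz] at this
  have h9 : ((2 : ℝ) ^ L - 1) / 2 ^ L < 1 := by
    rw [div_lt_one hL]; linarith
  linarith

theorem cross2_unique (L : ℕ) (l : Λ) (x : X) (i i' : ℕ)
    (h : (gr2 m p c (i + 1)).2 l x < 2 ^ i / 2 ^ L ∧ 2 ^ i / 2 ^ L < (gr2 m p c i).2 l x)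
    (h' : (gr2 m p c (i' + 1)).2 l x < 2 ^ i' / 2 ^ L ∧ 2 ^ i' / 2 ^ L < (gr2 m p c i').2 l x) :
    i = i' := by
  have key : ∀ i i' : ℕ, (gr2 m p c (i + 1)).2 l x < 2 ^ i / 2 ^ L →
      2 ^ i' / 2 ^ L < (gr2 m p c i').2 l x → ¬ i < i' := by
    intro i i' h1 h2 hlt
    have h3 := (gr2_anti m hp hc (Nat.succ_le_of_lt hlt)).2 l x
    have h4 : (2 : ℝ) ^ i / 2 ^ L ≤ 2 ^ i' / 2 ^ L := by
      apply div_le_div_of_nonneg_right _ (by positivity)
      exact pow_le_pow_right₀ (by norm_num) hlt.le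
    rw [Nat.succ_eq_add_one] at h3
    linarith
  rcases lt_trichotomy i i' with h1 | h1 | h1
  · exact absurd h1 (key i i' h.1 h'.2)
  · exact h1
  · exact absurd h1 (key i' i h'.1 h.2)

end

/-- comparison from a greedy transport -/
theorem greedy_sub {G : Type u} [Group G] {X : Type v} [TopologicalSpace X] [MulAction G X]
    [ContinuousConstSMul G X] {Λ : Type w} [DecidableEq Λ] (m : ℕ → Λ × G) (p : X → ℝ)
    (c : Λ → X → ℝ) (hp : ∀ x, 0 ≤ p x) (hc : ∀ l x, 0 ≤ c l x) (hc1 : ∀ l x, c l x ≤ 1)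
    (hpc : Continuous p) (hcc : ∀ l, Continuous (c l)) (L : ℕ)
    (hz : ∀ x, (gr2 m p c L).1 x = 0)
    (hact : ∀ i < L, ∀ j < L, ∀ z, 0 < c (m i).1 z → 0 < c (m j).1 z → (m i).1 = (m j).1) :
    SubEq G {x | p x = 1} {z | ∃ i < L, 0 < c (m i).1 z} := by
  refine pack (ι := Fin L) (fun i => {x | (gr2 m p c (i + 1)).2 (m i).1 ((m i).2 • x) <
      2 ^ (i : ℕ) / 2 ^ L ∧ 2 ^ (i : ℕ) / 2 ^ L < (gr2 m p c i).2 (m i).1 ((m i).2 • x)})
    (fun i => (m i).2) ?_ ?_ ?_ ?_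
  · intro i
    refine IsOpen.inter ?_ ?_
    · exact isOpen_lt (((gr2_cont m p c hpc hcc _).2 _).comp (continuous_const_smul _))
        continuous_const
    · exact isOpen_lt continuous_const
        (((gr2_cont m p c hpc hcc _).2 _).comp (continuous_const_smul _))
  · intro x hx
    obtain ⟨i, hi, h1, h2⟩ := gr2_cross m hp hc hc1 L x (hz x) hx
    exact ⟨⟨i, hi⟩, h1, h2⟩
  · intro i x hx
    refine ⟨i, i.2, ?_⟩
    have h4 : (0 : ℝ) < 2 ^ (i : ℕ) / 2 ^ L := by positivity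
    exact (h4.trans hx.2).trans_le ((gr2_anti m hp hc (Nat.zero_le _)).2 _ _)
  · intro i j x hx x' hx' he
    have h4 : ∀ k : ℕ, (0 : ℝ) < 2 ^ k / 2 ^ L := fun k => by positivity
    have h5 : 0 < c (m i).1 ((m i).2 • x) :=
      ((h4 _).trans hx.2).trans_le ((gr2_anti m hp hc (Nat.zero_le _)).2 _ _)
    have h6 : 0 < c (m j).1 ((m j).2 • x') :=
      ((h4 _).trans hx'.2).trans_le ((gr2_anti m hp hc (Nat.zero_le _)).2 _ _)
    rw [← he] at h6
    have h7 := hact i i.2 j j.2 _ h5 h6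
    have hx1 := hx'
    obtain ⟨h8, h9⟩ := hx1
    rw [← he, ← h7] at h8 h9
    exact Fin.ext (cross2_unique m hp hc L _ _ _ _ hx ⟨h8, h9⟩)

end Pool.Agent.Helper277_FF
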