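import Pool.Agent.Helper277_FF.Phase

set_option autoImplicit false

/-!
# Limits of invariant measures
-/

namespace Pool.Agent.Helper277_FF

open Finset Pool.Agent.H107ZS MeasureTheory Filter Topology
open scoped CompactlySupported BoundedContinuousFunction

universe u v w

/-- the theorem of Riesz for positive functionals -/
theorem riesz_fin {Y : Type v} [TopologicalSpace Y] [CompactSpace Y] [T2Space Y]
    [MeasurableSpace Y] [BorelSpace Y] (Λ : C(Y, ℝ) →ₗ[ℝ] ℝ)
    (hp : ∀ f : C(Y, ℝ), 0 ≤ f → 0 ≤ Λ f) :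
    ∃ ν : Measure Y, IsFiniteMeasure ν ∧ ∀ f : C(Y, ℝ), ∫ y, f y ∂ν = Λ f := by
  let L : C_c(Y, ℝ) →ₗ[ℝ] ℝ :=
    { toFun := fun f => Λ f.toContinuousMap
      map_add' := fun f g => Λ.map_add f.toContinuousMap g.toContinuousMap
      map_smul' := fun c f => Λ.map_smul c f.toContinuousMap }
  let Λ' : C_c(Y, ℝ) →ₚ[ℝ] ℝ := PositiveLinearMap.mk₀ L (fun f hf =>
    hp f.toContinuousMap (fun t => hf t))
  have hΛ : ∀ f : C(Y, ℝ), ∫ t, f t ∂(RealRMK.rieszMeasure Λ') = Λ f := by
    intro f
    have := RealRMK.integral_rieszMeasure Λ'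
      ({ toFun := f
         hasCompactSupport' := HasCompactSupport.of_compactSpace _ } : C_c(Y, ℝ))
    exact this
  have hreg : (RealRMK.rieszMeasure Λ').Regular := RealRMK.regular_rieszMeasure Λ'
  exact ⟨RealRMK.rieszMeasure Λ', inferInstance, hΛ⟩

/-- finite invariant measures with mass at most one -/
structure SubM {G : Type u} [Group G] {X : Type v} [MeasurableSpace X] [MulAction G X]
    (H : Subgroup G) (ν : Measure X) : Prop where
  fin : IsFiniteMeasure ν
  mass : ν.real Set.univ ≤ 1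
  inv : InvM H ν

theorem lim_meas {G : Type u} [Group G] {X : Type v} [TopologicalSpace X] [CompactSpace X]
    [TopologicalSpace.MetrizableSpace X] [MeasurableSpace X] [BorelSpace X] [MulAction G X]
    [ContinuousConstSMul G X] (H : Subgroup G) (ω : ℕ → Measure X) (hω : ∀ n, SubM H (ω n)) :
    ∃ ν : Measure X, SubM H ν ∧ ∀ (f : C(X, ℝ)) (a : ℝ),
      (∀ᶠ n in atTop, a ≤ ∫ x, f x ∂(ω n)) → a ≤ ∫ x, f x ∂ν := by
  let U : Ultrafilter ℕ := Ultrafilter.of atTop
  have hU : (U : Filter ℕ) ≤ atTop := Ultrafilter.of_le atTop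
  have hfin := fun n => (hω n).fin
  have hint : ∀ n (f : C(X, ℝ)), Integrable f (ω n) := fun n f => int_cont _ _ f.continuous
  have hbd : ∀ n (f : C(X, ℝ)), |∫ x, f x ∂(ω n)| ≤ ‖f‖ := by
    intro n f
    have h1 : ‖∫ x, f x ∂(ω n)‖ ≤ ‖f‖ * (ω n).real Set.univ :=
      norm_integral_le_of_norm_le_const (ae_of_all _ fun x => f.norm_coe_le_norm x)
    have h2 := (hω n).mass
    have h3 : ‖f‖ * (ω n).real Set.univ ≤ ‖f‖ * 1 := mul_le_mul_of_nonneg_left h2 (norm_nonneg _)
    rw [Real.norm_eq_abs] at h1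
    linarith
  have hlim : ∀ f : C(X, ℝ), ∃ x : ℝ, Tendsto (fun n => ∫ x, f x ∂(ω n)) U (𝓝 x) := by
    intro f
    have hcomp : IsCompact (Set.Icc (-‖f‖) ‖f‖) := isCompact_Icc
    obtain ⟨x, _, hx⟩ := hcomp.ultrafilter_le_nhds' (U.map fun n => ∫ x, f x ∂(ω n)) (by
      refine Filter.mem_map.2 (Filter.Eventually.of_forall fun n => ?_)
      exact abs_le.1 (hbd n f))
    exact ⟨x, hx⟩
  choose Λ hΛ using hlim
  have hadd : ∀ f g, Λ (f + g) = Λ f + Λ g := by
    intro f g
    refine tendsto_nhds_unique (hΛ (f + g)) (((hΛ f).add (hΛ g)).congr fun n => ?_)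
    exact (integral_add (hint n f) (hint n g)).symm
  have hsmul : ∀ (r : ℝ) f, Λ (r • f) = r * Λ f := by
    intro r f
    refine tendsto_nhds_unique (hΛ (r • f)) (((hΛ f).const_mul r).congr fun n => ?_)
    exact (integral_const_mul r _).symm
  let Λ' : C(X, ℝ) →ₗ[ℝ] ℝ :=
    { toFun := Λ
      map_add' := hadd
      map_smul' := fun r f => by simpa using hsmul r f }
  obtain ⟨ν, hν1, hν⟩ := riesz_fin Λ' (by
    intro f hf
    refine ge_of_tendsto (hΛ f) (Filter.Eventually.of_forall fun n => ?_)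
    exact integral_nonneg fun x => hf x)
  refine ⟨ν, ⟨hν1, ?_, ?_⟩, ?_⟩
  · have h1 := hν 1
    simp only [ContinuousMap.one_apply, integral_const, smul_eq_mul, mul_one] at h1
    rw [h1]
    refine le_of_tendsto (hΛ 1) (Filter.Eventually.of_forall fun n => ?_)
    simp only [ContinuousMap.one_apply, integral_const, smul_eq_mul, mul_one]
    exact (hω n).mass
  · intro g hg
    have hgm : Measurable (fun x : X => g • x) := (continuous_const_smul g).measurable
    have hfin : IsFiniteMeasure (ν.map (fun x => g • x)) := Measure.isFiniteMeasure_map _ _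
    let _ := TopologicalSpace.metrizableSpaceMetric X
    refine ext_of_forall_integral_eq_of_IsFiniteMeasure fun f => ?_
    rw [integral_map hgm.aemeasurable f.continuous.aestronglyMeasurable]
    have h1 := hν ⟨fun y => f y, f.continuous⟩
    have h2 := hν ((⟨fun y => f y, f.continuous⟩ : C(X, ℝ)).comp (tr g))
    have h3 : Λ ((⟨fun y => f y, f.continuous⟩ : C(X, ℝ)).comp (tr g)) =
        Λ ⟨fun y => f y, f.continuous⟩ := by
      refine tendsto_nhds_unique (hΛ _) ((hΛ _).congr fun n => ?_)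
      have h4 := (hω n).inv g hg
      have h5 : ∫ x, f x ∂(ω n) = ∫ x, f x ∂((ω n).map fun x => g • x) := by rw [h4]
      rw [integral_map hgm.aemeasurable f.continuous.aestronglyMeasurable] at h5
      exact h5
    have h4 : Λ' ((⟨fun y => f y, f.continuous⟩ : C(X, ℝ)).comp (tr g)) =
        Λ' ⟨fun y => f y, f.continuous⟩ := h3
    rw [h4, ← h1] at h2
    exact h2
  · intro f a ha
    rw [hν f]
    exact ge_of_tendsto (hΛ f) (hU ha)

/-- change of variables for cosets of a subgroup -/
theorem int_move2 {G : Type u} [Group G] (N : Subgroup G) {X : Type v} [TopologicalSpace X]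
    [MeasurableSpace X] [BorelSpace X] [MulAction G X] [ContinuousConstSMul G X] (ω : Measure X)
    (hω : InvM N ω) (F : X → ℝ) (hF : Continuous F) (g : G) :
    ∫ y, F (g • y) ∂ω = ∫ y, F ((Quotient.out (g : G ⧸ N) : G) • y) ∂ω := by
  set r : G := Quotient.out (g : G ⧸ N) with hr
  have hker : r⁻¹ * g ∈ N := by
    rw [← QuotientGroup.eq, hr]
    exact QuotientGroup.out_eq' _
  have h1 := hω _ hker
  have hgm : Measurable (fun x : X => (r⁻¹ * g) • x) := (continuous_const_smul _).measurable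
  have hF2 : Continuous fun y => F (r • y) := hF.comp (continuous_const_smul _)
  have h2 : ∫ y, F (r • y) ∂ω = ∫ y, F (r • y) ∂(ω.map fun x => (r⁻¹ * g) • x) := by rw [h1]
  rw [h2, integral_map hgm.aemeasurable hF2.aestronglyMeasurable]
  refine integral_congr_ae (ae_of_all _ fun y => ?_)
  show F (g • y) = F (r • (r⁻¹ * g) • y)
  rw [← mul_smul, mul_inv_cancel_left]

end Pool.Agent.Helper277_FF
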