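import Pool.Agent.Helper277_FF.OneStage
import Pool.Agent.Helper277_FF.Absorb

set_option autoImplicit false

/-!
# From small averages over a group to small averages over a subgroup
-/

namespace Pool.Agent.Helper277_FF

open Finset Pool.Agent.H107ZS MeasureTheory Filter Topology Pointwise

universe u v w

theorem gr2_congr {G : Type u} [Group G] {X : Type v} [MulAction G X] {Λ : Type w}
    [DecidableEq Λ] (m m' : ℕ → Λ × G) (p : X → ℝ) (c : Λ → X → ℝ) (n : ℕ)
    (h : ∀ i < n, m i = m' i) : gr2 m p c n = gr2 m' p c n := by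
  induction n with
  | zero => rfl
  | succ n ih =>
    have h1 := ih fun i hi => h i (by omega)
    show step2 (m n).1 (m n).2 (gr2 m p c n) = step2 (m' n).1 (m' n).2 (gr2 m' p c n)
    rw [h1, h n (by omega)]

open Classical in
/-- the cosets of the powers of `T` -/
noncomputable def cs {G : Type u} [Group G] (N : Subgroup G) (T : Finset G) (n : ℕ) :
    Finset (G ⧸ N) :=
  Finset.image (fun g : G => (g : G ⧸ N)) (T ^ n)

open Classical in
theorem mem_cs {G : Type u} [Group G] (N : Subgroup G) (T : Finset G) (n : ℕ)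
    (u : G ⧸ N) : u ∈ cs N T n ↔ ∃ g ∈ T ^ n, (g : G ⧸ N) = u := by
  unfold cs
  rw [Finset.mem_image]

open Classical in
theorem mpush {G : Type u} [Group G] (N : Subgroup G) {X : Type v} [TopologicalSpace X]
    [CompactSpace X] [MeasurableSpace X] [BorelSpace X] [MulAction G X] [ContinuousConstSMul G X]
    (c f : C(X, ℝ)) (hc : ∀ x, 0 ≤ c x) (hf : ∀ x, 0 ≤ f x) (F : Finset G) (hFne : F.Nonempty)
    {β ζ : ℝ} (hβ : 0 < β) (hE2 : ∀ y, ∑ b ∈ F, f (b • y) ≤ ζ * F.card) (T : Finset G) (s : G)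
    (hT : ∀ a ∈ F, ∀ b ∈ F, s * (a * b⁻¹) * s⁻¹ ∈ T) (R : ℕ) (ω : Measure X) [IsFiniteMeasure ω]
    (hω : InvM N ω) :
    ∑ v ∈ cs N T R, ∫ y, supp (fun s : G => s) F c f β s ((s⁻¹ * rp v) • y) ∂ω ≤
      2 / β * (ζ * ∑ w ∈ cs N T (R + 1), ∫ y, c (rp w • y) ∂ω) := by
  have hFc : (0 : ℝ) < F.card := by exact_mod_cast hFne.card_pos
  have hsm : ∀ (F : X → ℝ), Continuous F → ∀ g : G, Continuous fun y => F (g • y) :=
    fun F hF g => hF.comp (continuous_const_smul g)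
  have hint : ∀ (F : X → ℝ), Continuous F → Integrable F ω := fun F hF => int_cont ω F hF
  let H : G → G → X → ℝ := fun a b x => f ((s⁻¹ * (s * (a * b⁻¹) * s⁻¹)⁻¹) • x) * c x
  have hHc : ∀ a b, Continuous (H a b) := fun a b => (hsm _ f.continuous _).mul c.continuous
  have hH0 : ∀ a b x, 0 ≤ H a b x := fun a b x => mul_nonneg (hf _) (hc _)
  have hdc := dens_cont (fun s : G => s) F c s
  -- the supply in terms of `H`
  have h1 : ∀ v : G ⧸ N, ∫ y, supp (fun s : G => s) F c f β s ((s⁻¹ * rp v) • y) ∂ω ≤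
      2 / β * ((∑ a ∈ F, ∑ b ∈ F, ∫ y, H a b ((s * (a * b⁻¹) * s⁻¹ * rp v) • y) ∂ω) /
        ((F.card : ℝ) * F.card)) := by
    intro v
    have h2 : ∫ y, supp (fun s : G => s) F c f β s ((s⁻¹ * rp v) • y) ∂ω ≤
        ∫ y, 2 / β * (f ((s⁻¹ * rp v) • y) * dens (fun s : G => s) F c s ((s⁻¹ * rp v) • y)) ∂ω :=
      integral_mono (hint _ (hsm _ (supp_cont (fun s : G => s) F c f β s) _))
        (hint _ (continuous_const.mul ((hsm _ f.continuous _).mul (hsm _ hdc _))))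
        fun y => supp_le (fun s : G => s) F hc hf hβ s _
    refine h2.trans (le_of_eq ?_)
    rw [integral_const_mul]
    congr 1
    have h3 : ∀ y : X, f ((s⁻¹ * rp v) • y) * dens (fun s : G => s) F c s ((s⁻¹ * rp v) • y) =
        (∑ a ∈ F, ∑ b ∈ F, H a b ((s * (a * b⁻¹) * s⁻¹ * rp v) • y)) /
          ((F.card : ℝ) * F.card) := by
      intro y
      unfold dens
      rw [← mul_div_assoc, Finset.mul_sum]
      congr 1
      refine Finset.sum_congr rfl fun a _ => ?_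
      rw [Finset.mul_sum]
      refine Finset.sum_congr rfl fun b _ => ?_
      show f ((s⁻¹ * rp v) • y) * c ((s * (a * b⁻¹)) • (s⁻¹ * rp v) • y) =
        f ((s⁻¹ * (s * (a * b⁻¹) * s⁻¹)⁻¹) • (s * (a * b⁻¹) * s⁻¹ * rp v) • y) *
          c ((s * (a * b⁻¹) * s⁻¹ * rp v) • y)
      simp only [← mul_smul]
      congr 3 <;> group
    simp only [h3]
    rw [integral_div]
    congr 1
    rw [integral_finsetSum _ fun a _ => hint _ (continuous_finsetSum _ fun b _ =>
      hsm _ (hHc a b) _)]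
    refine Finset.sum_congr rfl fun a _ => ?_
    rw [integral_finsetSum _ fun b _ => hint _ (hsm _ (hHc a b) _)]
  -- moving the cosets
  have h2 : ∀ a ∈ F, ∀ b ∈ F, ∑ v ∈ cs N T R, ∫ y, H a b ((s * (a * b⁻¹) * s⁻¹ * rp v) • y) ∂ω ≤
      ∑ w ∈ cs N T (R + 1), ∫ y, H a b (rp w • y) ∂ω := by
    intro a ha b hb
    have ht := hT a ha b hb
    set t := s * (a * b⁻¹) * s⁻¹ with htd
    have e1 : ∀ v ∈ cs N T R, ∫ y, H a b ((t * rp v) • y) ∂ω =
        ∫ y, H a b (rp ((t * rp v : G) : G ⧸ N) • y) ∂ω := fun v _ =>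
      int_move2 N ω hω (H a b) (hHc a b) (t * rp v)
    rw [Finset.sum_congr rfl e1]
    have hinj : Set.InjOn (fun u : G ⧸ N => ((t * rp u : G) : G ⧸ N))
        (cs N T R : Set (G ⧸ N)) := by
      intro x _ y _ hxy
      have h1 : ((t * rp x : G) : G ⧸ N) = ((t * rp y : G) : G ⧸ N) := hxy
      rw [QuotientGroup.eq] at h1
      have h2 : (t * rp x)⁻¹ * (t * rp y) = (rp x)⁻¹ * rp y := by group
      rw [h2, ← QuotientGroup.eq, co_rp, co_rp] at h1
      exact h1
    have e2 : ∑ v ∈ cs N T R, ∫ y, H a b (rp ((t * rp v : G) : G ⧸ N) • y) ∂ω =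
        ∑ w ∈ (cs N T R).image (fun u : G ⧸ N => ((t * rp u : G) : G ⧸ N)),
          ∫ y, H a b (rp w • y) ∂ω := by
      rw [Finset.sum_image hinj]
    rw [e2]
    refine Finset.sum_le_sum_of_subset_of_nonneg ?_ fun w _ _ =>
      integral_nonneg fun y => hH0 _ _ _
    intro w hw
    obtain ⟨v, hv, rfl⟩ := Finset.mem_image.1 hw
    obtain ⟨g, hg, rfl⟩ := (mem_cs N T R v).1 hv
    refine (mem_cs N T (R + 1) _).2 ⟨t * g, ?_, ?_⟩
    · rw [pow_succ']
      exact Finset.mul_mem_mul ht hg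
    · rw [QuotientGroup.eq]
      have h3 : ((rp ((g : G) : G ⧸ N) : G) : G ⧸ N) = (g : G ⧸ N) := co_rp _
      rw [eq_comm, QuotientGroup.eq] at h3
      have h4 : (t * g)⁻¹ * (t * rp ((g : G) : G ⧸ N)) = g⁻¹ * rp ((g : G) : G ⧸ N) := by group
      rw [h4]
      exact h3
  -- the sum over `F`
  have h3 : ∀ w : G ⧸ N, ∑ a ∈ F, ∑ b ∈ F, ∫ y, H a b (rp w • y) ∂ω ≤
      F.card * (ζ * F.card) * ∫ y, c (rp w • y) ∂ω := by
    intro w
    have e1 : ∑ a ∈ F, ∑ b ∈ F, ∫ y, H a b (rp w • y) ∂ω =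
        ∫ y, ∑ a ∈ F, ∑ b ∈ F, H a b (rp w • y) ∂ω := by
      rw [integral_finsetSum _ fun a _ => hint _ (continuous_finsetSum _ fun b _ =>
        hsm _ (hHc a b) _)]
      refine Finset.sum_congr rfl fun a _ => ?_
      rw [integral_finsetSum _ fun b _ => hint _ (hsm _ (hHc a b) _)]
    rw [e1, ← integral_const_mul]
    refine integral_mono (hint _ (continuous_finsetSum _ fun a _ => continuous_finsetSum _
      fun b _ => hsm _ (hHc a b) _)) (hint _ (continuous_const.mul (hsm _ c.continuous _)))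
      fun y => ?_
    show ∑ a ∈ F, ∑ b ∈ F, H a b (rp w • y) ≤ F.card * (ζ * F.card) * c (rp w • y)
    have e2 : ∀ a ∈ F, ∑ b ∈ F, H a b (rp w • y) ≤ ζ * F.card * c (rp w • y) := by
      intro a _
      have e3 : ∑ b ∈ F, H a b (rp w • y) =
          (∑ b ∈ F, f (b • (a⁻¹ * s⁻¹ * rp w) • y)) * c (rp w • y) := by
        rw [Finset.sum_mul]
        refine Finset.sum_congr rfl fun b _ => ?_
        show f ((s⁻¹ * (s * (a * b⁻¹) * s⁻¹)⁻¹) • rp w • y) * c (rp w • y) =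
          f (b • (a⁻¹ * s⁻¹ * rp w) • y) * c (rp w • y)
        congr 2
        simp only [← mul_smul]
        congr 1
        group
      rw [e3]
      exact mul_le_mul_of_nonneg_right (hE2 _) (hc _)
    refine (Finset.sum_le_sum e2).trans (le_of_eq ?_)
    rw [Finset.sum_const, nsmul_eq_mul]
    ring
  -- together
  have h4 : ∑ v ∈ cs N T R, ∫ y, supp (fun s : G => s) F c f β s ((s⁻¹ * rp v) • y) ∂ω ≤
      2 / β * ((∑ a ∈ F, ∑ b ∈ F, ∑ v ∈ cs N T R,
        ∫ y, H a b ((s * (a * b⁻¹) * s⁻¹ * rp v) • y) ∂ω) / ((F.card : ℝ) * F.card)) := by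
    refine (Finset.sum_le_sum fun v _ => h1 v).trans (le_of_eq ?_)
    rw [← Finset.mul_sum, ← Finset.sum_div]
    congr 2
    rw [Finset.sum_comm]
    exact Finset.sum_congr rfl fun a _ => Finset.sum_comm
  refine h4.trans (mul_le_mul_of_nonneg_left ?_ (by positivity))
  rw [div_le_iff₀ (by positivity)]
  refine (Finset.sum_le_sum fun a ha => Finset.sum_le_sum fun b hb => h2 a ha b hb).trans ?_
  have e5 : ∑ a ∈ F, ∑ b ∈ F, ∑ w ∈ cs N T (R + 1), ∫ y, H a b (rp w • y) ∂ω =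
      ∑ w ∈ cs N T (R + 1), ∑ a ∈ F, ∑ b ∈ F, ∫ y, H a b (rp w • y) ∂ω := by
    rw [Finset.sum_comm (s := cs N T (R + 1))]
    refine Finset.sum_congr rfl fun a _ => ?_
    exact Finset.sum_comm
  rw [e5]
  refine (Finset.sum_le_sum fun w _ => h3 w).trans (le_of_eq ?_)
  rw [← Finset.mul_sum]
  ring

end Pool.Agent.Helper277_FF
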