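import Pool.Agent.Helper277_FF.Lim

set_option autoImplicit false

/-!
# One stage of the transport, over infinitely many moves
-/

namespace Pool.Agent.Helper277_FF

open Finset Pool.Agent.H107ZS MeasureTheory Filter Topology

universe u v w

section

variable {G : Type u} [Group G]

/-- a representative of a coset -/
noncomputable def rp {N : Subgroup G} (u : G ⧸ N) : G := Quotient.out u

theorem co_rp {N : Subgroup G} (u : G ⧸ N) : ((rp u : G) : G ⧸ N) = u := QuotientGroup.out_eq' u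

end

open Classical in
theorem stage {G : Type u} [Group G] [Countable G] (N : Subgroup G) {X : Type v}
    [TopologicalSpace X] [CompactSpace X] [TopologicalSpace.MetrizableSpace X]
    [MeasurableSpace X] [BorelSpace X] [MulAction G X] [ContinuousConstSMul G X]
    (c : C(X, ℝ)) (hc : ∀ x, 0 ≤ c x) (hc1 : ∀ x, c x ≤ 1) (φ : G → X → ℝ)
    (hφ : ∀ s x, 0 ≤ φ s x) (hφ1 : ∀ s x, φ s x ≤ 1) (hφc : ∀ s, Continuous (φ s))
    (S : Finset G) (s₀ : G) (m : ℕ → G × G) (P V P' : Finset (G ⧸ N))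
    (hm1 : ∀ i, (m i).1 ∈ S ∧ ∃ h : G, (h : G ⧸ N) ∈ P ∧ (m i).2 = (h * (m i).1)⁻¹)
    (hm2 : ∀ h : G, (h : G ⧸ N) ∈ P → ∃ i, m i = (s₀, (h * s₀)⁻¹))
    (hPV : ∀ h : G, (h : G ⧸ N) ∈ P → ∀ u ∈ P, ((h⁻¹ * rp u : G) : G ⧸ N) ∈ V)
    (ε₀ : ℝ) (hε₀ : 0 ≤ ε₀)
    (hpush : ∀ ω : Measure X, IsFiniteMeasure ω → InvM N ω →
      ∑ s ∈ S, ∑ v ∈ V, ∫ y, φ s ((s⁻¹ * rp v) • y) ∂ω ≤
        ε₀ * ∑ u ∈ P', ∫ y, c (rp u • y) ∂ω)
    (B ζ : ℝ)
    (hbad : ∀ n, ∃ ω : Measure X, SubM N ω ∧ ζ ≤ ∫ y, (gr2 m c φ n).2 s₀ (s₀⁻¹ • y) ∂ω ∧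
      ∑ u ∈ P', ∫ y, c (rp u • y) ∂ω ≤ B) :
    ∃ ω : Measure X, SubM N ω ∧ (∀ n, ζ ≤ ∫ y, (gr2 m c φ n).2 s₀ (s₀⁻¹ • y) ∂ω) ∧
      ∑ u ∈ P, ∫ y, c (rp u • y) ∂ω ≤ ε₀ * B := by
  have hcont := gr2_cont m c φ c.continuous hφc
  have hsm : ∀ (F : X → ℝ), Continuous F → ∀ g : G, Continuous fun y => F (g • y) :=
    fun F hF g => hF.comp (continuous_const_smul g)
  set p : ℕ → X → ℝ := fun n => (gr2 m c φ n).1 with hp
  set l : ℕ → G → X → ℝ := fun n => (gr2 m c φ n).2 with hl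
  have hpc : ∀ n, Continuous (p n) := fun n => (hcont n).1
  have hlc : ∀ n s, Continuous (l n s) := fun n => (hcont n).2
  have hp0 : ∀ n x, 0 ≤ p n x := fun n => (gr2_nonneg m hc hφ n).1
  have hl0 : ∀ n s x, 0 ≤ l n s x := fun n => (gr2_nonneg m hc hφ n).2
  have hpa : ∀ i j, i ≤ j → ∀ x, p j x ≤ p i x := fun i j h => (gr2_anti m hc hφ h).1
  have hla : ∀ i j, i ≤ j → ∀ s x, l j s x ≤ l i s x := fun i j h => (gr2_anti m hc hφ h).2
  have hp1 : ∀ n x, p n x ≤ 1 := fun n x => (hpa 0 n (Nat.zero_le _) x).trans (hc1 x)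
  have hl1 : ∀ n s x, l n s x ≤ 1 := fun n s x => (hla 0 n (Nat.zero_le _) s x).trans (hφ1 s x)
  have ham : ∀ i, Continuous (amt m c φ i) := fun i =>
    ((hpc i).comp (continuous_const_smul _)).min (hlc i _)
  -- the limit measure
  choose ωn hω1 hω2 hω3 using hbad
  obtain ⟨ω, hω, hlim⟩ := lim_meas N ωn hω1
  have hωfin := hω.fin
  have hωL : ∀ k, ζ ≤ ∫ y, l k s₀ (s₀⁻¹ • y) ∂ω := by
    intro k
    refine hlim ⟨fun y => l k s₀ (s₀⁻¹ • y), hsm _ (hlc k s₀) _⟩ ζ ?_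
    filter_upwards [eventually_ge_atTop k] with n hn
    have hf := (hω1 n).fin
    refine (hω2 n).trans (integral_mono (int_cont _ _ (hsm _ (hlc n s₀) _))
      (int_cont _ _ (hsm _ (hlc k s₀) _)) fun y => hla k n hn s₀ _)
  have hωG : ∑ u ∈ P', ∫ y, c (rp u • y) ∂ω ≤ B := by
    have hGc : Continuous fun y => ∑ u ∈ P', c (rp u • y) :=
      continuous_finsetSum _ fun u _ => hsm _ c.continuous _
    have h1 := hlim (-⟨fun y => ∑ u ∈ P', c (rp u • y), hGc⟩) (-B) (Filter.Eventually.of_forall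
      fun n => by
        have hf := (hω1 n).fin
        have h2 := hω3 n
        rw [← integral_finsetSum _ fun u _ => int_cont _ _ (hsm _ c.continuous _)] at h2
        have h3 : ∫ x, (-⟨fun y => ∑ u ∈ P', c (rp u • y), hGc⟩ : C(X, ℝ)) x ∂(ωn n) =
            -∫ x, ∑ u ∈ P', c (rp u • x) ∂(ωn n) := by
          rw [← integral_neg]
          rfl
        rw [h3]
        linarith)
    have h3 : ∫ x, (-⟨fun y => ∑ u ∈ P', c (rp u • y), hGc⟩ : C(X, ℝ)) x ∂ω =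
        -∫ x, ∑ u ∈ P', c (rp u • x) ∂ω := by
      rw [← integral_neg]
      rfl
    rw [h3, integral_finsetSum _ fun u _ => int_cont _ _ (hsm _ c.continuous _)] at h1
    linarith
  -- the set of the points that have an unserved point in their orbit
  set A : Set X := {y | ∃ h ∈ N, ∀ n, 0 < l n s₀ (s₀⁻¹ • h • y)} with hA
  have hAm : MeasurableSet A := by
    have : A = ⋃ h : N, ⋂ n, {y | 0 < l n s₀ (s₀⁻¹ • (h : G) • y)} := by
      ext y
      simp only [hA, Set.mem_iUnion, Set.mem_iInter, Set.mem_ofPred_eq]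
      constructor
      · rintro ⟨h, hh, h2⟩
        exact ⟨⟨h, hh⟩, h2⟩
      · rintro ⟨⟨h, hh⟩, h2⟩
        exact ⟨h, hh, h2⟩
    rw [this]
    refine MeasurableSet.iUnion fun h => MeasurableSet.iInter fun n => ?_
    exact (isOpen_lt continuous_const
      ((hsm _ (hlc n s₀) s₀⁻¹).comp (continuous_const_smul _))).measurableSet
  have hAi : ∀ h ∈ N, (fun x => h • x) ⁻¹' A = A := by
    intro h hh
    ext y
    constructor
    · rintro ⟨k, hk, h2⟩
      refine ⟨k * h, N.mul_mem hk hh, fun n => ?_⟩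
      rw [mul_smul]
      exact h2 n
    · rintro ⟨k, hk, h2⟩
      refine ⟨k * h⁻¹, N.mul_mem hk (N.inv_mem hh), fun n => ?_⟩
      show 0 < l n s₀ (s₀⁻¹ • (k * h⁻¹) • h • y)
      rw [mul_smul k, inv_smul_smul]
      exact h2 n
  set ω' : Measure X := ω.restrict A with hω'
  have hωi : InvM N ω' := by
    intro h hh
    have hgm : Measurable (fun x : X => h • x) := (continuous_const_smul h).measurable
    have h1 := Measure.restrict_map (μ := ω) hgm hAm
    rw [hω.inv h hh, hAi h hh] at h1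
    exact h1.symm
  have hωf : IsFiniteMeasure ω' := inferInstance
  have hle' : ∀ (F : X → ℝ), Continuous F → (∀ x, 0 ≤ F x) → ∫ y, F y ∂ω' ≤ ∫ y, F y ∂ω := by
    intro F hF hF0
    exact setIntegral_le_integral (int_cont ω F hF) (ae_of_all _ hF0)
  have hint : ∀ (F : X → ℝ), Continuous F → Integrable F ω' := fun F hF => int_cont ω' F hF
  -- the accounting
  have hacc : ∀ n, ∑ u ∈ P, ∫ y, (c (rp u • y) - p n (rp u • y)) ∂ω' ≤
      ∑ s ∈ S, ∑ v ∈ V, ∫ y, φ s ((s⁻¹ * rp v) • y) ∂ω' := by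
    intro n
    have e1 : ∀ u : G ⧸ N, ∫ y, (c (rp u • y) - p n (rp u • y)) ∂ω' =
        ∑ i ∈ range n, ∫ y, amt m c φ i ((m i).2 • rp u • y) ∂ω' := by
      intro u
      rw [← integral_finsetSum _ fun i _ => hint _ (hsm _ (hsm _ (ham i) _) _)]
      refine integral_congr_ae (ae_of_all _ fun y => ?_)
      exact gr2_sum_one m c φ n (rp u • y)
    have e2 : ∀ (s : G) (v : G ⧸ N), ∫ y, (φ s ((s⁻¹ * rp v) • y) -
        l n s ((s⁻¹ * rp v) • y)) ∂ω' =
        ∑ i ∈ range n, if s = (m i).1 then ∫ y, amt m c φ i ((s⁻¹ * rp v) • y) ∂ω' else 0 := by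
      intro s v
      have e3 : ∀ i ∈ range n, (if s = (m i).1 then
          ∫ y, amt m c φ i ((s⁻¹ * rp v) • y) ∂ω' else 0) =
          ∫ y, (if s = (m i).1 then amt m c φ i ((s⁻¹ * rp v) • y) else 0) ∂ω' := by
        intro i _
        split_ifs
        · rfl
        · simp
      rw [Finset.sum_congr rfl e3, ← integral_finsetSum _ fun i _ => ?_]
      · refine integral_congr_ae (ae_of_all _ fun y => ?_)
        exact gr2_sum_two m c φ n s ((s⁻¹ * rp v) • y)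
      · split_ifs
        · exact hint _ (hsm _ (ham i) _)
        · exact integrable_zero _ _ _
    have e4 : ∑ s ∈ S, ∑ v ∈ V, ∫ y, (φ s ((s⁻¹ * rp v) • y) - l n s ((s⁻¹ * rp v) • y)) ∂ω' ≤
        ∑ s ∈ S, ∑ v ∈ V, ∫ y, φ s ((s⁻¹ * rp v) • y) ∂ω' := by
      refine Finset.sum_le_sum fun s _ => Finset.sum_le_sum fun v _ => ?_
      refine integral_mono (hint _ ((hsm _ (hφc s) _).sub (hsm _ (hlc n s) _)))
        (hint _ (hsm _ (hφc s) _)) fun y => ?_
      exact sub_le_self _ (hl0 _ _ _)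
    refine le_trans ?_ e4
    simp only [e1, e2]
    have e5 : ∑ s ∈ S, ∑ v ∈ V, ∑ i ∈ range n, (if s = (m i).1 then
        ∫ y, amt m c φ i ((s⁻¹ * rp v) • y) ∂ω' else 0) =
        ∑ i ∈ range n, ∑ v ∈ V, ∫ y, amt m c φ i (((m i).1⁻¹ * rp v) • y) ∂ω' := by
      have e6 : ∀ s ∈ S, ∑ v ∈ V, ∑ i ∈ range n, (if s = (m i).1 then
          ∫ y, amt m c φ i ((s⁻¹ * rp v) • y) ∂ω' else 0) = ∑ i ∈ range n, ∑ v ∈ V,
          (if s = (m i).1 then ∫ y, amt m c φ i ((s⁻¹ * rp v) • y) ∂ω' else 0) := fun s _ =>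
        Finset.sum_comm
      rw [Finset.sum_congr rfl e6, Finset.sum_comm]
      refine Finset.sum_congr rfl fun i _ => ?_
      rw [Finset.sum_comm]
      refine Finset.sum_congr rfl fun v _ => ?_
      rw [Finset.sum_eq_single_of_mem (m i).1 (hm1 i).1]
      · rw [if_pos rfl]
      · intro s _ hs
        rw [if_neg hs]
    rw [e5, Finset.sum_comm]
    refine Finset.sum_le_sum fun i _ => ?_
    obtain ⟨_, h, hh, hmi⟩ := hm1 i
    have e7 : ∀ u ∈ P, ∫ y, amt m c φ i ((m i).2 • rp u • y) ∂ω' =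
        ∫ y, amt m c φ i (((m i).1⁻¹ * rp ((h⁻¹ * rp u : G) : G ⧸ N)) • y) ∂ω' := by
      intro u _
      have h1 := int_move2 N ω' hωi (fun x => amt m c φ i ((m i).1⁻¹ • x))
        (hsm _ (ham i) _) (h⁻¹ * rp u)
      have h2 : ∀ y : X, amt m c φ i ((m i).2 • rp u • y) =
          amt m c φ i ((m i).1⁻¹ • (h⁻¹ * rp u) • y) := by
        intro y
        rw [hmi]
        simp only [mul_inv_rev, mul_smul]
      have h3 : ∀ y : X, amt m c φ i (((m i).1⁻¹ * rp ((h⁻¹ * rp u : G) : G ⧸ N)) • y) =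
          amt m c φ i ((m i).1⁻¹ • (Quotient.out ((h⁻¹ * rp u : G) : G ⧸ N) : G) • y) := by
        intro y
        rw [mul_smul]
        rfl
      simp only [h2, h3]
      exact h1
    rw [Finset.sum_congr rfl e7]
    have hinj : Set.InjOn (fun u : G ⧸ N => ((h⁻¹ * rp u : G) : G ⧸ N)) (P : Set (G ⧸ N)) := by
      intro a _ b _ hab
      have h1 : ((h⁻¹ * rp a : G) : G ⧸ N) = ((h⁻¹ * rp b : G) : G ⧸ N) := hab
      rw [QuotientGroup.eq] at h1
      have h2 : (h⁻¹ * rp a)⁻¹ * (h⁻¹ * rp b) = (rp a)⁻¹ * rp b := by group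
      rw [h2, ← QuotientGroup.eq, co_rp, co_rp] at h1
      exact h1
    have e8 : ∑ u ∈ P, ∫ y, amt m c φ i (((m i).1⁻¹ * rp ((h⁻¹ * rp u : G) : G ⧸ N)) • y) ∂ω' =
        ∑ v ∈ P.image (fun u : G ⧸ N => ((h⁻¹ * rp u : G) : G ⧸ N)),
          ∫ y, amt m c φ i (((m i).1⁻¹ * rp v) • y) ∂ω' := by
      rw [Finset.sum_image hinj]
    rw [e8]
    refine Finset.sum_le_sum_of_subset_of_nonneg ?_ fun v _ _ =>
      integral_nonneg fun y => amt_nonneg m hc hφ i _
    intro v hv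
    obtain ⟨u, hu, rfl⟩ := Finset.mem_image.1 hv
    exact hPV h hh u hu
  have hlim1 : Tendsto (fun n => ∑ u ∈ P, ∫ y, p n (rp u • y) ∂ω') atTop (𝓝 0) := by
    have h2 : (0 : ℝ) = ∑ u ∈ P, ∫ _y : X, (0 : ℝ) ∂ω' := by simp
    rw [h2]
    refine tendsto_finsetSum _ fun u hu => ?_
    refine tendsto_integral_of_dominated_convergence (fun _ => (1 : ℝ))
      (fun n => (hsm _ (hpc n) _).aestronglyMeasurable) (integrable_const _)
      (fun n => ae_of_all _ fun y => ?_) ?_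
    · rw [Real.norm_eq_abs, abs_of_nonneg (hp0 n _)]
      exact hp1 n _
    · refine (ae_restrict_iff' hAm).2 (ae_of_all _ fun y hy => ?_)
      obtain ⟨h, hh, h3⟩ := hy
      obtain ⟨i, hi⟩ := hm2 (rp u * h⁻¹) (by
        have h4 : ((rp u * h⁻¹ : G) : G ⧸ N) = (rp u : G) := by
          rw [QuotientGroup.eq]
          simpa using hh
        rw [h4, co_rp]
        exact hu)
      refine tendsto_const_nhds.congr' ?_
      filter_upwards [eventually_ge_atTop (i + 1)] with n hn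
      have h4 := gr2_sat_dual m hc hφ n s₀ (s₀⁻¹ • h • y) (h3 n) i (by omega) (by rw [hi])
      rw [hi] at h4
      simp only [inv_inv, mul_smul, smul_inv_smul, inv_smul_smul] at h4
      exact h4.symm
  have hsum : ∑ u ∈ P, ∫ y, c (rp u • y) ∂ω' ≤
      ∑ s ∈ S, ∑ v ∈ V, ∫ y, φ s ((s⁻¹ * rp v) • y) ∂ω' := by
    have h1 : ∀ n, ∑ u ∈ P, ∫ y, c (rp u • y) ∂ω' ≤
        ∑ s ∈ S, ∑ v ∈ V, ∫ y, φ s ((s⁻¹ * rp v) • y) ∂ω' +
          ∑ u ∈ P, ∫ y, p n (rp u • y) ∂ω' := by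
      intro n
      have h2 := hacc n
      have e1 : ∀ u ∈ P, ∫ y, (c (rp u • y) - p n (rp u • y)) ∂ω' =
          ∫ y, c (rp u • y) ∂ω' - ∫ y, p n (rp u • y) ∂ω' := fun u _ =>
        integral_sub (hint _ (hsm _ c.continuous _)) (hint _ (hsm _ (hpc n) _))
      rw [Finset.sum_congr rfl e1, Finset.sum_sub_distrib] at h2
      linarith
    have h2 := (tendsto_const_nhds (x := ∑ s ∈ S, ∑ v ∈ V,
      ∫ y, φ s ((s⁻¹ * rp v) • y) ∂ω')).add hlim1
    rw [add_zero] at h2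
    exact ge_of_tendsto' h2 h1
  have hlim2 : Tendsto (fun n => ∫ y in Aᶜ, l n s₀ (s₀⁻¹ • y) ∂ω) atTop (𝓝 0) := by
    have h2 : (0 : ℝ) = ∫ _y in Aᶜ, (0 : ℝ) ∂ω := by simp
    rw [h2]
    refine tendsto_integral_of_dominated_convergence (fun _ => (1 : ℝ))
      (fun n => (hsm _ (hlc n s₀) _).aestronglyMeasurable) (integrable_const _)
      (fun n => ae_of_all _ fun y => ?_) ?_
    · rw [Real.norm_eq_abs, abs_of_nonneg (hl0 n _ _)]
      exact hl1 n _ _
    · refine (ae_restrict_iff' hAm.compl).2 (ae_of_all _ fun y hy => ?_)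
      have h3 : ∃ n, l n s₀ (s₀⁻¹ • y) ≤ 0 := by
        by_contra hcon
        push Not at hcon
        exact hy ⟨1, N.one_mem, fun n => by rw [one_smul]; exact hcon n⟩
      obtain ⟨n₀, hn₀⟩ := h3
      refine tendsto_const_nhds.congr' ?_
      filter_upwards [eventually_ge_atTop n₀] with n hn
      exact le_antisymm (hl0 n _ _) ((hla _ _ hn _ _).trans hn₀)
  refine ⟨ω', ⟨hωf, ?_, hωi⟩, fun k => ?_, ?_⟩
  · have h1 : ω'.real Set.univ ≤ ω.real Set.univ := by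
      rw [hω', measureReal_restrict_apply_univ]
      exact measureReal_mono (Set.subset_univ _)
    exact h1.trans hω.mass
  · have h1 : ∀ n, ζ - ∫ y in Aᶜ, l n s₀ (s₀⁻¹ • y) ∂ω ≤ ∫ y, l n s₀ (s₀⁻¹ • y) ∂ω' := by
      intro n
      have h2 := integral_add_compl hAm (int_cont ω _ (hsm _ (hlc n s₀) s₀⁻¹))
      have h3 := hωL n
      linarith
    have h2 : ∀ n, k ≤ n → ζ - ∫ y in Aᶜ, l n s₀ (s₀⁻¹ • y) ∂ω ≤
        ∫ y, l k s₀ (s₀⁻¹ • y) ∂ω' := by
      intro n hn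
      refine (h1 n).trans (integral_mono (hint _ (hsm _ (hlc n s₀) _))
        (hint _ (hsm _ (hlc k s₀) _)) fun y => hla k n hn s₀ _)
    have h3 := (tendsto_const_nhds (x := ζ)).sub hlim2
    rw [sub_zero] at h3
    exact le_of_tendsto h3 (by
      filter_upwards [eventually_ge_atTop k] with n hn
      exact h2 n hn)
  · refine hsum.trans ((hpush ω' hωf hωi).trans (mul_le_mul_of_nonneg_left ?_ hε₀))
    refine le_trans (Finset.sum_le_sum fun u _ => ?_) hωG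
    exact hle' _ (hsm _ c.continuous _) fun x => hc _

end Pool.Agent.Helper277_FF
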