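import Pool.Agent.Helper277_FF.Flow
import Pool.Agent.Helper277_FF.Meas

set_option autoImplicit false

/-!
# Infinite greedy transports and invariant measures
-/

namespace Pool.Agent.Helper277_FF

open Finset Pool.Agent.H107ZS MeasureTheory Filter Topology

universe u v w

/-- invariance of a measure under a subgroup -/
def InvM {G : Type u} [Group G] {X : Type v} [MeasurableSpace X] [MulAction G X] (H : Subgroup G)
    (ν : Measure X) : Prop :=
  ∀ h ∈ H, ν.map (fun x => h • x) = ν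

/-- the measure of an invariant state is invariant -/
theorem state_inv' {G : Type u} [Group G] {X : Type v} [TopologicalSpace X]
    [CompactSpace X] [TopologicalSpace.MetrizableSpace X] [MeasurableSpace X] [BorelSpace X]
    [MulAction G X] [ContinuousConstSMul G X] (H : Subgroup G) (Λ : C(X, ℝ) →ₗ[ℝ] ℝ)
    (hΛ : InvState H Λ) :
    ∃ ν : Measure X, IsProbabilityMeasure ν ∧ (∀ f : C(X, ℝ), ∫ y, f y ∂ν = Λ f) ∧ InvM H ν := by
  let _ := TopologicalSpace.metrizableSpaceMetric X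
  obtain ⟨ν, hν1, hν⟩ := TMEA.riesz Λ hΛ.one hΛ.nonneg
  refine ⟨ν, hν1, hν, ?_⟩
  intro g hg
  have hgm : Measurable (fun x : X => g • x) := (continuous_const_smul g).measurable
  have hfin : IsFiniteMeasure (ν.map (fun x => g • x)) := Measure.isFiniteMeasure_map _ _
  refine ext_of_forall_integral_eq_of_IsFiniteMeasure fun f => ?_
  rw [integral_map hgm.aemeasurable f.continuous.aestronglyMeasurable]
  have h1 := hν ⟨fun y => f y, f.continuous⟩
  have h2 := hν ((⟨fun y => f y, f.continuous⟩ : C(X, ℝ)).comp (tr g))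
  rw [hΛ.inv g hg, ← h1] at h2
  simp only [ContinuousMap.comp_apply, ContinuousMap.coe_mk, tr] at h2
  exact h2

theorem int_cont {X : Type v} [TopologicalSpace X] [CompactSpace X] [MeasurableSpace X]
    [BorelSpace X] (ω : Measure X) [IsFiniteMeasure ω] (F : X → ℝ) (hF : Continuous F) :
    Integrable F ω := by
  obtain ⟨C, hC⟩ := isCompact_univ.exists_bound_of_continuousOn hF.continuousOn
  exact Integrable.of_bound hF.aestronglyMeasurable C (ae_of_all _ fun x => hC x trivial)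

/-- change of variables -/
theorem int_move {G : Type u} [Group G] {Q : Type w} [Group Q] (q : G →* Q) (σ : Q → G)
    (hσ : ∀ s, q (σ s) = s) {X : Type v} [TopologicalSpace X] [MeasurableSpace X] [BorelSpace X]
    [MulAction G X] [ContinuousConstSMul G X] (ω : Measure X) (hω : InvM q.ker ω) (F : X → ℝ)
    (hF : Continuous F) (g : G) : ∫ y, F (g • y) ∂ω = ∫ y, F (σ (q g) • y) ∂ω := by
  have hker : (σ (q g))⁻¹ * g ∈ q.ker := by
    rw [MonoidHom.mem_ker, map_mul, map_inv, hσ, inv_mul_cancel]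
  have h1 := hω _ hker
  have hgm : Measurable (fun x : X => ((σ (q g))⁻¹ * g) • x) :=
    (continuous_const_smul _).measurable
  have hF2 : Continuous fun y => F (σ (q g) • y) := hF.comp (continuous_const_smul _)
  have h2 : ∫ y, F (σ (q g) • y) ∂ω = ∫ y, F (σ (q g) • y) ∂(ω.map fun x =>
      ((σ (q g))⁻¹ * g) • x) := by rw [h1]
  rw [h2, integral_map hgm.aemeasurable hF2.aestronglyMeasurable]
  refine integral_congr_ae (ae_of_all _ fun y => ?_)
  show F (g • y) = F (σ (q g) • ((σ (q g))⁻¹ * g) • y)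
  rw [← mul_smul, mul_inv_cancel_left]

theorem ph_aux {G : Type u} [Group G] [Countable G] {Q : Type w} [Group Q] (q : G →* Q)
    (σ : Q → G) (hσ : ∀ s, q (σ s) = s) {X : Type v} [TopologicalSpace X] [CompactSpace X]
    [MeasurableSpace X] [BorelSpace X] [MulAction G X] [ContinuousConstSMul G X]
    (W V : Finset Q) (hV1 : 1 ∈ V) (hWV : ∀ u ∈ W, ∀ w ∈ W, w⁻¹ * u ∈ V)
    (m : ℕ → Unit × G) (hm1 : ∀ i, q (m i).2⁻¹ ∈ W) (hm2 : ∀ g, q g ∈ W → ∃ i, (m i).2⁻¹ = g)
    (p c : C(X, ℝ)) (hp : ∀ x, 0 ≤ p x) (hp1 : ∀ x, p x ≤ 1) (hc : ∀ x, 0 ≤ c x)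
    (hc1 : ∀ x, c x ≤ 1)
    (hstar : ∀ ω : Measure X, IsFiniteMeasure ω → InvM q.ker ω →
      ∑ v ∈ V, ∫ y, c (σ v • y) ∂ω ≤ ∑ u ∈ W, ∫ y, p (σ u • y) ∂ω)
    (ν : Measure X) [IsFiniteMeasure ν] (hν : InvM q.ker ν) :
    Tendsto (fun n => ∫ y, (gr2 m p (fun _ => c) n).2 () y ∂ν) atTop (𝓝 0) := by
  classical
  set P : ℕ → X → ℝ := fun n => (gr2 m p (fun _ => c) n).1 with hP
  set S : ℕ → X → ℝ := fun n => (gr2 m p (fun _ => c) n).2 () with hS
  have hcont := gr2_cont m p (fun _ : Unit => c) p.continuous (fun _ => c.continuous)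
  have hPc : ∀ n, Continuous (P n) := fun n => (hcont n).1
  have hSc : ∀ n, Continuous (S n) := fun n => (hcont n).2 ()
  have hc' : ∀ (l : Unit) x, 0 ≤ (fun _ : Unit => (c : X → ℝ)) l x := fun _ => hc
  have hP0 : ∀ n x, 0 ≤ P n x := fun n => (gr2_nonneg m hp hc' n).1
  have hS0 : ∀ n x, 0 ≤ S n x := fun n => (gr2_nonneg m hp hc' n).2 ()
  have hPa : ∀ i j, i ≤ j → ∀ x, P j x ≤ P i x := fun i j h => (gr2_anti m hp hc' h).1
  have hSa : ∀ i j, i ≤ j → ∀ x, S j x ≤ S i x := fun i j h => (gr2_anti m hp hc' h).2 ()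
  have hP1 : ∀ n x, P n x ≤ 1 := fun n x => (hPa 0 n (Nat.zero_le _) x).trans (hp1 x)
  have hS1 : ∀ n x, S n x ≤ 1 := fun n x => (hSa 0 n (Nat.zero_le _) x).trans (hc1 x)
  have ham : ∀ i, Continuous (amt m p (fun _ : Unit => c) i) := fun i =>
    ((hPc i).comp (continuous_const_smul _)).min (hSc i)
  -- the set of the points that have an unserved point in their orbit
  set A : Set X := {y | ∃ h ∈ q.ker, ∀ n, 0 < S n (h • y)} with hA
  have hAm : MeasurableSet A := by
    have : A = ⋃ h : q.ker, ⋂ n, {y | 0 < S n ((h : G) • y)} := by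
      ext y
      simp only [hA, Set.mem_iUnion, Set.mem_iInter, Set.mem_ofPred_eq]
      constructor
      · rintro ⟨h, hh, h2⟩
        exact ⟨⟨h, hh⟩, h2⟩
      · rintro ⟨⟨h, hh⟩, h2⟩
        exact ⟨h, hh, h2⟩
    rw [this]
    refine MeasurableSet.iUnion fun h => MeasurableSet.iInter fun n => ?_
    exact (isOpen_lt continuous_const ((hSc n).comp (continuous_const_smul _))).measurableSet
  have hAi : ∀ h ∈ q.ker, (fun x => h • x) ⁻¹' A = A := by
    intro h hh
    ext y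
    constructor
    · rintro ⟨k, hk, h2⟩
      refine ⟨k * h, q.ker.mul_mem hk hh, fun n => ?_⟩
      rw [mul_smul]
      exact h2 n
    · rintro ⟨k, hk, h2⟩
      refine ⟨k * h⁻¹, q.ker.mul_mem hk (q.ker.inv_mem hh), fun n => ?_⟩
      show 0 < S n ((k * h⁻¹) • h • y)
      rw [mul_smul, inv_smul_smul]
      exact h2 n
  set ω : Measure X := ν.restrict A with hω
  have hωi : InvM q.ker ω := by
    intro h hh
    have hgm : Measurable (fun x : X => h • x) := (continuous_const_smul h).measurable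
    have h1 := Measure.restrict_map (μ := ν) hgm hAm
    rw [hν h hh, hAi h hh] at h1
    exact h1.symm
  have hωf : IsFiniteMeasure ω := inferInstance
  have hmv := fun (F : X → ℝ) (hF : Continuous F) (g : G) => int_move q σ hσ ω hωi F hF g
  have hint : ∀ (F : X → ℝ), Continuous F → Integrable F ω := fun F hF => int_cont ω F hF
  have hsm : ∀ (F : X → ℝ), Continuous F → ∀ g : G, Continuous fun y => F (g • y) :=
    fun F hF g => hF.comp (continuous_const_smul g)
  -- the accounting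
  have hacc : ∀ n, ∑ u ∈ W, ∫ y, (p (σ u • y) - P n (σ u • y)) ∂ω ≤
      ∑ v ∈ V, ∫ y, (c (σ v • y) - S n (σ v • y)) ∂ω := by
    intro n
    have e1 : ∀ u, ∫ y, (p (σ u • y) - P n (σ u • y)) ∂ω =
        ∑ i ∈ range n, ∫ y, amt m p (fun _ : Unit => c) i ((m i).2 • σ u • y) ∂ω := by
      intro u
      rw [← integral_finsetSum _ fun i _ => hint _ (hsm _ (hsm _ (ham i) _) _)]
      refine integral_congr_ae (ae_of_all _ fun y => ?_)
      exact gr2_sum_one m p (fun _ : Unit => c) n (σ u • y)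
    have e2 : ∀ v, ∫ y, (c (σ v • y) - S n (σ v • y)) ∂ω =
        ∑ i ∈ range n, ∫ y, amt m p (fun _ : Unit => c) i (σ v • y) ∂ω := by
      intro v
      rw [← integral_finsetSum _ fun i _ => hint _ (hsm _ (ham i) _)]
      refine integral_congr_ae (ae_of_all _ fun y => ?_)
      have h1 := gr2_sum_two m p (fun _ : Unit => (c : X → ℝ)) n () (σ v • y)
      simp only [if_true] at h1
      exact h1
    simp only [e1, e2]
    rw [Finset.sum_comm, Finset.sum_comm (s := V)]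
    refine Finset.sum_le_sum fun i _ => ?_
    have e3 : ∀ u ∈ W, ∫ y, amt m p (fun _ : Unit => c) i ((m i).2 • σ u • y) ∂ω =
        ∫ y, amt m p (fun _ : Unit => c) i (σ (q (m i).2 * u) • y) ∂ω := by
      intro u _
      have h1 := hmv _ (ham i) ((m i).2 * σ u)
      rw [map_mul, hσ] at h1
      rw [← h1]
      refine integral_congr_ae (ae_of_all _ fun y => ?_)
      show amt m p (fun _ : Unit => c) i ((m i).2 • σ u • y) =
        amt m p (fun _ : Unit => c) i (((m i).2 * σ u) • y)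
      rw [mul_smul]
    rw [Finset.sum_congr rfl e3]
    have e4 : ∑ u ∈ W, ∫ y, amt m p (fun _ : Unit => c) i (σ (q (m i).2 * u) • y) ∂ω =
        ∑ v ∈ W.image (fun u => q (m i).2 * u),
          ∫ y, amt m p (fun _ : Unit => c) i (σ v • y) ∂ω := by
      rw [Finset.sum_image]
      intro a _ b _ h
      exact mul_left_cancel h
    rw [e4]
    refine Finset.sum_le_sum_of_subset_of_nonneg ?_ fun v _ _ =>
      integral_nonneg fun y => amt_nonneg m hp hc' i _
    intro v hv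
    obtain ⟨u, hu, rfl⟩ := Finset.mem_image.1 hv
    have h1 := hWV u hu _ (hm1 i)
    rw [map_inv, inv_inv] at h1
    exact h1
  have hle : ∀ n, ∫ y, S n y ∂ω ≤ ∑ u ∈ W, ∫ y, P n (σ u • y) ∂ω := by
    intro n
    have h1 := hacc n
    have e1 : ∀ u ∈ W, ∫ y, (p (σ u • y) - P n (σ u • y)) ∂ω =
        ∫ y, p (σ u • y) ∂ω - ∫ y, P n (σ u • y) ∂ω := fun u _ =>
      integral_sub (hint _ (hsm _ p.continuous _)) (hint _ (hsm _ (hPc n) _))
    have e2 : ∀ v ∈ V, ∫ y, (c (σ v • y) - S n (σ v • y)) ∂ω =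
        ∫ y, c (σ v • y) ∂ω - ∫ y, S n (σ v • y) ∂ω := fun u _ =>
      integral_sub (hint _ (hsm _ c.continuous _)) (hint _ (hsm _ (hSc n) _))
    rw [Finset.sum_congr rfl e1, Finset.sum_congr rfl e2, Finset.sum_sub_distrib,
      Finset.sum_sub_distrib] at h1
    have h2 := hstar ω hωf hωi
    have h3 : ∫ y, S n y ∂ω = ∫ y, S n (σ 1 • y) ∂ω := by
      have := hmv _ (hSc n) 1
      rw [map_one] at this
      rw [← this]
      refine integral_congr_ae (ae_of_all _ fun y => ?_)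
      show S n y = S n ((1 : G) • y)
      rw [one_smul]
    have h4 : ∫ y, S n (σ 1 • y) ∂ω ≤ ∑ v ∈ V, ∫ y, S n (σ v • y) ∂ω :=
      Finset.single_le_sum (f := fun v => ∫ y, S n (σ v • y) ∂ω)
        (fun v _ => integral_nonneg fun y => hS0 n _) hV1
    rw [h3]
    linarith
  have hlim1 : Tendsto (fun n => ∫ y, S n y ∂ω) atTop (𝓝 0) := by
    have h1 : Tendsto (fun n => ∑ u ∈ W, ∫ y, P n (σ u • y) ∂ω) atTop (𝓝 0) := by
      have h2 : (0 : ℝ) = ∑ u ∈ W, ∫ _y : X, (0 : ℝ) ∂ω := by simp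
      rw [h2]
      refine tendsto_finsetSum _ fun u hu => ?_
      refine tendsto_integral_of_dominated_convergence (fun _ => (1 : ℝ))
        (fun n => (hsm _ (hPc n) _).aestronglyMeasurable) (integrable_const _)
        (fun n => ae_of_all _ fun y => ?_) ?_
      · rw [Real.norm_eq_abs, abs_of_nonneg (hP0 n _)]
        exact hP1 n _
      · refine (ae_restrict_iff' hAm).2 (ae_of_all _ fun y hy => ?_)
        obtain ⟨h, hh, h3⟩ := hy
        obtain ⟨i, hi⟩ := hm2 (σ u * h⁻¹) (by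
          rw [map_mul, hσ, map_inv, MonoidHom.mem_ker.1 hh, inv_one, mul_one]
          exact hu)
        refine tendsto_const_nhds.congr' ?_
        filter_upwards [eventually_ge_atTop (i + 1)] with n hn
        have h4 := gr2_sat_dual m hp hc' n () (h • y) (h3 n) i (by omega) rfl
        rw [hi, ← mul_smul, inv_mul_cancel_right] at h4
        exact h4.symm
    exact squeeze_zero (fun n => integral_nonneg fun y => hS0 n _) hle h1
  have hlim2 : Tendsto (fun n => ∫ y in Aᶜ, S n y ∂ν) atTop (𝓝 0) := by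
    have h2 : (0 : ℝ) = ∫ _y in Aᶜ, (0 : ℝ) ∂ν := by simp
    rw [h2]
    refine tendsto_integral_of_dominated_convergence (fun _ => (1 : ℝ))
      (fun n => (hSc n).aestronglyMeasurable) (integrable_const _)
      (fun n => ae_of_all _ fun y => ?_) ?_
    · rw [Real.norm_eq_abs, abs_of_nonneg (hS0 n _)]
      exact hS1 n _
    · refine (ae_restrict_iff' hAm.compl).2 (ae_of_all _ fun y hy => ?_)
      have h3 : ∃ n, S n y ≤ 0 := by
        by_contra hcon
        push Not at hcon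
        exact hy ⟨1, q.ker.one_mem, fun n => by rw [one_smul]; exact hcon n⟩
      obtain ⟨n₀, hn₀⟩ := h3
      refine tendsto_const_nhds.congr' ?_
      filter_upwards [eventually_ge_atTop n₀] with n hn
      exact le_antisymm (hS0 n y) ((hSa _ _ hn y).trans hn₀)
  have hsum : ∀ n, ∫ y, S n y ∂ν = ∫ y, S n y ∂ω + ∫ y in Aᶜ, S n y ∂ν := fun n =>
    (integral_add_compl hAm (int_cont ν _ (hSc n))).symm
  have h5 := hlim1.add hlim2
  rw [add_zero] at h5
  refine h5.congr fun n => ?_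
  exact (hsum n).symm

/-- transport whose leftover has small averages over the kernel of `q` -/
theorem ph {G : Type u} [Group G] [Countable G] {Q : Type w} [Group Q] (q : G →* Q)
    (σ : Q → G) (hσ : ∀ s, q (σ s) = s) {X : Type u} [TopologicalSpace X] [CompactSpace X]
    [TopologicalSpace.MetrizableSpace X] [Nonempty X]
    [MeasurableSpace X] [BorelSpace X] [MulAction G X] [ContinuousConstSMul G X]
    (W V : Finset Q) (hW : W.Nonempty) (hWV : ∀ u ∈ W, ∀ w ∈ W, w⁻¹ * u ∈ V)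
    (p c : C(X, ℝ)) (hp : ∀ x, 0 ≤ p x) (hp1 : ∀ x, p x ≤ 1) (hc : ∀ x, 0 ≤ c x)
    (hc1 : ∀ x, c x ≤ 1)
    (hstar : ∀ ω : Measure X, IsFiniteMeasure ω → InvM q.ker ω →
      ∑ v ∈ V, ∫ y, c (σ v • y) ∂ω ≤ ∑ u ∈ W, ∫ y, p (σ u • y) ∂ω) (ζ : ℝ) (hζ : 0 < ζ) :
    ∃ r : C(X, ℝ), (∀ x, 0 ≤ r x) ∧ (∀ x, r x ≤ 1) ∧
      (∃ (K : Finset G) (ε : ℝ), (K : Set G) ⊆ q.ker ∧ 0 < ε ∧
        ∀ F : Finset G, (F : Set G) ⊆ q.ker → Fol K ε F → ∀ y, ∑ b ∈ F, r (b • y) ≤ ζ * F.card) ∧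
      SubEq G {z | c z = 1 ∧ r z ≤ 1 / 2} {x | 0 < p x} := by
  classical
  obtain ⟨w₀, hw₀⟩ := hW
  have hV1 : (1 : Q) ∈ V := by
    have := hWV w₀ hw₀ w₀ hw₀
    rwa [inv_mul_cancel] at this
  have hne : Nonempty {g : G // q g ∈ W} := ⟨⟨σ w₀, by rw [hσ]; exact hw₀⟩⟩
  obtain ⟨e, he⟩ := exists_surjective_nat {g : G // q g ∈ W}
  let m : ℕ → Unit × G := fun i => ((), (e i : G)⁻¹)
  have hm1 : ∀ i, q (m i).2⁻¹ ∈ W := by
    intro i
    show q ((e i : G)⁻¹)⁻¹ ∈ W
    rw [inv_inv]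
    exact (e i).2
  have hm2 : ∀ g, q g ∈ W → ∃ i, (m i).2⁻¹ = g := by
    intro g hg
    obtain ⟨i, hi⟩ := he ⟨g, hg⟩
    refine ⟨i, ?_⟩
    show ((e i : G)⁻¹)⁻¹ = g
    rw [inv_inv, hi]
  have hcont := gr2_cont m p (fun _ : Unit => c) p.continuous (fun _ => c.continuous)
  have hc' : ∀ (l : Unit) x, 0 ≤ (fun _ : Unit => (c : X → ℝ)) l x := fun _ => hc
  let S : ℕ → C(X, ℝ) := fun n => ⟨(gr2 m p (fun _ => c) n).2 (), (hcont n).2 ()⟩
  have hSd : ∀ n x, S n x = (gr2 m p (fun _ => c) n).2 () x := fun n x => rfl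
  let φ : ℕ → C(X, ℝ) := fun n => ζ • (1 : C(X, ℝ)) - S n
  have hφ : ∀ n x, φ n x = ζ - S n x := by
    intro n x
    show ζ * 1 - S n x = _
    rw [mul_one]
  obtain ⟨n, K, ε, γ, hK, hε, hγ, hF⟩ := t_KL G X q.ker φ (by
    intro n y
    rw [hφ, hφ, hSd, hSd]
    have := (gr2_succ m hp hc' n).2 () y
    linarith) (by
    intro Λ hΛ
    obtain ⟨ν, hν1, hν, hinv⟩ := state_inv' q.ker Λ hΛ
    have h1 := ph_aux q σ hσ W V hV1 hWV m hm1 hm2 p c hp hp1 hc hc1 hstar ν hinv
    obtain ⟨n, hn⟩ := (h1.eventually (gt_mem_nhds hζ)).exists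
    refine ⟨n, ?_⟩
    have h2 : Λ (φ n) = ζ - ∫ y, S n y ∂ν := by
      show Λ (ζ • (1 : C(X, ℝ)) - S n) = _
      rw [map_sub, map_smul, hΛ.one, hν (S n), smul_eq_mul, mul_one]
    rw [h2]
    have h3 : ∫ y, S n y ∂ν < ζ := hn
    linarith)
  refine ⟨S n, (gr2_nonneg m hp hc' n).2 (), fun x => ?_, ⟨K, ε, hK, hε, fun F hF' hFol y => ?_⟩,
    ?_⟩
  · exact ((gr2_anti m hp hc' (Nat.zero_le n)).2 () x).trans (hc1 x)
  · have h1 := hF F hF' hFol y
    have h2 : ∑ s ∈ F, φ n (s • y) = ζ * F.card - ∑ s ∈ F, S n (s • y) := by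
      simp only [hφ]
      rw [Finset.sum_sub_distrib, Finset.sum_const, nsmul_eq_mul, mul_comm]
    rw [h2] at h1
    have h3 : 0 ≤ γ * F.card := by positivity
    linarith
  · refine (greedy_half m p (fun _ => c) hp hp1 hc' p.continuous (fun _ => c.continuous) n).mono
      ?_ subset_rfl
    rintro z ⟨h1, h2⟩
    exact ⟨(), h1, h2⟩

end Pool.Agent.Helper277_FF
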