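import Pool.Agent.Helper277_FF.Rem

set_option autoImplicit false

/-!
# Small remainders, second part
-/

namespace Pool.Agent.Helper277_FF

open Finset Pool.Agent.H107ZS

universe u v w z

section

variable {G : Type u} [Group G] {Q : Type w} [Group Q] {q : G →* Q}
  {X : Type v} [TopologicalSpace X] [MulAction G X] [ContinuousConstSMul G X]
  {X' : Type z} [TopologicalSpace X'] [MulAction Q X'] {π : X → X'}

/-- the kernel of `q` is locally finite -/
def LocFinKer (q : G →* Q) : Prop :=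
  ∀ F : Finset G, (∀ g ∈ F, q g = 1) →
    ∃ H : Subgroup G, Finite H ∧ (∀ h ∈ H, q h = 1) ∧ ∀ g ∈ F, g ∈ H

omit [TopologicalSpace X] [ContinuousConstSMul G X] in
/-- the counting of the returns -/
theorem count_returns (σ : Q → G) (hσ : ∀ s, q (σ s) = s) (H : Subgroup G) [Finite H]
    (hH : ∀ h ∈ H, q h = 1) (E : Finset G) (C : ℕ) (r : ℕ → Q)
    (hr : ∀ k l, ∀ e ∈ E, q e * r k = q e * r l → k = l) (S : Finset Q)
    (hS : ∀ e ∈ E, ∀ k < C, q e * r k ∈ S)
    (hHm : ∀ e ∈ E, ∀ k < C, (σ (q e * r k))⁻¹ * (e * σ (r k)) ∈ H)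
    (b : X → ℝ) (hb : ∀ x, 0 ≤ b x) (hE : ∀ x, ∃ e ∈ E, b (e • x) = 1) (y : X) :
    (C : ℝ) * Nat.card H ≤ E.card * ∑ t ∈ shape σ H S, b (t • y) := by
  classical
  set Hf : Finset G := (Set.toFinite (H : Set G)).toFinset with hHf
  have hHfm : ∀ h, h ∈ Hf ↔ h ∈ H := fun h => by
    rw [hHf, Set.Finite.mem_toFinset]; rfl
  have hHc : Hf.card = Nat.card H := by
    rw [hHf, ← Set.ncard_eq_toFinset_card (H : Set G) (Set.toFinite _), ← Nat.card_coe_set_eq]
    rfl
  have h1 : ∀ e ∈ E, ∑ p ∈ range C ×ˢ Hf, b ((e * σ (r p.1) * p.2) • y) ≤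
      ∑ t ∈ shape σ H S, b (t • y) := by
    intro e he
    have hinj : Set.InjOn (fun p : ℕ × G => e * σ (r p.1) * p.2) (range C ×ˢ Hf : Finset _) := by
      rintro ⟨k, h⟩ hp ⟨k', h'⟩ hp' heq
      rw [Finset.mem_coe, Finset.mem_product, hHfm] at hp hp'
      have h2 := congrArg q heq
      simp only [map_mul, hσ, hH h hp.2, hH h' hp'.2, mul_one] at h2
      have h3 := hr k k' e he h2
      subst h3
      simp only [mul_right_inj] at heq
      rw [heq]
    rw [← Finset.sum_image (f := fun t => b (t • y)) hinj]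
    refine Finset.sum_le_sum_of_subset_of_nonneg ?_ fun _ _ _ => hb _
    intro t ht
    obtain ⟨⟨k, h⟩, hp, rfl⟩ := Finset.mem_image.1 ht
    rw [Finset.mem_product, hHfm, Finset.mem_range] at hp
    have h2 : q (e * σ (r k) * h) = q e * r k := by rw [map_mul, map_mul, hσ, hH h hp.2, mul_one]
    refine (mem_shape hσ hH).2 ?_
    show q (e * σ (r k) * h) ∈ S ∧ (σ (q (e * σ (r k) * h)))⁻¹ * (e * σ (r k) * h) ∈ H
    rw [h2]
    refine ⟨hS e he k hp.1, ?_⟩
    rw [← mul_assoc]
    exact H.mul_mem (hHm e he k hp.1) hp.2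
  have h2 := Finset.sum_le_sum h1
  rw [Finset.sum_const, nsmul_eq_mul, Finset.sum_comm] at h2
  refine le_trans ?_ h2
  have h3 : ∀ p ∈ range C ×ˢ Hf, (1 : ℝ) ≤ ∑ e ∈ E, b ((e * σ (r p.1) * p.2) • y) := by
    intro p _
    obtain ⟨e, he, h4⟩ := hE (σ (r p.1) • p.2 • y)
    refine le_trans (le_of_eq ?_) (Finset.single_le_sum
      (f := fun e => b ((e * σ (r p.1) * p.2) • y)) (fun _ _ => hb _) he)
    rw [mul_smul, mul_smul]
    exact h4.symm
  refine le_trans (le_of_eq ?_) (Finset.sum_le_sum h3)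
  rw [Finset.sum_const, Finset.card_product, hHc, Finset.card_range, nsmul_eq_mul, mul_one]
  push_cast
  rfl

theorem remainder [Infinite Q] [CompactSpace X] [T2Space X] [Nonempty X'] [T2Space X']
    [ContinuousConstSMul Q X'] (hπ : Continuous π) (heq : ∀ (g : G) x, π (g • x) = q g • π x)
    (σ : Q → G) (hσ : ∀ s, q (σ s) = s) (hlf : LocFinKer q) (hf : FreeAct Q X')
    (hm : MinAct G X) (V₀ : Set X) (hV₀ : IsOpen V₀) (hne : V₀.Nonempty) (M : ℕ) :
    ∃ W : Set X', IsOpen W ∧ W.Nonempty ∧ ∀ R : Set X', MSub Q M R W → SubEq G (π ⁻¹' R) V₀ := by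
  classical
  obtain ⟨x₀, hx₀⟩ := hne
  obtain ⟨f, hf0, hf1, hf01⟩ := exists_continuous_zero_one_of_isClosed (hV₀.isClosed_compl)
    (isClosed_singleton (x := x₀)) (Set.disjoint_singleton_right.2 (fun h => h hx₀))
  let b : C(X, ℝ) := ⟨fun x => min (2 * f x) 1,
    (continuous_const.mul f.continuous).min continuous_const⟩
  have hbd : ∀ x, b x = min (2 * f x) 1 := fun x => rfl
  have hb0 : ∀ x, 0 ≤ b x := fun x => by
    rw [hbd]
    exact le_min (by have := (hf01 x).1; linarith) zero_le_one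
  have hb1 : ∀ x, b x ≤ 1 := fun x => min_le_right _ _
  have hbV : ∀ x, 0 < b x → x ∈ V₀ := by
    intro x hx
    by_contra hcon
    have h1 : f x = 0 := hf0 hcon
    rw [hbd, h1] at hx
    norm_num at hx
  have hx₀f : f x₀ = 1 := hf1 rfl
  obtain ⟨E, hE⟩ := Fin3.ret hm {x | 1 / 2 < f x} (isOpen_lt continuous_const f.continuous)
    ⟨x₀, by show 1 / 2 < f x₀; rw [hx₀f]; norm_num⟩
  have hEb : ∀ x, ∃ e ∈ E, b (e • x) = 1 := by
    intro x
    obtain ⟨e, he, h1⟩ := hE x
    refine ⟨e, he, ?_⟩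
    have h1' : 1 / 2 < f (e • x) := h1
    rw [hbd]
    exact min_eq_right (by linarith)
  have hEne : 0 < E.card := by
    obtain ⟨e, he, _⟩ := hE x₀
    exact Finset.card_pos.2 ⟨e, he⟩
  obtain ⟨z, hz⟩ := exists_far (insert 1 (E.image q))
  set C := M * E.card + 1 with hC
  set S₁ : Finset Q := (range M).image z with hS₁
  set S₂ : Finset Q := (E ×ˢ range C).image fun p => q p.1 * z (M + p.2) with hS₂
  set S := S₁ ∪ S₂ with hS
  obtain ⟨H, hHfin, hH, hHm⟩ := hlf ((E ×ˢ range C).image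
    fun p => (σ (q p.1 * z (M + p.2)))⁻¹ * (p.1 * σ (z (M + p.2)))) (by
    intro g hg
    obtain ⟨p, _, rfl⟩ := Finset.mem_image.1 hg
    rw [map_mul, map_inv, hσ, map_mul, hσ, inv_mul_cancel])
  obtain ⟨W, hW, hWne, hWd⟩ := exists_small hf S
  refine ⟨W, hW, hWne, fun R hR => ?_⟩
  obtain ⟨n, c, g, U, hU, hRU, hUW, hUd⟩ := hR
  have hzS : ∀ k < M, z k ∈ S := fun k hk =>
    Finset.mem_union_left _ (Finset.mem_image.2 ⟨k, Finset.mem_range.2 hk, rfl⟩)
  have step1 : SubEq G (π ⁻¹' R) {x | ∃ k < M, (z k)⁻¹ • π x ∈ W} := by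
    refine pack (ι := Fin n) (fun i => π ⁻¹' U i) (fun i => σ (z (c i) * g i)) ?_ ?_ ?_ ?_
    · exact fun i => (hU i).preimage hπ
    · exact fun x hx => hRU (π x) hx
    · intro i x hx
      refine ⟨c i, (c i).2, ?_⟩
      rw [heq, hσ, mul_smul, inv_smul_smul]
      exact hUW i _ hx
    · intro i j x hx x' hx' he
      by_contra hij
      have h1 := congrArg π he
      rw [heq, heq, hσ, hσ, mul_smul, mul_smul] at h1
      have h2 := hWd _ (hzS _ (c i).2) _ (hzS _ (c j).2) _ (hUW i _ hx) _ (hUW j _ hx') h1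
      have h3 : (c i : ℕ) = c j := hz _ _ 1 (Finset.mem_insert_self _ _) 1
        (Finset.mem_insert_self _ _) (by rw [h2])
      rw [h2] at h1
      exact hUd i j hij (Fin.ext h3) _ hx _ hx' (smul_left_cancel _ h1)
  have hL : Levels (fun _ : Fin 1 => S) (fun _ => W) := by
    intro j j' s s' hs hs' x hx x' hx' he
    exact ⟨Subsingleton.elim _ _, hWd s hs s' hs' x hx x' hx' he⟩
  have hEH : ∀ e ∈ E, ∀ k < C,
      (σ (q e * z (M + k)))⁻¹ * (e * σ (z (M + k))) ∈ H := by
    intro e he k hk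
    exact hHm _ (Finset.mem_image.2 ⟨(e, k), Finset.mem_product.2 ⟨he, Finset.mem_range.2 hk⟩, rfl⟩)
  have step2 := cell hπ heq H hH σ hσ (m := 1) (fun _ => S) (fun _ => W) (fun _ => hW) hL
    (fun _ s => if s ∈ S₁ then 1 else 0) b (by
      intro j s x
      split_ifs
      · exact zero_le_one
      · exact le_rfl) hb0 hb1 (by
      intro j y _
      have h1 : ∑ t ∈ shape σ H S, (if q t ∈ S₁ then (1 : C(X, ℝ)) else 0) (t • y) ≤
          (M : ℝ) * Nat.card H := by
        have e1 : ∀ t, (if q t ∈ S₁ then (1 : C(X, ℝ)) else 0) (t • y) =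
            if q t ∈ S₁ then (1 : ℝ) else 0 := by
          intro t
          split_ifs <;> rfl
        rw [Finset.sum_congr rfl fun t _ => e1 t, ← Finset.sum_filter, Finset.sum_const,
          nsmul_eq_mul, mul_one]
        have h2 : ((shape σ H S).filter fun t => q t ∈ S₁) ⊆ shape σ H S₁ := by
          intro t ht
          rw [Finset.mem_filter] at ht
          exact (mem_shape hσ hH).2 ⟨ht.2, ((mem_shape hσ hH).1 ht.1).2⟩
        have h3 := Finset.card_le_card h2
        rw [card_shape hσ hH] at h3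
        have h4 : S₁.card ≤ M := Finset.card_image_le.trans (le_of_eq (Finset.card_range M))
        have h5 := h3.trans (Nat.mul_le_mul_right (Nat.card H) h4)
        exact_mod_cast h5
      refine lt_of_le_of_lt h1 ?_
      have h2 := count_returns σ hσ H hH E C (fun k => z (M + k)) (by
        intro k l e he h
        have := hz _ _ (q e) (Finset.mem_insert_of_mem (Finset.mem_image_of_mem _ he)) (q e)
          (Finset.mem_insert_of_mem (Finset.mem_image_of_mem _ he)) h
        omega) S (by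
        intro e he k hk
        exact Finset.mem_union_right _ (Finset.mem_image.2 ⟨(e, k),
          Finset.mem_product.2 ⟨he, Finset.mem_range.2 hk⟩, rfl⟩)) hEH b hb0 hEb y
      have hEc : (0 : ℝ) < E.card := by exact_mod_cast hEne
      have hHc : (0 : ℝ) < Nat.card H := by exact_mod_cast Nat.card_pos
      refine lt_of_mul_lt_mul_left (lt_of_lt_of_le ?_ h2) hEc.le
      rw [hC]
      push_cast
      nlinarith)
  refine step1.trans (step2.mono ?_ fun x hx => hbV x hx)
  rintro x ⟨k, hk, hx⟩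
  refine ⟨0, z k, hzS k hk, hx, ?_⟩
  have : z k ∈ S₁ := Finset.mem_image.2 ⟨k, Finset.mem_range.2 hk, rfl⟩
  rw [if_pos this]
  rfl

end

end Pool.Agent.Helper277_FF
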