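import Pool.Agent.Helper277_FF.FreeExt2

set_option autoImplicit false

/-!
# Comparison from towers, modulo a normal subgroup of locally polynomial growth
-/

namespace Pool.Agent.Helper277_FF

open Finset Pool.Agent.H107ZS Pool.Agent.Helper277_DC Pointwise

universe u v w

/-- towers for the finite set `D`, with `M` copies -/
def HasTowers {G : Type u} [Group G] (B : Subgroup G) (D : Finset G) (M : ℕ) : Prop :=
  ∃ (k : ℕ) (t : Fin k × Fin M → G) (A : Fin k × Fin M → Set G)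
    (P : (Fin k × Fin M) × G → Set G) (cls : G → G), 0 < k ∧
    (∀ d ∈ D, ∀ r, ∀ f ∈ B, ∀ h ∈ A r, d * t r * f * h ∈ P (r, cls d)) ∧
    (∀ d ∈ D, ∀ d' ∈ D, ∀ r r', (r, cls d) ≠ (r', cls d') →
      Disjoint (P (r, cls d)) (P (r', cls d'))) ∧
    (∀ (h : G) (χ : Fin M), 3 * k ≤ 4 * Nat.card {κ : Fin k // h ∈ A (κ, χ)}) ∧
    ∀ d ∈ D, ∀ d' ∈ D, cls d = cls d' → ∃ b ∈ B, ∃ l : G, (∀ r, l * t r = t r * l) ∧
      (∀ f ∈ B, l * f = f * l) ∧ d'⁻¹ * d = b * l

open Classical in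
theorem tower_ext {G X : Type} [Group G] [TopologicalSpace X] [CompactSpace X] [T2Space X]
    [MulAction G X] [ContinuousConstSMul G X] (B : Subgroup G) [B.Normal]
    (hPG : ∀ E : Finset G, (∀ e ∈ E, e ∈ B) →
      ∃ C d : ℕ, ∀ n : ℕ, ((E : Set G) ^ n).ncard ≤ C * (n + 1) ^ d)
    (htow : ∀ (D : Finset G) (M : ℕ), 0 < M → HasTowers B D M)
    (hfree : FreeAct G X) (hmin : MinAct G X) (ham : TopAmC G X)
    (V : Set X) (hV : IsOpen V) (hVne : V.Nonempty) : SubEq G Set.univ V := by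
  obtain ⟨b, D, hb0, hb1, hbV, hDne, hD⟩ := exists_return hmin V hV hVne
  have hDc : 0 < D.card := hDne.card_pos
  set M : ℕ := D.card * (2 * D.card ^ 2 + 1) with hM
  have hMpos : 0 < M := by positivity
  obtain ⟨k₀, t, A, Ps, cls, hk₀, hmove, hP, hcardA, hcls⟩ := htow D M hMpos
  -- classes
  have hbl : ∀ g : G, ∃ bl : G × G, bl.1 ∈ B ∧
      ((∀ r, bl.2 * t r = t r * bl.2) ∧ (∀ f ∈ B, bl.2 * f = f * bl.2)) ∧
      ((∃ d ∈ D, ∃ d' ∈ D, cls d = cls d' ∧ d'⁻¹ * d = g) → g = bl.1 * bl.2) := by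
    intro g
    by_cases h : ∃ d ∈ D, ∃ d' ∈ D, cls d = cls d' ∧ d'⁻¹ * d = g
    · obtain ⟨d, hd, d', hd', h1, h2⟩ := h
      obtain ⟨b₁, hb₁, l, h3, h4, h5⟩ := hcls d hd d' hd' h1
      exact ⟨(b₁, l), hb₁, ⟨h3, h4⟩, fun _ => by rw [← h2, h5]⟩
    · exact ⟨(1, 1), B.one_mem, ⟨fun _ => by rw [one_mul, mul_one],
        fun _ _ => by rw [one_mul, mul_one]⟩, fun h' => absurd h' h⟩
  choose bl hbl1 hbl2 hbl3 using hbl
  set E' : Finset G := ((univ : Finset (Fin k₀ × Fin M)) ×ˢ D ×ˢ D).image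
    fun r => (t r.1)⁻¹ * (bl (r.2.1⁻¹ * r.2.2)).1 * t r.1 with hE'
  set L₀ : Finset G := (D ×ˢ D).image fun r => (bl (r.1⁻¹ * r.2)).2 with hL₀
  have hL₀c : L₀.card ≤ D.card ^ 2 := by
    refine Finset.card_image_le.trans ?_
    rw [Finset.card_product, sq]
  have hE1 : ∀ e ∈ E', e ∈ B := by
    intro e he
    obtain ⟨r, _, rfl⟩ := Finset.mem_image.1 he
    have h1 := (inferInstance : B.Normal).conj_mem _ (hbl1 (r.2.1⁻¹ * r.2.2)) (t r.1)⁻¹
    rwa [inv_inv] at h1
  set S₀ : Finset G := E' ∪ E'⁻¹ ∪ {1} with hS₀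
  have hS1 : ∀ e ∈ S₀, e ∈ B := by
    intro e he
    rw [hS₀, Finset.mem_union, Finset.mem_union] at he
    rcases he with (he | he) | he
    · exact hE1 e he
    · have := hE1 _ (Finset.mem_inv'.1 he)
      rwa [inv_mem_iff] at this
    · rw [Finset.mem_singleton.1 he]
      exact B.one_mem
  have hSpow : ∀ n : ℕ, ∀ g ∈ S₀ ^ n, g ∈ B := by
    intro n
    induction n with
    | zero =>
      intro g hg
      rw [pow_zero, Finset.mem_one] at hg
      rw [hg]
      exact B.one_mem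
    | succ n ih =>
      intro g hg
      rw [pow_succ] at hg
      obtain ⟨x, hx, y, hy, rfl⟩ := Finset.mem_mul.1 hg
      exact B.mul_mem (ih x hx) (hS1 y hy)
  have h1S : (1 : G) ∈ S₀ := Finset.mem_union_right _ (Finset.mem_singleton_self _)
  have hSinv : S₀⁻¹ = S₀ := by
    rw [hS₀]
    exact sym_union E'
  obtain ⟨Cg, dg, hgr⟩ := hPG S₀ hS1
  obtain ⟨C₁, hC₁, hsets⟩ := exists_sets S₀ h1S hSinv Cg dg (fun n => by
    have := hgr n
    rw [← Finset.coe_pow, Set.ncard_coe_finset] at this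
    exact this)
  obtain ⟨k, hk⟩ := exists_nat_gt (2 * (C₁ ^ 2 * (L₀.card : ℝ) ^ 2) + 1)
  have hq0 : 0 ≤ C₁ ^ 2 * (L₀.card : ℝ) ^ 2 := by positivity
  have hkr : (1 : ℝ) < k := by linarith
  have hk0 : 0 < k := by
    have : (0 : ℝ) < k := by linarith
    exact_mod_cast this
  obtain ⟨F, hFne, hFS, hF1, hF2, hF3, hF4⟩ := hsets (1 / k) (by positivity) (by
    rw [div_le_one (by linarith)]
    exact hkr.le)
  have hFq : ∀ s, ∀ f ∈ F s, f ∈ B := by
    intro s f hf
    obtain ⟨n, hn⟩ := hFS s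
    rw [hn] at hf
    exact hSpow n f hf
  -- the moves
  have hDN : Nonempty D := ⟨⟨hDne.choose, hDne.choose_spec⟩⟩
  set mv : (Fin k₀ × Fin M) × D × G → ((Fin k₀ × Fin M) × G) × G := fun r =>
    ((r.1, cls r.2.1), (r.2.1 : G) * t r.1 * r.2.2) with hmv
  have hne1 : Nonempty (Fin k₀ × Fin M) := ⟨(⟨0, hk₀⟩, ⟨0, hMpos⟩)⟩
  set MM : ℕ → Finset (((Fin k₀ × Fin M) × G) × G) := fun s =>
    ((univ : Finset (Fin k₀ × Fin M)) ×ˢ (univ : Finset D) ×ˢ F s).image mv with hMM
  obtain ⟨m, L, hL0, hLm, hm1, hm2⟩ := exists_concat MM (fun s => by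
    refine Finset.Nonempty.image ?_ _
    exact Finset.univ_nonempty.product (Finset.univ_nonempty.product (hFne s)))
    ((Classical.arbitrary _, 1), 1)
  have hstage : ∀ s i, i < L s → ∃ s' < s, L s' ≤ i ∧ i < L (s' + 1) := by
    intro s
    induction s with
    | zero => intro i hi; rw [hL0] at hi; omega
    | succ s ih =>
      intro i hi
      by_cases h : i < L s
      · obtain ⟨s', hs', h1⟩ := ih i h
        exact ⟨s', by omega, h1⟩
      · exact ⟨s, by omega, by omega, hi⟩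
  -- the field of probability vectors
  obtain ⟨F₁, N, hN0, hNc, hNF, hN1, hNi⟩ := exists_field (X := X)
    ((range (L (k + 1))).image fun i => (m i).2) (1/8) (by norm_num) ham
  set c : (Fin k₀ × Fin M) × G → X → ℝ := fun l z =>
    b z * max 0 (min 1 (8 * mass F₁ N (Ps l) z - 4)) with hc
  have hc0 : ∀ l z, 0 ≤ c l z := fun l z => mul_nonneg (hb0 z) (le_max_left _ _)
  have hc1 : ∀ l z, c l z ≤ 1 := fun l z => mul_le_one₀ (hb1 z) (le_max_left _ _)
    (max_le zero_le_one (min_le_left _ _))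
  have hcc : ∀ l, Continuous (c l) := fun l => b.continuous.mul (continuous_const.max
    (continuous_const.min ((continuous_const.mul (mass_continuous F₁ N hNc _)).sub
      continuous_const)))
  have hcb : ∀ l z, 0 < c l z → z ∈ V ∧ 1 / 2 < mass F₁ N (Ps l) z := by
    intro l z h
    have h1 : 0 < b z := by
      by_contra hcon
      have h2 : b z = 0 := le_antisymm (not_lt.1 hcon) (hb0 z)
      simp only [hc, h2, zero_mul, lt_irrefl] at h
    refine ⟨hbV z h1, ?_⟩
    by_contra hcon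
    have h2 : max 0 (min 1 (8 * mass F₁ N (Ps l) z - 4)) = (0 : ℝ) :=
      max_eq_left ((min_le_right _ _).trans (by linarith))
    simp only [hc, h2, mul_zero, lt_irrefl] at h
  -- only one kind of targets is active at each point
  have hact : ∀ i < L (k + 1), ∀ j < L (k + 1), ∀ z, 0 < c (m i).1 z → 0 < c (m j).1 z →
      (m i).1 = (m j).1 := by
    intro i hi j hj z h1 h2
    obtain ⟨si, _, hsi1, hsi2⟩ := hstage _ i hi
    obtain ⟨sj, _, hsj1, hsj2⟩ := hstage _ j hj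
    obtain ⟨⟨r, d, f⟩, _, hr⟩ := Finset.mem_image.1 (hm1 si i hsi1 hsi2)
    obtain ⟨⟨r', d', f'⟩, _, hr'⟩ := Finset.mem_image.1 (hm1 sj j hsj1 hsj2)
    have e1 : (m i).1 = (r, cls d) := by rw [← hr]
    have e2 : (m j).1 = (r', cls d') := by rw [← hr']
    rw [e1] at h1 ⊢
    rw [e2] at h2 ⊢
    by_contra hne
    have h4 : Disjoint (Ps (r, cls d)) (Ps (r', cls d')) := hP _ d.2 _ d'.2 _ _ hne
    have h5 := mass_disj F₁ N hN0 z (hN1 z) _ _ h4
    have h6 := (hcb _ _ h1).2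
    have h7 := (hcb _ _ h2).2
    linarith
  -- every point is served
  have hz : ∀ x, (gr2 m (fun _ => (1 : ℝ)) c (L (k + 1))).1 x = 0 := by
    refine staged m hc0 L hL0 hLm k F S₀ L₀ ?_ C₁ (1 / k) (by positivity) ?_
      (fun s _ => hFne s) (fun s _ => hF1 s) (fun s _ => hF2 s) (hF3 k) (hF4 k) hk0 ?_ hC₁
    · intro l hl f hf
      obtain ⟨r, hr, rfl⟩ := Finset.mem_image.1 hl
      exact (hbl2 _).2 f (hFq k f hf)
    swap
    · have h1 : C₁ ^ 2 * (L₀.card : ℝ) ^ 2 * (1 / k + 1 / k) =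
          2 * (C₁ ^ 2 * (L₀.card : ℝ) ^ 2) / k := by ring
      rw [h1, div_lt_one (by linarith)]
      linarith
    intro x s hs
    have hFne' : Nonempty (Fin k₀) := ⟨⟨0, hk₀⟩⟩
    have hsum : ∀ χ, ∃ κ, 3 / 4 ≤ mass F₁ N (A (κ, χ)) x := by
      intro χ
      refine exists_heavy F₁ N hN0 x (hN1 x) (fun κ => A (κ, χ)) fun h => ?_
      have h1 := hcardA h χ
      rw [Nat.card_eq_fintype_card, Fintype.card_subtype] at h1
      rw [Fintype.card_fin]
      convert h1
    choose κ hκ using hsum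
    choose dd hdd1 hdd2 using fun (r : Fin M × G) => hD ((t (κ r.1, r.1) * r.2) • x)
    let tg : Fin M × G → ((Fin k₀ × Fin M) × G) × X := fun r =>
      (((κ r.1, r.1), cls (dd r)), (dd r * t (κ r.1, r.1) * r.2) • x)
    set T : Finset (((Fin k₀ × Fin M) × G) × X) :=
      ((univ : Finset (Fin M)) ×ˢ F s).image tg with hT
    have hmem : ∀ r : Fin M × G, r.2 ∈ F s → mv ((κ r.1, r.1), ⟨dd r, hdd1 r⟩, r.2) ∈ MM s := by
      intro r hr
      exact Finset.mem_image.2 ⟨_, Finset.mem_product.2 ⟨Finset.mem_univ _,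
        Finset.mem_product.2 ⟨Finset.mem_univ _, hr⟩⟩, rfl⟩
    refine ⟨T, ?_, ?_, ?_⟩
    · intro τ hτ
      obtain ⟨r, hr, rfl⟩ := Finset.mem_image.1 hτ
      rw [Finset.mem_product] at hr
      obtain ⟨i, hi, hi', hi2⟩ := hm2 s _ (hmem r hr.2)
      refine ⟨i, hi, hi', ?_⟩
      rw [hi2]
    · have hcT : ∀ τ ∈ T, c τ.1 τ.2 = 1 := by
        intro τ hτ
        obtain ⟨r, hr, rfl⟩ := Finset.mem_image.1 hτ
        rw [Finset.mem_product] at hr
        have h1 : b ((dd r * t (κ r.1, r.1) * r.2) • x) = 1 := by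
          rw [mul_assoc, mul_smul]
          exact hdd2 r
        obtain ⟨i, hi, hi', hi2⟩ := hm2 s _ (hmem r hr.2)
        have h2 := mass_push F₁ N hN0 hNF (dd r * t (κ r.1, r.1) * r.2) x (1/8)
          (hNi _ (Finset.mem_image.2 ⟨i, Finset.mem_range.2
            (lt_of_lt_of_le hi' (hLm (by omega))), by rw [hi2]⟩) x) (A (κ r.1, r.1))
          (Ps ((κ r.1, r.1), cls (dd r))) (by
            intro v hv
            have h4 := hmove (dd r) (hdd1 r) _ r.2 (hFq s _ hr.2) _ hv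
            rw [mul_inv_cancel_left] at h4
            exact h4)
        have h4 := hκ r.1
        have h5 : 5 / 8 ≤ mass F₁ N (Ps ((κ r.1, r.1), cls (dd r)))
              ((dd r * t (κ r.1, r.1) * r.2) • x) := by linarith
        show b ((dd r * t (κ r.1, r.1) * r.2) • x) * max 0 (min 1 (8 * mass F₁ N
          (Ps ((κ r.1, r.1), cls (dd r))) ((dd r * t (κ r.1, r.1) * r.2) • x) - 4)) = 1
        rw [h1, min_eq_left (by linarith), max_eq_right zero_le_one, one_mul]
      rw [Finset.sum_congr rfl hcT, Finset.sum_const, nsmul_eq_mul, mul_one]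
      have hT1 : ((univ : Finset (Fin M)) ×ˢ F s).card ≤ D.card * T.card := by
        refine Finset.card_le_mul_card_image _ _ fun τ hτ => ?_
        refine Finset.card_le_card_of_injOn dd (fun r _ => hdd1 r) ?_
        intro r hr r' hr' hrr
        rw [Finset.mem_coe, Finset.mem_filter] at hr hr'
        have h1 : tg r = tg r' := hr.2.trans hr'.2.symm
        have h2 : r.1 = r'.1 := congrArg (fun τ => τ.1.1.2) h1
        have h3 : (dd r * t (κ r.1, r.1) * r.2) • x = (dd r' * t (κ r'.1, r'.1) * r'.2) • x :=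
          congrArg (fun τ => τ.2) h1
        rw [← h2, ← hrr] at h3
        have h4 : (dd r * t (κ r.1, r.1) * r'.2)⁻¹ * (dd r * t (κ r.1, r.1) * r.2) = 1 := by
          refine hfree _ x ?_
          rw [mul_smul, h3, inv_smul_smul]
        have h5 : r'.2 = r.2 := by
          have h6 := inv_mul_eq_one.1 h4
          exact mul_left_cancel h6
        exact Prod.ext h2 h5.symm
      rw [Finset.card_product, Finset.card_univ, Fintype.card_fin] at hT1
      have hL₀r : (2 * (L₀.card : ℝ) + 1) * (F s).card ≤ (2 * (D.card : ℝ) ^ 2 + 1) * (F s).card := by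
        refine mul_le_mul_of_nonneg_right ?_ (Nat.cast_nonneg _)
        have : (L₀.card : ℝ) ≤ (D.card : ℝ) ^ 2 := by exact_mod_cast hL₀c
        linarith
      refine hL₀r.trans ?_
      have h7 : D.card * ((2 * D.card ^ 2 + 1) * (F s).card) ≤ D.card * T.card := by
        rw [← mul_assoc, ← hM]
        exact hT1
      have h8 := Nat.le_of_mul_le_mul_left h7 hDc
      exact_mod_cast h8
    · intro s' _ i hi hi' z hiz
      obtain ⟨r, hr, hrz⟩ := Finset.mem_image.1 hiz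
      obtain ⟨⟨r', d', f'⟩, hr', hmi⟩ := Finset.mem_image.1 (hm1 s' i hi hi')
      rw [Finset.mem_product] at hr
      rw [Finset.mem_product, Finset.mem_product] at hr'
      have e1 : (m i).1 = (r', cls d') := by rw [← hmi]
      have e2 : (m i).2 = (d' : G) * t r' * f' := by rw [← hmi]
      rw [e1] at hrz
      have e3 : (κ r.1, r.1) = r' := congrArg (fun τ => τ.1.1) hrz
      have e4 : cls (dd r) = cls d' := congrArg (fun τ => τ.1.2) hrz
      have e5 : (dd r * t (κ r.1, r.1) * r.2) • x = z := congrArg (fun τ => τ.2) hrz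
      have h8 := (hbl2 ((d' : G)⁻¹ * dd r)).1
      have h8' := (hbl2 ((d' : G)⁻¹ * dd r)).2
      have h9 := hbl3 ((d' : G)⁻¹ * dd r) ⟨dd r, hdd1 r, d', d'.2, e4, rfl⟩
      set h := (d' : G)⁻¹ * dd r with hh
      refine ⟨f'⁻¹ * ((t r')⁻¹ * (bl h).1 * t r') * r.2, ?_, (bl h).2, ?_, ?_⟩
      · refine Finset.mul_mem_mul (Finset.mul_mem_mul (Finset.inv_mem_inv hr'.2.2) ?_) hr.2
        refine Finset.mem_union_left _ (Finset.mem_union_left _ ?_)
        exact Finset.mem_image.2 ⟨(r', (d' : G), dd r), Finset.mem_product.2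
          ⟨Finset.mem_univ _, Finset.mem_product.2 ⟨d'.2, hdd1 r⟩⟩, rfl⟩
      · exact Finset.mem_image.2 ⟨((d' : G), dd r), Finset.mem_product.2 ⟨d'.2, hdd1 r⟩, rfl⟩
      · show (m i).2⁻¹ • z = (f'⁻¹ * ((t r')⁻¹ * (bl h).1 * t r') * r.2 * (bl h).2) • x
        symm
        rw [e2, ← e5, e3, ← mul_smul]
        congr 1
        have h10 : (bl h).2 * t r' = t r' * (bl h).2 := h8 r'
        have h11 : (bl h).2 * r.2 = r.2 * (bl h).2 := h8' _ (hFq s _ hr.2)
        have h12 : dd r = (d' : G) * ((bl h).1 * (bl h).2) := by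
          rw [← h9, hh, mul_inv_cancel_left]
        rw [h12]
        calc f'⁻¹ * ((t r')⁻¹ * (bl h).1 * t r') * r.2 * (bl h).2
            = f'⁻¹ * (t r')⁻¹ * (bl h).1 * t r' * (r.2 * (bl h).2) := by group
          _ = f'⁻¹ * (t r')⁻¹ * (bl h).1 * (t r' * (bl h).2) * r.2 := by rw [← h11]; group
          _ = ((d' : G) * t r' * f')⁻¹ * ((d' : G) * ((bl h).1 * (bl h).2) * t r' * r.2) := by
              rw [← h10]; group
  have hfin := greedy_sub m (fun _ => (1 : ℝ)) c (fun _ => zero_le_one) hc0 hc1 continuous_const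
    hcc (L (k + 1)) hz hact
  refine hfin.mono (fun _ _ => rfl) ?_
  rintro z ⟨i, _, hi⟩
  exact (hcb _ _ hi).1

end Pool.Agent.Helper277_FF
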