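import Pool.Agent.Helper277_FF.TowerExt2
import Pool.Agent.Helper277_FF.Access

set_option autoImplicit false

/-!
# Paradoxical towers modulo a normal subgroup, up to a leftover with small averages
-/

namespace Pool.Agent.Helper277_FF

open Finset Pool.Agent.H107ZS Pool.Agent.Helper277_DC MeasureTheory Filter Topology Pointwise

universe u v w

theorem gr2_cross_half {G : Type u} [Group G] {X : Type v} [MulAction G X] {Λ : Type w}
    [DecidableEq Λ] (m : ℕ → Λ × G) {p : X → ℝ} {c : Λ → X → ℝ} (hp : ∀ x, 0 ≤ p x)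
    (hc : ∀ l x, 0 ≤ c l x) (hc1 : ∀ l x, c l x ≤ 1) (L : ℕ) (x : X)
    (hz : (gr2 m p c L).1 x ≤ 1 / 2)
    (hpx : p x = 1) : ∃ i < L, (gr2 m p c (i + 1)).2 (m i).1 ((m i).2 • x) < 2 ^ i / 2 ^ (L + 1) ∧
      2 ^ i / 2 ^ (L + 1) < (gr2 m p c i).2 (m i).1 ((m i).2 • x) := by
  by_contra hcon
  push Not at hcon
  have hL : (0 : ℝ) < 2 ^ (L + 1) := by positivity
  have key : ∀ i, i ≤ L → 1 - (2 ^ i - 1) / 2 ^ (L + 1) ≤ (gr2 m p c i).1 x := by
    intro i
    induction i with
    | zero =>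
      intro _
      show 1 - (2 ^ 0 - 1) / 2 ^ (L + 1) ≤ p x
      rw [hpx]; norm_num
    | succ i ih =>
      intro hi
      have ih := ih (by omega)
      have hc' := hcon i (by omega)
      obtain ⟨h1, h2⟩ := gr2_nonneg m hp hc i
      have hle : (gr2 m p c i).2 (m i).1 ((m i).2 • x) ≤ 1 :=
        ((gr2_anti m hp hc (Nat.zero_le i)).2 _ _).trans (hc1 _ _)
      rw [gr2_one]
      have e0 : (2 : ℝ) ^ (i + 1) = 2 ^ i + 2 ^ i := by rw [pow_succ]; ring
      have e1 : ((2 : ℝ) ^ (i + 1) - 1) / 2 ^ (L + 1) =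
          (2 ^ i - 1) / 2 ^ (L + 1) + 2 ^ i / 2 ^ (L + 1) := by
        rw [e0]; ring
      rw [e1]
      by_cases h : (gr2 m p c i).2 (m i).1 ((m i).2 • x) ≤ 2 ^ i / 2 ^ (L + 1)
      · have := min_le_right ((gr2 m p c i).1 x) ((gr2 m p c i).2 (m i).1 ((m i).2 • x))
        linarith
      · exfalso
        rw [not_le] at h
        have h5 : 2 ^ i / 2 ^ (L + 1) ≤ (gr2 m p c (i + 1)).2 (m i).1 ((m i).2 • x) := by
          by_contra h6
          rw [not_le] at h6
          exact absurd (hc' h6) (not_le.2 h)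
        rw [gr2_two, if_pos rfl, inv_smul_smul] at h5
        have h7 : (0 : ℝ) < 2 ^ i / 2 ^ (L + 1) := by positivity
        rcases le_total ((gr2 m p c i).1 x) ((gr2 m p c i).2 (m i).1 ((m i).2 • x)) with h8 | h8
        · rw [min_eq_left h8] at h5
          have : (2 : ℝ) ^ i / 2 ^ (L + 1) ≤ (2 ^ i - 1) / 2 ^ (L + 1) := by linarith
          rw [div_le_div_iff_of_pos_right hL] at this
          linarith
        · rw [min_eq_right h8, sub_self] at h5
          linarith
  have h9 := (key L le_rfl).trans hz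
  have h10 : ((2 : ℝ) ^ L - 1) / 2 ^ (L + 1) < 1 / 2 := by
    rw [div_lt_div_iff₀ hL two_pos, pow_succ]
    linarith
  linarith

/-- comparison from a greedy transport that leaves at most half of the supplies -/
theorem greedy_sub_half {G : Type u} [Group G] {X : Type v} [TopologicalSpace X] [MulAction G X]
    [ContinuousConstSMul G X] {Λ : Type w} [DecidableEq Λ] (m : ℕ → Λ × G) (p : X → ℝ)
    (c : Λ → X → ℝ) (hp : ∀ x, 0 ≤ p x) (hc : ∀ l x, 0 ≤ c l x) (hc1 : ∀ l x, c l x ≤ 1)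
    (hpc : Continuous p) (hcc : ∀ l, Continuous (c l)) (L : ℕ)
    (hact : ∀ i < L, ∀ j < L, ∀ z, 0 < c (m i).1 z → 0 < c (m j).1 z → (m i).1 = (m j).1) :
    SubEq G {x | p x = 1 ∧ (gr2 m p c L).1 x ≤ 1 / 2} {z | ∃ i < L, 0 < c (m i).1 z} := by
  refine pack (ι := Fin L) (fun i => {x | (gr2 m p c (i + 1)).2 (m i).1 ((m i).2 • x) <
      2 ^ (i : ℕ) / 2 ^ (L + 1) ∧ 2 ^ (i : ℕ) / 2 ^ (L + 1) <
        (gr2 m p c i).2 (m i).1 ((m i).2 • x)})
    (fun i => (m i).2) ?_ ?_ ?_ ?_
  · intro i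
    refine IsOpen.inter ?_ ?_
    · exact isOpen_lt (((gr2_cont m p c hpc hcc _).2 _).comp (continuous_const_smul _))
        continuous_const
    · exact isOpen_lt continuous_const
        (((gr2_cont m p c hpc hcc _).2 _).comp (continuous_const_smul _))
  · rintro x ⟨hx, hx2⟩
    obtain ⟨i, hi, h1, h2⟩ := gr2_cross_half m hp hc hc1 L x hx2 hx
    exact ⟨⟨i, hi⟩, h1, h2⟩
  · intro i x hx
    refine ⟨i, i.2, ?_⟩
    have h4 : (0 : ℝ) < 2 ^ (i : ℕ) / 2 ^ (L + 1) := by positivity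
    exact (h4.trans hx.2).trans_le ((gr2_anti m hp hc (Nat.zero_le _)).2 _ _)
  · intro i j x hx x' hx' he
    have h4 : ∀ k : ℕ, (0 : ℝ) < 2 ^ k / 2 ^ (L + 1) := fun k => by positivity
    have h5 : 0 < c (m i).1 ((m i).2 • x) :=
      ((h4 _).trans hx.2).trans_le ((gr2_anti m hp hc (Nat.zero_le _)).2 _ _)
    have h6 : 0 < c (m j).1 ((m j).2 • x') :=
      ((h4 _).trans hx'.2).trans_le ((gr2_anti m hp hc (Nat.zero_le _)).2 _ _)
    rw [← he] at h6
    have h7 := hact i i.2 j j.2 _ h5 h6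
    have hx1 := hx'
    obtain ⟨h8, h9⟩ := hx1
    rw [← he, ← h7] at h8 h9
    exact Fin.ext (cross2_unique m hp hc (L + 1) _ _ _ _ hx ⟨h8, h9⟩)

/-- integrals of translates by elements of one coset -/
theorem int_coset {G : Type u} [Group G] (N : Subgroup G) {X : Type v} [TopologicalSpace X]
    [MeasurableSpace X] [BorelSpace X] [MulAction G X] [ContinuousConstSMul G X] (ω : Measure X)
    (hω : InvM N ω) (F : X → ℝ) (hF : Continuous F) (g g' : G) (h : g⁻¹ * g' ∈ N) :
    ∫ y, F (g • y) ∂ω = ∫ y, F (g' • y) ∂ω := by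
  rw [int_move2 N ω hω F hF g, int_move2 N ω hω F hF g', QuotientGroup.eq.2 h]

/-- the leftover of an infinite transport from all points into many kinds of targets vanishes for
the invariant measures of a normal subgroup -/
theorem tower_lim {G : Type u} [Group G] [Countable G] (B : Subgroup G) [B.Normal] {X : Type v}
    [TopologicalSpace X] [CompactSpace X]
    [MeasurableSpace X] [BorelSpace X] [MulAction G X] [ContinuousConstSMul G X]
    {Λ : Type w} [DecidableEq Λ] {J : Type w} [Fintype J] [DecidableEq J] (D : Finset G)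
    (lab : J × D → Λ) (el : J × D → G)
    (hlab : ∀ τ τ' : J × D, lab τ = lab τ' → τ.1 = τ'.1 ∧
      ∃ b ∈ B, (el τ')⁻¹ * el τ = b * ((τ'.2 : G)⁻¹ * τ.2))
    (c : Λ → X → ℝ) (hc : ∀ l x, 0 ≤ c l x) (hc1 : ∀ l x, c l x ≤ 1)
    (hcc : ∀ l, Continuous (c l)) (M : ℝ) (hM : (D.card : ℝ) * D.card < M)
    (hCy : ∀ y : X, M ≤ ∑ τ, c (lab τ) (el τ • y))
    (e : ℕ → (J × D) × B) (he : Function.Surjective e) (m : ℕ → Λ × G)
    (hme : ∀ i, m i = (lab (e i).1, el (e i).1 * (e i).2))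
    (ν : Measure X) [IsFiniteMeasure ν] (hν : InvM B ν) :
    Tendsto (fun n => ∫ y, (gr2 m (fun _ => (1 : ℝ)) c n).1 y ∂ν) atTop (𝓝 0) := by
  classical
  have hsm : ∀ (F : X → ℝ), Continuous F → ∀ g : G, Continuous fun y => F (g • y) :=
    fun F hF g => hF.comp (continuous_const_smul g)
  have h01 : ∀ x : X, (0 : ℝ) ≤ (fun _ : X => (1 : ℝ)) x := fun _ => zero_le_one
  have hcont := gr2_cont m (fun _ : X => (1 : ℝ)) c continuous_const hcc
  set p : ℕ → X → ℝ := fun n => (gr2 m (fun _ => (1 : ℝ)) c n).1 with hp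
  set q : ℕ → Λ → X → ℝ := fun n => (gr2 m (fun _ => (1 : ℝ)) c n).2 with hq
  have hpc : ∀ n, Continuous (p n) := fun n => (hcont n).1
  have hqc : ∀ n l, Continuous (q n l) := fun n => (hcont n).2
  have hp0 : ∀ n x, 0 ≤ p n x := fun n => (gr2_nonneg m h01 hc n).1
  have hq0 : ∀ n l x, 0 ≤ q n l x := fun n => (gr2_nonneg m h01 hc n).2
  have hpa : ∀ i j, i ≤ j → ∀ x, p j x ≤ p i x := fun i j h => (gr2_anti m h01 hc h).1
  have hqa : ∀ i j, i ≤ j → ∀ l x, q j l x ≤ q i l x := fun i j h => (gr2_anti m h01 hc h).2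
  have hp1 : ∀ n x, p n x ≤ 1 := fun n x => hpa 0 n (Nat.zero_le _) x
  have hq1 : ∀ n l x, q n l x ≤ 1 := fun n l x => (hqa 0 n (Nat.zero_le _) l x).trans (hc1 l x)
  have ham : ∀ i, Continuous (amt m (fun _ : X => (1 : ℝ)) c i) := fun i =>
    ((hpc i).comp (continuous_const_smul _)).min (hqc i _)
  have ham0 : ∀ i z, 0 ≤ amt m (fun _ : X => (1 : ℝ)) c i z := amt_nonneg m h01 hc
  -- the set of the points with an unserved point in their orbit
  set A : Set X := {y | ∃ h ∈ B, ∀ n, 0 < p n (h • y)} with hA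
  have hAm : MeasurableSet A := by
    have : A = ⋃ h : B, ⋂ n, {y | 0 < p n ((h : G) • y)} := by
      ext y
      simp only [hA, Set.mem_iUnion, Set.mem_iInter, Set.mem_ofPred_eq]
      constructor
      · rintro ⟨h, hh, h2⟩
        exact ⟨⟨h, hh⟩, h2⟩
      · rintro ⟨⟨h, hh⟩, h2⟩
        exact ⟨h, hh, h2⟩
    rw [this]
    refine MeasurableSet.iUnion fun h => MeasurableSet.iInter fun n => ?_
    exact (isOpen_lt continuous_const (hsm _ (hpc n) _)).measurableSet
  have hAi : ∀ h ∈ B, (fun x => h • x) ⁻¹' A = A := by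
    intro h hh
    ext y
    constructor
    · rintro ⟨k, hk, h2⟩
      refine ⟨k * h, B.mul_mem hk hh, fun n => ?_⟩
      rw [mul_smul]
      exact h2 n
    · rintro ⟨k, hk, h2⟩
      refine ⟨k * h⁻¹, B.mul_mem hk (B.inv_mem hh), fun n => ?_⟩
      show 0 < p n ((k * h⁻¹) • h • y)
      rw [mul_smul, inv_smul_smul]
      exact h2 n
  set ω : Measure X := ν.restrict A with hω
  have hωi : InvM B ω := by
    intro h hh
    have hgm : Measurable (fun x : X => h • x) := (continuous_const_smul h).measurable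
    have h1 := Measure.restrict_map (μ := ν) hgm hAm
    rw [hν h hh, hAi h hh] at h1
    exact h1.symm
  have hωf : IsFiniteMeasure ω := inferInstance
  have hint : ∀ (F : X → ℝ), Continuous F → Integrable F ω := fun F hF => int_cont ω F hF
  -- the accounting
  have hused : ∀ n, ∑ τ, ∫ y, (c (lab τ) (el τ • y) - q n (lab τ) (el τ • y)) ∂ω ≤
      (D.card : ℝ) * D.card * ω.real Set.univ := by
    intro n
    have e1 : ∀ τ : J × D, ∫ y, (c (lab τ) (el τ • y) - q n (lab τ) (el τ • y)) ∂ω =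
        ∑ i ∈ range n, if lab τ = (m i).1 then
          ∫ y, amt m (fun _ : X => (1 : ℝ)) c i (el τ • y) ∂ω else 0 := by
      intro τ
      have e3 : ∀ i ∈ range n, (if lab τ = (m i).1 then
          ∫ y, amt m (fun _ : X => (1 : ℝ)) c i (el τ • y) ∂ω else 0) =
          ∫ y, (if lab τ = (m i).1 then
            amt m (fun _ : X => (1 : ℝ)) c i (el τ • y) else 0) ∂ω := by
        intro i _
        split_ifs
        · rfl
        · simp
      rw [Finset.sum_congr rfl e3, ← integral_finsetSum _ fun i _ => ?_]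
      · refine integral_congr_ae (ae_of_all _ fun y => ?_)
        exact gr2_sum_two m (fun _ : X => (1 : ℝ)) c n (lab τ) (el τ • y)
      · split_ifs
        · exact hint _ (hsm _ (ham i) _)
        · exact integrable_zero _ _ _
    simp only [e1]
    rw [Finset.sum_comm]
    have e2 : ∀ i ∈ range n, (∑ τ, if lab τ = (m i).1 then
        ∫ y, amt m (fun _ : X => (1 : ℝ)) c i (el τ • y) ∂ω else 0) ≤
        ∑ d : D, ∑ d' : D, ∫ y, amt m (fun _ : X => (1 : ℝ)) c i
          ((m i).2 • ((d' : G)⁻¹ * d) • y) ∂ω := by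
      intro i _
      set τ' := (e i).1 with hτ'
      have hmi1 : (m i).1 = lab τ' := by rw [hme]
      have hmi2 : (m i).2 = el τ' * (e i).2 := by rw [hme]
      rw [← Finset.sum_filter]
      have e3 : ∀ τ ∈ (univ : Finset (J × D)).filter (fun τ => lab τ = (m i).1),
          ∫ y, amt m (fun _ : X => (1 : ℝ)) c i (el τ • y) ∂ω =
          ∫ y, amt m (fun _ : X => (1 : ℝ)) c i ((m i).2 • ((τ'.2 : G)⁻¹ * τ.2) • y) ∂ω := by
        intro τ hτ
        rw [Finset.mem_filter, hmi1] at hτ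
        obtain ⟨_, b, hb, h2⟩ := hlab τ τ' hτ.2
        have h3 : ∀ y : X, amt m (fun _ : X => (1 : ℝ)) c i (el τ • y) =
            amt m (fun _ : X => (1 : ℝ)) c i ((m i).2 • ((((e i).2 : B) : G)⁻¹ *
              (b * ((τ'.2 : G)⁻¹ * τ.2))) • y) := by
          intro y
          congr 1
          rw [← mul_smul]
          congr 1
          rw [hmi2, ← h2]
          group
        simp only [h3]
        refine int_coset B ω hωi (fun x => amt m (fun _ : X => (1 : ℝ)) c i ((m i).2 • x))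
          (hsm _ (ham i) _) _ _ ?_
        have h4 : ((((e i).2 : B) : G)⁻¹ * (b * ((τ'.2 : G)⁻¹ * τ.2)))⁻¹ *
            ((τ'.2 : G)⁻¹ * τ.2) = ((τ'.2 : G)⁻¹ * τ.2)⁻¹ * (b⁻¹ * (((e i).2 : B) : G)) *
              (((τ'.2 : G)⁻¹ * τ.2)⁻¹)⁻¹ := by group
        rw [h4]
        exact (inferInstance : B.Normal).conj_mem _
          (B.mul_mem (B.inv_mem hb) (e i).2.2) _
      rw [Finset.sum_congr rfl e3]
      have hinj : Set.InjOn (fun τ : J × D => τ.2)
          ((univ : Finset (J × D)).filter (fun τ => lab τ = (m i).1) : Set (J × D)) := by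
        intro τ hτ τ₁ hτ₁ h
        rw [Finset.mem_coe, Finset.mem_filter] at hτ hτ₁
        exact Prod.ext (hlab τ τ₁ (hτ.2.trans hτ₁.2.symm)).1 h
      have h5 : ∑ τ ∈ (univ : Finset (J × D)).filter (fun τ => lab τ = (m i).1),
          ∫ y, amt m (fun _ : X => (1 : ℝ)) c i ((m i).2 • ((τ'.2 : G)⁻¹ * τ.2) • y) ∂ω =
          ∑ d ∈ ((univ : Finset (J × D)).filter (fun τ => lab τ = (m i).1)).image
            (fun τ : J × D => τ.2),
          ∫ y, amt m (fun _ : X => (1 : ℝ)) c i ((m i).2 • ((τ'.2 : G)⁻¹ * d) • y) ∂ω := by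
        rw [Finset.sum_image hinj]
      rw [h5]
      refine (Finset.sum_le_sum_of_subset_of_nonneg (Finset.subset_univ _) fun d _ _ =>
        integral_nonneg fun y => ham0 i _).trans ?_
      refine Finset.sum_le_sum fun d _ => ?_
      exact Finset.single_le_sum (f := fun d' : D => ∫ y, amt m (fun _ : X => (1 : ℝ)) c i
          ((m i).2 • ((d' : G)⁻¹ * d) • y) ∂ω)
        (fun d' _ => integral_nonneg fun y => ham0 i _) (Finset.mem_univ τ'.2)
    refine (Finset.sum_le_sum e2).trans ?_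
    have e4 : ∑ i ∈ range n, ∑ d : D, ∑ d' : D, ∫ y, amt m (fun _ : X => (1 : ℝ)) c i
          ((m i).2 • ((d' : G)⁻¹ * d) • y) ∂ω =
        ∑ d : D, ∑ d' : D, ∫ y, (1 - p n (((d' : G)⁻¹ * d) • y)) ∂ω := by
      rw [Finset.sum_comm]
      refine Finset.sum_congr rfl fun d _ => ?_
      rw [Finset.sum_comm]
      refine Finset.sum_congr rfl fun d' _ => ?_
      rw [← integral_finsetSum _ fun i _ => hint _ (hsm _ (hsm _ (ham i) _) _)]
      refine integral_congr_ae (ae_of_all _ fun y => ?_)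
      exact (gr2_sum_one m (fun _ : X => (1 : ℝ)) c n (((d' : G)⁻¹ * d) • y)).symm
    rw [e4]
    have e5 : ∀ d d' : D, ∫ y, (1 - p n (((d' : G)⁻¹ * d) • y)) ∂ω ≤ ω.real Set.univ := by
      intro d d'
      have h1 : ∫ y, (1 - p n (((d' : G)⁻¹ * d) • y)) ∂ω ≤ ∫ _y : X, (1 : ℝ) ∂ω :=
        integral_mono (hint _ (continuous_const.sub (hsm _ (hpc n) _))) (integrable_const _)
          fun y => sub_le_self _ (hp0 n _)
      rwa [integral_const, smul_eq_mul, mul_one] at h1
    refine (Finset.sum_le_sum fun d _ => Finset.sum_le_sum fun d' _ => e5 d d').trans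
      (le_of_eq ?_)
    simp only [Finset.sum_const, Finset.card_univ, Fintype.card_coe, nsmul_eq_mul]
    ring
  have hlim1 : Tendsto (fun n => ∑ τ, ∫ y, q n (lab τ) (el τ • y) ∂ω) atTop (𝓝 0) := by
    have h2 : (0 : ℝ) = ∑ τ : J × D, ∫ _y : X, (0 : ℝ) ∂ω := by simp
    rw [h2]
    refine tendsto_finsetSum _ fun τ _ => ?_
    refine tendsto_integral_of_dominated_convergence (fun _ => (1 : ℝ))
      (fun n => (hsm _ (hqc n _) _).aestronglyMeasurable) (integrable_const _)
      (fun n => ae_of_all _ fun y => ?_) ?_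
    · rw [Real.norm_eq_abs, abs_of_nonneg (hq0 n _ _)]
      exact hq1 n _ _
    · refine (ae_restrict_iff' hAm).2 (ae_of_all _ fun y hy => ?_)
      obtain ⟨h, hh, h3⟩ := hy
      obtain ⟨i, hi⟩ := he (τ, ⟨h⁻¹, B.inv_mem hh⟩)
      refine tendsto_const_nhds.congr' ?_
      filter_upwards [eventually_ge_atTop (i + 1)] with n hn
      have h4 := gr2_sat m h01 hc n (h • y) (h3 n) i (by omega)
      rw [hme, hi] at h4
      have h5 : (el τ * h⁻¹) • h • y = el τ • y := by rw [← mul_smul, inv_mul_cancel_right]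
      have h6 : q n (lab τ) ((el τ * h⁻¹) • h • y) = 0 := h4
      rw [h5] at h6
      exact h6.symm
  have hC1 : ∑ τ, ∫ y, c (lab τ) (el τ • y) ∂ω ≤ (D.card : ℝ) * D.card * ω.real Set.univ := by
    have h1 : ∀ n, ∑ τ, ∫ y, c (lab τ) (el τ • y) ∂ω ≤
        (D.card : ℝ) * D.card * ω.real Set.univ + ∑ τ, ∫ y, q n (lab τ) (el τ • y) ∂ω := by
      intro n
      have h2 := hused n
      have e1 : ∀ τ ∈ (univ : Finset (J × D)),
          ∫ y, (c (lab τ) (el τ • y) - q n (lab τ) (el τ • y)) ∂ω =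
          ∫ y, c (lab τ) (el τ • y) ∂ω - ∫ y, q n (lab τ) (el τ • y) ∂ω := fun τ _ =>
        integral_sub (hint _ (hsm _ (hcc _) _)) (hint _ (hsm _ (hqc n _) _))
      rw [Finset.sum_congr rfl e1, Finset.sum_sub_distrib] at h2
      linarith
    have h2 := (tendsto_const_nhds (x := (D.card : ℝ) * D.card * ω.real Set.univ)).add hlim1
    rw [add_zero] at h2
    exact ge_of_tendsto' h2 h1
  have hC2 : M * ω.real Set.univ ≤ ∑ τ, ∫ y, c (lab τ) (el τ • y) ∂ω := by
    rw [← integral_finsetSum _ fun τ _ => hint _ (hsm _ (hcc _) _)]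
    have h1 : ∫ _y : X, M ∂ω ≤ ∫ y, ∑ τ, c (lab τ) (el τ • y) ∂ω :=
      integral_mono (integrable_const _) (hint _ (continuous_finsetSum _ fun τ _ =>
        hsm _ (hcc _) _)) hCy
    rw [integral_const, smul_eq_mul, mul_comm] at h1
    exact h1
  have hω0 : ω.real Set.univ = 0 := by
    have h1 : 0 ≤ ω.real Set.univ := measureReal_nonneg
    by_contra hne
    have h2 : 0 < ω.real Set.univ := lt_of_le_of_ne h1 (Ne.symm hne)
    have h3 := mul_lt_mul_of_pos_right hM h2
    linarith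
  have hlim2 : Tendsto (fun n => ∫ y in Aᶜ, p n y ∂ν) atTop (𝓝 0) := by
    have h2 : (0 : ℝ) = ∫ _y in Aᶜ, (0 : ℝ) ∂ν := by simp
    rw [h2]
    refine tendsto_integral_of_dominated_convergence (fun _ => (1 : ℝ))
      (fun n => (hpc n).aestronglyMeasurable) (integrable_const _)
      (fun n => ae_of_all _ fun y => ?_) ?_
    · rw [Real.norm_eq_abs, abs_of_nonneg (hp0 n _)]
      exact hp1 n _
    · refine (ae_restrict_iff' hAm.compl).2 (ae_of_all _ fun y hy => ?_)
      have h3 : ∃ n, p n y ≤ 0 := by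
        by_contra hcon
        push Not at hcon
        exact hy ⟨1, B.one_mem, fun n => by rw [one_smul]; exact hcon n⟩
      obtain ⟨n₀, hn₀⟩ := h3
      refine tendsto_const_nhds.congr' ?_
      filter_upwards [eventually_ge_atTop n₀] with n hn
      exact le_antisymm (hp0 n y) ((hpa _ _ hn y).trans hn₀)
  have hsum : ∀ n, ∫ y, p n y ∂ν = ∫ y in Aᶜ, p n y ∂ν := by
    intro n
    have h1 := integral_add_compl hAm (int_cont ν _ (hpc n))
    have h2 : ∫ y, p n y ∂ω = 0 := by
      refine le_antisymm ?_ (integral_nonneg fun y => hp0 n y)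
      have h3 : ∫ y, p n y ∂ω ≤ ∫ _y : X, (1 : ℝ) ∂ω :=
        integral_mono (hint _ (hpc n)) (integrable_const _) fun y => hp1 n y
      rw [integral_const, smul_eq_mul, mul_one, hω0] at h3
      exact h3
    have h3 : ∫ y in A, p n y ∂ν = 0 := h2
    rw [h3, zero_add] at h1
    exact h1.symm
  exact hlim2.congr fun n => (hsum n).symm

end Pool.Agent.Helper277_FF
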