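import Pool.Agent.Helper277_FF.TowerM

set_option autoImplicit false

/-!
# Comparison from paradoxical towers modulo a normal subgroup that absorbs small averages
-/

namespace Pool.Agent.Helper277_FF

open Finset Pool.Agent.H107ZS Pool.Agent.Helper277_DC MeasureTheory Filter Topology Pointwise

universe u v w

/-- towers for the finite set `D`, with `M` copies of `k` sets -/
def HasTowers3 {G : Type u} [Group G] (B : Subgroup G) (k : ℕ) (D : Finset G) (M : ℕ) : Prop :=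
  ∃ (t : Fin k × Fin M → G) (A : Fin k × Fin M → Set G)
    (P : (Fin k × Fin M) × G → Set G) (cls : G → G),
    (∀ d ∈ D, ∀ r, ∀ h ∈ A r, d * t r * h ∈ P (r, cls d)) ∧
    (∀ d ∈ D, ∀ d' ∈ D, ∀ r r', (r, cls d) ≠ (r', cls d') →
      Disjoint (P (r, cls d)) (P (r', cls d'))) ∧
    (∀ (h : G) (χ : Fin M), ∃ κ, h ∈ A (κ, χ)) ∧
    ∀ d ∈ D, ∀ d' ∈ D, cls d = cls d' → ∀ r, ∃ b ∈ B,
      (d' * t r)⁻¹ * (d * t r) = b * (d'⁻¹ * d)

theorem infinite_of_towers3 {G : Type u} [Group G] (B : Subgroup G) (k : ℕ)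
    (htow : ∀ (D : Finset G) (M : ℕ), HasTowers3 B k D M) : Infinite G := by
  classical
  by_contra hfin
  rw [not_infinite_iff_finite] at hfin
  have := Fintype.ofFinite G
  obtain ⟨t, A, P, cls, h1, h2, h3, -⟩ := htow {1} (Fintype.card G + 1)
  choose κ hκ using fun χ => h3 1 χ
  have h4 : ∀ χ, 1 * t (κ χ, χ) * 1 ∈ P ((κ χ, χ), cls 1) := fun χ =>
    h1 1 (Finset.mem_singleton_self _) _ 1 (hκ χ)
  have h5 : Function.Injective fun χ => 1 * t (κ χ, χ) * 1 := by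
    intro χ χ' he
    by_contra hne
    have h6 := h2 1 (Finset.mem_singleton_self _) 1 (Finset.mem_singleton_self _) (κ χ, χ)
      (κ χ', χ') (fun h => hne (congrArg (fun p => p.1.2) h))
    have h7 : 1 * t (κ χ, χ) * 1 ∈ P ((κ χ', χ'), cls 1) := by
      have he' : 1 * t (κ χ, χ) * 1 = 1 * t (κ χ', χ') * 1 := he
      rw [he']
      exact h4 χ'
    exact Set.disjoint_left.1 h6 (h4 χ) h7
  have h6 := Fintype.card_le_of_injective _ h5
  rw [Fintype.card_fin] at h6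
  omega

open Classical in
theorem tower_ph {G X : Type} [Group G] [Countable G] [TopologicalSpace X] [CompactSpace X]
    [TopologicalSpace.MetrizableSpace X] [MeasurableSpace X] [BorelSpace X]
    [MulAction G X] [ContinuousConstSMul G X] (B : Subgroup G) [B.Normal]
    (k₀ : ℕ) (hk₀ : 0 < k₀) (htow : ∀ (D : Finset G) (M : ℕ), HasTowers3 B k₀ D M)
    (hfree : FreeAct G X) (hmin : MinAct G X) (ham : TopAmC G X)
    (V : Set X) (hV : IsOpen V) (hVne : V.Nonempty) (ζ : ℝ) (hζ : 0 < ζ) :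
    ∃ r : C(X, ℝ), (∀ x, 0 ≤ r x) ∧ (∀ x, r x ≤ 1) ∧ SmallAv B r ζ ∧
      SubEq G {x | r x ≤ 1 / 2} V := by
  have hXne : Nonempty X := ⟨hVne.some⟩
  have hGinf : Infinite G := infinite_of_towers3 B k₀ htow
  have hk₀r : (0 : ℝ) < k₀ := by exact_mod_cast hk₀
  -- windows
  set q₀ : ℕ := 2 * k₀ with hq₀
  set S₁ : ℕ := q₀ + 1 with hS₁
  have hS₁r : (0 : ℝ) < S₁ := by rw [hS₁]; positivity
  set δ : ℝ := 1 / (4 * k₀ * S₁) with hδdef
  have hδ : 0 < δ := by positivity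
  let mid : Fin S₁ → ℝ := fun s => 1 / (2 * k₀) + ((s : ℕ) + 1 / 2) * δ
  have hSδ : S₁ * δ = 1 / (4 * k₀) := by
    rw [hδdef]
    field_simp
  have hmid1 : ∀ s, 1 / (2 * (k₀ : ℝ)) < mid s := fun s => by
    have : (0 : ℝ) < ((s : ℕ) + 1 / 2) * δ := by positivity
    simp only [mid]
    linarith
  have hmid2 : ∀ s, mid s < 3 / (4 * (k₀ : ℝ)) := fun s => by
    have h1 : ((s : ℕ) : ℝ) + 1 ≤ S₁ := by exact_mod_cast s.2
    have h2 : (((s : ℕ) : ℝ) + 1 / 2) * δ < S₁ * δ := mul_lt_mul_of_pos_right (by linarith) hδ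
    have h3 : 3 / (4 * (k₀ : ℝ)) = 1 / (2 * k₀) + 1 / (4 * k₀) := by field_simp; norm_num
    simp only [mid]
    rw [h3, ← hSδ]
    linarith
  -- the small set
  obtain ⟨gj, V₀, hV₀, hV₀ne, hV₀V, hV₀d⟩ := exists_translates hfree hmin V hV hVne
    (Fin S₁ × Fin q₀)
  obtain ⟨b, D, hb0, hb1, hbV, hDne, hD⟩ := exists_return hmin V₀ hV₀ hV₀ne
  have hDc : 0 < D.card := hDne.card_pos
  set M : ℕ := D.card * D.card + 1 with hM
  have hMpos : 0 < M := by positivity
  obtain ⟨t, A, Ps, cls, hmove, hP, hcovA, hcls⟩ := htow D M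
  have hDN : Nonempty D := ⟨⟨hDne.choose, hDne.choose_spec⟩⟩
  have hne1 : Nonempty (Fin k₀ × Fin M) := ⟨(⟨0, hk₀⟩, ⟨0, hMpos⟩)⟩
  have hne2 : Nonempty (Fin S₁ × Fin q₀) := ⟨(⟨0, by omega⟩, ⟨0, by omega⟩)⟩
  -- the moves
  let lab : ((Fin S₁ × Fin q₀) × (Fin k₀ × Fin M)) × D →
      (Fin S₁ × Fin q₀) × ((Fin k₀ × Fin M) × G) := fun τ => (τ.1.1, (τ.1.2, cls τ.2))
  let el : ((Fin S₁ × Fin q₀) × (Fin k₀ × Fin M)) × D → G := fun τ =>
    gj τ.1.1 * ((τ.2 : G) * t τ.1.2)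
  have hlab : ∀ τ τ', lab τ = lab τ' → τ.1 = τ'.1 ∧
      ∃ b ∈ B, (el τ')⁻¹ * el τ = b * ((τ'.2 : G)⁻¹ * τ.2) := by
    rintro ⟨⟨a, r⟩, d⟩ ⟨⟨a', r'⟩, d'⟩ h
    have h1 : a = a' := congrArg (fun l => l.1) h
    have h2 : r = r' := congrArg (fun l => l.2.1) h
    have h3 : cls d = cls d' := congrArg (fun l => l.2.2) h
    subst h1
    subst h2
    refine ⟨rfl, ?_⟩
    obtain ⟨b₁, hb₁, h4⟩ := hcls d d.2 d' d'.2 h3 r
    refine ⟨b₁, hb₁, ?_⟩
    rw [← h4]
    show (gj a * ((d' : G) * t r))⁻¹ * (gj a * ((d : G) * t r)) = _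
    group
  obtain ⟨e, he⟩ := exists_surjective_nat
    ((((Fin S₁ × Fin q₀) × (Fin k₀ × Fin M)) × D) × B)
  let m : ℕ → ((Fin S₁ × Fin q₀) × ((Fin k₀ × Fin M) × G)) × G := fun i =>
    (lab (e i).1, el (e i).1 * (e i).2)
  -- the field of probability vectors
  obtain ⟨F₁, N, hN0, hNc, hNF, hN1, hNi⟩ := exists_field (X := X)
    (((univ : Finset (Fin k₀ × Fin M)) ×ˢ D).image fun r => r.2 * t r.1) (1 / (4 * k₀))
    (by positivity) ham
  -- the kinds
  set KD : Finset ((Fin k₀ × Fin M) × G) :=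
    (univ : Finset (Fin k₀ × Fin M)) ×ˢ (D.image cls) with hKD
  have hKDd : ∀ l ∈ KD, ∀ l' ∈ KD, l ≠ l' → Disjoint (Ps l) (Ps l') := by
    rintro ⟨r, e⟩ hl ⟨r', e'⟩ hl' hne
    obtain ⟨d, hd, rfl⟩ := Finset.mem_image.1 (Finset.mem_product.1 hl).2
    obtain ⟨d', hd', rfl⟩ := Finset.mem_image.1 (Finset.mem_product.1 hl').2
    exact hP d hd d' hd' r r' hne
  let idx : (Fin k₀ × Fin M) × G → ℕ := fun l =>
    if h : l ∈ KD then (KD.equivFin ⟨l, h⟩ : ℕ) else 0
  have hidx : ∀ a ∈ KD, ∀ b ∈ KD, idx a = idx b → a = b := by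
    intro a ha b hb h
    simp only [idx, dif_pos ha, dif_pos hb] at h
    exact congrArg Subtype.val (KD.equivFin.injective (Fin.val_injective h))
  set ms : X → ((Fin k₀ × Fin M) × G) → ℝ := fun z l => mass F₁ N (Ps l) z with hms
  have hmsum : ∀ (z : X) (K' : Finset ((Fin k₀ × Fin M) × G)), K' ⊆ KD →
      ∑ l ∈ K', ms z l ≤ 1 := fun z K' hK' =>
    mass_sum F₁ N hN0 z (hN1 z) K' Ps fun i hi j hj => hKDd i (hK' hi) j (hK' hj)
  have hmany : ∀ (z : X) (K' : Finset ((Fin k₀ × Fin M) × G)), K' ⊆ KD →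
      (∀ l ∈ K', 1 / (2 * (k₀ : ℝ)) < ms z l) → K'.card < q₀ := by
    intro z K' hK' h
    rcases K'.eq_empty_or_nonempty with h0 | h0
    · rw [h0, Finset.card_empty]
      omega
    · have h1 : ∑ _l ∈ K', 1 / (2 * (k₀ : ℝ)) < ∑ l ∈ K', ms z l :=
        Finset.sum_lt_sum_of_nonempty h0 h
      rw [Finset.sum_const, nsmul_eq_mul] at h1
      have h2 := lt_of_lt_of_le h1 (hmsum z K' hK')
      rw [mul_one_div, div_lt_one (by positivity)] at h2
      have h3 : K'.card < 2 * k₀ := by exact_mod_cast h2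
      exact h3
  -- a free window
  have hwin : ∀ z : X, ∃ s : Fin S₁, ∀ l ∈ KD, δ / 2 ≤ |ms z l - mid s| := by
    intro z
    by_contra hcon
    push Not at hcon
    choose lam hlam1 hlam2 using hcon
    have hinj : Function.Injective lam := by
      intro s s' h
      have h1 := hlam2 s
      have h2 := hlam2 s'
      rw [h] at h1
      rw [abs_lt] at h1 h2
      simp only [mid] at h1 h2
      have h3 : (((s : ℕ) : ℝ) - (s' : ℕ)) * δ < 1 * δ := by linarith [h1.1, h2.2]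
      have h4 : (((s' : ℕ) : ℝ) - (s : ℕ)) * δ < 1 * δ := by linarith [h1.2, h2.1]
      have h5 := lt_of_mul_lt_mul_right h3 hδ.le
      have h6 := lt_of_mul_lt_mul_right h4 hδ.le
      have h7 : ((s : ℕ) : ℝ) < (s' : ℕ) + 1 := by linarith
      have h8 : ((s' : ℕ) : ℝ) < (s : ℕ) + 1 := by linarith
      have h9 : (s : ℕ) < (s' : ℕ) + 1 := by exact_mod_cast h7
      have h10 : (s' : ℕ) < (s : ℕ) + 1 := by exact_mod_cast h8
      exact Fin.ext (by omega)
    have h1 := hmany z ((univ : Finset (Fin S₁)).image lam) (by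
      intro l hl
      obtain ⟨s, _, rfl⟩ := Finset.mem_image.1 hl
      exact hlam1 s) (by
      intro l hl
      obtain ⟨s, _, rfl⟩ := Finset.mem_image.1 hl
      have h2 := hlam2 s
      rw [abs_lt] at h2
      simp only [mid] at h2
      have h3 : (0 : ℝ) ≤ ((s : ℕ) : ℝ) * δ := by positivity
      linarith [h2.1])
    rw [Finset.card_image_of_injective _ hinj, Finset.card_univ, Fintype.card_fin] at h1
    omega
  set c : (Fin S₁ × Fin q₀) × ((Fin k₀ × Fin M) × G) → X → ℝ := fun l z =>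
    b ((gj l.1)⁻¹ • z) * wgt KD idx (ms ((gj l.1)⁻¹ • z)) δ (mid l.1.1) l.1.2 l.2 with hc
  have hc0 : ∀ l z, 0 ≤ c l z := fun l z => mul_nonneg (hb0 _) (wgt_nonneg _ _ _ _ _ _ _)
  have hc1 : ∀ l z, c l z ≤ 1 := fun l z => mul_le_one₀ (hb1 _) (wgt_nonneg _ _ _ _ _ _ _)
    (wgt_le _ _ _ _ _ _ _)
  have hcc : ∀ l, Continuous (c l) := fun l =>
    (b.continuous.comp (continuous_const_smul _)).mul
      ((wgt_cont KD idx (fun l' z => ms z l') (fun l' => mass_continuous F₁ N hNc _) δ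
        (mid l.1.1) l.1.2 l.2).comp (continuous_const_smul _))
  have hcb : ∀ l z, 0 < c l z → (gj l.1)⁻¹ • z ∈ V₀ ∧
      0 < wgt KD idx (ms ((gj l.1)⁻¹ • z)) δ (mid l.1.1) l.1.2 l.2 := by
    intro l z h
    have h1 : 0 < b ((gj l.1)⁻¹ • z) := by
      refine lt_of_le_of_ne (hb0 _) fun h2 => ?_
      simp only [hc, ← h2, zero_mul, lt_irrefl] at h
    refine ⟨hbV _ h1, ?_⟩
    refine lt_of_le_of_ne (wgt_nonneg _ _ _ _ _ _ _) fun h2 => ?_
    simp only [hc, ← h2, mul_zero, lt_irrefl] at h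
  -- only one kind of targets is active at each point
  have hact : ∀ i j z, 0 < c (m i).1 z → 0 < c (m j).1 z → (m i).1 = (m j).1 := by
    intro i j z h1 h2
    set τ := (e i).1 with hτ
    set τ' := (e j).1 with hτ'
    have e1 : (m i).1 = (τ.1.1, (τ.1.2, cls τ.2)) := rfl
    have e2 : (m j).1 = (τ'.1.1, (τ'.1.2, cls τ'.2)) := rfl
    rw [e1] at h1 ⊢
    rw [e2] at h2 ⊢
    obtain ⟨h3, h4⟩ := hcb _ _ h1
    obtain ⟨h5, h6⟩ := hcb _ _ h2
    have haa : τ.1.1 = τ'.1.1 := by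
      by_contra hne
      refine hV₀d _ _ hne _ h3 _ h5 ?_
      rw [smul_inv_smul, smul_inv_smul]
    rw [← haa] at h5 h6 ⊢
    have h7 : ((τ.1.2, cls τ.2) : (Fin k₀ × Fin M) × G) ∈ KD := Finset.mem_product.2
      ⟨Finset.mem_univ _, Finset.mem_image_of_mem _ τ.2.2⟩
    have h8 : ((τ'.1.2, cls τ'.2) : (Fin k₀ × Fin M) × G) ∈ KD := Finset.mem_product.2
      ⟨Finset.mem_univ _, Finset.mem_image_of_mem _ τ'.2.2⟩
    rw [wgt_unique hδ τ.1.1.2 _ _ h7 h8 hidx h4 h6]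
  -- every point has many targets
  have hCy : ∀ y : X, (M : ℝ) ≤ ∑ τ, c (lab τ) (el τ • y) := by
    intro x
    choose κ hκ using fun χ => mass_cover F₁ N hN0 x (hN1 x) k₀ hk₀ (fun κ => A (κ, χ))
      (fun h => hcovA h χ)
    choose dd hdd1 hdd2 using fun r : Fin M => hD (t (κ r, r) • x)
    -- the point in `V₀`
    let zz : Fin M → X := fun r => (dd r * t (κ r, r)) • x
    choose ws hws using fun r : Fin M => hwin (zz r)
    let kd : Fin M → (Fin k₀ × Fin M) × G := fun r => ((κ r, r), cls (dd r))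
    have hkd : ∀ r, kd r ∈ KD := fun r => Finset.mem_product.2
      ⟨Finset.mem_univ _, Finset.mem_image_of_mem _ (hdd1 r)⟩
    let rk : Fin M → ℕ := fun r =>
      ((KD.filter (fun l' => idx l' < idx (kd r))).filter fun l' =>
        mid (ws r) < ms (zz r) l').card
    have hrk : ∀ r, rk r < q₀ := by
      intro r
      refine hmany (zz r) _ ((Finset.filter_subset _ _).trans (Finset.filter_subset _ _)) ?_
      intro l hl
      exact (hmid1 (ws r)).trans (Finset.mem_filter.1 hl).2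
    let jj : Fin M → Fin S₁ × Fin q₀ := fun r => (ws r, ⟨rk r, hrk r⟩)
    let tg : Fin M → ((Fin S₁ × Fin q₀) × (Fin k₀ × Fin M)) × D := fun r =>
      ((jj r, (κ r, r)), ⟨dd r, hdd1 r⟩)
    have htg : Function.Injective tg := by
      intro r r' h
      exact congrArg (fun τ => τ.1.2.2) h
    have hone : ∀ r, c (lab (tg r)) (el (tg r) • x) = 1 := by
      intro r
      have e0 : (gj (jj r))⁻¹ • (gj (jj r) * (dd r * t (κ r, r))) • x = zz r := by
        rw [mul_smul, inv_smul_smul]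
      have h1 : b (zz r) = 1 := by
        show b ((dd r * t (κ r, r)) • x) = 1
        rw [mul_smul]
        exact hdd2 r
      have h2 := mass_push F₁ N hN0 hNF (dd r * t (κ r, r)) x (1 / (4 * k₀))
        (hNi _ (Finset.mem_image.2 ⟨((κ r, r), dd r), Finset.mem_product.2
          ⟨Finset.mem_univ _, hdd1 r⟩, rfl⟩) x) (A (κ r, r))
        (Ps (kd r)) (by
          intro v hv
          have h4 := hmove (dd r) (hdd1 r) _ _ hv
          rw [mul_inv_cancel_left] at h4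
          exact h4)
      have h4 : 1 / (k₀ : ℝ) ≤ mass F₁ N (A (κ r, r)) x := hκ r
      have h5 : 3 / (4 * (k₀ : ℝ)) ≤ ms (zz r) (kd r) := by
        have h6 : 3 / (4 * (k₀ : ℝ)) = 1 / k₀ - 1 / (4 * k₀) := by field_simp; norm_num
        have h7 : mass F₁ N (Ps (kd r)) ((dd r * t (κ r, r)) • x) = ms (zz r) (kd r) := rfl
        rw [h7] at h2
        linarith
      have h8 : wgt KD idx (ms (zz r)) δ (mid (ws r)) (rk r) (kd r) = 1 := by
        refine wgt_one hδ (hws r) _ (hkd r) (lt_of_lt_of_le (hmid2 _) h5) _ ?_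
        rw [cnt_eq hδ fun l hl => (by linarith : δ / 4 ≤ δ / 2).trans (hws r l hl)]
      show b ((gj (jj r))⁻¹ • (gj (jj r) * (dd r * t (κ r, r))) • x) *
        wgt KD idx (ms ((gj (jj r))⁻¹ • (gj (jj r) * (dd r * t (κ r, r))) • x)) δ
          (mid (ws r)) (rk r) (kd r) = 1
      rw [e0, h1, h8, one_mul]
    have h1 : ∑ τ ∈ (univ : Finset (Fin M)).image tg, c (lab τ) (el τ • x) = M := by
      rw [Finset.sum_image htg.injOn, Finset.sum_congr rfl fun r _ => hone r, Finset.sum_const,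
        nsmul_eq_mul, mul_one, Finset.card_univ, Fintype.card_fin]
    rw [← h1]
    exact Finset.sum_le_sum_of_subset_of_nonneg (Finset.subset_univ _) fun _ _ _ => hc0 _ _
  have h01 : ∀ x : X, (0 : ℝ) ≤ (fun _ : X => (1 : ℝ)) x := fun _ => zero_le_one
  have hcont := gr2_cont m (fun _ : X => (1 : ℝ)) c continuous_const hcc
  let p : ℕ → C(X, ℝ) := fun n => ⟨(gr2 m (fun _ => (1 : ℝ)) c n).1, (hcont n).1⟩
  have hpd : ∀ n x, p n x = (gr2 m (fun _ => (1 : ℝ)) c n).1 x := fun n x => rfl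
  let φ : ℕ → C(X, ℝ) := fun n => ζ • (1 : C(X, ℝ)) - p n
  have hφ : ∀ n x, φ n x = ζ - p n x := by
    intro n x
    show ζ * 1 - p n x = _
    rw [mul_one]
  obtain ⟨n, K, ε, γ, hK, hε, hγ, hF⟩ := t_KL G X B φ (by
    intro n y
    rw [hφ, hφ, hpd, hpd]
    have := (gr2_succ m h01 hc0 n).1 y
    linarith) (by
    intro Λ hΛ
    obtain ⟨ν, hν1, hν, hinv⟩ := state_inv' B Λ hΛ
    have h1 := tower_lim B D lab el hlab c hc0 hc1 hcc (M : ℝ) (by
      rw [hM]
      push_cast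
      linarith) hCy e he m (fun i => rfl) ν hinv
    obtain ⟨n, hn⟩ := (h1.eventually (gt_mem_nhds hζ)).exists
    refine ⟨n, ?_⟩
    have h2 : Λ (φ n) = ζ - ∫ y, p n y ∂ν := by
      show Λ (ζ • (1 : C(X, ℝ)) - p n) = _
      rw [map_sub, map_smul, hΛ.one, hν (p n), smul_eq_mul, mul_one]
    rw [h2]
    have h3 : ∫ y, p n y ∂ν < ζ := hn
    linarith)
  refine ⟨p n, (gr2_nonneg m h01 hc0 n).1, fun x => ?_, ⟨K, ε, hK, hε, fun F hF' hFol y => ?_⟩,
    ?_⟩
  · exact (gr2_anti m h01 hc0 (Nat.zero_le n)).1 x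
  · have h1 := hF F hF' hFol y
    have h2 : ∑ s ∈ F, φ n (s • y) = ζ * F.card - ∑ s ∈ F, p n (s • y) := by
      simp only [hφ]
      rw [Finset.sum_sub_distrib, Finset.sum_const, nsmul_eq_mul, mul_comm]
    rw [h2] at h1
    have h3 : 0 ≤ γ * F.card := by positivity
    linarith
  · refine (greedy_sub_half m (fun _ => (1 : ℝ)) c h01 hc0 hc1 continuous_const hcc n
      fun i _ j _ z => hact i j z).mono (fun x hx => ⟨rfl, hx⟩) ?_
    rintro z ⟨i, _, hi⟩
    have h1 := hV₀V (m i).1.1 _ (hcb _ _ hi).1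
    rwa [smul_inv_smul] at h1

/-- comparison from towers modulo a normal subgroup that absorbs small averages -/
theorem tower_cmp {G X : Type} [Group G] [Countable G] [TopologicalSpace X] [CompactSpace X]
    [TopologicalSpace.MetrizableSpace X] [MeasurableSpace X] [BorelSpace X]
    [MulAction G X] [ContinuousConstSMul G X] (B : Subgroup G) [B.Normal]
    (hAbs : Abs G X B)
    (k₀ : ℕ) (hk₀ : 0 < k₀) (htow : ∀ (D : Finset G) (M : ℕ), HasTowers3 B k₀ D M)
    (hfree : FreeAct G X) (hmin : MinAct G X) (ham : TopAmC G X)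
    (V : Set X) (hV : IsOpen V) (hVne : V.Nonempty) : SubEq G Set.univ V := by
  have hGinf : Infinite G := infinite_of_towers3 B k₀ htow
  obtain ⟨gg, W₀, hW₀, hW₀ne, hgW, hgd⟩ := exists_translates hfree hmin V hV hVne Bool
  have hVi : ∀ i : Bool, IsOpen ((fun x => (gg i)⁻¹ • x) ⁻¹' W₀) := fun i =>
    hW₀.preimage (continuous_const_smul _)
  have hVine : ∀ i : Bool, ((fun x => (gg i)⁻¹ • x) ⁻¹' W₀).Nonempty := by
    intro i
    obtain ⟨x, hx⟩ := hW₀ne
    refine ⟨gg i • x, ?_⟩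
    show (gg i)⁻¹ • gg i • x ∈ W₀
    rw [inv_smul_smul]
    exact hx
  have hVV : ∀ i : Bool, ∀ x, (gg i)⁻¹ • x ∈ W₀ → x ∈ V := by
    intro i x hx
    have h2 := hgW i _ hx
    rwa [smul_inv_smul] at h2
  obtain ⟨ζ, hζ, habs⟩ := hAbs _ (hVi false) (hVine false)
  obtain ⟨r, hr0, hr1, ⟨K, ε, hK, hε, hav⟩, hsub⟩ := tower_ph B k₀ hk₀ htow hfree hmin ham
    ((fun x => (gg true)⁻¹ • x) ⁻¹' W₀) (hVi true) (hVine true) (ζ / 2) (by linarith)
  have hsub2 := habs (dbl r) (fun x => le_min zero_le_one (by have := hr0 x; linarith))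
    (fun x => min_le_left _ _) ⟨K, ε, hK, hε, fun F hF hFol y => dbl_sum r F y ζ (hav F hF hFol y)⟩
  refine (hsub.union hsub2 ?_).mono ?_ ?_
  · refine Set.disjoint_left.2 fun x hx hx' => ?_
    refine hgd true false (by decide) _ hx _ hx' ?_
    rw [smul_inv_smul, smul_inv_smul]
  · intro x _
    by_cases h1 : r x ≤ 1 / 2
    · exact Or.inl h1
    · refine Or.inr ?_
      show dbl r x = 1
      rw [dbl_apply]
      exact min_eq_left (by linarith)
  · rintro x (hx | hx)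
    · exact hVV true x hx
    · exact hVV false x hx

end Pool.Agent.Helper277_FF
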