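import Pool.Agent.Helper277_FF.TowerM2
import Pool.Agent.Helper277_FF.Boundary2

set_option autoImplicit false

/-!
# Free normal subgroups and boundary actions modulo a normal subgroup that absorbs small averages
-/

namespace Pool.Agent.Helper277_FF

open Finset Pool.Agent.H107ZS Pool.Agent.Helper277_DC MeasureTheory Filter Topology Pointwise

universe u v w

/-- the union of a transport with small leftover and an absorption -/
theorem cmp_of_ph {G X : Type} [Group G] [Infinite G] [TopologicalSpace X] [CompactSpace X]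
    [T2Space X] [MulAction G X] [ContinuousConstSMul G X] (B : Subgroup G)
    (hAbs : Abs G X B) (hfree : FreeAct G X) (hmin : MinAct G X)
    (hph : ∀ V : Set X, IsOpen V → V.Nonempty → ∀ ζ : ℝ, 0 < ζ → ∃ r : C(X, ℝ), (∀ x, 0 ≤ r x) ∧
      (∀ x, r x ≤ 1) ∧ SmallAv B r ζ ∧ SubEq G {x | r x ≤ 1 / 2} V)
    (V : Set X) (hV : IsOpen V) (hVne : V.Nonempty) : SubEq G Set.univ V := by
  obtain ⟨gg, W₀, hW₀, hW₀ne, hgW, hgd⟩ := exists_translates hfree hmin V hV hVne Bool
  have hVi : ∀ i : Bool, IsOpen ((fun x => (gg i)⁻¹ • x) ⁻¹' W₀) := fun i =>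
    hW₀.preimage (continuous_const_smul _)
  have hVine : ∀ i : Bool, ((fun x => (gg i)⁻¹ • x) ⁻¹' W₀).Nonempty := by
    intro i
    obtain ⟨x, hx⟩ := hW₀ne
    refine ⟨gg i • x, ?_⟩
    show (gg i)⁻¹ • gg i • x ∈ W₀
    rw [inv_smul_smul]
    exact hx
  have hVV : ∀ i : Bool, ∀ x, (gg i)⁻¹ • x ∈ W₀ → x ∈ V := by
    intro i x hx
    have h2 := hgW i _ hx
    rwa [smul_inv_smul] at h2
  obtain ⟨ζ, hζ, habs⟩ := hAbs _ (hVi false) (hVine false)
  obtain ⟨r, hr0, hr1, ⟨K, ε, hK, hε, hav⟩, hsub⟩ := hph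
    ((fun x => (gg true)⁻¹ • x) ⁻¹' W₀) (hVi true) (hVine true) (ζ / 2) (by linarith)
  have hsub2 := habs (dbl r) (fun x => le_min zero_le_one (by have := hr0 x; linarith))
    (fun x => min_le_left _ _) ⟨K, ε, hK, hε, fun F hF hFol y => dbl_sum r F y ζ (hav F hF hFol y)⟩
  refine (hsub.union hsub2 ?_).mono ?_ ?_
  · refine Set.disjoint_left.2 fun x hx hx' => ?_
    refine hgd true false (by decide) _ hx _ hx' ?_
    rw [smul_inv_smul, smul_inv_smul]
  · intro x _
    by_cases h1 : r x ≤ 1 / 2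
    · exact Or.inl h1
    · refine Or.inr ?_
      show dbl r x = 1
      rw [dbl_apply]
      exact min_eq_left (by linarith)
  · rintro x (hx | hx)
    · exact hVV true x hx
    · exact hVV false x hx

open Classical in
theorem free_ph {G X : Type} [Group G] [Countable G] [TopologicalSpace X] [CompactSpace X]
    [TopologicalSpace.MetrizableSpace X] [MeasurableSpace X] [BorelSpace X]
    [MulAction G X] [ContinuousConstSMul G X] {P : Type} [Group P] (q : G →* P)
    (hq : Function.Surjective q) (Γ : Subgroup P) [Γ.Normal] [IsFreeGroup Γ]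
    (hna : ∃ a ∈ Γ, ∃ b ∈ Γ, a * b ≠ b * a)
    (hmin : MinAct G X) (ham : TopAmC G X)
    (V : Set X) (hV : IsOpen V) (hVne : V.Nonempty) (ζ : ℝ) (hζ : 0 < ζ) :
    ∃ r : C(X, ℝ), (∀ x, 0 ≤ r x) ∧ (∀ x, r x ≤ 1) ∧ SmallAv q.ker r ζ ∧
      SubEq G {x | r x ≤ 1 / 2} V := by
  have hXne : Nonempty X := ⟨hVne.some⟩
  obtain ⟨b, D, hb0, hb1, hbV, hDne, hD⟩ := exists_return hmin V hV hVne
  have hDc : 0 < D.card := hDne.card_pos
  have : Nonempty D := ⟨⟨hDne.choose, hDne.choose_spec⟩⟩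
  -- conjugation on the free group
  let φ := IsFreeGroup.mulEquiv Γ
  let σ : D → FreeGroup (IsFreeGroup.Generators Γ) ≃* FreeGroup (IsFreeGroup.Generators Γ) :=
    fun d => (φ.trans (MulAut.conjNormal (q d))).trans φ.symm
  have hσ : ∀ (d : D) (w), ((φ (σ d w) : Γ) : P) = q d * (φ w : P) * (q d)⁻¹ := by
    intro d w
    simp only [σ, MulEquiv.trans_apply, MulEquiv.apply_symm_apply]
    exact MulAut.conjNormal_apply _ _
  -- representatives
  let rp : D → D := fun d => Classical.choose (⟨d, rfl⟩ : ∃ d' : D, σ d' = σ d)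
  have hrp : ∀ d, σ (rp d) = σ d := fun d =>
    Classical.choose_spec (⟨d, rfl⟩ : ∃ d' : D, σ d' = σ d)
  have hrp2 : ∀ d d', σ d = σ d' → rp d = rp d' := by
    intro d d' h
    simp only [rp, h]
  obtain ⟨a, ha, b', hb', hab⟩ := hna
  have hab' : φ.symm ⟨a, ha⟩ * φ.symm ⟨b', hb'⟩ ≠ φ.symm ⟨b', hb'⟩ * φ.symm ⟨a, ha⟩ := by
    rw [← map_mul, ← map_mul]
    intro h
    exact hab (congrArg Subtype.val (φ.symm.injective h))
  set M : ℕ := D.card * D.card + 1 with hM
  obtain ⟨t0, P', N0, hPN, hP, hN⟩ := pingpong_family (ι := Fin (4 * D.card) × Fin M) σ hab'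
  set ψ : G → FreeGroup (IsFreeGroup.Generators Γ) := fun g => φ.symm (sect Γ (q g)) with hψ
  have hψm : ∀ (γ : Γ) (h g : G), q h = γ → ψ (h * g) = φ.symm γ * ψ g := by
    intro γ h g hγ
    simp only [hψ]
    rw [map_mul, hγ, sect_mul, map_mul]
  choose t ht using fun (r : Fin (4 * D.card) × Fin M) => hq (φ (t0 r) : P)
  have htΓ : ∀ r, q (t r) ∈ Γ := fun r => by rw [ht]; exact (φ (t0 r)).2
  set A : Fin (4 * D.card) × Fin M → Set G := fun r =>
    {h | ∀ d : D, ψ ((d : G) * h) ∉ N0 (rp d) r} with hA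
  have hmove : ∀ (d : D) r, ∀ h ∈ A r, ψ ((d : G) * t r * h) ∈ P' (rp d) r := by
    intro d r h hh
    have h1 : ψ ((d : G) * t r * h) = φ.symm (φ (σ d (t0 r))) * ψ ((d : G) * h) := by
      have h2 : (d : G) * t r * h = ((d : G) * t r * (d : G)⁻¹) * ((d : G) * h) := by
        group
      rw [h2]
      apply hψm
      rw [hσ, map_mul, map_mul, ht, map_inv]
    rw [h1, MulEquiv.symm_apply_apply, ← hrp]
    exact hPN (rp d) r _ (hh d)
  have hcardA : ∀ h χ, 3 * Fintype.card (Fin (4 * D.card)) ≤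
      4 * (univ.filter fun κ => h ∈ A (κ, χ)).card := by
    intro h χ
    have h1 : (univ.filter fun κ => ¬ (h ∈ A (κ, χ))).card ≤ D.card := by
      have h2 : (univ.filter fun κ => ¬ (h ∈ A (κ, χ))) ⊆ (univ : Finset D).biUnion fun d =>
          univ.filter fun κ => ψ ((d : G) * h) ∈ N0 (rp d) (κ, χ) := by
        intro κ hκ
        simp only [mem_filter, mem_univ, true_and, hA, Set.mem_ofPred_eq, not_forall, not_not]
          at hκ
        obtain ⟨d, hd⟩ := hκ
        simp only [mem_biUnion, mem_univ, mem_filter, true_and]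
        exact ⟨d, hd⟩
      refine (Finset.card_le_card h2).trans ?_
      refine (Finset.card_biUnion_le_card_mul _ _ 1 fun d _ => ?_).trans ?_
      · rw [Finset.card_le_one]
        intro κ hκ κ' hκ'
        simp only [mem_filter, mem_univ, true_and] at hκ hκ'
        by_contra hne
        refine Set.disjoint_left.1 (hN (rp d) (κ, χ) (rp d) (κ', χ) (Or.inl ?_)) hκ hκ'
        intro h3
        exact hne (congrArg Prod.fst h3)
      · rw [Finset.card_univ, Fintype.card_coe, mul_one]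
    have h3 := Finset.card_filter_add_card_filter_not (s := (univ : Finset (Fin (4 * D.card))))
      (fun κ => h ∈ A (κ, χ))
    rw [Finset.card_univ, Fintype.card_fin] at h3
    rw [Fintype.card_fin]
    omega
  -- the moves
  have hMpos : 0 < M := by positivity
  let lab : (Fin (4 * D.card) × Fin M) × D → (Fin (4 * D.card) × Fin M) × D := fun τ =>
    (τ.1, rp τ.2)
  let el : (Fin (4 * D.card) × Fin M) × D → G := fun τ => (τ.2 : G) * t τ.1
  have hlab : ∀ τ τ', lab τ = lab τ' → τ.1 = τ'.1 ∧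
      ∃ b ∈ q.ker, (el τ')⁻¹ * el τ = b * ((τ'.2 : G)⁻¹ * τ.2) := by
    rintro ⟨r, d⟩ ⟨r', d'⟩ h
    have h2 : r = r' := congrArg (fun l => l.1) h
    have h3 : rp d = rp d' := congrArg (fun l => l.2) h
    subst h2
    refine ⟨rfl, ((d' : G) * t r)⁻¹ * ((d : G) * t r) * ((d' : G)⁻¹ * d)⁻¹, ?_, ?_⟩
    · have h6 : σ d = σ d' := by rw [← hrp d, ← hrp d', h3]
      have hcen : q d * q (t r) * (q d)⁻¹ = q d' * q (t r) * (q d')⁻¹ := by
        have h7 : ((φ (σ d (φ.symm ⟨q (t r), htΓ r⟩)) : Γ) : P) =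
            ((φ (σ d' (φ.symm ⟨q (t r), htΓ r⟩)) : Γ) : P) := by rw [h6]
        rw [hσ, hσ, MulEquiv.apply_symm_apply] at h7
        exact h7
      rw [MonoidHom.mem_ker]
      simp only [map_mul, map_inv, mul_inv_rev, inv_inv]
      have h8 : q d * q (t r) = q d' * q (t r) * (q d')⁻¹ * q d := by
        rw [← hcen, inv_mul_cancel_right]
      rw [h8]
      group
    · show ((d' : G) * t r)⁻¹ * ((d : G) * t r) = _
      group
  have hne1 : Nonempty (Fin (4 * D.card) × Fin M) := ⟨(⟨0, by omega⟩, ⟨0, hMpos⟩)⟩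
  obtain ⟨e, he⟩ := exists_surjective_nat (((Fin (4 * D.card) × Fin M) × D) × q.ker)
  let m : ℕ → ((Fin (4 * D.card) × Fin M) × D) × G := fun i =>
    (lab (e i).1, el (e i).1 * (e i).2)
  -- the field of probability vectors
  obtain ⟨F₁, N, hN0, hNc, hNF, hN1, hNi⟩ := exists_field (X := X)
    (((univ : Finset (Fin (4 * D.card) × Fin M)) ×ˢ D).image fun r => r.2 * t r.1) (1 / 8)
    (by norm_num) ham
  set Ps : (Fin (4 * D.card) × Fin M) × D → Set G := fun l => {v | ψ v ∈ P' l.2 l.1} with hPs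
  set c : (Fin (4 * D.card) × Fin M) × D → X → ℝ := fun l z =>
    b z * max 0 (min 1 (8 * mass F₁ N (Ps l) z - 4)) with hc
  have hc0 : ∀ l z, 0 ≤ c l z := fun l z => mul_nonneg (hb0 z) (le_max_left _ _)
  have hc1 : ∀ l z, c l z ≤ 1 := fun l z => mul_le_one₀ (hb1 z) (le_max_left _ _)
    (max_le zero_le_one (min_le_left _ _))
  have hcc : ∀ l, Continuous (c l) := fun l => b.continuous.mul (continuous_const.max
    (continuous_const.min ((continuous_const.mul (mass_continuous F₁ N hNc _)).sub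
      continuous_const)))
  have hcb : ∀ l z, 0 < c l z → z ∈ V ∧ 1 / 2 < mass F₁ N (Ps l) z := by
    intro l z h
    have h1 : 0 < b z := by
      by_contra hcon
      have h2 : b z = 0 := le_antisymm (not_lt.1 hcon) (hb0 z)
      simp only [hc, h2, zero_mul, lt_irrefl] at h
    refine ⟨hbV z h1, ?_⟩
    by_contra hcon
    have h2 : max 0 (min 1 (8 * mass F₁ N (Ps l) z - 4)) = (0 : ℝ) :=
      max_eq_left ((min_le_right _ _).trans (by linarith))
    simp only [hc, h2, mul_zero, lt_irrefl] at h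
  -- only one kind of targets is active at each point
  have hact : ∀ i j z, 0 < c (m i).1 z → 0 < c (m j).1 z → (m i).1 = (m j).1 := by
    intro i j z h1 h2
    set τ := (e i).1 with hτ
    set τ' := (e j).1 with hτ'
    have e1 : (m i).1 = (τ.1, rp τ.2) := rfl
    have e2 : (m j).1 = (τ'.1, rp τ'.2) := rfl
    rw [e1] at h1 ⊢
    rw [e2] at h2 ⊢
    by_contra hne
    have h3 : τ.1 ≠ τ'.1 ∨ σ (rp τ.2) ≠ σ (rp τ'.2) := by
      by_contra hcon
      push Not at hcon
      refine hne ?_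
      rw [hcon.1, hrp2 τ.2 τ'.2 (by rw [← hrp τ.2, ← hrp τ'.2, hcon.2])]
    have h4 : Disjoint (Ps (τ.1, rp τ.2)) (Ps (τ'.1, rp τ'.2)) := by
      rw [Set.disjoint_left]
      intro v hv hv'
      exact Set.disjoint_left.1 (hP _ _ _ _ h3) hv hv'
    have h5 := mass_disj F₁ N hN0 z (hN1 z) _ _ h4
    have h6 := (hcb _ _ h1).2
    have h7 := (hcb _ _ h2).2
    linarith
  -- every point has many targets
  have hCy : ∀ y : X, (M : ℝ) ≤ ∑ τ, c (lab τ) (el τ • y) := by
    intro x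
    have hFne' : Nonempty (Fin (4 * D.card)) := ⟨⟨0, by omega⟩⟩
    have hsum : ∀ χ, ∃ κ, 3 / 4 ≤ mass F₁ N (A (κ, χ)) x := by
      intro χ
      refine exists_heavy F₁ N hN0 x (hN1 x) (fun κ => A (κ, χ)) fun h => ?_
      convert hcardA h χ
    choose κ hκ using hsum
    choose dd hdd1 hdd2 using fun r : Fin M => hD (t (κ r, r) • x)
    let tg : Fin M → (Fin (4 * D.card) × Fin M) × D := fun r => ((κ r, r), ⟨dd r, hdd1 r⟩)
    have htg : Function.Injective tg := by
      intro r r' h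
      exact congrArg (fun τ => τ.1.2) h
    have hone : ∀ r, c (lab (tg r)) (el (tg r) • x) = 1 := by
      intro r
      have h1 : b ((dd r * t (κ r, r)) • x) = 1 := by
        rw [mul_smul]
        exact hdd2 r
      have h2 := mass_push F₁ N hN0 hNF (dd r * t (κ r, r)) x (1 / 8)
        (hNi _ (Finset.mem_image.2 ⟨((κ r, r), dd r), Finset.mem_product.2
          ⟨Finset.mem_univ _, hdd1 r⟩, rfl⟩) x) (A (κ r, r))
        (Ps ((κ r, r), rp ⟨dd r, hdd1 r⟩)) (by
          intro v hv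
          have h4 := hmove ⟨dd r, hdd1 r⟩ _ _ hv
          rw [mul_inv_cancel_left] at h4
          exact h4)
      have h4 := hκ r
      have h5 : 5 / 8 ≤ mass F₁ N (Ps ((κ r, r), rp ⟨dd r, hdd1 r⟩))
            ((dd r * t (κ r, r)) • x) := by linarith
      show b ((dd r * t (κ r, r)) • x) * max 0 (min 1 (8 * mass F₁ N
        (Ps ((κ r, r), rp ⟨dd r, hdd1 r⟩)) ((dd r * t (κ r, r)) • x) - 4)) = 1
      rw [h1, min_eq_left (by linarith), max_eq_right zero_le_one, one_mul]
    have h1 : ∑ τ ∈ (univ : Finset (Fin M)).image tg, c (lab τ) (el τ • x) = M := by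
      rw [Finset.sum_image htg.injOn, Finset.sum_congr rfl fun r _ => hone r, Finset.sum_const,
        nsmul_eq_mul, mul_one, Finset.card_univ, Fintype.card_fin]
    rw [← h1]
    exact Finset.sum_le_sum_of_subset_of_nonneg (Finset.subset_univ _) fun _ _ _ => hc0 _ _
  have h01 : ∀ x : X, (0 : ℝ) ≤ (fun _ : X => (1 : ℝ)) x := fun _ => zero_le_one
  have hcont := gr2_cont m (fun _ : X => (1 : ℝ)) c continuous_const hcc
  let p : ℕ → C(X, ℝ) := fun n => ⟨(gr2 m (fun _ => (1 : ℝ)) c n).1, (hcont n).1⟩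
  have hpd : ∀ n x, p n x = (gr2 m (fun _ => (1 : ℝ)) c n).1 x := fun n x => rfl
  let Φ : ℕ → C(X, ℝ) := fun n => ζ • (1 : C(X, ℝ)) - p n
  have hΦ : ∀ n x, Φ n x = ζ - p n x := by
    intro n x
    show ζ * 1 - p n x = _
    rw [mul_one]
  obtain ⟨n, K, ε, γ, hK, hε, hγ, hF⟩ := t_KL G X q.ker Φ (by
    intro n y
    rw [hΦ, hΦ, hpd, hpd]
    have := (gr2_succ m h01 hc0 n).1 y
    linarith) (by
    intro Λ hΛ
    obtain ⟨ν, hν1, hν, hinv⟩ := state_inv' q.ker Λ hΛ
    have h1 := tower_lim q.ker D lab el hlab c hc0 hc1 hcc (M : ℝ) (by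
      rw [hM]
      push_cast
      linarith) hCy e he m (fun i => rfl) ν hinv
    obtain ⟨n, hn⟩ := (h1.eventually (gt_mem_nhds hζ)).exists
    refine ⟨n, ?_⟩
    have h2 : Λ (Φ n) = ζ - ∫ y, p n y ∂ν := by
      show Λ (ζ • (1 : C(X, ℝ)) - p n) = _
      rw [map_sub, map_smul, hΛ.one, hν (p n), smul_eq_mul, mul_one]
    rw [h2]
    have h3 : ∫ y, p n y ∂ν < ζ := hn
    linarith)
  refine ⟨p n, (gr2_nonneg m h01 hc0 n).1, fun x => ?_, ⟨K, ε, hK, hε, fun F hF' hFol y => ?_⟩,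
    ?_⟩
  · exact (gr2_anti m h01 hc0 (Nat.zero_le n)).1 x
  · have h1 := hF F hF' hFol y
    have h2 : ∑ s ∈ F, Φ n (s • y) = ζ * F.card - ∑ s ∈ F, p n (s • y) := by
      simp only [hΦ]
      rw [Finset.sum_sub_distrib, Finset.sum_const, nsmul_eq_mul, mul_comm]
    rw [h2] at h1
    have h3 : 0 ≤ γ * F.card := by positivity
    linarith
  · refine (greedy_sub_half m (fun _ => (1 : ℝ)) c h01 hc0 hc1 continuous_const hcc n
      fun i _ j _ z => hact i j z).mono (fun x hx => ⟨rfl, hx⟩) ?_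
    rintro z ⟨i, _, hi⟩
    exact (hcb _ _ hi).1

section

variable {G : Type u} [Group G] {Z : Type v} [TopologicalSpace Z] [T2Space Z] [MulAction G Z]

/-- elements commuting with `N` on `Z` that fix an open set act trivially -/
theorem trivial_of_comm3 (N : Subgroup G) (O : Set Z)
    (hO : ∀ W : Set Z, IsOpen W → W.Nonempty → ∃ n ∈ N, ∀ z ∈ O, n • z ∈ W)
    (k : ℕ) (n : Fin k → G) (hn : ∀ i, n i ∈ N) (hcov : ∀ z : Z, ∃ i, n i • z ∈ O) (l : G)
    (hl : ∀ t ∈ N, ∀ z : Z, l • t • z = t • l • z)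
    (hfix : (interior {z : Z | l • z = z}).Nonempty) (z : Z) : l • z = z := by
  obtain ⟨c, hc, hcO⟩ := hO _ isOpen_interior hfix
  obtain ⟨i, hi⟩ := hcov z
  have h0 : c • n i • z ∈ {z : Z | l • z = z} := interior_subset (hcO _ hi)
  have h1 : l • c • n i • z = c • n i • z := h0
  have h2 := hl _ (N.mul_mem hc (hn i)) z
  rw [mul_smul, mul_smul, h1] at h2
  exact (smul_left_cancel _ (smul_left_cancel _ h2)).symm

theorem towers3_of_boundary [ContinuousConstSMul G Z] [Nonempty Z]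
    (hperf : ∀ z : Z, ¬ IsOpen ({z} : Set Z)) (B N : Subgroup G)
    (hB : ∀ b ∈ B, ∀ z : Z, b • z = z) (O : Set Z)
    (hO : ∀ W : Set Z, IsOpen W → W.Nonempty → ∃ n ∈ N, ∀ z ∈ O, n • z ∈ W)
    (k : ℕ) (n : Fin k → G) (hn : ∀ i, n i ∈ N) (hcov : ∀ z : Z, ∃ i, n i • z ∈ O)
    (hfix : ∀ g : G, interior {z : Z | g • z = z} = ∅ ∨ ∀ t ∈ N, t⁻¹ * g * t * g⁻¹ ∈ B)
    (D : Finset G) (M : ℕ) : HasTowers3 B k D M := by
  classical
  obtain ⟨z₀⟩ := ‹Nonempty Z›
  have hfix' : ∀ g : G, interior {z : Z | g • z = z} = ∅ ∨ ∀ z : Z, g • z = z := by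
    intro g
    by_cases hi : interior {z : Z | g • z = z} = ∅
    · exact Or.inl hi
    rcases hfix g with h | h
    · exact Or.inl h
    · refine Or.inr fun z => ?_
      refine trivial_of_comm3 N O hO k n hn hcov g (fun t ht y => ?_)
        (Set.nonempty_iff_ne_empty.2 hi) z
      have h1 := hB _ (h t ht) (g • y)
      have h2 : (t⁻¹ * g * t * g⁻¹) • g • y = t⁻¹ • g • t • y := by
        simp only [mul_smul, inv_smul_smul]
      rw [h2] at h1
      have h3 : t • t⁻¹ • g • t • y = t • g • y := by rw [h1]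
      rwa [smul_inv_smul] at h3
  have : Nonempty Z := ⟨z₀⟩
  obtain ⟨W, hW, hWne, hWd⟩ := exists_open D hperf hfix' (k * M)
  choose c hcN hcO using fun r : Fin k × Fin M => hO (W (finProdFinEquiv r)) (hW _) (hWne _)
  set K : Subgroup G := (MulAction.toPermHom G Z).ker with hK
  have hKm : ∀ g : G, g ∈ K ↔ ∀ z : Z, g • z = z := by
    intro g
    rw [hK, MonoidHom.mem_ker]
    constructor
    · intro h z
      have := congrArg (fun p : Equiv.Perm Z => p z) h
      exact this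
    · intro h
      ext z
      exact h z
  let cls : G → G := fun g => ((g : G ⧸ K).out)
  have hcls : ∀ (g : G) (z : Z), (cls g)⁻¹ • g • z = z := by
    intro g z
    have h1 : (cls g)⁻¹ * g ∈ K := by
      rw [← QuotientGroup.eq]
      exact QuotientGroup.out_eq' _
    rw [← mul_smul]
    exact (hKm _).1 h1 z
  have hcls2 : ∀ g g' : G, cls g = cls g' ↔ ∀ z : Z, (g'⁻¹ * g) • z = z := by
    intro g g'
    rw [← hKm]
    constructor
    · intro h
      rw [← QuotientGroup.eq]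
      have h1 : ((cls g : G) : G ⧸ K) = g := QuotientGroup.out_eq' _
      have h2 : ((cls g' : G) : G ⧸ K) = g' := QuotientGroup.out_eq' _
      rw [← h1, ← h2, h]
    · intro h
      have h1 : (g' : G ⧸ K) = g := QuotientGroup.eq.2 h
      show ((g : G ⧸ K).out) = ((g' : G ⧸ K).out)
      rw [h1]
  refine ⟨fun r => c r * n r.1, fun r => {h | n r.1 • h • z₀ ∈ O},
    fun p => {g | p.2⁻¹ • g • z₀ ∈ W (finProdFinEquiv p.1)}, cls, ?_, ?_, ?_, ?_⟩
  · intro d _ r h hh
    show (cls d)⁻¹ • (d * (c r * n r.1) * h) • z₀ ∈ W (finProdFinEquiv r)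
    have e : (d * (c r * n r.1) * h) • z₀ = d • c r • n r.1 • h • z₀ := by
      simp only [mul_smul]
    rw [e, hcls]
    exact hcO r _ hh
  · intro d hd d' hd' r r' hne
    rw [Set.disjoint_left]
    intro g hg hg'
    have h1 : (cls d)⁻¹ • g • z₀ ∈ W (finProdFinEquiv r) := hg
    have h2 : (cls d')⁻¹ • g • z₀ ∈ W (finProdFinEquiv r') := hg'
    have h3 : ∀ (e : G) (z : Z), e • (cls e)⁻¹ • z = z := by
      intro e z
      have h4 := hcls e (e⁻¹ • z)
      rw [smul_inv_smul] at h4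
      rw [h4, smul_inv_smul]
    refine hWd _ _ d hd d' hd' ?_ _ h1 _ h2 ?_
    · by_contra hcon
      push Not at hcon
      exact hne (Prod.ext (finProdFinEquiv.injective hcon.1) ((hcls2 d d').2 hcon.2))
    · rw [h3, h3]
  · intro h χ
    exact hcov (h • z₀)
  · intro d _ d' _ he r
    have h1 := (hcls2 d d').1 he
    rcases hfix (d'⁻¹ * d) with h | h
    · exfalso
      have h2 : {z : Z | (d'⁻¹ * d) • z = z} = Set.univ := Set.eq_univ_of_forall h1
      rw [h2, interior_univ] at h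
      exact Set.empty_ne_univ h.symm
    · refine ⟨_, h (c r * n r.1) (N.mul_mem (hcN r) (hn r.1)), ?_⟩
      group

end

end Pool.Agent.Helper277_FF
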