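import Pool.Agent.Helper277_FF.TowerM3

set_option autoImplicit false

/-!
# Comparison for non-amenable groups modulo a normal subgroup in the growth class
-/

namespace Pool.Agent.Helper277_FF

open Finset Pool.Agent.H107ZS Pool.Agent.Helper277_DC MeasureTheory Filter Topology Pointwise

universe u v w

open Classical in
/-- subgroups in every `PolyClass` are amenable and absorb small averages -/
theorem reach_abs_sub (G : Type u) [Group G] [Countable G] [Infinite G] (B : Subgroup G)
    (hB : ∀ P : Subgroup G → Prop, PolyClass G P → P B)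
    (X : Type u) [TopologicalSpace X] [CompactSpace X] [TopologicalSpace.MetrizableSpace X]
    [MeasurableSpace X] [BorelSpace X] [MulAction G X] [ContinuousConstSMul G X]
    (hf : FreeAct G X) (hm : MinAct G X) : AmS B ∧ Abs G X B := by
  refine hB (fun M => AmS M ∧ Abs G X M) ⟨⟨ams_bot, abs_bot G X⟩, fun M hM => ?_⟩
  have key : ∀ S : Finset G, ∃ d : ℕ, ∀ E : Finset G, (∀ g ∈ E, g ∈ M) →
      ∃ N N' : Subgroup G, (AmS N' ∧ Abs G X N') ∧ (∀ s ∈ S, ∀ n ∈ N, s⁻¹ * n * s ∈ N') ∧
        (∀ t ∈ conjs S E, ∀ n ∈ N, t * n * t⁻¹ ∈ N) ∧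
        ∃ C : ℕ, ∀ n : ℕ, (cs N (conjs S E) n).card ≤ C * (n + 1) ^ d := by
    intro S
    obtain ⟨d, hd⟩ := hM S
    refine ⟨d, fun E hE => ?_⟩
    obtain ⟨N, N', h1, h2, h3, C, hC⟩ := hd E hE
    refine ⟨N, N', h1, h2, ?_, C, fun n => ?_⟩
    · intro t ht n hn
      obtain ⟨s, hs, g, hg, rfl⟩ := (mem_conjs S E t).1 ht
      exact h3 s hs g hg n hn
    · have h4 := hC n
      rw [conjs_coe, cs_ncard] at h4
      exact h4
  have hA : AmS M := by
    refine ams_step M fun E hE => ?_
    obtain ⟨d, hd⟩ := key {1}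
    obtain ⟨N, N', ⟨h1, _⟩, h2, _, C, hC⟩ := hd E hE
    have hNN : N ≤ N' := by
      intro n hn
      have := h2 1 (Finset.mem_singleton_self _) n hn
      simpa using this
    refine ⟨N, ams_mono hNN h1, C, d, fun n => le_trans (Finset.card_le_card ?_) (hC n)⟩
    refine Finset.image_subset_image (Finset.pow_subset_pow_left ?_)
    intro g hg
    exact (mem_conjs {1} E g).2 ⟨1, Finset.mem_singleton_self _, g, hg, by group⟩
  refine ⟨hA, abs_step G X hf hm M hA fun S => ?_⟩
  obtain ⟨d, hd⟩ := key S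
  refine ⟨d, fun E hE => ?_⟩
  obtain ⟨N, N', h1, h2, h3, h4⟩ := hd E hE
  exact ⟨N, N', h1.2, h2, h3, h4⟩

theorem infinite_of_free {G : Type} [Group G] {P : Type} [Group P] (q : G →* P)
    (hq : Function.Surjective q) (Γ : Subgroup P) [IsFreeGroup Γ]
    (hna : ∃ a ∈ Γ, ∃ b ∈ Γ, a * b ≠ b * a) : Infinite G := by
  obtain ⟨a, ha, b, hb, hab⟩ := hna
  have h1 : Infinite P := by
    refine not_finite_iff_infinite.1 fun hP => ?_
    have hfin : IsOfFinOrder (⟨a, ha⟩ : Γ) := isOfFinOrder_of_finite _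
    have h2 : (⟨a, ha⟩ : Γ) = 1 := by
      have htf : IsOfFinOrder ((IsFreeGroup.mulEquiv Γ).symm ⟨a, ha⟩) :=
        MonoidHom.isOfFinOrder (IsFreeGroup.mulEquiv Γ).symm.toMonoidHom hfin
      have h3 : (IsFreeGroup.mulEquiv Γ).symm ⟨a, ha⟩ = 1 := by
        by_contra hne
        exact not_isOfFinOrder_of_isMulTorsionFree hne htf
      have h4 := congrArg (IsFreeGroup.mulEquiv Γ) h3
      rwa [MulEquiv.apply_symm_apply, map_one] at h4
    have h3 : a = 1 := congrArg Subtype.val h2
    rw [h3, one_mul, mul_one] at hab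
    exact hab rfl
  exact Infinite.of_surjective q hq

/-- comparison for groups with a free normal subgroup modulo a subgroup in the growth class -/
theorem free_class {G X : Type} [Group G] [Countable G] [TopologicalSpace X] [CompactSpace X]
    [TopologicalSpace.MetrizableSpace X] [MulAction G X] [ContinuousConstSMul G X]
    {P : Type} [Group P] (q : G →* P)
    (hq : Function.Surjective q) (Γ : Subgroup P) [Γ.Normal] [IsFreeGroup Γ]
    (hna : ∃ a ∈ Γ, ∃ b ∈ Γ, a * b ≠ b * a)
    (hB : ∀ R : Subgroup G → Prop, PolyClass G R → R q.ker)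
    (hfree : FreeAct G X) (hmin : MinAct G X) (ham : TopAmC G X)
    (V : Set X) (hV : IsOpen V) (hVne : V.Nonempty) : SubEq G Set.univ V := by
  let _ : MeasurableSpace X := borel X
  have hBo : BorelSpace X := ⟨rfl⟩
  have hGi : Infinite G := infinite_of_free q hq Γ hna
  obtain ⟨-, hAbs⟩ := reach_abs_sub G q.ker hB X hfree hmin
  exact cmp_of_ph q.ker hAbs hfree hmin (fun V hV hVne ζ hζ =>
    free_ph q hq Γ hna hmin ham V hV hVne ζ hζ) V hV hVne

/-- comparison for groups with a boundary action modulo a subgroup in the growth class -/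
theorem boundary_class {G : Type} [Group G] [Countable G] {Z : Type v} [TopologicalSpace Z]
    [T2Space Z] [MulAction G Z] [ContinuousConstSMul G Z] [Nonempty Z]
    (hperf : ∀ z : Z, ¬ IsOpen ({z} : Set Z)) (B N : Subgroup G) [B.Normal]
    (hcl : ∀ R : Subgroup G → Prop, PolyClass G R → R B)
    (hB : ∀ b ∈ B, ∀ z : Z, b • z = z) (O : Set Z)
    (hO : ∀ W : Set Z, IsOpen W → W.Nonempty → ∃ n ∈ N, ∀ z ∈ O, n • z ∈ W)
    (k : ℕ) (n : Fin k → G) (hn : ∀ i, n i ∈ N) (hcov : ∀ z : Z, ∃ i, n i • z ∈ O)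
    (hfix : ∀ g : G, interior {z : Z | g • z = z} = ∅ ∨ ∀ t ∈ N, t⁻¹ * g * t * g⁻¹ ∈ B)
    {X : Type} [TopologicalSpace X] [CompactSpace X] [TopologicalSpace.MetrizableSpace X]
    [MulAction G X] [ContinuousConstSMul G X] (hfree : FreeAct G X) (hmin : MinAct G X)
    (ham : TopAmC G X) (V : Set X) (hV : IsOpen V) (hVne : V.Nonempty) :
    SubEq G Set.univ V := by
  have hk : 0 < k := by
    obtain ⟨z₀⟩ := ‹Nonempty Z›
    obtain ⟨i, _⟩ := hcov z₀
    exact i.pos
  let _ : MeasurableSpace X := borel X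
  have hBo : BorelSpace X := ⟨rfl⟩
  have htow := towers3_of_boundary hperf B N hB O hO k n hn hcov hfix
  have hGi : Infinite G := infinite_of_towers3 B k htow
  obtain ⟨-, hAbs⟩ := reach_abs_sub G B hcl X hfree hmin
  exact tower_cmp B hAbs k hk htow hfree hmin ham V hV hVne

end Pool.Agent.Helper277_FF
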